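import Mathlib
import Pool.Agent.Lib.MP_44a246_ntE.E30
import Pool.Agent.Lib.MP_44a246_ntS.SJ3b
import Pool.Agent.Lib.MP_44a246_ntS.SM1

/-!
Certificates for pairs: a point lies on the image of a plane curve of small degree, inside the
variety, such that all the projections of the image to the plane by linear forms with natural
coefficients have small degree and, if they are birational, meet the boundary in few points.
-/

namespace Pool.Agent.Lib.MP_44a246_ntPC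

open Pool.Agent.Lib.MP_e52354_nt
open Pool.Agent.Lib.MP_44a246_ntS
open Pool.Agent.Lib.MP_44a246_ntG
open Pool.Agent.Lib.MP_44a246_ntE
open Polynomial

/-- the three linear forms with the coefficients `u` at the vector `B` -/
noncomputable def ub {M : Type*} [Field M] {n : ℕ} (u : Fin 3 → Fin (n + 1) → ℕ)
    (B : Fin (n + 1) → M[X][X]) (i : Fin 3) : M[X][X] :=
  ∑ j, C (C (u i j : M)) * B j

/-- The projection to the plane by the linear forms `u` of the image of the curve `A = 0` under the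
map `B` is the irreducible curve `P = 0` of degree `m`, which does not contain the point
`(0, 0, 1)`, and the inverse map is given by `Q j / (∂ P / ∂ X 2)`. -/
structure ProjId {M : Type*} [Field M] {n : ℕ} (A : M[X][X]) (B : Fin (n + 1) → M[X][X])
    (u : Fin 3 → Fin (n + 1) → ℕ) (m : ℕ) (P : MvPolynomial (Fin 3) M)
    (Q : Fin (n + 1) → MvPolynomial (Fin 3) M) : Prop where
  irr : Irreducible (deh P)
  hom : P.IsHomogeneous m
  monic : P.coeff (Finsupp.single 2 m) = 1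
  homQ : ∀ j, (Q j).IsHomogeneous m
  coeffQ : ∀ j, (Q j).coeff (Finsupp.single 2 m) = 0
  dvd : A ∣ MvPolynomial.aeval (ub u B) P
  dvdQ : ∀ j, A ∣ MvPolynomial.aeval (ub u B) (Q j) -
    MvPolynomial.aeval (ub u B) (MvPolynomial.pderiv 2 P) * B j
  ndvd : ¬ A ∣ MvPolynomial.aeval (ub u B) (MvPolynomial.pderiv 2 P)

/-- the form of degree `d` with the coefficients `a` has few zeros on the curve, in all the planes
to which the curve is projected birationally by `u` -/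
def FewZ {M : Type*} [Field M] {n : ℕ} (A : M[X][X]) (B : Fin (n + 1) → M[X][X]) (d : ℕ)
    (a : (Fin (n + 1) →₀ ℕ) → M) : Prop :=
  ∀ (u : Fin 3 → Fin (n + 1) → ℕ) (m : ℕ) (P : MvPolynomial (Fin 3) M)
    (Q : Fin (n + 1) → MvPolynomial (Fin 3) M), ProjId A B u m P Q →
    ∀ E : Finset (M × M), Set.InjOn Prod.fst (E : Set (M × M)) →
      (∀ p ∈ E, (deh P).evalEval p.1 p.2 = 0 ∧ (derivative (deh P)).evalEval p.1 p.2 ≠ 0 ∧
        (FB d a (fun j => deh (Q j))).evalEval p.1 p.2 = 0) → E.card < 3 * m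

/-- A certificate (`CertW`) with an irreducible curve and few points on the boundary, which is the
set of zeros of the form of degree `d` with the coefficients `a`. -/
def CertWL {M : Type*} [Field M] {n : ℕ} {ι : Type*} (e : ι → ℕ)
    (v : ι → (Fin (n + 1) →₀ ℕ) → M) (d : ℕ) (a : (Fin (n + 1) →₀ ℕ) → M) (b : ℕ)
    (x : Fin (n + 1) → M) : Prop :=
  ∃ (A : M[X][X]) (B : Fin (n + 1) → M[X][X]) (ξ₀ ξ₁ ξ₂ : Fin (n + 1) → M) (c y₁ y : M),
    Irreducible A ∧ FewZ A B d a ∧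
    Box b A ∧ (∀ j, Box b (B j)) ∧ c ≠ 0 ∧
    ∑ j, ξ₀ j * (c * x j) = 1 ∧ ∑ j, ξ₁ j * (c * x j) = y₁ ∧ ∑ j, ξ₂ j * (c * x j) = y ∧
    A.evalEval y₁ y = 0 ∧ (derivative A).evalEval y₁ y ≠ 0 ∧
    (∀ j, (derivative A).evalEval y₁ y * (c * x j) = (B j).evalEval y₁ y) ∧
    (∀ i, A ∣ FB (e i) (v i) B) ∧ A ∣ ∑ j, C (C (ξ₀ j)) * B j - derivative A ∧
    A ∣ ∑ j, C (C (ξ₁ j)) * B j - C X * derivative A ∧
    A ∣ ∑ j, C (C (ξ₂ j)) * B j - X * derivative A ∧
    ∀ u : Fin 3 → Fin (n + 1) → ℕ, ∃ P : MvPolynomial (Fin 3) M, P ≠ 0 ∧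
      P.IsHomogeneous (2 * b) ∧ A ∣ MvPolynomial.aeval (ub u B) P

section

variable {M : Type*} [Field M] {n : ℕ} {ι : Type*} {e : ι → ℕ}
  {v : ι → (Fin (n + 1) →₀ ℕ) → M} {d : ℕ} {a : (Fin (n + 1) →₀ ℕ) → M} {b : ℕ}
  {x : Fin (n + 1) → M}

theorem CertWL.toW (h : CertWL e v d a b x) : CertW e v b x := by
  obtain ⟨A, B, ξ₀, ξ₁, ξ₂, c, y₁, y, -, -, h⟩ := h
  exact ⟨A, B, ξ₀, ξ₁, ξ₂, c, y₁, y, h⟩

theorem CertWL.smul_of (h : CertWL e v d a b x) {r : M} (hr : r ≠ 0) :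
    CertWL e v d a b (fun j => r * x j) := by
  obtain ⟨A, B, ξ₀, ξ₁, ξ₂, c, y₁, y, h1, h2, h3, h4, h5, h6⟩ := h
  have hx : ∀ j, c * x j = (c * r⁻¹) * (r * x j) := by
    intro j
    field_simp
  simp only [hx] at h6
  exact ⟨A, B, ξ₀, ξ₁, ξ₂, c * r⁻¹, y₁, y, h1, h2, h3, h4, mul_ne_zero h5 (inv_ne_zero hr), h6⟩

theorem FewZ.congr {A : M[X][X]} {B : Fin (n + 1) → M[X][X]} {a' : (Fin (n + 1) →₀ ℕ) → M}
    (h : FewZ A B d a) (ha : ∀ I ∈ expo (Fin (n + 1)) d, a I = a' I) : FewZ A B d a' := by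
  intro u m P Q hP E hE hz
  refine h u m P Q hP E hE fun p hp => ?_
  obtain ⟨h1, h2, h3⟩ := hz p hp
  refine ⟨h1, h2, ?_⟩
  rw [← h3]
  unfold FB
  exact congrArg _ (Finset.sum_congr rfl fun I hI => by rw [ha I hI])

end

end Pool.Agent.Lib.MP_44a246_ntPC
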