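import Mathlib
import Pool.Agent.Lib.MP_44a246_ntS.SQ2b
import Pool.Agent.Lib.MP_44a246_ntY.Y56
import Pool.Agent.Lib.MP_44a246_ntPC.D0

/-!
Ultraproducts: identities, divisibilities and irreducibility hold for almost all members.
-/

namespace Pool.Agent.Lib.MP_44a246_ntPC

open Pool.Agent.Lib.MP_e52354_nt
open Pool.Agent.Lib.MP_44a246_ntS
open Pool.Agent.Lib.MP_44a246_ntY
open Polynomial

variable {L : Type*} [Field L]

/-- polynomials which agree almost everywhere have the same germ -/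
theorem germ_eq_of_eventually {P Q : (ℕ → L)[X][X]}
    (h : ∀ᶠ N in (Filter.hyperfilter ℕ : Filter ℕ),
      m2 (Pi.evalRingHom (fun _ => L) N) P = m2 (Pi.evalRingHom (fun _ => L) N) Q) :
    m2 germHom P = m2 germHom Q := by
  ext i j
  rw [m2_coeff, m2_coeff, germHom_eq_iff]
  filter_upwards [h] with N hN
  have h1 := congrArg (fun p : L[X][X] => (p.coeff i).coeff j) hN
  simp only [m2_coeff] at h1
  exact h1

/-- a common bound for the degrees of the members -/
theorem exists_box_members (P : (ℕ → L)[X][X]) :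
    ∃ c : ℕ, ∀ N, Box c (m2 (Pi.evalRingHom (fun _ => L) N) P) := by
  classical
  refine ⟨P.natDegree + ∑ i ∈ P.support, (P.coeff i).natDegree, fun N => ⟨?_, fun i => ?_⟩⟩
  · refine le_trans ?_ (Nat.le_add_right _ _)
    simp only [m2, coe_mapRingHom]
    exact natDegree_map_le
  · refine le_trans ?_ (Nat.le_add_left _ _)
    simp only [m2, coe_mapRingHom, coeff_map]
    refine natDegree_map_le.trans ?_
    by_cases hi : i ∈ P.support
    · exact Finset.single_le_sum (f := fun i => (P.coeff i).natDegree) (fun _ _ => Nat.zero_le _) hi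
    · rw [notMem_support_iff.1 hi, natDegree_zero]
      exact Nat.zero_le _

/-- almost all members are not zero -/
theorem eventually_ne_zero {P : (ℕ → L)[X][X]} (h : m2 germHom P ≠ 0) :
    ∀ᶠ N in (Filter.hyperfilter ℕ : Filter ℕ), m2 (Pi.evalRingHom (fun _ => L) N) P ≠ 0 := by
  have h1 : ¬ ∀ᶠ N in (Filter.hyperfilter ℕ : Filter ℕ),
      m2 (Pi.evalRingHom (fun _ => L) N) P = m2 (Pi.evalRingHom (fun _ => L) N) 0 := by
    intro h2
    apply h
    rw [germ_eq_of_eventually h2, map_zero]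
  have h3 := Ultrafilter.eventually_not.2 h1
  filter_upwards [h3] with N hN h0
  apply hN
  rw [h0, map_zero]

/-- if the germ is a unit, almost all members are units -/
theorem eventually_isUnit {P : (ℕ → L)[X][X]} (h : IsUnit (m2 germHom P)) :
    ∀ᶠ N in (Filter.hyperfilter ℕ : Filter ℕ),
      IsUnit (m2 (Pi.evalRingHom (fun _ => L) N) P) := by
  obtain ⟨u, hu, hu2⟩ := Polynomial.isUnit_iff.mp h
  obtain ⟨t, ht, ht2⟩ := Polynomial.isUnit_iff.mp hu
  obtain ⟨t', rfl⟩ := germHom_surjective t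
  have h1 : m2 germHom P = m2 germHom (C (C t')) := by
    rw [m2_CC, ← hu2, ← ht2]
  have h2 : ∀ᶠ N in (Filter.hyperfilter ℕ : Filter ℕ), ¬ t' N = 0 := by
    rw [Ultrafilter.eventually_not]
    intro h3
    rw [← germHom_eq_zero_iff] at h3
    rw [h3] at ht
    exact not_isUnit_zero ht
  filter_upwards [eventually_eq_of_germ_eq h1, h2] with N hN hN2
  rw [hN, m2_CC]
  exact (isUnit_iff_ne_zero.mpr hN2).map (C.comp C : L →+* L[X][X])

/-- if almost all members are units and the germ is not zero, it is a unit -/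
theorem isUnit_germ {P : (ℕ → L)[X][X]} (h0 : m2 germHom P ≠ 0)
    (h : ∀ᶠ N in (Filter.hyperfilter ℕ : Filter ℕ),
      IsUnit (m2 (Pi.evalRingHom (fun _ => L) N) P)) : IsUnit (m2 germHom P) := by
  have h1 : m2 germHom P = m2 germHom (C (C ((P.coeff 0).coeff 0))) := by
    refine germ_eq_of_eventually ?_
    filter_upwards [h] with N hN
    obtain ⟨u, hu, hu2⟩ := Polynomial.isUnit_iff.mp hN
    obtain ⟨t, ht, ht2⟩ := Polynomial.isUnit_iff.mp hu
    rw [m2_CC]
    have h2 := m2_coeff (Pi.evalRingHom (fun _ => L) N) P 0 0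
    rw [← hu2, ← ht2, coeff_C_zero, coeff_C_zero] at h2
    rw [← hu2, ← ht2, h2]
  have h3 : germHom ((P.coeff 0).coeff 0) ≠ 0 := by
    intro h4
    rw [h1, m2_CC, h4, map_zero, map_zero] at h0
    exact h0 rfl
  rw [h1, m2_CC]
  exact (isUnit_iff_ne_zero.mpr h3).map (C.comp C : UP L →+* (UP L)[X][X])

/-- **if the germ is irreducible, almost all members are irreducible** -/
theorem eventually_irreducible {P : (ℕ → L)[X][X]} (h : Irreducible (m2 germHom P)) :
    ∀ᶠ N in (Filter.hyperfilter ℕ : Filter ℕ),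
      Irreducible (m2 (Pi.evalRingHom (fun _ => L) N) P) := by
  classical
  obtain ⟨c, hc⟩ := exists_box_members P
  by_contra hcon
  have h1 := Ultrafilter.eventually_not.2 hcon
  have h2 : ∀ᶠ N in (Filter.hyperfilter ℕ : Filter ℕ),
      ¬ IsUnit (m2 (Pi.evalRingHom (fun _ => L) N) P) := by
    rw [Ultrafilter.eventually_not]
    intro h3
    exact h.1 (isUnit_germ h.ne_zero h3)
  have h3 : ∀ᶠ N in (Filter.hyperfilter ℕ : Filter ℕ), ∃ f g : L[X][X],
      m2 (Pi.evalRingHom (fun _ => L) N) P = f * g ∧ ¬ IsUnit f ∧ ¬ IsUnit g ∧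
        Box c f ∧ Box c g := by
    filter_upwards [h1, h2, eventually_ne_zero h.ne_zero] with N k1 k2 k3
    rw [irreducible_iff] at k1
    push Not at k1
    obtain ⟨f, g, hfg, hf, hg⟩ := k1 k2
    have hf0 : f ≠ 0 := by
      rintro rfl
      rw [zero_mul] at hfg
      exact k3 hfg
    have hg0 : g ≠ 0 := by
      rintro rfl
      rw [mul_zero] at hfg
      exact k3 hfg
    refine ⟨f, g, hfg, hf, hg, ?_, ?_⟩
    · refine box_of_mul hg0 ?_
      rw [mul_comm, ← hfg]
      exact hc N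
    · refine box_of_mul hf0 ?_
      rw [← hfg]
      exact hc N
  have h4 : ∀ N, ∃ f g : L[X][X], Box c f ∧ Box c g ∧
      ((∃ f g : L[X][X], m2 (Pi.evalRingHom (fun _ => L) N) P = f * g ∧ ¬ IsUnit f ∧ ¬ IsUnit g ∧
        Box c f ∧ Box c g) → m2 (Pi.evalRingHom (fun _ => L) N) P = f * g ∧ ¬ IsUnit f ∧
          ¬ IsUnit g) := by
    intro N
    by_cases hN : ∃ f g : L[X][X], m2 (Pi.evalRingHom (fun _ => L) N) P = f * g ∧ ¬ IsUnit f ∧
        ¬ IsUnit g ∧ Box c f ∧ Box c g
    · obtain ⟨f, g, k1, k2, k3, k4, k5⟩ := hN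
      exact ⟨f, g, k4, k5, fun _ => ⟨k1, k2, k3⟩⟩
    · exact ⟨0, 0, ⟨by simp, fun i => by simp⟩, ⟨by simp, fun i => by simp⟩, fun h => absurd h hN⟩
  choose f g hf hg hfg using h4
  obtain ⟨f', hf', -, -⟩ := exists_seqPoly f hf
  obtain ⟨g', hg', -, -⟩ := exists_seqPoly g hg
  have h5 : m2 germHom P = m2 germHom f' * m2 germHom g' := by
    rw [← map_mul]
    refine germ_eq_of_eventually ?_
    filter_upwards [h3] with N hN
    rw [map_mul, hf', hg']
    exact (hfg N hN).1
  rcases h.2 h5 with h6 | h6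
  · obtain ⟨N, k1, k2⟩ := ((eventually_isUnit h6).and h3).exists
    rw [hf'] at k1
    exact (hfg N k2).2.1 k1
  · obtain ⟨N, k1, k2⟩ := ((eventually_isUnit h6).and h3).exists
    rw [hg'] at k1
    exact (hfg N k2).2.2 k1

/-- divisibility of germs holds for almost all members -/
theorem eventually_dvd {A G : (ℕ → L)[X][X]} (h : m2 germHom A ∣ m2 germHom G) :
    ∀ᶠ N in (Filter.hyperfilter ℕ : Filter ℕ),
      m2 (Pi.evalRingHom (fun _ => L) N) A ∣ m2 (Pi.evalRingHom (fun _ => L) N) G := by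
  obtain ⟨Q, hQ⟩ := h
  obtain ⟨Q', rfl⟩ := exists_lift Q
  rw [← map_mul] at hQ
  filter_upwards [eventually_eq_of_germ_eq hQ] with N hN
  rw [hN, map_mul]
  exact Dvd.intro _ rfl

/-- divisibility of almost all members gives divisibility of the germs -/
theorem dvd_germ {A G : (ℕ → L)[X][X]}
    (hA : ∀ N, m2 (Pi.evalRingHom (fun _ => L) N) A ≠ 0)
    (h : ∀ᶠ N in (Filter.hyperfilter ℕ : Filter ℕ),
      m2 (Pi.evalRingHom (fun _ => L) N) A ∣ m2 (Pi.evalRingHom (fun _ => L) N) G) :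
    m2 germHom A ∣ m2 germHom G := by
  classical
  obtain ⟨c, hc⟩ := exists_box_members G
  have h4 : ∀ N, ∃ Q : L[X][X], Box c Q ∧
      (m2 (Pi.evalRingHom (fun _ => L) N) A ∣ m2 (Pi.evalRingHom (fun _ => L) N) G →
        m2 (Pi.evalRingHom (fun _ => L) N) G = m2 (Pi.evalRingHom (fun _ => L) N) A * Q) := by
    intro N
    by_cases hN : m2 (Pi.evalRingHom (fun _ => L) N) A ∣ m2 (Pi.evalRingHom (fun _ => L) N) G
    · obtain ⟨Q, k1, k2⟩ := dvd_box (hA N) hN (hc N)
      exact ⟨Q, k2, fun _ => k1⟩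
    · exact ⟨0, ⟨by simp, fun i => by simp⟩, fun h => absurd h hN⟩
  choose Q hQ hQA using h4
  obtain ⟨Q', hQ', -, -⟩ := exists_seqPoly Q hQ
  refine ⟨m2 germHom Q', ?_⟩
  rw [← map_mul]
  refine germ_eq_of_eventually ?_
  filter_upwards [h] with N hN
  rw [map_mul, hQ']
  exact hQA N hN

/-- if the germs do not divide, almost all members do not divide -/
theorem eventually_not_dvd {A G : (ℕ → L)[X][X]}
    (hA : ∀ N, m2 (Pi.evalRingHom (fun _ => L) N) A ≠ 0)
    (h : ¬ m2 germHom A ∣ m2 germHom G) :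
    ∀ᶠ N in (Filter.hyperfilter ℕ : Filter ℕ),
      ¬ m2 (Pi.evalRingHom (fun _ => L) N) A ∣ m2 (Pi.evalRingHom (fun _ => L) N) G := by
  rw [Ultrafilter.eventually_not]
  intro h1
  exact h (dvd_germ hA h1)

end Pool.Agent.Lib.MP_44a246_ntPC
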