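import Mathlib
import Pool.Agent.Lib.MP_44a246_ntS.SJ3b
import Pool.Agent.Lib.MP_44a246_ntS.SP7

/-!
Polynomials in two variables of bounded total degree and forms in three variables.
-/

namespace Pool.Agent.Lib.MP_44a246_ntPC

open Pool.Agent.Lib.MP_44a246_ntS
open Polynomial

variable {κ : Type*} [Field κ]

/-- polynomials in two variables of total degree at most `D` -/
def Tot (D : ℕ) (G : κ[X][X]) : Prop :=
  ∀ i k, (G.coeff i).coeff k ≠ 0 → i + k ≤ D

theorem Tot.sum {D : ℕ} {ι : Type*} (s : Finset ι) {f : ι → κ[X][X]}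
    (h : ∀ i ∈ s, Tot D (f i)) : Tot D (∑ i ∈ s, f i) := by
  intro i k hik
  rw [finsetSum_coeff, finsetSum_coeff] at hik
  obtain ⟨j, hj, hj'⟩ := Finset.exists_ne_zero_of_sum_ne_zero hik
  exact h j hj i k hj'

theorem Tot.mul {D D' : ℕ} {G H : κ[X][X]} (hG : Tot D G) (hH : Tot D' H) :
    Tot (D + D') (G * H) := by
  intro i k hik
  rw [coeff_mul, finsetSum_coeff] at hik
  obtain ⟨p, hp, hp'⟩ := Finset.exists_ne_zero_of_sum_ne_zero hik
  rw [coeff_mul] at hp'
  obtain ⟨q, hq, hq'⟩ := Finset.exists_ne_zero_of_sum_ne_zero hp'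
  have h1 := hG p.1 q.1 (left_ne_zero_of_mul hq')
  have h2 := hH p.2 q.2 (right_ne_zero_of_mul hq')
  rw [Finset.HasAntidiagonal.mem_antidiagonal] at hp hq
  omega

theorem Tot.mono {D D' : ℕ} {G : κ[X][X]} (hG : Tot D G) (h : D ≤ D') : Tot D' G :=
  fun i k hik => (hG i k hik).trans h

/-- the terms `g (X) * Y ^ i` -/
theorem Tot.term {D i : ℕ} {g : κ[X]} (h : i + g.natDegree ≤ D) : Tot D (C g * X ^ i) := by
  intro j k hjk
  rw [coeff_C_mul_X_pow] at hjk
  split_ifs at hjk with hj
  · have h1 := le_natDegree_of_ne_zero hjk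
    omega
  · simp at hjk

theorem Tot.coeff {D : ℕ} {G : κ[X][X]} (hG : Tot D G) (i : ℕ) (h : G.coeff i ≠ 0) :
    i + (G.coeff i).natDegree ≤ D :=
  hG i _ (by rw [coeff_natDegree]; exact leadingCoeff_ne_zero.2 h)

/-- homogenisation -/
theorem exists_hom {D : ℕ} {G : κ[X][X]} (h : Tot D G) :
    ∃ P : MvPolynomial (Fin 3) κ, P.IsHomogeneous D ∧ deh P = G ∧
      P.coeff (Finsupp.single 2 D) = (G.coeff D).coeff 0 := by
  classical
  -- the sum of the monomials `(G.coeff i).coeff k * X 0 ^ (D - i - k) * X 1 ^ k * X 2 ^ i`, over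
  -- `i, k < D + 1` with `i + k ≤ D`; for the last statement `deh_coeff` (SJ3) with
  -- `i = 0`, `j = D`
  let e : ℕ → ℕ → Fin 3 →₀ ℕ := fun i k =>
    Finsupp.single 0 (D - k - i) + Finsupp.single 1 k + Finsupp.single 2 i
  have he1 : ∀ i k, e i k 1 = k := fun i k => by simp [e]
  have he2 : ∀ i k, e i k 2 = i := fun i k => by simp [e]
  let P : MvPolynomial (Fin 3) κ := ∑ i ∈ Finset.range (D + 1), ∑ k ∈ Finset.range (D + 1),
    if i + k ≤ D then MvPolynomial.monomial (e i k) ((G.coeff i).coeff k) else 0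
  have hP : P.IsHomogeneous D := by
    refine MvPolynomial.IsHomogeneous.sum _ _ _ fun i _ => ?_
    refine MvPolynomial.IsHomogeneous.sum _ _ _ fun k _ => ?_
    split_ifs with hik
    · refine MvPolynomial.isHomogeneous_monomial _ ?_
      rw [Finsupp.degree_eq_sum, Fin.sum_univ_three]
      simp [e]
      omega
    · exact MvPolynomial.isHomogeneous_zero _ _ _
  have hc : ∀ i k, i + k ≤ D → P.coeff (e i k) = (G.coeff i).coeff k := by
    intro i k hik
    simp only [P, MvPolynomial.coeff_sum]
    rw [Finset.sum_eq_single i, Finset.sum_eq_single k]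
    · rw [if_pos hik, MvPolynomial.coeff_monomial, if_pos rfl]
    · intro k' _ hk'
      split_ifs with h1
      · rw [MvPolynomial.coeff_monomial, if_neg]
        intro h2
        apply hk'
        rw [← he1 i k', h2, he1]
      · exact MvPolynomial.coeff_zero _
    · intro h1
      exact absurd (Finset.mem_range.2 (by omega)) h1
    · intro i' _ hi'
      refine Finset.sum_eq_zero fun k' _ => ?_
      split_ifs with h1
      · rw [MvPolynomial.coeff_monomial, if_neg]
        intro h2
        apply hi'
        rw [← he2 i' k', h2, he2]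
      · exact MvPolynomial.coeff_zero _
    · intro h1
      exact absurd (Finset.mem_range.2 (by omega)) h1
  refine ⟨P, hP, ?_, ?_⟩
  · ext j i
    rw [deh_coeff hP]
    split_ifs with hij
    · exact hc j i (by omega)
    · by_contra h1
      exact hij (by have := h j i (Ne.symm h1); omega)
  · have h1 := hc D 0 (by omega)
    have h2 : e D 0 = Finsupp.single 2 D := by
      simp [e]
    rw [← h1, h2]

/-- the derivative of the dehomogenisation -/
theorem deh_pderiv (P : MvPolynomial (Fin 3) κ) :
    deh (MvPolynomial.pderiv 2 P) = derivative (deh P) := by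
  -- induction on `P`
  induction P using MvPolynomial.induction_on with
  | C a =>
    rw [MvPolynomial.pderiv_C]
    unfold deh
    rw [map_zero, MvPolynomial.aeval_C]
    exact (derivative_C (R := κ[X])).symm
  | add p q hp hq =>
    unfold deh at hp hq ⊢
    rw [map_add, map_add, map_add, derivative_add, hp, hq]
  | mul_X p i hp =>
    unfold deh at hp ⊢
    rw [MvPolynomial.pderiv_mul, map_add, map_mul, map_mul, map_mul, hp, derivative_mul,
      MvPolynomial.aeval_X]
    congr 1
    congr 1
    fin_cases i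
    · rw [MvPolynomial.pderiv_X_of_ne (by decide)]
      simp
    · rw [MvPolynomial.pderiv_X_of_ne (by decide)]
      simp
    · rw [show ((⟨2, by decide⟩ : Fin 3)) = 2 from rfl, MvPolynomial.pderiv_X_self]
      simp

/-- evaluation of the dehomogenisation -/
theorem ev_deh {M : Type*} [Field M] [Algebra κ M] (x y : M) (P : MvPolynomial (Fin 3) κ) :
    ev (algebraMap κ M) x y (deh P) = MvPolynomial.aeval ![1, x, y] P := by
  have h : (ev (algebraMap κ M) x y).comp
      (MvPolynomial.aeval (R := κ) (![1, C X, X] : Fin 3 → κ[X][X])).toRingHom =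
      (MvPolynomial.aeval (R := κ) (![1, x, y] : Fin 3 → M)).toRingHom := by
    apply MvPolynomial.ringHom_ext
    · intro c
      have h1 : (MvPolynomial.aeval (R := κ) (![1, C X, X] : Fin 3 → κ[X][X]))
          (MvPolynomial.C c) = C (C c) := by
        rw [MvPolynomial.aeval_C]
        rfl
      simp only [RingHom.comp_apply, AlgHom.toRingHom_eq_coe, RingHom.coe_coe, h1, ev_C_C]
      rw [MvPolynomial.aeval_C]
    · intro k
      fin_cases k <;> simp [ev_C_X, ev_X]
  exact congrArg (fun f : MvPolynomial (Fin 3) κ →+* M => f P) h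

end Pool.Agent.Lib.MP_44a246_ntPC
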