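import Mathlib
import Pool.Agent.Lib.MP_44a246_nt.Places
import Pool.Agent.Lib.MP_44a246_nt.PlacesGen
import Pool.Agent.Lib.MP_e52354_nt.TDir
import Pool.Agent.Lib.MP_44a246_ntE.E07
import Pool.Agent.Lib.MP_44a246_ntPC.E1

/-!
The equation of a curve without a point at infinity on the `Y`-axis: it is monic, of total degree
`[M : κ (X)]`.
-/

namespace Pool.Agent.Lib.MP_44a246_ntPC

open Pool.Agent.Lib.MP_e52354_nt
open Pool.Agent.Lib.MP_44a246_nt
open Pool.Agent.Lib.MP_44a246_ntL
open Pool.Agent.Lib.MP_44a246_ntR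
open Pool.Agent.Lib.MP_44a246_ntS
open Pool.Agent.Lib.MP_44a246_ntE
open WithZero Polynomial Module IsDedekindDomain

section

variable {κ R K₀ L : Type*} [Field κ] [IsAlgClosed κ] [CommRing R] [IsDomain R]
  [IsPrincipalIdealRing R] [Algebra κ R] [Field K₀] [Algebra R K₀] [IsFractionRing R K₀]
  [Field L] [Algebra R L] [Algebra K₀ L] [IsScalarTower R K₀ L]
  [FiniteDimensional K₀ L] [CharZero K₀] [Algebra κ L] [IsScalarTower κ R L]

variable (K₀) in
include K₀ in
/-- elements without poles at the places over `R` are integral over `R` -/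
theorem isIntegral_of_places {y : L}
    (h : ∀ v : Place κ L, (∀ r : R, v.1 (algebraMap R L r) ≤ 1) → v.1 y ≤ 1) :
    IsIntegral R y := by
  -- as `finite_places`, `residue_places` (MP_44a246_nt/PlacesGen): `integralClosure R L` is a
  -- Dedekind domain with the field of fractions `L`; its primes give places `placeOf`
  -- (`range_placeOf`); `HeightOneSpectrum.mem_integers_of_valuation_le_one`
  have : Module.Finite R (integralClosure R L) := finite_B R K₀ L
  have := isFractionRing_B R K₀ L
  have := isDedekindDomain_B R K₀ L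
  have := faithful_RL R K₀ L
  have h1 : y ∈ (algebraMap (integralClosure R L) L).range := by
    refine HeightOneSpectrum.mem_integers_of_valuation_le_one (R := integralClosure R L) L y
      fun P => ?_
    have hP : placeOf κ L P ∈ Set.range (placeOf κ L (B := integralClosure R L)) := ⟨P, rfl⟩
    rw [range_placeOf (κ := κ) (R := R) (L := L) (B := integralClosure R L)] at hP
    exact h _ hP
  obtain ⟨b, rfl⟩ := h1
  exact b.2

end

section

variable {κ M : Type*} [Field κ] [IsAlgClosed κ] [CharZero κ] [Field M] [Algebra κ M]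
  [Algebra κ[X] M] [IsScalarTower κ κ[X] M]
  [Algebra (RatFunc κ) M] [IsScalarTower κ[X] (RatFunc κ) M]
  [Algebra (Rinf κ) M] [IsScalarTower (Rinf κ) (RatFunc κ) M]
  [FiniteDimensional (RatFunc κ) M]

/-- **The equation.** -/
theorem exists_eqT {Y : M} (hgen : IntermediateField.adjoin (RatFunc κ) {Y} = ⊤)
    (hY : ∀ w : Place κ M, w.1 Y ≤ max 1 (w.1 (algebraMap κ[X] M X))) :
    ∃ A : κ[X][X], A.Monic ∧ Irreducible A ∧ A.natDegree = finrank (RatFunc κ) M ∧
      minpoly (RatFunc κ) Y = A.map (algebraMap κ[X] (RatFunc κ)) ∧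
      (∀ G : κ[X][X], aeval Y G = 0 ↔ A ∣ G) ∧ Tot (finrank (RatFunc κ) M) A := by
  -- `Y` is integral over `κ[X]` (`isIntegral_of_places`, `place_poly_iff`), and `Y / X` over
  -- `Rinf κ` (`place_rinf_iff`); `A = minpoly κ[X] Y`
  -- (`minpoly.isIntegrallyClosed_eq_field_fractions'`, see `isAlgebraic_of_integral` in
  -- MP_e52354_nt/TDir). The minimal polynomial of `Y / X` over `κ (X)` is
  -- `∑ i, a_i X ^ (i - m) T ^ i` (it is monic of degree `m` and kills `Y / X`, which generates
  -- `M`), where `a_i = A.coeff i`, so `deg a_i + i ≤ m` by `mem_Rinf`.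
  -- For the equivalence: `exists_eq` (E07) or `minpoly.isIntegrallyClosed_dvd_iff`.
  classical
  set x : M := algebraMap κ[X] M X with hx
  set a : RatFunc κ := algebraMap κ[X] (RatFunc κ) X with ha
  have hXne : (X : κ[X]) ≠ 0 := X_ne_zero
  have ha0 : a ≠ 0 := fun h => hXne (IsFractionRing.injective κ[X] (RatFunc κ)
    (h.trans (map_zero _).symm))
  have hxa : algebraMap (RatFunc κ) M a = x := by
    rw [ha, hx, IsScalarTower.algebraMap_apply κ[X] (RatFunc κ) M]
  have hx0 : x ≠ 0 := by
    rw [← hxa]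
    exact fun h => ha0 ((algebraMap (RatFunc κ) M).injective (h.trans (map_zero _).symm))
  have hf := faithful_RL κ[X] (RatFunc κ) M
  have htf : Module.IsTorsionFree κ[X] M := inferInstance
  -- integrality
  have h1 : IsIntegral κ[X] Y := by
    refine isIntegral_of_places (κ := κ) (RatFunc κ) fun v hv => ?_
    have h3 := (place_poly_iff v).1 hv
    exact (hY v).trans (max_le le_rfl h3)
  let _ : Algebra κ (Rinf κ) := (constRinf κ).toAlgebra
  have ht : IsScalarTower κ (Rinf κ) M := by
    refine IsScalarTower.of_algebraMap_eq fun c => ?_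
    rw [IsScalarTower.algebraMap_apply (Rinf κ) (RatFunc κ) M,
      IsScalarTower.algebraMap_apply κ κ[X] M,
      IsScalarTower.algebraMap_apply κ[X] (RatFunc κ) M]
    rfl
  have h2 : IsIntegral (Rinf κ) (algebraMap (RatFunc κ) M a⁻¹ * Y) := by
    refine isIntegral_of_places (κ := κ) (RatFunc κ) fun v hv => ?_
    have h3 := (place_rinf_iff v).1 hv
    push Not at h3
    have h4 := (hY v).trans (max_le h3.le le_rfl)
    rw [map_inv₀, hxa, map_mul, map_inv₀]
    have h5 : 0 < v.1 x := zero_lt_one.trans h3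
    rw [mul_comm, ← div_eq_mul_inv]
    exact div_le_one_of_le₀ h4 h5.le
  -- the degrees
  have hdeg : ∀ Z : M, IntermediateField.adjoin (RatFunc κ) {Z} = ⊤ →
      (minpoly (RatFunc κ) Z).natDegree = finrank (RatFunc κ) M := by
    intro Z hZ
    have h3 := IntermediateField.adjoin.finrank (K := RatFunc κ) (x := Z)
      (IsIntegral.of_finite (RatFunc κ) Z)
    rw [hZ, IntermediateField.finrank_top'] at h3
    exact h3.symm
  have hgen' : IntermediateField.adjoin (RatFunc κ) {algebraMap (RatFunc κ) M a⁻¹ * Y} = ⊤ := by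
    rw [eq_top_iff, ← hgen, IntermediateField.adjoin_le_iff, Set.singleton_subset_iff]
    have h3 : Y = algebraMap (RatFunc κ) M a * (algebraMap (RatFunc κ) M a⁻¹ * Y) := by
      rw [← mul_assoc, ← map_mul, mul_inv_cancel₀ ha0, map_one, one_mul]
    have h4 := mul_mem (IntermediateField.algebraMap_mem
        (IntermediateField.adjoin (RatFunc κ) {algebraMap (RatFunc κ) M a⁻¹ * Y}) a)
      (IntermediateField.mem_adjoin_simple_self (RatFunc κ) (algebraMap (RatFunc κ) M a⁻¹ * Y))
    rw [← h3] at h4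
    exact h4
  have e1 := minpoly.isIntegrallyClosed_eq_field_fractions' (RatFunc κ) h1
  have e2 := minpoly.isIntegrallyClosed_eq_field_fractions' (RatFunc κ) h2
  set A := minpoly κ[X] Y with hA
  have hAm : A.Monic := minpoly.monic h1
  have hAd : A.natDegree = finrank (RatFunc κ) M := by
    rw [← hdeg Y hgen, e1, hAm.natDegree_map]
  refine ⟨A, hAm, minpoly.irreducible h1, hAd, e1,
    fun G => minpoly.isIntegrallyClosed_dvd_iff h1 G, ?_⟩
  -- the polynomial with the scaled roots
  set B := scaleRoots (minpoly (RatFunc κ) Y) a⁻¹ with hB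
  have hBm : B.Monic := by
    rw [hB, monic_scaleRoots_iff]
    exact minpoly.monic (IsIntegral.of_finite (RatFunc κ) Y)
  have hB0 : aeval (algebraMap (RatFunc κ) M a⁻¹ * Y) B = 0 :=
    scaleRoots_aeval_eq_zero (minpoly.aeval _ _)
  have hBe : minpoly (RatFunc κ) (algebraMap (RatFunc κ) M a⁻¹ * Y) = B := by
    refine (eq_of_monic_of_dvd_of_natDegree_le
      (minpoly.monic (IsIntegral.of_finite (RatFunc κ) _)) hBm (minpoly.dvd _ _ hB0) ?_).symm
    rw [hdeg _ hgen', hB, natDegree_scaleRoots, hdeg _ hgen]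
  intro i k hik
  have hAi : A.coeff i ≠ 0 := by
    intro h
    rw [h, coeff_zero] at hik
    exact hik rfl
  have him : i ≤ finrank (RatFunc κ) M := by
    rw [← hAd]
    exact le_natDegree_of_ne_zero hAi
  have hk : k ≤ (A.coeff i).natDegree := le_natDegree_of_ne_zero hik
  have h3 : B.coeff i = algebraMap (Rinf κ) (RatFunc κ)
      ((minpoly (Rinf κ) (algebraMap (RatFunc κ) M a⁻¹ * Y)).coeff i) := by
    rw [← hBe, e2, coeff_map]
  have h4 : (B.coeff i).intDegree ≤ 0 := by
    rw [h3]
    exact (mem_Rinf κ).mp ((minpoly (Rinf κ) (algebraMap (RatFunc κ) M a⁻¹ * Y)).coeff i).2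
  rw [hB, coeff_scaleRoots, hdeg _ hgen, e1, coeff_map] at h4
  have h5 : algebraMap κ[X] (RatFunc κ) (A.coeff i) ≠ 0 := fun h =>
    hAi (IsFractionRing.injective κ[X] (RatFunc κ) (h.trans (map_zero _).symm))
  have h6 : ∀ n : ℕ, (a⁻¹ ^ n).intDegree = -(n : ℤ) := by
    intro n
    induction n with
    | zero => simp
    | succ n ih =>
      rw [pow_succ, RatFunc.intDegree_mul (pow_ne_zero _ (inv_ne_zero ha0)) (inv_ne_zero ha0), ih,
        RatFunc.intDegree_inv, ha, RatFunc.intDegree_polynomial, natDegree_X]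
      push_cast
      ring
  rw [RatFunc.intDegree_mul h5 (pow_ne_zero _ (inv_ne_zero ha0)), h6,
    RatFunc.intDegree_polynomial] at h4
  omega

end

end Pool.Agent.Lib.MP_44a246_ntPC
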