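import Mathlib
import Pool.Agent.Lib.MP_44a246_ntR.GR9
import Pool.Agent.Lib.MP_44a246_ntE.E07
import Pool.Agent.Lib.MP_44a246_ntPC.E1

/-!
The numerators of the functions with the poles of `X` with respect to the derivative of the
equation.
-/

set_option linter.unusedSectionVars false

namespace Pool.Agent.Lib.MP_44a246_ntPC

open Pool.Agent.Lib.MP_e52354_nt
open Pool.Agent.Lib.MP_44a246_nt
open Pool.Agent.Lib.MP_44a246_ntL
open Pool.Agent.Lib.MP_44a246_ntR
open Pool.Agent.Lib.MP_44a246_ntS
open Pool.Agent.Lib.MP_44a246_ntE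
open WithZero Polynomial Module

variable {κ M : Type*} [Field κ] [IsAlgClosed κ] [CharZero κ] [Field M] [Algebra κ M]
  [Algebra κ[X] M] [IsScalarTower κ κ[X] M]
  [Algebra (RatFunc κ) M] [IsScalarTower κ[X] (RatFunc κ) M]
  [Algebra (Rinf κ) M] [IsScalarTower (Rinf κ) (RatFunc κ) M]
  [FiniteDimensional (RatFunc κ) M]

/-- the trace of a function with poles bounded by those of `X ^ N` -/
theorem trace_deg {y : M} {N : ℕ}
    (hy : ∀ w : Place κ M, w.1 y ≤ max 1 (w.1 (algebraMap κ[X] M X)) ^ N) :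
    ∃ t : κ[X], t.natDegree ≤ N ∧
      algebraMap κ[X] (RatFunc κ) t = Algebra.trace (RatFunc κ) M y := by
  -- `pn_of_places` (GR9), `trace_le` (GR7): as `trace_pn` (private in GR9), with
  -- `tL_eq`, `tower_ratFunc` (E07), `below_pow`
  have : IsScalarTower κ (RatFunc κ) M := tower_ratFunc
  have h : PN N (Algebra.trace (RatFunc κ) M y) := by
    apply pn_of_places
    intro v
    apply trace_le (isFF_ratFunc κ) v
    intro w hw
    refine (hy w).trans ?_
    have h4 : w.1 (algebraMap κ[X] M X) = v.1 RatFunc.X ^ ramIdx (RatFunc κ) w.1 := by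
      rw [← tL_eq, ← hw]
      exact below_pow w _
    have h0 : v.1 (RatFunc.X : RatFunc κ) ≠ 0 :=
      (Valuation.ne_zero_iff _).mpr RatFunc.X_ne_zero
    set c : ℤ := max 0 (log (v.1 (RatFunc.X : RatFunc κ))) with hc
    have h5 : v.1 (RatFunc.X : RatFunc κ) ≤ exp c := by
      rw [← exp_log h0, exp_le_exp]
      exact le_max_right _ _
    have h6 : max 1 (w.1 (algebraMap κ[X] M X)) ≤
        exp ((ramIdx (RatFunc κ) w.1 : ℤ) * c) := by
      rw [h4]
      refine max_le ?_ ?_
      · exact (exp_zero.symm.le).trans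
          (exp_le_exp.2 (mul_nonneg (Nat.cast_nonneg _) (le_max_left _ _)))
      · refine (pow_le_pow_left' h5 _).trans ?_
        rw [← exp_nsmul, nsmul_eq_mul]
    refine (pow_le_pow_left' h6 N).trans ?_
    rw [← exp_nsmul, exp_le_exp, nsmul_eq_mul]
    have h7 : (0 : ℤ) ≤ ((ramIdx (RatFunc κ) w.1 - 1 : ℕ) : ℤ) := Nat.cast_nonneg _
    have h8 : (N : ℤ) * ((ramIdx (RatFunc κ) w.1 : ℤ) * c) =
        (ramIdx (RatFunc κ) w.1 : ℤ) * ((N : ℤ) * c) := by ring
    rw [h8]
    exact le_add_of_nonneg_right h7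
  exact h

omit [IsAlgClosed κ] [CharZero κ] [Algebra κ M] [IsScalarTower κ κ[X] M]
  [Algebra (Rinf κ) M] [IsScalarTower (Rinf κ) (RatFunc κ) M] in
/-- the coefficients of the quotient of the equation by the linear factor -/
private theorem coeff_quot {Y : M} {A : κ[X][X]}
    (hA : minpoly (RatFunc κ) Y = A.map (algebraMap κ[X] (RatFunc κ)))
    {m : ℕ} (hm : (minpoly (RatFunc κ) Y).natDegree = m) (j : ℕ) :
    ∀ i, i + j = m → (minpolyDiv (RatFunc κ) Y).coeff i =
      aeval Y (∑ k ∈ Finset.range j, C (A.coeff (i + 1 + k)) * X ^ k : κ[X][X]) := by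
  have hint : IsIntegral (RatFunc κ) Y := Algebra.IsIntegral.isIntegral Y
  induction j with
  | zero =>
    intro i hi
    rw [Finset.range_zero, Finset.sum_empty, map_zero]
    apply coeff_eq_zero_of_natDegree_lt
    have h := natDegree_minpolyDiv_lt hint
    omega
  | succ j ih =>
    intro i hi
    rw [coeff_minpolyDiv, ih (i + 1) (by omega), Finset.sum_range_succ', map_add, hA, coeff_map,
      ← IsScalarTower.algebraMap_apply κ[X] (RatFunc κ) M, map_sum, map_sum, Finset.sum_mul,
      add_comm]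
    congr 1
    · refine Finset.sum_congr rfl fun k _ => ?_
      rw [map_mul, map_mul, aeval_C, aeval_C, map_pow, map_pow, aeval_X, pow_succ, mul_assoc,
        show i + 1 + 1 + k = i + 1 + (k + 1) by ring]
    · rw [pow_zero, mul_one, aeval_C, add_zero]

/-- **The numerator.** -/
theorem exists_num {Y : M} (hgen : IntermediateField.adjoin (RatFunc κ) {Y} = ⊤)
    (hY : ∀ w : Place κ M, w.1 Y ≤ max 1 (w.1 (algebraMap κ[X] M X))) {A : κ[X][X]}
    (hmon : A.Monic) (hA : minpoly (RatFunc κ) Y = A.map (algebraMap κ[X] (RatFunc κ)))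
    (hT : Tot (finrank (RatFunc κ) M) A) {y : M}
    (hy : ∀ w : Place κ M, w.1 y ≤ max 1 (w.1 (algebraMap κ[X] M X))) :
    ∃ Q : κ[X][X], Tot (finrank (RatFunc κ) M) Q ∧ Q.natDegree < finrank (RatFunc κ) M ∧
      aeval Y Q = aeval Y (derivative A) * y := by
  -- `traceForm_dualBasis_powerBasis_eq`: `A' (Y) y = ∑ i, Tr (y Y ^ i) β_i`, `β_i` the coefficients
  -- of `minpolyDiv (RatFunc κ) Y`, that is `β_i = ∑ k, a_(i + 1 + k) Y ^ k` (`coeff_minpolyDiv`),
  -- a polynomial in `X, Y` of total degree at most `m - 1 - i`; `Tr (y Y ^ i)` is a polynomial in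
  -- `X` of degree at most `i + 1` (`trace_deg`).
  classical
  set m := finrank (RatFunc κ) M with hm
  have hm0 : 0 < m := finrank_pos
  have hint : IsIntegral (RatFunc κ) Y := Algebra.IsIntegral.isIntegral Y
  have htop : Algebra.adjoin (RatFunc κ) {Y} = ⊤ := by
    rw [← IntermediateField.adjoin_simple_toSubalgebra_of_isAlgebraic hint.isAlgebraic, hgen,
      IntermediateField.top_toSubalgebra]
  let pb : PowerBasis (RatFunc κ) M := PowerBasis.ofAdjoinEqTop hint htop
  have hpbg : pb.gen = Y := PowerBasis.ofAdjoinEqTop_gen hint htop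
  have hpbd : pb.dim = (minpoly (RatFunc κ) Y).natDegree := PowerBasis.ofAdjoinEqTop_dim hint htop
  have hdm : pb.dim = m := pb.finrank.symm
  have hdeg : (minpoly (RatFunc κ) Y).natDegree = m := by rw [← hpbd, hdm]
  have htr : ∀ i : ℕ, ∃ t : κ[X], t.natDegree ≤ i + 1 ∧
      algebraMap κ[X] (RatFunc κ) t = Algebra.trace (RatFunc κ) M (y * Y ^ i) := by
    intro i
    apply trace_deg
    intro w
    rw [map_mul, map_pow, add_comm i 1, pow_add, pow_one]
    exact mul_le_mul' (hy w) (pow_le_pow_left' (hY w) i)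
  choose t ht1 ht2 using htr
  let B : ℕ → κ[X][X] := fun i => ∑ k ∈ Finset.range (m - i), C (A.coeff (i + 1 + k)) * X ^ k
  have hB : ∀ i, i < m → (minpolyDiv (RatFunc κ) Y).coeff i = aeval Y (B i) := fun i hi =>
    coeff_quot hA hdeg (m - i) i (by omega)
  have hBT : ∀ i, i < m → Tot (m - 1 - i) (B i) := by
    intro i hi
    refine Tot.sum _ fun k hk => Tot.term ?_
    rw [Finset.mem_range] at hk
    by_cases h0 : A.coeff (i + 1 + k) = 0
    · rw [h0, natDegree_zero]
      omega
    · have := hT.coeff _ h0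
      omega
  have hBd : ∀ i, i < m → (C (t i) * B i).natDegree ≤ m - 1 := by
    intro i hi
    refine (natDegree_C_mul_le _ _).trans ?_
    refine natDegree_sum_le_of_forall_le _ _ fun k hk => ?_
    rw [Finset.mem_range] at hk
    exact (natDegree_C_mul_X_pow_le _ _).trans (by omega)
  refine ⟨∑ i ∈ Finset.range m, C (t i) * B i, Tot.sum _ fun i hi => ?_, ?_, ?_⟩
  · rw [Finset.mem_range] at hi
    have h1 : Tot (i + 1) (C (t i)) := by
      have h2 : Tot (i + 1) (C (t i) * X ^ 0) := Tot.term (by have := ht1 i; omega)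
      rwa [pow_zero, mul_one] at h2
    exact (h1.mul (hBT i hi)).mono (by omega)
  · have h1 : (∑ i ∈ Finset.range m, C (t i) * B i).natDegree ≤ m - 1 :=
      natDegree_sum_le_of_forall_le _ _ fun i hi => hBd i (Finset.mem_range.1 hi)
    omega
  · have hA' : aeval pb.gen (derivative (minpoly (RatFunc κ) pb.gen)) =
        aeval Y (derivative A) := by
      rw [hpbg, hA, derivative_map, aeval_map_algebraMap]
    have hA0 : aeval Y (derivative A) ≠ 0 := by
      rw [← hA']
      exact (Algebra.IsSeparable.isSeparable (RatFunc κ) pb.gen).aeval_derivative_ne_zero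
        (minpoly.aeval _ _)
    have h1 := pb.basis.traceDual.sum_repr y
    have h2 : aeval Y (derivative A) * y = ∑ i : Fin pb.dim,
        algebraMap κ[X] M (t i) * (minpolyDiv (RatFunc κ) Y).coeff i := by
      conv_lhs => rw [← h1]
      rw [Finset.mul_sum]
      refine Finset.sum_congr rfl fun i _ => ?_
      rw [Module.Basis.traceDual_repr_apply, Module.Basis.traceDual_powerBasis_eq, hA', hpbg,
        Algebra.traceForm_apply, PowerBasis.coe_basis, hpbg, ← ht2, Algebra.smul_def,
        ← IsScalarTower.algebraMap_apply κ[X] (RatFunc κ) M]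
      field_simp
    rw [h2, map_sum, Finset.sum_range, hdm]
    refine Finset.sum_congr rfl fun i _ => ?_
    rw [map_mul, aeval_C, hB i i.2]

end Pool.Agent.Lib.MP_44a246_ntPC
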