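import Mathlib
import Pool.Agent.Lib.MP_44a246_ntE.E10
import Pool.Agent.Lib.MP_44a246_ntPC.E2
import Pool.Agent.Lib.MP_44a246_ntPC.E3

/-!
A curve in a projective space is the image of a plane curve of the same degree.
-/

namespace Pool.Agent.Lib.MP_44a246_ntPC

open Pool.Agent.Lib.MP_e52354_nt
open Pool.Agent.Lib.MP_44a246_nt
open Pool.Agent.Lib.MP_44a246_ntL
open Pool.Agent.Lib.MP_44a246_ntR
open Pool.Agent.Lib.MP_44a246_ntS
open Pool.Agent.Lib.MP_44a246_ntE
open WithZero Polynomial Module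

variable {κ M : Type*} [Field κ] [IsAlgClosed κ] [CharZero κ] [Field M] [Algebra κ M]

omit [IsAlgClosed κ] [CharZero κ] in
/-- the field generated by `x, y` over `κ` is generated by `y` over `κ (x)` -/
private theorem gen_of [Algebra (RatFunc κ) M] [IsScalarTower κ (RatFunc κ) M] {x y : M}
    (hX : tL κ M = x) (hgen : IntermediateField.adjoin κ {x, y} = ⊤) :
    IntermediateField.adjoin (RatFunc κ) {y} = ⊤ := by
  rw [eq_top_iff]
  intro z _
  have h1 : z ∈ IntermediateField.adjoin κ {x, y} := by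
    rw [hgen]
    exact IntermediateField.mem_top
  have h2 : IntermediateField.adjoin κ {x, y} ≤
      (IntermediateField.adjoin (RatFunc κ) {y}).restrictScalars κ := by
    rw [IntermediateField.adjoin_le_iff]
    rintro t (rfl | ht)
    · change _ ∈ IntermediateField.adjoin (RatFunc κ) {y}
      rw [← hX]
      exact (IntermediateField.adjoin (RatFunc κ) {y}).algebraMap_mem _
    · change t ∈ IntermediateField.adjoin (RatFunc κ) {y}
      exact IntermediateField.subset_adjoin (RatFunc κ) {y} ht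
  exact h2 h1

/-- **The plane curve.** -/
theorem exists_plane (hM : IsFF κ M) {n : ℕ} {γ : Fin (n + 1) → M} {x y : M}
    (hx : Transcendental κ x) (hgen : IntermediateField.adjoin κ {x, y} = ⊤)
    (hγ : ∀ w : Place κ M, vmax w.1 γ ≤ max 1 (w.1 x))
    (hy : ∀ w : Place κ M, w.1 y ≤ max 1 (w.1 x)) {m : ℕ} (hm : height κ ![1, x] = m) :
    ∃ (P : MvPolynomial (Fin 3) κ) (Q : Fin (n + 1) → MvPolynomial (Fin 3) κ),
      Irreducible (deh P) ∧ (deh P).natDegree = m ∧ P.IsHomogeneous m ∧
      P.coeff (Finsupp.single 2 m) = 1 ∧ (∀ j, (Q j).IsHomogeneous m) ∧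
      (∀ j, (Q j).coeff (Finsupp.single 2 m) = 0) ∧
      (∀ G : κ[X][X], ev (algebraMap κ M) x y G = 0 ↔ deh P ∣ G) ∧
      ev (algebraMap κ M) x y (derivative (deh P)) ≠ 0 ∧
      ∀ j, ev (algebraMap κ M) x y (deh (Q j)) =
        ev (algebraMap κ M) x y (derivative (deh P)) * γ j := by
  classical
  refine with_sep hM hx ?_
  intro iA t1 iR t2 iI t3 fd hXf
  have htower : IsScalarTower κ (RatFunc κ) M := tower_ratFunc
  have htL : tL κ M = x := by rw [tL_eq, hXf]
  have hfin : finrank (RatFunc κ) M = m := by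
    have h1 := finrank_eq_height κ M
    rw [htL, hm] at h1
    exact_mod_cast h1
  have hgen' := gen_of htL hgen
  obtain ⟨A, hmon, hirr, hdeg, hmin, hdvd, hT⟩ := exists_eqT hgen' (by rw [hXf]; exact hy)
  obtain ⟨P, hP1, hP2, hP3⟩ := exists_hom hT
  choose q hq1 hq2 hq3 using fun j => exists_num hgen' (by rw [hXf]; exact hy) hmon hmin hT
    (y := γ j) (fun w => by rw [hXf]; exact (le_vmax w.1 γ j).trans (hγ w))
  choose Q hQ1 hQ2 hQ3 using fun j => exists_hom (hq1 j)
  have hev : ∀ G : κ[X][X], ev (algebraMap κ M) x y G = aeval y G := by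
    intro G
    rw [← hXf, ev_aeval]
  rw [hfin] at hdeg hP1 hP3
  refine ⟨P, Q, ?_, ?_, hP1, ?_, ?_, ?_, ?_, ?_, ?_⟩
  · rw [hP2]
    exact hirr
  · rw [hP2]
    exact hdeg
  · rw [hP3, ← hdeg, hmon.coeff_natDegree, coeff_one_zero]
  · intro j
    rw [← hfin]
    exact hQ1 j
  · intro j
    have h1 := hQ3 j
    rw [coeff_eq_zero_of_natDegree_lt (hq2 j), coeff_zero, hfin] at h1
    exact h1
  · intro G
    rw [hev, hP2]
    exact hdvd G
  · rw [hev, hP2]
    intro h1
    have h2 := natDegree_le_of_dvd ((hdvd _).1 h1) (by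
      intro h3
      have h4 := natDegree_eq_zero_of_derivative_eq_zero h3
      rw [hdeg, ← hfin] at h4
      exact Module.finrank_pos.ne' h4)
    have h3 : A.natDegree ≠ 0 := by
      rw [hdeg, ← hfin]
      exact Module.finrank_pos.ne'
    have h4 := natDegree_derivative_lt h3
    omega
  · intro j
    rw [hev, hev, hP2, hQ2, hq3]

end Pool.Agent.Lib.MP_44a246_ntPC
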