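import Mathlib
import Pool.Agent.Lib.MP_44a246_ntY.Y11
import Pool.Agent.Lib.MP_44a246_ntY.Y38a

/-!
The constants of the second main theorem on the curve with `3 m` points.
-/

namespace Pool.Agent.Lib.MP_44a246_ntPC

open Pool.Agent.Lib.MP_44a246_ntY

/-- the size of the root of degree at most `l` -/
def cH (n : ℕ) : ℕ → ℕ
  | 0 => 1
  | l + 1 => (n + 1) * (cH n l + l + 1) + 2

/-- the size of the interpolation at one point of multiplicity `l + 1`, for polynomials of total
degree at most `ν` and degree smaller than `m` in `Y` -/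
def cG (n m l ν : ℕ) : ℕ := m * (l + 1) * (cH n l + ν + l + n + 2) + cH n l + 1

/-- the constant of the local estimate -/
def cL (n m l ν : ℕ) : ℕ :=
  cG n m l ν + 2 * (l + 1) * (cH n l + l + 2) + 2 * (l + ν + n + m + 1) + l + m + 2

/-- the constant `cG`, the multiplicity is `10 m ^ 2` -/
def cG3 (n m : ℕ) : ℕ := cG n m (10 * m ^ 2 - 1) (10 * m ^ 2 - 9 * m)

/-- the constant `cL`, the multiplicity is `10 m ^ 2` -/
def cL3 (n m : ℕ) : ℕ := cL n m (10 * m ^ 2 - 1) (10 * m ^ 2 - 9 * m)

/-- the constant of the theorem on moving points of a curve -/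
noncomputable def cF3 (n q : ℕ) : ℕ :=
  10 * n * (∑ Q ∈ Finset.range (q + 1), cM Q) + 4 * q * (∑ m ∈ Finset.range (n + 1), cL3 n m) +
    n * (1 + ∑ m ∈ Finset.range (n + 1), cG3 n m) + 1

/-- the constant of the theorem for the zeros of a polynomial -/
noncomputable def cN3 (b e d q : ℕ) : ℕ :=
  cF3 b q * (2 + (2 * b + 2 * e + 2) * (1 + 2 * q) + (d + 2) * q * (1 + 2 * b) + 2 * q ^ 2)

/-- the constant of the theorem with points over the algebraic closure -/
noncomputable def cE3 (b e d : ℕ) : ℕ :=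
  (∑ q ∈ Finset.range (qE b + 1), cN3 b e d q) * (2 + (1 + b) * (b + e + 1) +
    2 * nE b e * ((b + 1) ^ 2 + 2 * qE b * ((1 + b) * (b + e + 1))))

end Pool.Agent.Lib.MP_44a246_ntPC
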