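import Mathlib
import Pool.Agent.Lib.MP_44a246_ntY.Y23
import Pool.Agent.Lib.MP_44a246_ntPC.M0

/-!
The root of a polynomial near a point at which the derivative does not vanish (Hensel), with its
size.
-/

namespace Pool.Agent.Lib.MP_44a246_ntPC

open Pool.Agent.Lib.MP_44a246_nt
open Pool.Agent.Lib.MP_44a246_ntL
open Pool.Agent.Lib.MP_44a246_ntS
open Pool.Agent.Lib.MP_44a246_ntY
open WithZero Polynomial

variable {L : Type*} [Field L]

/-- the size of the value at a polynomial.

Proof. `A.eval t = ∑ i ∈ range (n + 1), A.coeff i * t ^ i` (`eval_eq_sum_range'`), `gv v` is a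
valuation of `L[X]` (multiplicative), `gv v (A.coeff i) ≤ gg v A` (`gg v = gv (gv v)`, `le_gn`), and
`gv v t ^ i ≤ exp σ ^ i ≤ exp (n * σ)`; `Valuation.map_sum_le`. -/
theorem gv_eval_le (v : Valuation L ℤᵐ⁰) {A : L[X][X]} {n : ℕ} (hA : A.natDegree ≤ n) {ρ σ : ℕ}
    (hρ : gg v A ≤ exp (ρ : ℤ)) {t : L[X]} (ht : gv v t ≤ exp (σ : ℤ)) :
    gv v (A.eval t) ≤ exp ((ρ + n * σ : ℕ) : ℤ) := by
  have h5 : (exp ((ρ + n * σ : ℕ) : ℤ) : ℤᵐ⁰) = exp (ρ : ℤ) * exp (σ : ℤ) ^ n := by
    rw [← exp_nsmul, ← exp_add]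
    congr 1
  have hσ1 : (1 : ℤᵐ⁰) ≤ exp (σ : ℤ) := by
    rw [← exp_zero, exp_le_exp]
    exact Int.natCast_nonneg _
  rw [eval_eq_sum_range' (Nat.lt_succ_of_le hA), h5]
  refine Valuation.map_sum_le (gv v) fun i hi => ?_
  have hi' := Finset.mem_range.1 hi
  rw [map_mul, map_pow]
  have h6 : gv v (A.coeff i) ≤ exp (ρ : ℤ) := (le_gn (gv v) A i).trans hρ
  exact mul_le_mul' h6 ((pow_le_pow_left₀ zero_le ht i).trans
    (pow_le_pow_right₀ hσ1 (Nat.lt_succ_iff.1 hi')))

/-- the degree of the value at a polynomial: `natDegree_sum_le_of_forall_le`, `natDegree_mul_le`,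
`natDegree_pow_le` -/
theorem natDegree_eval_le' {A : L[X][X]} {n : ℕ} (hA : Box n A) {t : L[X]} {l : ℕ}
    (ht : t.natDegree ≤ l) : (A.eval t).natDegree ≤ n + n * l := by
  rw [eval_eq_sum_range' (Nat.lt_succ_of_le hA.1)]
  refine natDegree_sum_le_of_forall_le _ _ fun i hi => ?_
  have hi' := Nat.lt_succ_iff.1 (Finset.mem_range.1 hi)
  refine natDegree_mul_le.trans (Nat.add_le_add (hA.2 i) ?_)
  exact natDegree_pow_le.trans (Nat.mul_le_mul hi' ht)

/-- the Gauss norm of a power of `X - b` is at least one, and at most `exp (k * τ)`: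
`map_pow`, the coefficient of `X` is `1` (`le_gn`), `gn_le` for the upper bound -/
theorem gv_X_sub_C_pow (v : Valuation L ℤᵐ⁰) (b : L) (k : ℕ) :
    1 ≤ gv v ((X - C b) ^ k) ∧
      ∀ τ : ℕ, v b ≤ exp (τ : ℤ) → gv v ((X - C b) ^ k) ≤ exp ((k * τ : ℕ) : ℤ) := by
  constructor
  · have h1 : (1 : ℤᵐ⁰) ≤ gv v (X - C b) := by
      have h2 := le_gn v (X - C b) 1
      rw [coeff_sub, coeff_X_one, coeff_C_succ, sub_zero, map_one] at h2
      exact h2
    rw [map_pow]
    exact one_le_pow₀ h1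
  · intro τ hτ
    have hτ1 : (1 : ℤᵐ⁰) ≤ exp (τ : ℤ) := by
      rw [← exp_zero, exp_le_exp]
      exact Int.natCast_nonneg _
    have h1 : gv v (X - C b) ≤ exp (τ : ℤ) := by
      refine (Valuation.map_sub (gv v) X (C b)).trans (max_le ?_ ?_)
      · rw [gv_apply, gn_X]
        exact hτ1
      · rw [gv_apply, gn_C]
        exact hτ
    rw [map_pow]
    refine (pow_le_pow_left₀ zero_le h1 k).trans (le_of_eq ?_)
    rw [← exp_nsmul, nsmul_eq_mul]
    push_cast
    rfl

private theorem eval_eval_of_eval (B : L[X][X]) {t : L[X]} {b c : L} (ht : t.eval b = c) :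
    (B.eval t).eval b = B.evalEval b c := by
  have h1 : B.eval₂ (evalRingHom b) (evalRingHom b t) = evalRingHom b (B.eval t) :=
    eval₂_at_apply _ _
  rw [coe_evalRingHom, ht, ← eval_map, eval_map_eval] at h1
  exact h1.symm

/-- **The root near a point of the curve** (Hensel), as a polynomial of degree at most `l`, modulo
`(X - b) ^ (l + 1)`.

Proof by induction on `l`. `l = 0`: `t = C c`; `(A.eval (C c)).eval b = A.evalEval b c = 0`
(`dvd_iff_isRoot`), size `v c ≤ exp τ`, `cH n 0 = 1`.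
Step: let `t` be the polynomial for `l` and `A.eval t = (X - C b) ^ (l + 1) * q`,
`γ := q.eval b / (derivative A).evalEval b c`, `t' := t - C γ * (X - C b) ^ (l + 1)`. Then
`natDegree t' ≤ l + 1`, `t'.eval b = c`. By `Polynomial.binomExpansion` (`f = A`, `x = t`,
`y = - C γ * (X - C b) ^ (l + 1)`):
`A.eval t' = (X - C b) ^ (l + 1) * (q - C γ * (derivative A).eval t) + k * y ^ 2`; the bracket
vanishes at `b` (as `((derivative A).eval t).eval b = (derivative A).evalEval b c`, which follows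
from `t.eval b = c`), and `y ^ 2` is divisible by `(X - C b) ^ (2 * (l + 1))`, `2 (l + 1) ≥ l + 2`.
Size: with `c = cH n l`: `gv v q ≤ gv v (A.eval t) ≤ exp (τ + n c τ)` (`gv_X_sub_C_pow`, the
valuation is multiplicative), `q.natDegree ≤ n + n * l`, so (`eval_le` of Y23)
`v (q.eval b) ≤ exp ((1 + n c + n + n l) τ)`, `v γ ≤ exp ((2 + n c + n + n l) τ)`,
`gv v (C γ * (X - C b) ^ (l + 1)) ≤ exp ((2 + n c + n + n l + l + 1) τ)`, and
`cH n (l + 1) = (n + 1) (c + l + 1) + 2` is at least both exponents. -/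
theorem exists_root {A : L[X][X]} {n : ℕ} (hA : Box n A) {b c : L} (h0 : A.evalEval b c = 0)
    (h1 : (derivative A).evalEval b c ≠ 0) (l : ℕ) :
    ∃ t : L[X], t.natDegree ≤ l ∧ t.eval b = c ∧ (X - C b) ^ (l + 1) ∣ A.eval t ∧
      ∀ (v : Valuation L ℤᵐ⁰) (τ : ℕ), gg v A ≤ exp (τ : ℤ) → v b ≤ exp (τ : ℤ) →
        v c ≤ exp (τ : ℤ) → exp (-(τ : ℤ)) ≤ v ((derivative A).evalEval b c) →
        gv v t ≤ exp ((cH n l * τ : ℕ) : ℤ) := by
  induction l with
  | zero =>
    refine ⟨C c, (natDegree_C c).le, eval_C, ?_, ?_⟩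
    · rw [zero_add, pow_one, dvd_iff_isRoot]
      exact h0
    · intro v τ _ _ hc _
      rw [gv_apply, gn_C]
      have h1 : cH n 0 * τ = τ := by
        show 1 * τ = τ
        exact one_mul τ
      rw [h1]
      exact hc
  | succ l ih =>
    obtain ⟨t, ht1, ht2, ⟨q, hq⟩, ht4⟩ := ih
    obtain ⟨γ, hγ⟩ : ∃ γ : L, γ = q.eval b / (derivative A).evalEval b c := ⟨_, rfl⟩
    have hdeg : (C γ * (X - C b) ^ (l + 1)).natDegree ≤ l + 1 := by
      refine (natDegree_C_mul_le _ _).trans ?_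
      refine natDegree_pow_le.trans ?_
      rw [natDegree_X_sub_C, mul_one]
    refine ⟨t - C γ * (X - C b) ^ (l + 1), ?_, ?_, ?_, ?_⟩
    · exact (natDegree_sub_le _ _).trans (max_le (ht1.trans (Nat.le_succ l)) hdeg)
    · rw [eval_sub, ht2, eval_mul, eval_pow, eval_sub, eval_X, eval_C, eval_C, sub_self,
        zero_pow (Nat.succ_ne_zero l), mul_zero, sub_zero]
    · obtain ⟨k, hk⟩ := binomExpansion A t (-(C γ * (X - C b) ^ (l + 1)))
      have hbr : (X - C b) ∣ q - C γ * (derivative A).eval t := by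
        rw [dvd_iff_isRoot, IsRoot.def, eval_sub, eval_mul, eval_C, eval_eval_of_eval _ ht2, hγ,
          div_mul_cancel₀ _ h1, sub_self]
      obtain ⟨g, hg⟩ := hbr
      have h2 : A.eval (t - C γ * (X - C b) ^ (l + 1)) =
          (X - C b) ^ (l + 1) * (q - C γ * (derivative A).eval t) +
            k * (C γ) ^ 2 * ((X - C b) ^ (l + 1 + 1) * (X - C b) ^ l) := by
        rw [sub_eq_add_neg, hk, hq]
        ring
      rw [h2, hg]
      refine dvd_add ?_ (Dvd.dvd.mul_left (dvd_mul_right _ _) _)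
      refine ⟨g, ?_⟩
      ring
    · intro v τ hA' hb hc hd
      have e1 := ht4 v τ hA' hb hc hd
      set c' := cH n l with hc'
      have e2 : gv v (A.eval t) ≤ exp ((τ + n * (c' * τ) : ℕ) : ℤ) :=
        gv_eval_le v hA.1 hA' e1
      obtain ⟨e3, e4⟩ := gv_X_sub_C_pow v b (l + 1)
      have e5 : gv v q ≤ exp ((τ + n * (c' * τ) : ℕ) : ℤ) := by
        refine le_trans ?_ e2
        rw [hq, map_mul]
        calc gv v q = 1 * gv v q := (one_mul _).symm
          _ ≤ gv v ((X - C b) ^ (l + 1)) * gv v q := mul_le_mul_left e3 _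
      have e6 : q.natDegree ≤ n + n * l := by
        by_cases hq0 : q = 0
        · rw [hq0, natDegree_zero]
          exact Nat.zero_le _
        · have h2 := ((monic_X_sub_C b).pow (l + 1)).natDegree_mul' hq0
          rw [← hq] at h2
          have h3 := natDegree_eval_le' hA ht1
          omega
      have e7 := eval_le v e6 e5 hb
      have e8 : v γ ≤ exp ((τ + n * (c' * τ) + (n + n * l) * τ + τ : ℕ) : ℤ) := by
        have h2 : (v ((derivative A).evalEval b c))⁻¹ ≤ exp (τ : ℤ) := by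
          have h3 : (exp (τ : ℤ) : ℤᵐ⁰)⁻¹ ≤ v ((derivative A).evalEval b c) := by
            rw [← exp_neg]
            exact hd
          have h4 : (0 : ℤᵐ⁰) < v ((derivative A).evalEval b c) := by
            rw [zero_lt_iff]
            exact (Valuation.ne_zero_iff v).2 h1
          have h5 : (0 : ℤᵐ⁰) < exp (τ : ℤ) := exp_pos
          rw [inv_le_comm₀ h4 h5]
          exact h3
        rw [hγ, map_div₀, div_eq_mul_inv, Nat.cast_add _ τ, exp_add]
        exact mul_le_mul' e7 h2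
      have e9 : gv v (C γ * (X - C b) ^ (l + 1)) ≤
          exp ((τ + n * (c' * τ) + (n + n * l) * τ + τ + (l + 1) * τ : ℕ) : ℤ) := by
        rw [map_mul, Nat.cast_add _ ((l + 1) * τ), exp_add]
        refine mul_le_mul' ?_ (e4 τ hb)
        rw [gv_apply, gn_C]
        exact e8
      have e10 : cH n (l + 1) = (n + 1) * (c' + l + 1) + 2 := rfl
      refine (Valuation.map_sub (gv v) _ _).trans (max_le ?_ ?_)
      · refine e1.trans ?_
        rw [exp_le_exp, e10]
        have : c' * τ ≤ ((n + 1) * (c' + l + 1) + 2) * τ := by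
          refine Nat.mul_le_mul_right τ ?_
          nlinarith [Nat.zero_le n, Nat.zero_le l, Nat.zero_le c', Nat.zero_le (n * (c' + l + 1))]
        exact_mod_cast this
      · refine e9.trans ?_
        rw [exp_le_exp, e10]
        have : τ + n * (c' * τ) + (n + n * l) * τ + τ + (l + 1) * τ ≤
            ((n + 1) * (c' + l + 1) + 2) * τ := by
          have h2 : ((n + 1) * (c' + l + 1) + 2) * τ =
            τ + n * (c' * τ) + (n + n * l) * τ + τ + (l + 1) * τ + c' * τ := by ring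
          omega
        exact_mod_cast this

end Pool.Agent.Lib.MP_44a246_ntPC
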