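import Mathlib
import Pool.Agent.Lib.MP_44a246_ntY.Y20
import Pool.Agent.Lib.MP_44a246_ntY.Y22
import Pool.Agent.Lib.MP_44a246_ntY.Y23
import Pool.Agent.Lib.MP_44a246_ntPC.M0

/-!
Interpolation at one point with multiplicity.
-/

namespace Pool.Agent.Lib.MP_44a246_ntPC

open Pool.Agent.Lib.MP_44a246_nt
open Pool.Agent.Lib.MP_44a246_ntL
open Pool.Agent.Lib.MP_44a246_ntS
open Pool.Agent.Lib.MP_44a246_ntY
open WithZero Polynomial

variable {L : Type*} [Field L]

/-- divisibility by a power of `X - b`: `X_sub_C_pow_dvd_iff`, `X_pow_dvd_iff`, `taylor_apply`,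
`taylor_coeff` -/
theorem pow_dvd_iff_taylor (P : L[X]) (b : L) (l : ℕ) :
    (X - C b) ^ l ∣ P ↔ ∀ k < l, (hasseDeriv k P).eval b = 0 := by
  rw [X_sub_C_pow_dvd_iff, ← taylor_apply, X_pow_dvd_iff]
  simp only [taylor_coeff]

private theorem m2_natCast (v : Valuation L ℤᵐ⁰) (n : ℕ) : v (n : L) ≤ 1 := by
  induction n with
  | zero => rw [Nat.cast_zero, map_zero]; exact zero_le
  | succ n ih =>
    rw [Nat.cast_succ]
    exact (v.map_add _ _).trans (max_le ih (by rw [map_one]))

/-- the size of the Taylor coefficients: `hasseDeriv` multiplies the coefficients by natural numbers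
(`hasseDeriv_coeff`, `v (n : L) ≤ 1`), so `gv v (hasseDeriv k P) ≤ gv v P` (`gn_le`, `le_gn`), and
`natDegree (hasseDeriv k P) ≤ natDegree P`; then `eval_le` of Y23 -/
theorem hasseDeriv_eval_le (v : Valuation L ℤᵐ⁰) {P : L[X]} {n : ℕ} (hn : P.natDegree ≤ n)
    {ρ τ : ℕ} (hρ : gv v P ≤ exp (ρ : ℤ)) {b : L} (hb : v b ≤ exp (τ : ℤ)) (k : ℕ) :
    v ((hasseDeriv k P).eval b) ≤ exp ((ρ + n * τ : ℕ) : ℤ) := by
  refine eval_le v (((natDegree_hasseDeriv_le P k).trans (Nat.sub_le _ _)).trans hn) ?_ hb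
  rw [gv_apply]
  refine gn_le v fun i => ?_
  rw [hasseDeriv_coeff, map_mul]
  calc v (((i + k).choose k : ℕ) : L) * v (P.coeff (i + k))
      ≤ 1 * v (P.coeff (i + k)) := mul_le_mul' (m2_natCast v _) le_rfl
    _ = v (P.coeff (i + k)) := one_mul _
    _ ≤ gv v P := le_gn v P _
    _ ≤ exp (ρ : ℤ) := hρ

/-- linearity of the functionals -/
private theorem m2_F {ι : Type*} [Fintype ι] (b : L) (k s : ℕ) (z : ι → L) (q : ι → L[X][X]) :
    (hasseDeriv s ((∑ j, C (C (z j)) * q j).coeff k)).eval b =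
      ∑ j, (hasseDeriv s ((q j).coeff k)).eval b * z j := by
  rw [finsetSum_coeff, map_sum, eval_finsetSum]
  refine Finset.sum_congr rfl fun j _ => ?_
  rw [coeff_C_mul, ← smul_eq_C_mul, map_smul, eval_smul, smul_eq_mul, mul_comm]

/-- the coefficients of the unknown polynomial -/
private theorem m2_coeff {m Q : ℕ} (z : {p : Fin m × Fin Q // p.1.1 + p.2.1 + 3 ≤ Q} → L)
    (i j : ℕ) :
    ((∑ p : {p : Fin m × Fin Q // p.1.1 + p.2.1 + 3 ≤ Q},
      C (C (z p)) * (C (X ^ p.1.2.1) * X ^ p.1.1.1) : L[X][X]).coeff i).coeff j =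
      ∑ p : {p : Fin m × Fin Q // p.1.1 + p.2.1 + 3 ≤ Q},
        if p.1.1.1 = i ∧ p.1.2.1 = j then z p else 0 := by
  rw [finsetSum_coeff, finsetSum_coeff]
  refine Finset.sum_congr rfl fun p _ => ?_
  rw [← mul_assoc, ← C_mul, coeff_C_mul, coeff_X_pow]
  by_cases h1 : p.1.1.1 = i
  · rw [if_pos h1.symm, mul_one, coeff_C_mul, coeff_X_pow]
    by_cases h2 : p.1.2.1 = j
    · rw [if_pos h2.symm, if_pos ⟨h1, h2⟩, mul_one]
    · rw [if_neg (Ne.symm h2), if_neg (fun h => h2 h.2), mul_zero]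
  · rw [if_neg (Ne.symm h1), if_neg (fun h => h1 h.1), mul_zero, coeff_zero]

/-- the polynomials whose combinations are considered -/
private noncomputable def m2_q (m ν l : ℕ) (A : L[X][X]) (t : L[X]) :
    {p : Fin m × Fin (ν + 3) // p.1.1 + p.2.1 + 3 ≤ ν + 3} ⊕ Fin (l + 1) → L[X][X]
  | Sum.inl p => (C (X ^ p.1.2.1) * X ^ p.1.1.1) * (X - C t)
  | Sum.inr r => -(C (X ^ r.1) * A)

private theorem m2_sum {m ν l : ℕ} (A : L[X][X]) (t : L[X])
    (z : {p : Fin m × Fin (ν + 3) // p.1.1 + p.2.1 + 3 ≤ ν + 3} ⊕ Fin (l + 1) → L) :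
    ∑ j, C (C (z j)) * m2_q m ν l A t j =
      (∑ p : {p : Fin m × Fin (ν + 3) // p.1.1 + p.2.1 + 3 ≤ ν + 3},
        C (C (z (Sum.inl p))) * (C (X ^ p.1.2.1) * X ^ p.1.1.1)) * (X - C t) -
      C (∑ r : Fin (l + 1), C (z (Sum.inr r)) * X ^ r.1) * A := by
  rw [Fintype.sum_sum_type, sub_eq_add_neg]
  congr 1
  · rw [Finset.sum_mul]
    refine Finset.sum_congr rfl fun p _ => ?_
    rw [m2_q, mul_assoc, mul_assoc, mul_assoc]
  · rw [map_sum, Finset.sum_mul, ← Finset.sum_neg_distrib]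
    refine Finset.sum_congr rfl fun r _ => ?_
    rw [m2_q, C_mul]
    ring

private theorem m2_one_le (a : ℕ) : (1 : ℤᵐ⁰) ≤ exp (a : ℤ) := by
  rw [← exp_zero, exp_le_exp]
  exact Int.natCast_nonneg _

/-- the size of the entries of the matrix -/
private theorem m2_entry {m ν l n : ℕ} {A : L[X][X]} (hA : Box n A) {t : L[X]}
    (ht : t.natDegree ≤ l) (b : L) (v : Valuation L ℤᵐ⁰) {τ h : ℕ} (hτ : gg v A ≤ exp (τ : ℤ))
    (hb : v b ≤ exp (τ : ℤ)) (hh : gv v t ≤ exp ((h * τ : ℕ) : ℤ)) (k s : ℕ)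
    (j : {p : Fin m × Fin (ν + 3) // p.1.1 + p.2.1 + 3 ≤ ν + 3} ⊕ Fin (l + 1)) :
    v ((hasseDeriv s ((m2_q m ν l A t j).coeff (k + 1))).eval b) ≤
      exp (((h + ν + l + n + 2) * τ : ℕ) : ℤ) := by
  rcases j with p | r
  · have hdeg : ((m2_q m ν l A t (Sum.inl p)).coeff (k + 1)).natDegree ≤ ν + l := by
      rw [m2_q, mul_assoc, coeff_C_mul, coeff_mul_X_sub_C, coeff_X_pow, coeff_X_pow]
      refine natDegree_mul_le.trans ?_
      have h1 := p.2
      have h2 : (X ^ p.1.2.1 : L[X]).natDegree ≤ ν := by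
        rw [natDegree_X_pow]; omega
      have h3 : ((if k = p.1.1.1 then (1 : L[X]) else 0) -
          (if k + 1 = p.1.1.1 then (1 : L[X]) else 0) * t).natDegree ≤ l := by
        refine (natDegree_sub_le _ _).trans (max_le ?_ ?_)
        · split_ifs
          · rw [natDegree_one]; exact Nat.zero_le _
          · rw [natDegree_zero]; exact Nat.zero_le _
        · split_ifs
          · rw [one_mul]; exact ht
          · rw [zero_mul, natDegree_zero]; exact Nat.zero_le _
      exact Nat.add_le_add h2 h3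
    have hsz : gv v ((m2_q m ν l A t (Sum.inl p)).coeff (k + 1)) ≤ exp ((h * τ : ℕ) : ℤ) := by
      refine (le_gn (gv v) _ (k + 1)).trans ?_
      show gg v (m2_q m ν l A t (Sum.inl p)) ≤ _
      have h1 : gg v (X : L[X][X]) = 1 := gn_X (gv v)
      have h2 : gg v (C t) = gv v t := gn_C (gv v) t
      rw [m2_q, map_mul, map_mul, C_pow, map_pow, map_pow, gg_CX, h1, one_pow, one_pow, one_mul,
        one_mul]
      refine (Valuation.map_sub _ _ _).trans (max_le ?_ ?_)
      · rw [h1]; exact m2_one_le _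
      · rw [h2]; exact hh
    refine (hasseDeriv_eval_le v hdeg hsz hb s).trans ?_
    rw [exp_le_exp]
    have : h * τ + (ν + l) * τ ≤ (h + ν + l + n + 2) * τ := by nlinarith [Nat.zero_le (n * τ)]
    exact_mod_cast this
  · have hdeg : ((m2_q m ν l A t (Sum.inr r)).coeff (k + 1)).natDegree ≤ l + n := by
      rw [m2_q, coeff_neg, natDegree_neg, coeff_C_mul]
      refine natDegree_mul_le.trans (Nat.add_le_add ?_ (hA.2 _))
      rw [natDegree_X_pow]
      exact Nat.lt_succ_iff.1 r.2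
    have hsz : gv v ((m2_q m ν l A t (Sum.inr r)).coeff (k + 1)) ≤ exp (τ : ℤ) := by
      refine (le_gn (gv v) _ (k + 1)).trans ?_
      show gg v (m2_q m ν l A t (Sum.inr r)) ≤ _
      rw [m2_q, Valuation.map_neg, map_mul, C_pow, map_pow, gg_CX, one_pow, one_mul]
      exact hτ
    refine (hasseDeriv_eval_le v hdeg hsz hb s).trans ?_
    rw [exp_le_exp]
    have : τ + (l + n) * τ ≤ (h + ν + l + n + 2) * τ := by
      nlinarith [Nat.zero_le (ν * τ), Nat.zero_le (h * τ)]
    exact_mod_cast this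

/-- **Interpolation at one point with multiplicity `l + 1`.** (Model: `y22_lin` in Y22.lean.)

Proof. Unknowns: `z (Sum.inl p)`, `p ∈ I₁ = {p : Fin m × Fin (ν + 3) // p.1 + p.2 + 3 ≤ ν + 3}`, and
`z (Sum.inr r)`, `r : Fin (l + 1)`; equations indexed by `(k, s) : Fin m × Fin (l + 1)`:
`(hasseDeriv s (Q.coeff (k + 1))).eval b = 0`, where `Q = G * (X - C t) - C u * A`,
`G = ∑ p, C (C (z (inl p)) * X ^ p.2) * X ^ p.1`, `u = ∑ r, C (z (inr r)) * X ^ r`. The functional
`F k s Q = (hasseDeriv s (Q.coeff (k + 1))).eval b` is linear over `L` in `Q`, so the matrix is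
`M (k, s) (inl p) = F k s (C (X ^ p.2) * X ^ p.1 * (X - C t))`,
`M (k, s) (inr r) = F k s (- (C (X ^ r) * A))`. `exists_kernel` (Y20): the number of unknowns is at
least `m (ν + 1) - m (m - 1) / 2 + (l + 1)` (`count_unknowns m (ν + 3)`), larger than `m (l + 1)` by
`hcard`. So `(X - C b) ^ (l + 1) ∣ Q.coeff i` for `1 ≤ i ≤ m` (`pow_dvd_iff_taylor`), and for `i > m`
because `Q.coeff i = 0` (`natDegree G < m`, `A.natDegree = m`). For `i = 0`:
`Q.eval t = - u * A.eval t` is divisible by `hdvd`, `Q.eval t = ∑ i, Q.coeff i * t ^ i`. Therefore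
`Q = C ((X - C b) ^ (l + 1)) * R` (`C_dvd_iff_dvd_coeff`).
`G ≠ 0`: otherwise `(X - C b) ^ (l + 1) ∣ u * A.coeff i` for all `i`; by `hAb` some `A.coeff i` does
not vanish at `b`, so is coprime to `X - C b`, so `(X - C b) ^ (l + 1) ∣ u`, `u = 0` by the degree,
and then `z = 0`.
Degree of `R`: `C ((X - C b) ^ (l + 1)) * R = Q`, `R.natDegree = Q.natDegree ≤ m`, and
`(R.coeff i).natDegree ≤ (Q.coeff i).natDegree ≤ ν + l + n`.
Sizes: `gg v (C (X ^ j) * X ^ i * (X - C t)) = gg v (X - C t) ≤ max 1 (gv v t) ≤ exp (cH n l * τ)`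
with coefficients of degree at most `ν + l`; `gg v (C (X ^ r) * A) = gg v A ≤ exp τ` with coefficients
of degree at most `l + n`; so (`hasseDeriv_eval_le`) all entries of the matrix are at most
`exp ((cH n l + ν + l + n + 2) τ)`, `v (z j) ≤ exp (m (l + 1) (cH n l + ν + l + n + 2) τ)`, the same for
`gg v G`, `gv v u`; `gg v R ≤ gg v Q` (the Gauss norm of `(X - C b) ^ (l + 1)` is at least `1`)
`≤ max (gg v G * exp (cH n l * τ)) (gv v u * gg v A)`. -/
theorem exists_interp1 {A : L[X][X]} {n l ν : ℕ} (hA : Box n A)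
    {b : L} {t : L[X]} (ht : t.natDegree ≤ l) (hdvd : (X - C b) ^ (l + 1) ∣ A.eval t)
    (hAb : A.map (evalRingHom b) ≠ 0)
    (hcard : A.natDegree * (l + 1) + A.natDegree * (A.natDegree - 1) / 2 <
      A.natDegree * (ν + 1) + (l + 1)) :
    ∃ (G R : L[X][X]) (u : L[X]), G ≠ 0 ∧ G.degree < A.natDegree ∧
      (∀ i j, (G.coeff i).coeff j ≠ 0 → i + j ≤ ν) ∧ R.natDegree ≤ A.natDegree ∧
      (∀ i, (R.coeff i).natDegree ≤ ν + l + n) ∧
      G * (X - C t) = C u * A + C ((X - C b) ^ (l + 1)) * R ∧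
      ∀ (v : Valuation L ℤᵐ⁰) (τ : ℕ), gg v A ≤ exp (τ : ℤ) → v b ≤ exp (τ : ℤ) →
        gv v t ≤ exp ((cH n l * τ : ℕ) : ℤ) →
        gg v G ≤ exp ((cG n A.natDegree l ν * τ : ℕ) : ℤ) ∧
        gg v R ≤ exp ((cG n A.natDegree l ν * τ : ℕ) : ℤ) := by
  classical
  obtain ⟨m, hm⟩ : ∃ m, m = A.natDegree := ⟨_, rfl⟩
  rw [← hm] at hcard ⊢
  obtain ⟨d, hd⟩ : ∃ d : L[X], d = (X - C b) ^ (l + 1) := ⟨_, rfl⟩
  have hd0 : d ≠ 0 := by rw [hd]; exact pow_ne_zero _ (X_sub_C_ne_zero b)
  rw [← hd] at hdvd ⊢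
  let I₁ := {p : Fin m × Fin (ν + 3) // p.1.1 + p.2.1 + 3 ≤ ν + 3}
  let M : Matrix (Fin m × Fin (l + 1)) (I₁ ⊕ Fin (l + 1)) L := fun x j =>
    (hasseDeriv x.2.1 ((m2_q m ν l A t j).coeff (x.1.1 + 1))).eval b
  have hc1 : Fintype.card (Fin m × Fin (l + 1)) = m * (l + 1) := by
    rw [Fintype.card_prod, Fintype.card_fin, Fintype.card_fin]
  have hc2 : Fintype.card (I₁ ⊕ Fin (l + 1)) =
      (Finset.univ.filter fun p : Fin m × Fin (ν + 3) => p.1.1 + p.2.1 + 3 ≤ ν + 3).card +
        (l + 1) := by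
    rw [Fintype.card_sum, Fintype.card_fin]
    congr 1
    exact Fintype.card_subtype _
  obtain ⟨z, hz0, hMz, hzv⟩ := exists_kernel M (by
    rw [hc1, hc2]
    have h1 := count_unknowns m (ν + 3)
    have h2 : m * (ν + 3) = m * (ν + 1) + 2 * m := by ring
    omega)
  obtain ⟨G, hGdef⟩ : ∃ G : L[X][X], G = ∑ p : I₁, C (C (z (Sum.inl p))) *
    (C (X ^ p.1.2.1) * X ^ p.1.1.1) := ⟨_, rfl⟩
  obtain ⟨u, hudef⟩ : ∃ u : L[X], u = ∑ r : Fin (l + 1), C (z (Sum.inr r)) * X ^ r.1 := ⟨_, rfl⟩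
  obtain ⟨Q, hQdef⟩ : ∃ Q : L[X][X], Q = G * (X - C t) - C u * A := ⟨_, rfl⟩
  have hQsum : Q = ∑ j, C (C (z j)) * m2_q m ν l A t j := by
    rw [hQdef, hGdef, hudef, m2_sum]
  have hG : ∀ i j, (G.coeff i).coeff j = ∑ p : I₁, if p.1.1.1 = i ∧ p.1.2.1 = j then
      z (Sum.inl p) else 0 := by
    intro i j
    rw [hGdef]
    exact m2_coeff (fun p => z (Sum.inl p)) i j
  have hGp : ∀ p : I₁, (G.coeff p.1.1.1).coeff p.1.2.1 = z (Sum.inl p) := by
    intro p
    rw [hG, Finset.sum_eq_single p]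
    · rw [if_pos ⟨rfl, rfl⟩]
    · intro p' _ hne
      rw [if_neg]
      rintro ⟨h1, h2⟩
      exact hne (Subtype.ext (Prod.ext (Fin.ext h1) (Fin.ext h2)))
    · intro h; exact absurd (Finset.mem_univ p) h
  have hup : ∀ r : Fin (l + 1), u.coeff r.1 = z (Sum.inr r) := by
    intro r
    rw [hudef, finsetSum_coeff, Finset.sum_eq_single r]
    · rw [coeff_C_mul, coeff_X_pow, if_pos rfl, mul_one]
    · intro r' _ hne
      rw [coeff_C_mul, coeff_X_pow, if_neg (fun h => hne (Fin.ext h.symm)), mul_zero]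
    · intro h; exact absurd (Finset.mem_univ r) h
  have hGcoef : ∀ i j, (G.coeff i).coeff j ≠ 0 → i < m ∧ i + j ≤ ν := by
    intro i j hij
    rw [hG] at hij
    obtain ⟨p, -, hp⟩ := Finset.exists_ne_zero_of_sum_ne_zero hij
    by_cases h : p.1.1.1 = i ∧ p.1.2.1 = j
    · have h1 := p.2
      have h2 := p.1.1.2
      omega
    · rw [if_neg h] at hp
      exact absurd rfl hp
  have hGm : ∀ i, m ≤ i → G.coeff i = 0 := by
    intro i hi
    ext j
    rw [coeff_zero]
    by_contra hne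
    have := (hGcoef i j hne).1
    omega
  have hGdeg : G.degree < m := by
    rw [degree_lt_iff_coeff_zero]
    exact hGm
  have hGnd : ∀ i, (G.coeff i).natDegree ≤ ν := by
    intro i
    rw [natDegree_le_iff_coeff_eq_zero]
    intro j hj
    by_contra hne
    have := (hGcoef i j hne).2
    omega
  have hudeg : u.degree < (l + 1 : ℕ) := by
    rw [degree_lt_iff_coeff_zero, hudef]
    intro i hi
    rw [finsetSum_coeff]
    refine Finset.sum_eq_zero fun r _ => ?_
    rw [coeff_C_mul, coeff_X_pow, if_neg, mul_zero]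
    have := r.2
    omega
  have hund : u.natDegree ≤ l := by
    by_cases hu0 : u = 0
    · rw [hu0, natDegree_zero]; exact Nat.zero_le _
    · rw [degree_eq_natDegree hu0] at hudeg
      have : u.natDegree < l + 1 := by exact_mod_cast hudeg
      omega
  -- the coefficients of `Q`
  have hQc : ∀ i, Q.coeff (i + 1) = G.coeff i - G.coeff (i + 1) * t - u * A.coeff (i + 1) := by
    intro i
    rw [hQdef, coeff_sub, coeff_mul_X_sub_C, coeff_C_mul]
  have hQc0 : Q.coeff 0 = -(G.coeff 0 * t) - u * A.coeff 0 := by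
    rw [hQdef, coeff_sub, coeff_C_mul, mul_coeff_zero, coeff_sub, coeff_X_zero, coeff_C_zero,
      zero_sub, mul_neg]
  have hQm : Q.natDegree ≤ m := by
    rw [natDegree_le_iff_coeff_eq_zero]
    intro N hN
    obtain ⟨N', rfl⟩ : ∃ N', N = N' + 1 := ⟨N - 1, by omega⟩
    rw [hQc, hGm N' (by omega), hGm (N' + 1) (by omega),
      coeff_eq_zero_of_natDegree_lt (by rw [← hm]; exact hN), zero_mul, mul_zero, sub_zero,
      sub_zero]
  have hQd : ∀ i, (Q.coeff i).natDegree ≤ ν + l + n := by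
    intro i
    rcases i with _ | i
    · rw [hQc0]
      refine (natDegree_sub_le _ _).trans (max_le ?_ ?_)
      · rw [natDegree_neg]
        refine natDegree_mul_le.trans ?_
        have := hGnd 0
        omega
      · refine natDegree_mul_le.trans ?_
        have := hA.2 0
        omega
    · rw [hQc]
      refine (natDegree_sub_le _ _).trans (max_le ((natDegree_sub_le _ _).trans
        (max_le ?_ ?_)) ?_)
      · have := hGnd i
        omega
      · refine natDegree_mul_le.trans ?_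
        have := hGnd (i + 1)
        omega
      · refine natDegree_mul_le.trans ?_
        have := hA.2 (i + 1)
        omega
  -- divisibility
  have hdiv1 : ∀ i, d ∣ Q.coeff (i + 1) := by
    intro i
    by_cases hi : i < m
    · rw [hd, pow_dvd_iff_taylor]
      intro s hs
      have h1 := congrFun hMz (⟨i, hi⟩, ⟨s, hs⟩)
      rw [Matrix.mulVec, dotProduct, Pi.zero_apply] at h1
      rw [hQsum, m2_F]
      exact h1
    · rw [coeff_eq_zero_of_natDegree_lt (by omega)]
      exact dvd_zero _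
  have hdiv0 : d ∣ Q.coeff 0 := by
    have h1 : Q.eval t = (divX Q).eval t * t + Q.coeff 0 := by
      conv_lhs => rw [← divX_mul_X_add Q]
      rw [eval_add, eval_mul, eval_X, eval_C]
    have h2 : d ∣ Q.eval t := by
      rw [hQdef, eval_sub, eval_mul, eval_sub, eval_X, eval_C, sub_self, mul_zero, eval_mul, eval_C,
        zero_sub]
      exact (dvd_mul_of_dvd_right hdvd u).neg_right
    have h3 : d ∣ (divX Q).eval t := by
      have h4 : C d ∣ divX Q := by
        rw [C_dvd_iff_dvd_coeff]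
        intro i
        rw [coeff_divX]
        exact hdiv1 i
      have h5 := eval_dvd (x := t) h4
      rwa [eval_C] at h5
    have h6 : Q.coeff 0 = Q.eval t - (divX Q).eval t * t := by rw [h1]; ring
    rw [h6]
    exact dvd_sub h2 (dvd_mul_of_dvd_left h3 t)
  have hdivQ : C d ∣ Q := by
    rw [C_dvd_iff_dvd_coeff]
    intro i
    rcases i with _ | i
    · exact hdiv0
    · exact hdiv1 i
  obtain ⟨R, hR⟩ := hdivQ
  have hG0 : G ≠ 0 := by
    intro h0
    obtain ⟨i, hi⟩ : ∃ i, (A.coeff i).eval b ≠ 0 := by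
      by_contra hcon
      push Not at hcon
      apply hAb
      ext i
      rw [coeff_map, coeff_zero]
      exact hcon i
    have h1 : d ∣ u * A.coeff i := by
      have h2 : C d ∣ C u * A := by
        have h3 : C u * A = -(C d * R) := by
          rw [← hR, hQdef, h0]; ring
        rw [h3]
        exact (dvd_mul_right _ _).neg_right
      rw [C_dvd_iff_dvd_coeff] at h2
      have h4 := h2 i
      rwa [coeff_C_mul] at h4
    have h2 : IsCoprime d (A.coeff i) := by
      rw [hd]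
      refine IsCoprime.pow_left ?_
      rw [(irreducible_X_sub_C b).coprime_iff_not_dvd, dvd_iff_isRoot]
      exact hi
    have h3 : u = 0 := by
      refine eq_zero_of_dvd_of_degree_lt (h2.dvd_of_dvd_mul_right h1) ?_
      rw [hd, degree_pow, degree_X_sub_C, nsmul_one]
      exact_mod_cast hudeg
    apply hz0
    funext j
    rcases j with p | r
    · rw [← hGp p, h0]; simp
    · rw [← hup r, h3]; simp
  refine ⟨G, R, u, hG0, hGdeg, fun i j hij => (hGcoef i j hij).2, ?_, ?_, ?_, ?_⟩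
  · rw [hR, natDegree_C_mul hd0] at hQm
    exact hQm
  · intro i
    by_cases hRi : R.coeff i = 0
    · rw [hRi, natDegree_zero]; exact Nat.zero_le _
    · have h1 := hQd i
      rw [hR, coeff_C_mul, natDegree_mul hd0 hRi] at h1
      omega
  · rw [← hR, hQdef]; ring
  · intro v τ hτA hτb hτt
    have hM : ∀ i j, v (M i j) ≤ exp (((cH n l + ν + l + n + 2) * τ : ℕ) : ℤ) := fun i j =>
      m2_entry hA ht b v hτA hτb hτt _ _ _
    have hz := hzv v _ hM
    rw [hc1] at hz
    obtain ⟨N, hN⟩ : ∃ N, N = m * (l + 1) * ((cH n l + ν + l + n + 2) * τ) := ⟨_, rfl⟩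
    rw [← hN] at hz
    have hcG : cG n m l ν * τ = N + cH n l * τ + τ := by
      rw [hN, cG]; ring
    have hgG : gg v G ≤ exp (N : ℤ) := by
      refine gg_le v fun i j => ?_
      rw [hG]
      refine Valuation.map_sum_le v fun p _ => ?_
      split_ifs
      · exact hz _
      · rw [map_zero]; exact zero_le
    have hgu : gv v u ≤ exp (N : ℤ) := by
      rw [gv_apply]
      refine gn_le v fun i => ?_
      rw [hudef, finsetSum_coeff]
      refine Valuation.map_sum_le v fun r _ => ?_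
      rw [coeff_C_mul, coeff_X_pow]
      split_ifs
      · rw [mul_one]; exact hz _
      · rw [mul_zero, map_zero]; exact zero_le
    have h1X : gg v (X : L[X][X]) = 1 := gn_X (gv v)
    have h2C : ∀ w : L[X], gg v (C w) = gv v w := fun w => gn_C (gv v) w
    constructor
    · refine hgG.trans ?_
      rw [exp_le_exp, hcG]
      push_cast
      have h1 : (0 : ℤ) ≤ (cH n l : ℤ) * τ := by positivity
      have h2 : (0 : ℤ) ≤ (τ : ℤ) := Int.natCast_nonneg _
      omega
    · have hQsz : gg v Q ≤ exp ((cG n m l ν * τ : ℕ) : ℤ) := by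
        rw [hQdef]
        refine (Valuation.map_sub _ _ _).trans (max_le ?_ ?_)
        · rw [map_mul]
          have h3 : gg v (X - C t) ≤ exp ((cH n l * τ : ℕ) : ℤ) := by
            refine (Valuation.map_sub _ _ _).trans (max_le ?_ ?_)
            · rw [h1X]; exact m2_one_le _
            · rw [h2C]; exact hτt
          refine (mul_le_mul' hgG h3).trans ?_
          rw [← exp_add, exp_le_exp, hcG]
          push_cast
          have h2 : (0 : ℤ) ≤ (τ : ℤ) := Int.natCast_nonneg _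
          omega
        · rw [map_mul, h2C]
          refine (mul_le_mul' hgu hτA).trans ?_
          rw [← exp_add, exp_le_exp, hcG]
          push_cast
          have h1 : (0 : ℤ) ≤ (cH n l : ℤ) * τ := by positivity
          omega
      refine le_trans ?_ hQsz
      rw [hR, map_mul, h2C]
      have h3 : (1 : ℤᵐ⁰) ≤ gv v d := by
        rw [hd, map_pow]
        refine one_le_pow₀ ?_
        have h4 := le_gn v (X - C b) 1
        rw [coeff_sub, coeff_X_one, coeff_C, if_neg one_ne_zero, sub_zero, map_one] at h4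
        exact h4
      calc gg v R = 1 * gg v R := (one_mul _).symm
        _ ≤ gv v d * gg v R := mul_le_mul' h3 le_rfl

end Pool.Agent.Lib.MP_44a246_ntPC
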