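import Mathlib
import Pool.Agent.Lib.MP_44a246_ntY.Y09
import Pool.Agent.Lib.MP_44a246_ntPC.M1
import Pool.Agent.Lib.MP_44a246_ntPC.M2

/-!
The local estimates of the interpolation polynomial at one point.
-/

namespace Pool.Agent.Lib.MP_44a246_ntPC

open Pool.Agent.Lib.MP_44a246_nt
open Pool.Agent.Lib.MP_44a246_ntL
open Pool.Agent.Lib.MP_44a246_ntS
open Pool.Agent.Lib.MP_44a246_ntY
open WithZero Polynomial

variable {L : Type*} [Field L]

/-- The interpolation polynomial `G` at the point `(b, c)` of the curve `A = 0`, of multiplicity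
`l + 1`. -/
structure PtData (A : L[X][X]) (n l ν : ℕ) (b c : L) (G R : L[X][X]) (u t : L[X]) : Prop where
  G0 : G ≠ 0
  Gd : G.degree < A.natDegree
  Gc : ∀ i j, (G.coeff i).coeff j ≠ 0 → i + j ≤ ν
  Rd : R.natDegree ≤ A.natDegree
  Rc : ∀ i, (R.coeff i).natDegree ≤ ν + l + n
  td : t.natDegree ≤ l
  tb : t.eval b = c
  eq : G * (X - C t) = C u * A + C ((X - C b) ^ (l + 1)) * R
  size : ∀ (v : Valuation L ℤᵐ⁰) (τ : ℕ), gg v A ≤ exp (τ : ℤ) → v b ≤ exp (τ : ℤ) →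
    v c ≤ exp (τ : ℤ) → exp (-(τ : ℤ)) ≤ v ((derivative A).evalEval b c) →
    gg v G ≤ exp ((cG n A.natDegree l ν * τ : ℕ) : ℤ) ∧
    gg v R ≤ exp ((cG n A.natDegree l ν * τ : ℕ) : ℤ) ∧ gv v t ≤ exp ((cH n l * τ : ℕ) : ℤ)

theorem exists_ptData {A : L[X][X]} {n : ℕ} (hA : Irreducible A) (hbox : Box n A)
    (hdeg : A.natDegree ≠ 0) {b c : L} (h0 : A.evalEval b c = 0)
    (h1 : (derivative A).evalEval b c ≠ 0) {l ν : ℕ}
    (hcard : A.natDegree * (l + 1) + A.natDegree * (A.natDegree - 1) / 2 <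
      A.natDegree * (ν + 1) + (l + 1)) :
    ∃ (G R : L[X][X]) (u t : L[X]), PtData A n l ν b c G R u t := by
  obtain ⟨t, t1, t2, t3, t4⟩ := exists_root hbox h0 h1 l
  obtain ⟨G, R, u, g1, g2, g3, g4, g5, g6, g7⟩ := exists_interp1 hbox t1 t3
    (map_eval_ne_zero hA hdeg b) hcard
  refine ⟨G, R, u, t, g1, g2, g3, g4, g5, t1, t2, g6, fun v τ a1 a2 a3 a4 => ?_⟩
  have e1 := t4 v τ a1 a2 a3 a4
  exact ⟨(g7 v τ a1 a2 e1).1, (g7 v τ a1 a2 e1).2, e1⟩

variable (v : Valuation L ℤᵐ⁰)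

private theorem m3_log_ge {x : ℤᵐ⁰} {a : ℤ} (h : exp a ≤ x) : a ≤ log x := by
  have hx : x ≠ 0 := (lt_of_lt_of_le exp_pos h).ne'
  rw [← log_exp a]
  exact (log_le_log exp_ne_zero hx).2 h

private theorem m3_log_le {x : ℤᵐ⁰} {a : ℤ} (hx : x ≠ 0) (h : x ≤ exp a) : log x ≤ a :=
  (log_le_iff_le_exp hx).2 h

private theorem m3_far {y₁ b : L} {τ : ℕ} (hb : v b ≤ exp (τ : ℤ))
    (h : exp (-(τ : ℤ)) ≤ v (y₁ - b)) :
    log (max 1 (v y₁)) ≤ log (v (y₁ - b)) + 2 * τ := by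
  have h0 : (max 1 (v y₁) : ℤᵐ⁰) ≠ 0 := (lt_of_lt_of_le zero_lt_one (le_max_left _ _)).ne'
  have h1 := m3_log_ge h
  by_cases hc : (max 1 (v y₁) : ℤᵐ⁰) ≤ exp (τ : ℤ)
  · have h2 := m3_log_le h0 hc
    linarith
  · rw [not_le] at hc
    have h3 : (1 : ℤᵐ⁰) ≤ exp (τ : ℤ) := by
      rw [← exp_zero, exp_le_exp]; positivity
    have h4 : exp (τ : ℤ) < v y₁ := by
      rcases lt_max_iff.1 hc with h5 | h5
      · exact absurd h5 (not_lt.2 h3)
      · exact h5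
    have h5 : max 1 (v y₁) = v y₁ := max_eq_right (h3.trans h4.le)
    have h6 : v (y₁ - b) = v y₁ := Valuation.map_sub_eq_of_lt_left v (lt_of_le_of_lt hb h4)
    rw [h5, h6]
    have : (0 : ℤ) ≤ τ := by positivity
    linarith

/-- the value as a double sum -/
private theorem m3_sum (G : L[X][X]) (y₁ y : L) {m n : ℕ} (hm : G.natDegree ≤ m)
    (hn : ∀ i, (G.coeff i).natDegree ≤ n) :
    G.evalEval y₁ y = ∑ i ∈ Finset.range (m + 1), ∑ j ∈ Finset.range (n + 1),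
      (G.coeff i).coeff j * y₁ ^ j * y ^ i := by
  rw [evalEval, eval_eq_sum_range' (Nat.lt_succ_of_le hm), eval_finsetSum]
  refine Finset.sum_congr rfl fun i _ => ?_
  rw [← C_pow, eval_mul, eval_C, eval_eq_sum_range' (Nat.lt_succ_of_le (hn i)), Finset.sum_mul]

/-- a bound for all monomials -/
private theorem m3_bound (G : L[X][X]) (y₁ y : L) {r : ℤᵐ⁰}
    (h : ∀ i j, v ((G.coeff i).coeff j * y₁ ^ j * y ^ i) ≤ r) :
    v (G.evalEval y₁ y) ≤ r := by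
  have h3 : ∀ i, (G.coeff i).natDegree ≤ (Finset.range (G.natDegree + 1)).sup
      (fun i => (G.coeff i).natDegree) := by
    intro i
    by_cases hi : i ≤ G.natDegree
    · exact Finset.le_sup (f := fun i => (G.coeff i).natDegree)
        (Finset.mem_range.2 (Nat.lt_succ_of_le hi))
    · rw [coeff_eq_zero_of_natDegree_lt (not_le.1 hi), natDegree_zero]
      exact Nat.zero_le _
  rw [m3_sum G y₁ y le_rfl h3]
  exact Valuation.map_sum_le v fun i _ => Valuation.map_sum_le v fun j _ => h i j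

private theorem m3_one_le (τ : ℕ) : (1 : ℤᵐ⁰) ≤ exp (τ : ℤ) := by
  rw [← exp_zero, exp_le_exp]
  positivity

/-- the trivial estimate, with a sharper constant -/
private theorem m3_triv {A G R : L[X][X]} {n l ν : ℕ} {b c : L} {u t : L[X]}
    (hG : PtData A n l ν b c G R u t) {τ : ℕ} (hA : gg v A ≤ exp (τ : ℤ)) (hb : v b ≤ exp (τ : ℤ))
    (hc : v c ≤ exp (τ : ℤ)) (hY : exp (-(τ : ℤ)) ≤ v ((derivative A).evalEval b c)) {y₁ y : L}
    (hle : v y ≤ exp (τ : ℤ) * max 1 (v y₁)) (hG0 : G.evalEval y₁ y ≠ 0) :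
    log (v (G.evalEval y₁ y)) ≤
      ((cG n A.natDegree l ν + A.natDegree) * τ : ℕ) + ν * log (max 1 (v y₁)) := by
  have hM : (1 : ℤᵐ⁰) ≤ max 1 (v y₁) := le_max_left _ _
  have hM0 : (max 1 (v y₁) : ℤᵐ⁰) ≠ 0 := (lt_of_lt_of_le zero_lt_one hM).ne'
  have hτ1 := m3_one_le τ
  have hsz := (hG.size v τ hA hb hc hY).1
  have h1 : v (G.evalEval y₁ y) ≤
      exp ((cG n A.natDegree l ν * τ : ℕ) : ℤ) * exp (τ : ℤ) ^ A.natDegree *
        max 1 (v y₁) ^ ν := by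
    refine m3_bound v G y₁ y fun i j => ?_
    by_cases hc0 : (G.coeff i).coeff j = 0
    · rw [hc0, zero_mul, zero_mul, map_zero]
      exact zero_le
    · have h2 := hG.Gc i j hc0
      have h3 : i ≤ A.natDegree := by
        by_contra h4
        rw [not_le] at h4
        apply hc0
        have h5 : G.coeff i = 0 := by
          apply coeff_eq_zero_of_degree_lt
          exact lt_trans hG.Gd (by exact_mod_cast h4)
        rw [h5, coeff_zero]
      rw [map_mul, map_mul, map_pow, map_pow]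
      calc v ((G.coeff i).coeff j) * v y₁ ^ j * v y ^ i
          ≤ exp ((cG n A.natDegree l ν * τ : ℕ) : ℤ) * max 1 (v y₁) ^ j *
            (exp (τ : ℤ) * max 1 (v y₁)) ^ i := by
            gcongr
            · exact (le_gg v G i j).trans hsz
            · exact le_max_right _ _
        _ = exp ((cG n A.natDegree l ν * τ : ℕ) : ℤ) * exp (τ : ℤ) ^ i *
              max 1 (v y₁) ^ (i + j) := by
            rw [mul_pow, pow_add]
            rw [mul_assoc, mul_assoc, mul_left_comm (max 1 (v y₁) ^ j),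
              mul_comm (max 1 (v y₁) ^ j)]
        _ ≤ exp ((cG n A.natDegree l ν * τ : ℕ) : ℤ) * exp (τ : ℤ) ^ A.natDegree *
              max 1 (v y₁) ^ ν := by
            have e1 : (exp (τ : ℤ) : ℤᵐ⁰) ^ i ≤ exp (τ : ℤ) ^ A.natDegree :=
              pow_le_pow_right₀ hτ1 h3
            have e2 : (max 1 (v y₁) : ℤᵐ⁰) ^ (i + j) ≤ max 1 (v y₁) ^ ν :=
              pow_le_pow_right₀ hM h2
            exact mul_le_mul' (mul_le_mul' le_rfl e1) e2
  have hvG : v (G.evalEval y₁ y) ≠ 0 := (v.ne_zero_iff).2 hG0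
  have h4 := (log_le_log hvG (mul_ne_zero (mul_ne_zero exp_ne_zero
    (pow_ne_zero _ exp_ne_zero)) (pow_ne_zero _ hM0))).2 h1
  rw [log_mul (mul_ne_zero exp_ne_zero (pow_ne_zero _ exp_ne_zero)) (pow_ne_zero _ hM0),
    log_mul exp_ne_zero (pow_ne_zero _ exp_ne_zero), log_pow, log_pow, log_exp, log_exp,
    nsmul_eq_mul, nsmul_eq_mul] at h4
  push_cast at h4 ⊢
  linarith

/-- the change of the value of a polynomial in one variable -/
private theorem m3_sub {t : L[X]} {l : ℕ} (ht : t.natDegree ≤ l) {ρ τ : ℕ}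
    (hρ : gv v t ≤ exp (ρ : ℤ)) {y₁ b : L} (h1 : v y₁ ≤ exp (τ : ℤ)) (h3 : v b ≤ exp (τ : ℤ)) :
    v (t.eval y₁ - t.eval b) ≤ exp (ρ : ℤ) * exp (τ : ℤ) ^ l * v (y₁ - b) := by
  have hτ1 := m3_one_le τ
  have hpw : ∀ j : ℕ, v (y₁ ^ j - b ^ j) ≤ exp (τ : ℤ) ^ j * v (y₁ - b) := by
    intro j
    rw [← (Commute.all y₁ b).geom_sum₂_mul j, map_mul]
    refine mul_le_mul' ?_ le_rfl
    refine Valuation.map_sum_le v fun k hk => ?_
    rw [map_mul, map_pow, map_pow]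
    have hk' := Finset.mem_range.1 hk
    calc v y₁ ^ k * v b ^ (j - 1 - k) ≤ exp (τ : ℤ) ^ k * exp (τ : ℤ) ^ (j - 1 - k) := by
          gcongr
      _ = exp (τ : ℤ) ^ (k + (j - 1 - k)) := (pow_add _ _ _).symm
      _ ≤ exp (τ : ℤ) ^ j := pow_le_pow_right₀ hτ1 (by omega)
  rw [eval_eq_sum_range' (Nat.lt_succ_of_le ht), eval_eq_sum_range' (Nat.lt_succ_of_le ht),
    ← Finset.sum_sub_distrib]
  refine Valuation.map_sum_le v fun i hi => ?_
  have hi' := Finset.mem_range.1 hi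
  rw [← mul_sub, map_mul]
  calc v (t.coeff i) * v (y₁ ^ i - b ^ i)
      ≤ exp (ρ : ℤ) * (exp (τ : ℤ) ^ i * v (y₁ - b)) := by
        gcongr
        · exact (le_gn v t i).trans hρ
        · exact hpw i
    _ ≤ exp (ρ : ℤ) * (exp (τ : ℤ) ^ l * v (y₁ - b)) :=
        mul_le_mul' le_rfl (mul_le_mul' (pow_le_pow_right₀ hτ1 (by omega)) le_rfl)
    _ = _ := by rw [mul_assoc]

/-- the trivial estimate.

Proof. `v (G (y₁, y)) ≤ exp (cG τ) * exp (m τ) * max 1 (v y₁) ^ ν` monomial by monomial (model: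
`eval_le_far`, `y23_bound` in Y23.lean): `i < m = A.natDegree`, `i + j ≤ ν`,
`v (y₁ ^ j * y ^ i) ≤ max 1 (v y₁) ^ j * (exp τ * max 1 (v y₁)) ^ i`. Take logarithms;
`cL n m l ν ≥ cG n m l ν + m`. -/
theorem log_far {A G R : L[X][X]} {n l ν : ℕ} {b c : L} {u t : L[X]}
    (hG : PtData A n l ν b c G R u t) {τ : ℕ} (hA : gg v A ≤ exp (τ : ℤ)) (hb : v b ≤ exp (τ : ℤ))
    (hc : v c ≤ exp (τ : ℤ)) (hY : exp (-(τ : ℤ)) ≤ v ((derivative A).evalEval b c)) {y₁ y : L}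
    (hle : v y ≤ exp (τ : ℤ) * max 1 (v y₁)) (hG0 : G.evalEval y₁ y ≠ 0) :
    log (v (G.evalEval y₁ y)) ≤ cL n A.natDegree l ν * τ + ν * log (max 1 (v y₁)) := by
  have h1 := m3_triv v hG hA hb hc hY hle hG0
  have h2 : (cG n A.natDegree l ν + A.natDegree) * τ ≤ cL n A.natDegree l ν * τ := by
    apply Nat.mul_le_mul_right
    unfold cL
    have : 0 ≤ 2 * (l + 1) * (cH n l + l + 2) := Nat.zero_le _
    omega
  have h3 : (((cG n A.natDegree l ν + A.natDegree) * τ : ℕ) : ℤ) ≤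
      ((cL n A.natDegree l ν * τ : ℕ) : ℤ) := by exact_mod_cast h2
  push_cast at h1 h3 ⊢
  linarith

/-- **The local estimate** at a place at which the point is not near `(b, c)`.

Proof. `dd v y₁ b = log (max 1 (v y₁)) - log (v (y₁ - b))`. Let `m = A.natDegree`,
`c' = cH n l + l + 2`.
Case 1: `exp (-(c' τ)) ≤ v (y₁ - b)`. Then `log (max 1 (v y₁)) ≤ log (v (y₁ - b)) + 2 c' τ` (model:
`y24a_far` in Y24a.lean, with `c' τ` in place of `τ`; `v b ≤ exp τ ≤ exp (c' τ)`), and the trivial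
estimate `log (v G) ≤ (cG + m) τ + ν log (max 1 (v y₁))` gives the claim, because
`cL ≥ cG + m + 2 (l + 1) c'`.
Case 2: `v (y₁ - b) < exp (-(c' τ))`. Then `v y₁ ≤ exp τ`, `v y ≤ exp (2 τ)`, and
`exp (-τ) ≤ v (y - c)` by `hnear`. Next `v (t.eval y₁ - c) ≤ exp ((cH n l + l) τ) * v (y₁ - b)`
(`t.eval y₁ - t.eval b`, apply `eval_sub_le` of Y23 to `C t`, or directly) `< exp (-τ) ≤ v (y - c)`, so
`v (y - t.eval y₁) = v (y - c) ≥ exp (-τ)`. Evaluate `hG.eq` at `(y₁, y)`: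
`G (y₁, y) * (y - t.eval y₁) = (y₁ - b) ^ (l + 1) * R (y₁, y)` (as `A (y₁, y) = 0`), and
`v (R (y₁, y)) ≤ exp ((cG + (ν + l + n) + 2 m) τ)`. So
`log (v G) ≤ τ + (l + 1) log (v (y₁ - b)) + (cG + (ν + l + n) + 2 m) τ`, and
`0 ≤ log (max 1 (v y₁)) ≤ τ`; `cL ≥ cG + 1 + (ν + l + n) + 2 m + (l + 1)`. -/
theorem log_near {A G R : L[X][X]} {n l ν : ℕ} {b c : L} {u t : L[X]}
    (hG : PtData A n l ν b c G R u t) {τ : ℕ} (hA : gg v A ≤ exp (τ : ℤ)) (hb : v b ≤ exp (τ : ℤ))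
    (hc : v c ≤ exp (τ : ℤ)) (hY : exp (-(τ : ℤ)) ≤ v ((derivative A).evalEval b c)) {y₁ y : L}
    (hAy : A.evalEval y₁ y = 0) (hle : v y ≤ exp (τ : ℤ) * max 1 (v y₁))
    (hnear : exp (-(τ : ℤ)) ≤ max (v (y₁ - b)) (v (y - c))) (hG0 : G.evalEval y₁ y ≠ 0)
    (hy : y₁ ≠ b) :
    log (v (G.evalEval y₁ y)) ≤ cL n A.natDegree l ν * τ + ν * log (max 1 (v y₁)) -
      (l + 1) * dd v y₁ b := by
  have hM : (1 : ℤᵐ⁰) ≤ max 1 (v y₁) := le_max_left _ _
  have hM0 : (max 1 (v y₁) : ℤᵐ⁰) ≠ 0 := (lt_of_lt_of_le zero_lt_one hM).ne'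
  have hτ1 := m3_one_le τ
  have hτ0 : (0 : ℤ) ≤ τ := by positivity
  have hvG : v (G.evalEval y₁ y) ≠ 0 := (v.ne_zero_iff).2 hG0
  have hv0 : v (y₁ - b) ≠ 0 := (v.ne_zero_iff).2 (sub_ne_zero.2 hy)
  obtain ⟨hszG, hszR, hszt⟩ := hG.size v τ hA hb hc hY
  set m := A.natDegree with hm
  set c' : ℕ := cH n l + l + 2 with hc'
  have hc1 : τ ≤ c' * τ := Nat.le_mul_of_pos_left _ (by omega)
  unfold dd
  by_cases hcase : exp (-((c' * τ : ℕ) : ℤ)) ≤ v (y₁ - b)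
  · have h1 := m3_triv v hG hA hb hc hY hle hG0
    have hb' : v b ≤ exp ((c' * τ : ℕ) : ℤ) :=
      hb.trans (exp_le_exp.2 (by exact_mod_cast hc1))
    have h2 := m3_far v hb' hcase
    have h3 : (cG n m l ν + m) * τ + 2 * (l + 1) * (c' * τ) ≤ cL n m l ν * τ := by
      have : cG n m l ν + m + 2 * (l + 1) * c' ≤ cL n m l ν := by
        unfold cL
        rw [← hc']
        omega
      calc (cG n m l ν + m) * τ + 2 * (l + 1) * (c' * τ) =
            (cG n m l ν + m + 2 * (l + 1) * c') * τ := by ring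
        _ ≤ _ := Nat.mul_le_mul_right _ this
    have h4 : (((cG n m l ν + m) * τ : ℕ) : ℤ) + 2 * ((l : ℤ) + 1) * ((c' * τ : ℕ) : ℤ) ≤
        (cL n m l ν : ℤ) * τ := by
      exact_mod_cast h3
    have h5 : ((l : ℤ) + 1) * (log (max 1 (v y₁)) - log (v (y₁ - b))) ≤
        ((l : ℤ) + 1) * (2 * ((c' * τ : ℕ) : ℤ)) :=
      mul_le_mul_of_nonneg_left (by linarith) (by positivity)
    rw [← hm] at h1
    linarith
  · rw [not_le] at hcase
    have hlt1 : v (y₁ - b) < exp (-(τ : ℤ)) := by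
      refine lt_of_lt_of_le hcase (exp_le_exp.2 ?_)
      have : (τ : ℤ) ≤ ((c' * τ : ℕ) : ℤ) := by exact_mod_cast hc1
      linarith
    have hle1 : (exp (-(τ : ℤ)) : ℤᵐ⁰) ≤ exp (τ : ℤ) := exp_le_exp.2 (by linarith)
    have hy₁ : v y₁ ≤ exp (τ : ℤ) := by
      have h1 : y₁ = (y₁ - b) + b := by ring
      rw [h1]
      exact (v.map_add _ _).trans (max_le (hlt1.le.trans hle1) hb)
    have hMle : max 1 (v y₁) ≤ exp (τ : ℤ) := max_le hτ1 hy₁
    have hy2 : v y ≤ exp (τ : ℤ) * exp (τ : ℤ) := hle.trans (mul_le_mul' le_rfl hMle)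
    have hlM : log (max 1 (v y₁)) ≤ τ := m3_log_le hM0 hMle
    have hlM0 : 0 ≤ log (max 1 (v y₁)) := by
      rw [← log_one (M := ℤ)]
      exact (log_le_log one_ne_zero hM0).2 hM
    have hyc : exp (-(τ : ℤ)) ≤ v (y - c) := by
      rcases le_max_iff.1 hnear with h1 | h1
      · exact absurd h1 (not_le.2 hlt1)
      · exact h1
    have ht1 : v (t.eval y₁ - c) < exp (-(τ : ℤ)) := by
      have h1 := m3_sub v hG.td hszt hy₁ hb
      rw [hG.tb] at h1
      have h2 : (exp ((cH n l * τ : ℕ) : ℤ) : ℤᵐ⁰) * exp (τ : ℤ) ^ l ≠ 0 :=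
        mul_ne_zero exp_ne_zero (pow_ne_zero _ exp_ne_zero)
      have h3 : (exp ((cH n l * τ : ℕ) : ℤ) : ℤᵐ⁰) * exp (τ : ℤ) ^ l * v (y₁ - b) <
          exp ((cH n l * τ : ℕ) : ℤ) * exp (τ : ℤ) ^ l * exp (-((c' * τ : ℕ) : ℤ)) := by
        rw [mul_lt_mul_iff_right₀ (zero_lt_iff.2 h2)]
        exact hcase
      have h4 : (exp ((cH n l * τ : ℕ) : ℤ) : ℤᵐ⁰) * exp (τ : ℤ) ^ l *
          exp (-((c' * τ : ℕ) : ℤ)) ≤ exp (-(τ : ℤ)) := by
        rw [← exp_nsmul, ← exp_add, ← exp_add, exp_le_exp]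
        rw [hc']
        push_cast
        simp only [nsmul_eq_mul]
        nlinarith
      exact lt_of_le_of_lt h1 (lt_of_lt_of_le h3 h4)
    have hyt : v (y - t.eval y₁) = v (y - c) := by
      have h1 : y - t.eval y₁ = (y - c) - (t.eval y₁ - c) := by ring
      rw [h1]
      exact Valuation.map_sub_eq_of_lt_left v (lt_of_lt_of_le ht1 hyc)
    have heq : G.evalEval y₁ y * (y - t.eval y₁) = (y₁ - b) ^ (l + 1) * R.evalEval y₁ y := by
      have h1 := congrArg (fun P : L[X][X] => P.evalEval y₁ y) hG.eq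
      simp only [evalEval, eval_mul, eval_sub, eval_X, eval_C, eval_add, eval_pow] at h1
      have h2 : (A.eval (C y)).eval y₁ = 0 := hAy
      rw [h2, mul_zero, zero_add] at h1
      exact h1
    have hR : v (R.evalEval y₁ y) ≤ exp ((cG n m l ν * τ : ℕ) : ℤ) *
        exp (τ : ℤ) ^ (ν + l + n) * (exp (τ : ℤ) * exp (τ : ℤ)) ^ m := by
      refine m3_bound v R y₁ y fun i j => ?_
      by_cases hc0 : (R.coeff i).coeff j = 0
      · rw [hc0, zero_mul, zero_mul, map_zero]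
        exact zero_le
      · have hi : i ≤ m := by
          by_contra h4
          rw [not_le] at h4
          apply hc0
          rw [coeff_eq_zero_of_natDegree_lt (lt_of_le_of_lt hG.Rd h4), coeff_zero]
        have hj : j ≤ ν + l + n := by
          by_contra h4
          rw [not_le] at h4
          exact hc0 (coeff_eq_zero_of_natDegree_lt (lt_of_le_of_lt (hG.Rc i) h4))
        rw [map_mul, map_mul, map_pow, map_pow]
        calc v ((R.coeff i).coeff j) * v y₁ ^ j * v y ^ i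
            ≤ exp ((cG n m l ν * τ : ℕ) : ℤ) * exp (τ : ℤ) ^ j *
              (exp (τ : ℤ) * exp (τ : ℤ)) ^ i := by
              gcongr
              exact (le_gg v R i j).trans hszR
          _ ≤ _ := mul_le_mul' (mul_le_mul' le_rfl (pow_le_pow_right₀ hτ1 hj))
              (pow_le_pow_right₀ (one_le_mul hτ1 hτ1) hi)
    have hfin : v (G.evalEval y₁ y) * exp (-(τ : ℤ)) ≤ v (y₁ - b) ^ (l + 1) *
        (exp ((cG n m l ν * τ : ℕ) : ℤ) *
        exp (τ : ℤ) ^ (ν + l + n) * (exp (τ : ℤ) * exp (τ : ℤ)) ^ m) := by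
      calc v (G.evalEval y₁ y) * exp (-(τ : ℤ))
          ≤ v (G.evalEval y₁ y) * v (y - t.eval y₁) :=
            mul_le_mul' le_rfl (by rw [hyt]; exact hyc)
        _ = v (y₁ - b) ^ (l + 1) * v (R.evalEval y₁ y) := by
            rw [← map_mul, heq, map_mul, map_pow]
        _ ≤ _ := mul_le_mul' le_rfl hR
    have he0 : (exp (τ : ℤ) : ℤᵐ⁰) ≠ 0 := exp_ne_zero
    have hp1 : (exp (τ : ℤ) : ℤᵐ⁰) ^ (ν + l + n) ≠ 0 := pow_ne_zero _ he0
    have hp2 : ((exp (τ : ℤ) : ℤᵐ⁰) * exp (τ : ℤ)) ^ m ≠ 0 :=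
      pow_ne_zero _ (mul_ne_zero he0 he0)
    have hp3 : (exp ((cG n m l ν * τ : ℕ) : ℤ) : ℤᵐ⁰) ≠ 0 := exp_ne_zero
    have hlog := (log_le_log (mul_ne_zero hvG exp_ne_zero) (mul_ne_zero (pow_ne_zero _ hv0)
      (mul_ne_zero (mul_ne_zero hp3 hp1) hp2))).2 hfin
    rw [log_mul hvG exp_ne_zero, log_mul (pow_ne_zero _ hv0) (mul_ne_zero (mul_ne_zero hp3 hp1) hp2),
      log_mul (mul_ne_zero hp3 hp1) hp2, log_mul hp3 hp1, log_pow, log_pow, log_pow,
      log_mul he0 he0, log_exp, log_exp, log_exp, nsmul_eq_mul, nsmul_eq_mul,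
      nsmul_eq_mul] at hlog
    push_cast at hlog
    have h3 : cG n m l ν * τ + (1 + (ν + l + n) + 2 * m + (l + 1)) * τ ≤
        cL n m l ν * τ := by
      have : cG n m l ν + (1 + (ν + l + n) + 2 * m + (l + 1)) ≤ cL n m l ν := by
        unfold cL
        have : 0 ≤ 2 * (l + 1) * (cH n l + l + 2) := Nat.zero_le _
        omega
      calc cG n m l ν * τ + (1 + (ν + l + n) + 2 * m + (l + 1)) * τ =
            (cG n m l ν + (1 + (ν + l + n) + 2 * m + (l + 1))) * τ := by ring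
        _ ≤ _ := Nat.mul_le_mul_right _ this
    have h4 : (cG n m l ν : ℤ) * τ + (1 + ((ν : ℤ) + l + n) + 2 * m + (l + 1)) * τ ≤
        (cL n m l ν : ℤ) * τ := by
      exact_mod_cast h3
    have h5 : ((l : ℤ) + 1) * log (max 1 (v y₁)) ≤ ((l : ℤ) + 1) * τ :=
      mul_le_mul_of_nonneg_left hlM (by positivity)
    have h6 : 0 ≤ (ν : ℤ) * log (max 1 (v y₁)) := mul_nonneg (by positivity) hlM0
    nlinarith


end Pool.Agent.Lib.MP_44a246_ntPC
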