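import Mathlib
import Pool.Agent.Lib.MP_44a246_ntS.SJ4c
import Pool.Agent.Lib.MP_44a246_ntY.Y24
import Pool.Agent.Lib.MP_44a246_ntPC.M3

/-!
The proximity to one point of the curve, with a large multiplicity.
-/

namespace Pool.Agent.Lib.MP_44a246_ntPC

open Pool.Agent.Lib.MP_44a246_nt
open Pool.Agent.Lib.MP_44a246_ntL
open Pool.Agent.Lib.MP_44a246_ntS
open Pool.Agent.Lib.MP_44a246_ntY
open WithZero Polynomial

variable {κ L : Type*} [Field κ] [IsAlgClosed κ] [CharZero κ] [Field L] [Algebra κ L]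

/-- the numbers: the multiplicity is `10 m ^ 2`, the total degree `10 m ^ 2 - 9 m` -/
theorem num3 {m : ℕ} (hm : m ≠ 0) :
    m * ((10 * m ^ 2 - 1) + 1) + m * (m - 1) / 2 <
      m * ((10 * m ^ 2 - 9 * m) + 1) + ((10 * m ^ 2 - 1) + 1) := by
  obtain ⟨k, rfl⟩ := Nat.exists_eq_succ_of_ne_zero hm
  have h1 : 9 * (k + 1) ≤ 10 * (k + 1) ^ 2 := by nlinarith
  have h2 : (k + 1) * (k + 1 - 1) / 2 ≤ (k + 1) * (k + 1) := by
    refine (Nat.div_le_self _ _).trans (Nat.mul_le_mul_left _ (by omega))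
  have h3 : 10 * (k + 1) ^ 2 - 1 + 1 = 10 * (k + 1) ^ 2 := by
    have : 1 ≤ 10 * (k + 1) ^ 2 := by nlinarith
    omega
  have h4 : (k + 1) * (10 * (k + 1) ^ 2 - 9 * (k + 1) + 1) + 9 * (k + 1) ^ 2 =
      (k + 1) * (10 * (k + 1) ^ 2) + (k + 1) := by
    have h5 : 10 * (k + 1) ^ 2 - 9 * (k + 1) + 9 * (k + 1) = 10 * (k + 1) ^ 2 :=
      Nat.sub_add_cancel h1
    generalize 10 * (k + 1) ^ 2 - 9 * (k + 1) = x at h5 ⊢
    nlinarith
  simp only [Nat.succ_eq_add_one] at *
  rw [h3]
  nlinarith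

/-- **The proximity to one point of the curve.** -/
theorem point_ineq (h : IsFF κ L) {τ : Place κ L → ℕ} (hτf : (Function.support τ).Finite)
    {n : ℕ} {A : L[X][X]} (hA : Irreducible A) (hbox : Box n A) (hdeg : A.natDegree ≠ 0)
    {b c : L} (hbc : A.evalEval b c = 0) (hbc1 : (derivative A).evalEval b c ≠ 0)
    (hρA : ∀ w : Place κ L, gg w.1 A ≤ exp (τ w : ℤ))
    (hb : ∀ w : Place κ L, w.1 b ≤ exp (τ w : ℤ)) (hc : ∀ w : Place κ L, w.1 c ≤ exp (τ w : ℤ))
    (hY : ∀ w : Place κ L, exp (-(τ w : ℤ)) ≤ w.1 ((derivative A).evalEval b c))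
    {y₁ y : L} (hAy : A.evalEval y₁ y = 0)
    (hle : ∀ w : Place κ L, w.1 y ≤ exp (τ w : ℤ) * max 1 (w.1 y₁)) {P : Finset (Place κ L)}
    (hnear : ∀ w : Place κ L, w ∉ P → exp (-(τ w : ℤ)) ≤ max (w.1 (y₁ - b)) (w.1 (y - c)))
    (hy : y₁ ≠ b) :
    height κ ![1, y₁] ≤ n * (1 + cG3 n A.natDegree) * ∑ᶠ w, (τ w : ℤ) ∨
    9 * height κ ![1, y₁] ≤ 10 * A.natDegree * ∑ w ∈ P, dd w.1 y₁ b +
      cL3 n A.natDegree * ∑ᶠ w, (τ w : ℤ) := by
  classical
  obtain ⟨G, R, u, t, hG⟩ := exists_ptData hA hbox hdeg hbc hbc1 (num3 hdeg)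
  set m := A.natDegree with hm
  have hTsup : (Function.support fun w : Place κ L => (τ w : ℤ)).Finite :=
    hτf.subset fun w hw h0 => hw (by simp only; rw [h0]; rfl)
  have hT0 : 0 ≤ ∑ᶠ w : Place κ L, (τ w : ℤ) := finsum_nonneg fun w => Int.natCast_nonneg _
  have hA' : A ≠ 0 := hA.ne_zero
  have hcsup : ∀ c : ℤ, (Function.support fun w : Place κ L => c * (τ w : ℤ)).Finite := fun c =>
    hTsup.subset fun w hw h0 => hw (by simp only at h0 ⊢; rw [h0, mul_zero])
  have hGd : G.natDegree < m := by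
    have h1 := hG.Gd
    rw [degree_eq_natDegree hG.G0] at h1
    exact_mod_cast h1
  by_cases hg : G.evalEval y₁ y = 0
  · left
    by_contra hcon
    rw [not_le] at hcon
    have hghA : gh κ A ≤ ∑ᶠ w : Place κ L, (τ w : ℤ) := by
      refine finsum_mono (gg_support h hA') hTsup fun w => ?_
      have h0 : gg w.1 A ≠ 0 := fun h0 => hA' ((gg_eq_zero w.1).1 h0)
      exact (log_le_iff_le_exp h0).2 (hρA w)
    have hghG : gh κ G ≤ (cG3 n m : ℤ) * ∑ᶠ w : Place κ L, (τ w : ℤ) := by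
      rw [mul_finsum]
      refine finsum_mono (gg_support h hG.G0) (hcsup _) fun w => ?_
      have h0 : gg w.1 G ≠ 0 := fun h0 => hG.G0 ((gg_eq_zero w.1).1 h0)
      have h1 := (hG.size w.1 (τ w) (hρA w) (hb w) (hc w) (hY w)).1
      have h2 := (log_le_iff_le_exp h0).2 h1
      push_cast at h2
      exact h2
    have hmn : (m : ℤ) ≤ n := by exact_mod_cast hbox.1
    have hGm : (G.natDegree : ℤ) ≤ n := by
      have : G.natDegree ≤ n := hGd.le.trans hbox.1
      exact_mod_cast this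
    have e1 : (G.natDegree : ℤ) * gh κ A ≤ n * ∑ᶠ w : Place κ L, (τ w : ℤ) :=
      (mul_le_mul_of_nonneg_left hghA (Int.natCast_nonneg _)).trans
        (mul_le_mul_of_nonneg_right hGm hT0)
    have e2 : (m : ℤ) * gh κ G ≤ n * (cG3 n m * ∑ᶠ w : Place κ L, (τ w : ℤ)) :=
      (mul_le_mul_of_nonneg_left hghG (Int.natCast_nonneg _)).trans
        (mul_le_mul_of_nonneg_right hmn (mul_nonneg (Int.natCast_nonneg _) hT0))
    have hdvd : A ∣ G := by
      refine bez h hA hdeg hAy hg ?_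
      have e3 : (n : ℤ) * (1 + cG3 n m) * ∑ᶠ w : Place κ L, (τ w : ℤ) =
          n * ∑ᶠ w : Place κ L, (τ w : ℤ) + n * (cG3 n m * ∑ᶠ w : Place κ L, (τ w : ℤ)) := by ring
      rw [e3] at hcon
      rw [← hm]
      linarith
    exact absurd (natDegree_le_of_dvd hdvd hG.G0) (by omega)
  · right
    have hDs : (Function.support fun w : Place κ L => dd w.1 y₁ b).Finite := dd_support h hy
    have hDsum : ∑ᶠ w : Place κ L, dd w.1 y₁ b = height κ ![1, y₁] := dd_total h hy
    have hPs : (Function.support fun w : Place κ L =>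
        if w ∈ P then dd w.1 y₁ b else 0).Finite := by
      refine P.finite_toSet.subset fun w hw => ?_
      by_contra hcon
      exact hw (if_neg hcon)
    have hPsum : ∑ᶠ w : Place κ L, (if w ∈ P then dd w.1 y₁ b else 0) =
        ∑ w ∈ P, dd w.1 y₁ b := by
      rw [finsum_eq_sum_of_support_subset (s := P)]
      · exact Finset.sum_congr rfl fun w hw => if_pos hw
      · intro w hw
        by_contra hcon
        exact hw (if_neg hcon)
    have hls := log_max_support h y₁
    have hl3 : ∀ c : ℤ, (Function.support fun w : Place κ L =>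
        c * log (max 1 (w.1 y₁))).Finite := fun c =>
      hls.subset fun w hw h0 => hw (by simp only at h0 ⊢; rw [h0, mul_zero])
    have hgs : (Function.support fun w : Place κ L => log (w.1 (G.evalEval y₁ y))).Finite := by
      refine (h.place_finite hg).subset fun w hw h1 => hw ?_
      simp only
      rw [h1, log_one]
    have hDc : ∀ c : ℤ, (Function.support fun w : Place κ L => c * dd w.1 y₁ b).Finite := fun c =>
      hDs.subset fun w hw h0 => hw (by simp only at h0 ⊢; rw [h0, mul_zero])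
    have hPc : ∀ c : ℤ, (Function.support fun w : Place κ L =>
        c * (if w ∈ P then dd w.1 y₁ b else 0)).Finite := fun c =>
      hPs.subset fun w hw h0 => hw (by simp only at h0 ⊢; rw [h0, mul_zero])
    obtain ⟨l, hl⟩ : ∃ l : ℤ, l = 10 * (m : ℤ) ^ 2 := ⟨_, rfl⟩
    have hl1 : (((10 * m ^ 2 - 1 : ℕ) : ℤ) + 1) = l := by
      have : 1 ≤ 10 * m ^ 2 := by
        have : 1 ≤ m := by omega
        nlinarith
      rw [hl]
      push_cast [Nat.cast_sub this]
      ring
    obtain ⟨ν, hν⟩ : ∃ ν : ℤ, ν = ((10 * m ^ 2 - 9 * m : ℕ) : ℤ) := ⟨_, rfl⟩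
    have hν1 : ν + 9 * m = l := by
      have : 9 * m ≤ 10 * m ^ 2 := by
        have : 1 ≤ m := by omega
        nlinarith
      rw [hl, hν]
      push_cast [Nat.cast_sub this]
      ring
    have key : ∀ w : Place κ L, log (w.1 (G.evalEval y₁ y)) ≤
        (cL3 n m : ℤ) * (τ w : ℤ) + ν * log (max 1 (w.1 y₁)) -
          l * dd w.1 y₁ b + l * (if w ∈ P then dd w.1 y₁ b else 0) := by
      intro w
      by_cases hw : w ∈ P
      · rw [if_pos hw]
        have e1 := log_far w.1 hG (hρA w) (hb w) (hc w) (hY w) (hle w) hg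
        rw [← hν] at e1
        unfold cL3
        linarith
      · rw [if_neg hw, mul_zero, add_zero]
        have e1 := log_near w.1 hG (hρA w) (hb w) (hc w) (hY w) hAy (hle w) (hnear w hw) hg hy
        rw [← hν, hl1] at e1
        unfold cL3
        linarith
    have s2 : (Function.support fun w : Place κ L => (cL3 n m : ℤ) * (τ w : ℤ) +
        ν * log (max 1 (w.1 y₁))).Finite :=
      ((hcsup _).union (hl3 _)).subset (Function.support_add _ _)
    have s3 : (Function.support fun w : Place κ L => (cL3 n m : ℤ) * (τ w : ℤ) +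
        ν * log (max 1 (w.1 y₁)) - l * dd w.1 y₁ b).Finite :=
      (s2.union (hDc l)).subset (Function.support_sub _ _)
    have s4 : (Function.support fun w : Place κ L => (cL3 n m : ℤ) * (τ w : ℤ) +
        ν * log (max 1 (w.1 y₁)) - l * dd w.1 y₁ b +
        l * (if w ∈ P then dd w.1 y₁ b else 0)).Finite :=
      (s3.union (hPc l)).subset (Function.support_add _ _)
    have hsum := finsum_mono hgs s4 key
    rw [h.product_formula hg, finsum_add_distrib s3 (hPc l), finsum_sub_distrib s2 (hDc l),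
      finsum_add_distrib (hcsup _) (hl3 _), ← mul_finsum, ← mul_finsum, ← mul_finsum, ← mul_finsum,
      ← height_one, hDsum, hPsum] at hsum
    set S := ∑ w ∈ P, dd w.1 y₁ b with hS
    set Hh := height κ ![1, y₁] with hHh
    set T := ∑ᶠ w : Place κ L, (τ w : ℤ) with hT
    have hm0 : (1 : ℤ) ≤ m := by exact_mod_cast Nat.one_le_iff_ne_zero.2 hdeg
    have hcT : 0 ≤ (cL3 n m : ℤ) * T := mul_nonneg (Int.natCast_nonneg _) hT0
    by_contra hcon
    rw [not_le] at hcon
    have h9 : (m : ℤ) * (cL3 n m * T) < (m : ℤ) * (9 * Hh - 10 * m * S) :=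
      mul_lt_mul_of_pos_left (by linarith) (by linarith)
    have h10 : (cL3 n m : ℤ) * T ≤ m * (cL3 n m * T) := le_mul_of_one_le_left hcT hm0
    have h11 : (m : ℤ) * (9 * Hh - 10 * m * S) = 9 * m * Hh - l * S := by rw [hl]; ring
    have h12 : ν * Hh = l * Hh - 9 * m * Hh := by rw [← hν1]; ring
    linarith

end Pool.Agent.Lib.MP_44a246_ntPC
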