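import Mathlib
import Pool.Agent.Lib.MP_44a246_ntY.Y11
import Pool.Agent.Lib.MP_44a246_ntPC.M4

/-!
Points of a moving plane curve of degree `m` in `Y` which are near `3 m` moving points of the curve
only at few places.
-/

namespace Pool.Agent.Lib.MP_44a246_ntPC

open Pool.Agent.Lib.MP_44a246_nt
open Pool.Agent.Lib.MP_44a246_ntL
open Pool.Agent.Lib.MP_44a246_ntS
open Pool.Agent.Lib.MP_44a246_ntY
open WithZero Polynomial

variable {κ L : Type*} [Field κ] [IsAlgClosed κ] [CharZero κ] [Field L] [Algebra κ L]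

/-- **Moving points of a moving plane curve.** Let `A` be an irreducible polynomial over a function
field `L` of one variable, of positive degree `m` in `Y` and degrees at most `n`, and `S` a set of
at least `3 m` points of the curve `A = 0` with different first coordinates, at which the derivative
does not vanish. The height of every point `(y₁, y)` of the curve is bounded by the number of places
at which it is near a point of `S`, the poles of a derivation, and the sizes of `A`, of the points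
of `S` and of the derivative at these points. -/
theorem moving_curve3 (h : IsFF κ L) (D : Derivation κ L L) (hD : ∃ s, D s ≠ 0)
    {β τ : Place κ L → ℕ} (hβ : (Function.support β).Finite) (hτf : (Function.support τ).Finite)
    (hpole : ∀ w : Place κ L, ∀ y, w.1 y ≤ 1 → w.1 (D y) ≤ exp (β w : ℤ))
    {n : ℕ} {A : L[X][X]} (hA : Irreducible A) (hbox : Box n A) (hdeg : A.natDegree ≠ 0)
    {S : Finset (L × L)} (hS : ∀ e ∈ S, A.evalEval e.1 e.2 = 0)
    (hSY : ∀ e ∈ S, (derivative A).evalEval e.1 e.2 ≠ 0)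
    (hinj : Set.InjOn Prod.fst (S : Set (L × L)))
    (hcard : 3 * A.natDegree ≤ S.card)
    (hρA : ∀ w : Place κ L, gg w.1 A ≤ exp (τ w : ℤ))
    (hτ : ∀ w : Place κ L, ∀ e ∈ S, w.1 e.1 ≤ exp (τ w : ℤ) ∧ w.1 e.2 ≤ exp (τ w : ℤ))
    (hsep : ∀ w : Place κ L, ∀ e ∈ S, ∀ e' ∈ S, e.1 ≠ e'.1 →
      exp (-(τ w : ℤ)) ≤ w.1 (e.1 - e'.1))
    (hY : ∀ w : Place κ L, ∀ e ∈ S, exp (-(τ w : ℤ)) ≤ w.1 ((derivative A).evalEval e.1 e.2))
    {y₁ y : L} (hAy : A.evalEval y₁ y = 0)
    (hle : ∀ w : Place κ L, w.1 y ≤ exp (τ w : ℤ) * max 1 (w.1 y₁))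
    {P : Finset (Place κ L)}
    (hnear : ∀ w : Place κ L, w ∉ P → ∀ e ∈ S,
      exp (-(τ w : ℤ)) ≤ max (w.1 (y₁ - e.1)) (w.1 (y - e.2))) :
    height κ ![1, y₁] ≤
      cF3 n S.card * (P.card + ∑ᶠ w, (β w : ℤ) + ∑ᶠ w, (τ w : ℤ)) := by
  classical
  set T : ℤ := P.card + ∑ᶠ w, (β w : ℤ) + ∑ᶠ w, (τ w : ℤ) with hT
  have hβ0 : 0 ≤ ∑ᶠ w, (β w : ℤ) := finsum_nonneg fun w => Int.natCast_nonneg _
  have hτ0 : 0 ≤ ∑ᶠ w, (τ w : ℤ) := finsum_nonneg fun w => Int.natCast_nonneg _
  have hP0 : (0 : ℤ) ≤ P.card := Int.natCast_nonneg _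
  have hT0 : 0 ≤ T := by omega
  have hτT : ∑ᶠ w, (τ w : ℤ) ≤ T := by omega
  -- the constant
  have key : ∀ (C : ℕ) (x : ℤ), C ≤ cF3 n S.card → x ≤ C * T → x ≤ cF3 n S.card * T := by
    intro C x hC hx
    refine hx.trans (mul_le_mul_of_nonneg_right ?_ hT0)
    exact_mod_cast hC
  obtain ⟨m, hm⟩ : ∃ m, m = A.natDegree := ⟨_, rfl⟩
  have hmn : m ≤ n := by rw [hm]; exact hbox.1
  have hcG : cG3 n m ≤ ∑ m ∈ Finset.range (n + 1), cG3 n m :=
    Finset.single_le_sum (f := fun m => cG3 n m) (fun _ _ => Nat.zero_le _)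
      (Finset.mem_range.2 (Nat.lt_succ_of_le hmn))
  have hcL : cL3 n m ≤ ∑ m ∈ Finset.range (n + 1), cL3 n m :=
    Finset.single_le_sum (f := fun m => cL3 n m) (fun _ _ => Nat.zero_le _)
      (Finset.mem_range.2 (Nat.lt_succ_of_le hmn))
  by_cases hy : ∃ e ∈ S, y₁ = e.1
  · obtain ⟨e, he, hye⟩ := hy
    refine key 1 _ (by unfold cF3; omega) ?_
    rw [height_one, Nat.cast_one, one_mul]
    refine le_trans (finsum_mono (log_max_support h y₁) ?_ fun w => ?_) hτT
    · refine hτf.subset fun w hw => ?_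
      rw [Function.mem_support] at hw ⊢
      exact_mod_cast hw
    · have h1 : max 1 (w.1 y₁) ≤ exp (τ w : ℤ) := by
        refine max_le ?_ (by rw [hye]; exact (hτ w e he).1)
        rw [← exp_zero, exp_le_exp]
        exact Int.natCast_nonneg _
      have h2 : max 1 (w.1 y₁) ≠ 0 := (lt_of_lt_of_le zero_lt_one (le_max_left _ _)).ne'
      have h3 := (log_le_log h2 exp_ne_zero).2 h1
      rwa [log_exp] at h3
  · push Not at hy
    have hB : ∀ w : Place κ L, ∀ b ∈ S.image Prod.fst, w.1 b ≤ exp (τ w : ℤ) := by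
      intro w b hb
      obtain ⟨e, he, rfl⟩ := Finset.mem_image.1 hb
      exact (hτ w e he).1
    have hsepB : ∀ w : Place κ L, ∀ b ∈ S.image Prod.fst, ∀ b' ∈ S.image Prod.fst, b ≠ b' →
        exp (-(τ w : ℤ)) ≤ w.1 (b - b') := by
      intro w b hb b' hb' hne
      obtain ⟨e, he, rfl⟩ := Finset.mem_image.1 hb
      obtain ⟨e', he', rfl⟩ := Finset.mem_image.1 hb'
      exact hsep w e he e' he' hne
    have hyB : y₁ ∉ S.image Prod.fst := by
      intro hb
      obtain ⟨e, he, h1⟩ := Finset.mem_image.1 hb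
      exact hy e he h1.symm
    have h1 := moving_points h D hD hβ hτf hpole hB hsepB hyB P
    have hBc : (S.image Prod.fst).card = S.card := Finset.card_image_of_injOn hinj
    have hBs : ∀ w : Place κ L, ∑ b ∈ S.image Prod.fst, dd w.1 y₁ b =
        ∑ e ∈ S, dd w.1 y₁ e.1 := fun w => Finset.sum_image (fun e he e' he' hee => hinj he he' hee)
    simp only [hBs] at h1
    rw [hBc, Finset.sum_comm] at h1
    have h2 := fun e (he : e ∈ S) => point_ineq (P := P) h hτf hA hbox hdeg (hS e he) (hSY e he)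
      hρA (fun w => (hτ w e he).1) (fun w => (hτ w e he).2) (fun w => hY w e he) hAy hle
      (fun w hw => hnear w hw e he) (hy e he)
    rw [← hm] at h2
    by_cases hex : ∃ e ∈ S, height κ ![1, y₁] ≤ n * (1 + cG3 n m) * ∑ᶠ w, (τ w : ℤ)
    · obtain ⟨e, -, h3⟩ := hex
      refine key (n * (1 + ∑ m ∈ Finset.range (n + 1), cG3 n m)) _ (by unfold cF3; omega) ?_
      refine h3.trans ?_
      push_cast
      have h4 : (n : ℤ) * (1 + cG3 n m) ≤ n * (1 + ∑ m ∈ Finset.range (n + 1), (cG3 n m : ℤ)) := by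
        have : (cG3 n m : ℤ) ≤ ∑ m ∈ Finset.range (n + 1), (cG3 n m : ℤ) := by exact_mod_cast hcG
        exact mul_le_mul_of_nonneg_left (by linarith) (Int.natCast_nonneg _)
      refine (mul_le_mul_of_nonneg_right h4 hτ0).trans (mul_le_mul_of_nonneg_left hτT ?_)
      exact mul_nonneg (Int.natCast_nonneg _) (by positivity)
    · push Not at hex
      have h3 : ∀ e ∈ S, 9 * height κ ![1, y₁] ≤ 10 * m * ∑ w ∈ P, dd w.1 y₁ e.1 +
          cL3 n m * ∑ᶠ w, (τ w : ℤ) := by
        intro e he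
        rcases h2 e he with h4 | h4
        · exact absurd h4 (not_le.2 (hex e he))
        · exact h4
      have h4 := Finset.sum_le_sum h3
      rw [Finset.sum_const, Finset.sum_add_distrib, Finset.sum_const, nsmul_eq_mul, nsmul_eq_mul,
        ← Finset.mul_sum] at h4
      set X := ∑ e ∈ S, ∑ w ∈ P, dd w.1 y₁ e.1 with hX
      set Hh := height κ ![1, y₁] with hHh
      set Tt := ∑ᶠ w, (τ w : ℤ) with hTt
      have hH0 : 0 ≤ Hh := by
        refine h.height_nonneg fun h0 => ?_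
        have := congrFun h0 0
        simp at this
      refine key (10 * n * (∑ Q ∈ Finset.range (S.card + 1), cM Q) +
        4 * S.card * (∑ m ∈ Finset.range (n + 1), cL3 n m)) _ (by unfold cF3; omega) ?_
      have hcMs : cM S.card ≤ ∑ Q ∈ Finset.range (S.card + 1), cM Q :=
        Finset.single_le_sum (f := cM) (fun _ _ => Nat.zero_le _)
          (Finset.mem_range.2 (Nat.lt_succ_self _))
      generalize (∑ Q ∈ Finset.range (S.card + 1), cM Q) = CM at hcMs ⊢
      generalize (∑ m ∈ Finset.range (n + 1), cL3 n m) = CL at hcL ⊢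
      generalize S.card = q at hcard h4 h1 hcMs ⊢
      generalize cM q = c1 at h1 hcMs
      generalize cL3 n m = c2 at h4 hcL
      have hm1 : 1 ≤ m := by rw [hm]; exact Nat.one_le_iff_ne_zero.2 hdeg
      rw [← hm] at hcard
      rw [← hT] at h1
      have hm1' : (1 : ℤ) ≤ m := by exact_mod_cast hm1
      have hmn' : (m : ℤ) ≤ n := by exact_mod_cast hmn
      have hq' : (3 : ℤ) * m ≤ q := by exact_mod_cast hcard
      have hc1' : (c1 : ℤ) ≤ CM := by exact_mod_cast hcMs
      have hc2' : (c2 : ℤ) ≤ CL := by exact_mod_cast hcL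
      have hc10 : (0 : ℤ) ≤ c1 := Int.natCast_nonneg _
      have hc20 : (0 : ℤ) ≤ c2 := Int.natCast_nonneg _
      have hq0 : (0 : ℤ) ≤ q := Int.natCast_nonneg _
      push_cast
      -- `36 q H ≤ 40 m X + 4 q c2 Tt`, `4 X ≤ 9 H + c1 T`
      have e1 : 4 * ((q : ℤ) * (9 * Hh)) ≤ 4 * (10 * m * X + q * (c2 * Tt)) :=
        mul_le_mul_of_nonneg_left h4 (by norm_num)
      have e2 : (10 * (m : ℤ)) * (4 * X) ≤ 10 * m * (9 * Hh + c1 * T) :=
        mul_le_mul_of_nonneg_left h1 (by linarith)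
      have e3 : (18 : ℤ) * m * Hh ≤ (36 * q - 90 * m) * Hh :=
        mul_le_mul_of_nonneg_right (by linarith) hH0
      have e4 : Hh ≤ 18 * m * Hh := by
        have : 1 * Hh ≤ 18 * m * Hh := mul_le_mul_of_nonneg_right (by linarith) hH0
        linarith
      have e5 : 10 * (m : ℤ) * (c1 * T) ≤ 10 * n * CM * T := by
        have a1 : (m : ℤ) * c1 ≤ n * CM := mul_le_mul hmn' hc1' hc10 (by linarith)
        have a2 := mul_le_mul_of_nonneg_right a1 hT0
        linarith
      have e6 : 4 * ((q : ℤ) * (c2 * Tt)) ≤ 4 * q * CL * T := by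
        have a1 : (c2 : ℤ) * Tt ≤ CL * T := mul_le_mul hc2' hτT hτ0 (by linarith)
        have a2 := mul_le_mul_of_nonneg_left a1 hq0
        linarith
      rw [add_mul]
      linarith

end Pool.Agent.Lib.MP_44a246_ntPC
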