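import Mathlib
import Pool.Agent.Lib.MP_44a246_ntPC.M5
import Pool.Agent.Lib.MP_44a246_ntY.Y35
import Pool.Agent.Lib.MP_44a246_ntS.SJ2b
import Pool.Agent.Lib.MP_44a246_ntS.SJ5
import Pool.Agent.Lib.MP_44a246_ntS.SJ5c
import Pool.Agent.Lib.MP_44a246_ntS.SQ1b

/-!
Theorem F for the zeros of a polynomial `Φ` on the curve, with `3 m` points.
-/

namespace Pool.Agent.Lib.MP_44a246_ntPC

open Pool.Agent.Lib.MP_44a246_nt
open Pool.Agent.Lib.MP_44a246_ntL
open Pool.Agent.Lib.MP_44a246_ntS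
open Pool.Agent.Lib.MP_44a246_ntY
open WithZero Polynomial

variable {κ L : Type*} [Field κ] [IsAlgClosed κ] [CharZero κ] [Field L] [Algebra κ L]

section

omit [IsAlgClosed κ] [CharZero κ]

private lemma m6_add {f g : Place κ L → ℕ} (hf : (Function.support f).Finite)
    (hg : (Function.support g).Finite) :
    (Function.support (fun w => f w + g w)).Finite ∧
    ∑ᶠ w, ((f w + g w : ℕ) : ℤ) = ∑ᶠ w, (f w : ℤ) + ∑ᶠ w, (g w : ℤ) := by
  have hf' : (Function.support (fun w => (f w : ℤ))).Finite := hf.subset fun w hw => by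
    rw [Function.mem_support] at hw ⊢
    exact fun h0 => hw (by rw [h0, Nat.cast_zero])
  have hg' : (Function.support (fun w => (g w : ℤ))).Finite := hg.subset fun w hw => by
    rw [Function.mem_support] at hw ⊢
    exact fun h0 => hw (by rw [h0, Nat.cast_zero])
  refine ⟨(hf.union hg).subset (Function.support_add f g), ?_⟩
  rw [← finsum_add_distrib hf' hg']
  exact finsum_congr fun w => by push_cast; rfl

private lemma m6_mul (c : ℕ) {f : Place κ L → ℕ} (hf : (Function.support f).Finite) :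
    (Function.support (fun w => c * f w)).Finite ∧
    ∑ᶠ w, ((c * f w : ℕ) : ℤ) = c * ∑ᶠ w, (f w : ℤ) := by
  have hf' : (Function.support (fun w => (f w : ℤ))).Finite := hf.subset fun w hw => by
    rw [Function.mem_support] at hw ⊢
    exact fun h0 => hw (by rw [h0, Nat.cast_zero])
  refine ⟨hf.subset fun w hw => ?_, ?_⟩
  · rw [Function.mem_support] at hw ⊢
    exact fun h0 => hw (by rw [h0, mul_zero])
  · rw [mul_finsum]
    exact finsum_congr fun w => by push_cast; rfl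

private lemma m6_sum {ι : Type*} (s : Finset ι) {f : ι → Place κ L → ℕ}
    (hf : ∀ i ∈ s, (Function.support (f i)).Finite) :
    (Function.support (fun w => ∑ i ∈ s, f i w)).Finite ∧
    ∑ᶠ w, ((∑ i ∈ s, f i w : ℕ) : ℤ) = ∑ i ∈ s, ∑ᶠ w, (f i w : ℤ) := by
  classical
  induction s using Finset.induction_on with
  | empty =>
    refine ⟨?_, ?_⟩
    · refine Set.Finite.subset Set.finite_empty (fun w hw => ?_)
      rw [Function.mem_support] at hw
      exact (hw (by rw [Finset.sum_empty])).elim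
    · simp only [Finset.sum_empty, Nat.cast_zero, finsum_zero]
  | insert a s ha ih =>
    obtain ⟨ih1, ih2⟩ := ih (fun i hi => hf i (Finset.mem_insert_of_mem hi))
    obtain ⟨h1, h2⟩ := m6_add (hf a (Finset.mem_insert_self a s)) ih1
    simp only [Finset.sum_insert ha]
    refine ⟨h1, ?_⟩
    rw [h2, ih2]

private lemma m6_mono {f g : Place κ L → ℤ} (hf : (Function.support f).Finite)
    (hg : (Function.support g).Finite) (h : ∀ w, f w ≤ g w) :
    ∑ᶠ w, f w ≤ ∑ᶠ w, g w :=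
  finsum_mono hf hg h

end

omit [IsAlgClosed κ] [CharZero κ] in
private lemma m6_sup {f : Place κ L → ℕ} (hf : (Function.support f).Finite) :
    (Function.support (fun w => (f w : ℤ))).Finite := hf.subset fun w hw => by
  rw [Function.mem_support] at hw ⊢
  exact fun h0 => hw (by rw [h0, Nat.cast_zero])

/-- the main bound, for a polynomial with a coefficient equal to one -/
private theorem m6_main (h : IsFF κ L) (D : Derivation κ L L) (hD : ∃ s, D s ≠ 0)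
    {β τ : Place κ L → ℕ} (hβ : (Function.support β).Finite) (hτ : (Function.support τ).Finite)
    (hpole : ∀ w : Place κ L, ∀ y, w.1 y ≤ 1 → w.1 (D y) ≤ exp (β w : ℤ))
    {b e d : ℕ} {A Φ A' : L[X][X]} (hAb : Box b A) (hΦb : Box e Φ)
    (hAτ : ∀ w : Place κ L, gg w.1 A ≤ exp (τ w : ℤ))
    (hΦτ : ∀ w : Place κ L, gg w.1 Φ ≤ exp (τ w : ℤ))
    (hA0 : A ≠ 0) (hirr : Irreducible A') (hdvd : A' ∣ A) (hdeg : A'.natDegree ≠ 0)
    {i₀ j₀ : ℕ} (hone : (A'.coeff i₀).coeff j₀ = 1)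
    {y₁ y : L} (hAy : A'.evalEval y₁ y = 0) (hle : ∀ w : Place κ L, w.1 y ≤ exp (τ w : ℤ) * max 1 (w.1 y₁))
    {P : Finset (Place κ L)}
    (hP : ∀ w : Place κ L, w ∉ P →
      w.1 ((derivative A).evalEval y₁ y) ^ d ≤ w.1 (Φ.evalEval y₁ y))
    {E : Finset (L × L)} (hinj : Set.InjOn Prod.fst (E : Set (L × L)))
    (hE : ∀ p ∈ E, A'.evalEval p.1 p.2 = 0 ∧ (derivative A).evalEval p.1 p.2 ≠ 0 ∧
      Φ.evalEval p.1 p.2 = 0)
    (hcard : 3 * A'.natDegree ≤ E.card) {H : ℤ}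
    (hH : ∀ p ∈ E, height κ ![1, p.1] ≤ H ∧ height κ ![1, p.2] ≤ H) :
    height κ ![1, y₁] ≤
      cN3 b e d E.card * (P.card + ∑ᶠ w, (β w : ℤ) + ∑ᶠ w, (τ w : ℤ) + H) := by
  classical
  -- positivity
  have hnn : ∀ a : L, 0 ≤ height κ ![1, a] := by
    intro a
    rw [← (pp_sum h a).2]
    exact finsum_nonneg fun w => Int.natCast_nonneg _
  have hH0 : 0 ≤ H := by
    obtain ⟨p, hp⟩ := Finset.card_pos.mp (by omega : 0 < E.card)
    exact (hnn p.1).trans (hH p hp).1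
  have hβ0 : 0 ≤ ∑ᶠ w, (β w : ℤ) := finsum_nonneg fun w => Int.natCast_nonneg _
  have hτ0 : 0 ≤ ∑ᶠ w, (τ w : ℤ) := finsum_nonneg fun w => Int.natCast_nonneg _
  -- the size of the factor
  have hA'0 : A' ≠ 0 := hirr.ne_zero
  have hge : ∀ w : Place κ L, 1 ≤ gg w.1 A' := by
    intro w
    have h1 := le_gg w.1 A' i₀ j₀
    rwa [hone, map_one] at h1
  have hlog0 : ∀ w : Place κ L, 0 ≤ log (gg w.1 A') := by
    intro w
    have h1 := (log_le_log one_ne_zero (fun h0 => hA'0 ((gg_eq_zero w.1).1 h0))).2 (hge w)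
    rwa [log_one] at h1
  set ρ : Place κ L → ℕ := fun w => (log (gg w.1 A')).toNat with hρdef
  have hρcast : ∀ w : Place κ L, ((ρ w : ℕ) : ℤ) = log (gg w.1 A') := by
    intro w
    exact Int.toNat_of_nonneg (hlog0 w)
  have hρsup : (Function.support ρ).Finite := by
    refine (gg_support h hA'0).subset fun w hw => ?_
    rw [Function.mem_support] at hw ⊢
    intro h0
    apply hw
    show (log (gg w.1 A')).toNat = 0
    rw [h0]
    rfl
  have hρsum : ∑ᶠ w, (ρ w : ℤ) ≤ ∑ᶠ w, (τ w : ℤ) := by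
    have h1 : ∑ᶠ w, (ρ w : ℤ) = gh κ A' := finsum_congr fun w => hρcast w
    rw [h1]
    refine (gh_le_of_dvd h hdvd hA0).trans ?_
    refine m6_mono (gg_support h hA0) (m6_sup hτ) (fun w => ?_)
    have h2 : gg w.1 A ≠ 0 := fun h0 => hA0 ((gg_eq_zero w.1).1 h0)
    exact (log_le_iff_le_exp h2).2 (hAτ w)
  have hρle : ∀ w : Place κ L, gg w.1 A' ≤ exp (ρ w : ℤ) := by
    intro w
    rw [hρcast w, exp_log (fun h0 => hA'0 ((gg_eq_zero w.1).1 h0))]
  have hE2 : ∀ p ∈ E, (derivative A').evalEval p.1 p.2 ≠ 0 := by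
    intro p hp h0
    obtain ⟨Q, hQ⟩ := hdvd
    apply (hE p hp).2.1
    rw [hQ, derivative_mul, evalEval_add, evalEval_mul, evalEval_mul, h0, (hE p hp).1, zero_mul,
      zero_mul, add_zero]
  -- the sizes
  set f₁ : Place κ L → ℕ := fun w => ∑ p ∈ E, (pp w.1 p.1 + pp w.1 p.2) with hf₁
  set f₂ : Place κ L → ℕ := fun w => ∑ p ∈ E, pp w.1 ((derivative A).evalEval p.1 p.2)⁻¹ with hf₂
  set f₃ : Place κ L → ℕ := fun w => ∑ p ∈ E, ∑ p' ∈ E, pp w.1 (p.1 - p'.1)⁻¹ with hf₃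
  have k₁ : (Function.support f₁).Finite ∧ ∑ᶠ w, (f₁ w : ℤ) ≤ 2 * E.card * H := by
    have h1 := m6_sum E (f := fun p (w : Place κ L) => pp w.1 p.1 + pp w.1 p.2)
      (fun p _ => (m6_add (pp_sum h p.1).1 (pp_sum h p.2).1).1)
    refine ⟨h1.1, ?_⟩
    rw [h1.2]
    have h2 : ∀ p ∈ E, ∑ᶠ w : Place κ L, ((pp w.1 p.1 + pp w.1 p.2 : ℕ) : ℤ) ≤ 2 * H := by
      intro p hp
      rw [(m6_add (pp_sum h p.1).1 (pp_sum h p.2).1).2, (pp_sum h p.1).2, (pp_sum h p.2).2]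
      have := hH p hp
      linarith [this.1, this.2]
    refine (Finset.sum_le_sum h2).trans (le_of_eq ?_)
    rw [Finset.sum_const, nsmul_eq_mul]
    ring
  have k₂ : (Function.support f₂).Finite ∧
      ∑ᶠ w, (f₂ w : ℤ) ≤ E.card * (∑ᶠ w, (τ w : ℤ) + 2 * b * H) := by
    have h1 := m6_sum E
      (f := fun p (w : Place κ L) => pp w.1 ((derivative A).evalEval p.1 p.2)⁻¹)
      (fun p _ => (pp_sum h _).1)
    refine ⟨h1.1, ?_⟩
    rw [h1.2]
    have h2 : ∀ p ∈ E, ∑ᶠ w : Place κ L, ((pp w.1 ((derivative A).evalEval p.1 p.2)⁻¹ : ℕ) : ℤ)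
        ≤ ∑ᶠ w, (τ w : ℤ) + 2 * b * H := by
      intro p hp
      rw [pp_inv_sum h (hE p hp).2.1]
      have h3 := height_value_le h hτ (box_derivative hAb)
        (fun w => (gg_derivative_le w.1 A).trans (hAτ w)) p.1 p.2
      have h4 := hH p hp
      have hb0 : (0 : ℤ) ≤ b := Int.natCast_nonneg _
      have h5 := mul_le_mul_of_nonneg_left h4.1 hb0
      have h6 := mul_le_mul_of_nonneg_left h4.2 hb0
      linarith
    refine (Finset.sum_le_sum h2).trans (le_of_eq ?_)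
    rw [Finset.sum_const, nsmul_eq_mul]
  have k₃ : (Function.support f₃).Finite ∧
      ∑ᶠ w, (f₃ w : ℤ) ≤ E.card * (E.card * (2 * H)) := by
    have h0 : ∀ p : L × L, (Function.support (fun w : Place κ L =>
        ∑ p' ∈ E, pp w.1 (p.1 - p'.1)⁻¹)).Finite ∧
        ∑ᶠ w : Place κ L, ((∑ p' ∈ E, pp w.1 (p.1 - p'.1)⁻¹ : ℕ) : ℤ)
          = ∑ p' ∈ E, ∑ᶠ w : Place κ L, (pp w.1 (p.1 - p'.1)⁻¹ : ℤ) := fun p =>
      m6_sum E (f := fun p' (w : Place κ L) => pp w.1 (p.1 - p'.1)⁻¹)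
        (fun p' _ => (pp_sum h _).1)
    have h1 := m6_sum E
      (f := fun p (w : Place κ L) => ∑ p' ∈ E, pp w.1 (p.1 - p'.1)⁻¹)
      (fun p _ => (h0 p).1)
    refine ⟨h1.1, ?_⟩
    rw [h1.2]
    have h2 : ∀ p ∈ E, ∑ᶠ w : Place κ L, ((∑ p' ∈ E, pp w.1 (p.1 - p'.1)⁻¹ : ℕ) : ℤ)
        ≤ E.card * (2 * H) := by
      intro p hp
      rw [(h0 p).2]
      have h3 : ∀ p' ∈ E, ∑ᶠ w : Place κ L, (pp w.1 (p.1 - p'.1)⁻¹ : ℤ) ≤ 2 * H := by
        intro p' hp'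
        rcases eq_or_ne (p.1 - p'.1) 0 with h4 | h4
        · have h5 : ∑ᶠ w : Place κ L, (pp w.1 (p.1 - p'.1)⁻¹ : ℤ) = 0 := by
            have h6 : ∀ w : Place κ L, (pp w.1 (p.1 - p'.1)⁻¹ : ℤ) = 0 := by
              intro w
              rw [h4, inv_zero]
              unfold pp
              rw [map_zero, max_eq_left zero_le_one, log_one]
              rfl
            simp only [h6, finsum_zero]
          rw [h5]
          linarith
        · rw [pp_inv_sum h h4]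
          have h7 := height_sub_le h p.1 p'.1
          have h8 := (hH p hp).1
          have h9 := (hH p' hp').1
          linarith
      refine (Finset.sum_le_sum h3).trans (le_of_eq ?_)
      rw [Finset.sum_const, nsmul_eq_mul]
    refine (Finset.sum_le_sum h2).trans (le_of_eq ?_)
    rw [Finset.sum_const, nsmul_eq_mul]
  set f₄ : Place κ L → ℕ := fun w => ∑ p ∈ E, pp w.1 ((derivative A').evalEval p.1 p.2)⁻¹ with hf₄
  have k₄ : (Function.support f₄).Finite ∧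
      ∑ᶠ w, (f₄ w : ℤ) ≤ E.card * (∑ᶠ w, (τ w : ℤ) + 2 * b * H) := by
    have h1 := m6_sum E
      (f := fun p (w : Place κ L) => pp w.1 ((derivative A').evalEval p.1 p.2)⁻¹)
      (fun p _ => (pp_sum h _).1)
    refine ⟨h1.1, ?_⟩
    rw [h1.2]
    have h2 : ∀ p ∈ E, ∑ᶠ w : Place κ L, ((pp w.1 ((derivative A').evalEval p.1 p.2)⁻¹ : ℕ) : ℤ)
        ≤ ∑ᶠ w, (τ w : ℤ) + 2 * b * H := by
      intro p hp
      rw [pp_inv_sum h (hE2 p hp)]
      have h3 := height_value_le h hρsup (box_derivative (hAb.of_dvd hA0 hdvd))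
        (fun w => (gg_derivative_le w.1 A').trans (hρle w)) p.1 p.2
      have h4 := hH p hp
      have hb0 : (0 : ℤ) ≤ b := Int.natCast_nonneg _
      have h5 := mul_le_mul_of_nonneg_left h4.1 hb0
      have h6 := mul_le_mul_of_nonneg_left h4.2 hb0
      linarith
    refine (Finset.sum_le_sum h2).trans (le_of_eq ?_)
    rw [Finset.sum_const, nsmul_eq_mul]
  -- the function
  set B : ℕ := 2 * b + 2 * e + 2 with hB
  obtain ⟨m1, m2⟩ := m6_add hτ k₁.1
  obtain ⟨m3, m4⟩ := m6_mul B m1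
  obtain ⟨m5, m6⟩ := m6_mul (d + 1) k₂.1
  obtain ⟨m7, m8⟩ := m6_add hρsup m3
  obtain ⟨m9, m10⟩ := m6_add m7 m5
  obtain ⟨m14, m15⟩ := m6_add m9 k₃.1
  obtain ⟨m11, m12⟩ := m6_add m14 k₄.1
  set τ' : Place κ L → ℕ := fun w =>
    ρ w + B * (τ w + f₁ w) + (d + 1) * f₂ w + f₃ w + f₄ w with hτ'
  have hexp : ∀ {m n : ℕ}, m ≤ n → (exp (m : ℤ) : ℤᵐ⁰) ≤ exp (n : ℤ) := by
    intro m n hmn
    exact exp_le_exp.2 (by exact_mod_cast hmn)
  have hp1 : ∀ w : Place κ L, ∀ p ∈ E, pp w.1 p.1 + pp w.1 p.2 ≤ f₁ w := by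
    intro w p hp
    exact Finset.single_le_sum (f := fun p : L × L => pp w.1 p.1 + pp w.1 p.2)
      (fun _ _ => Nat.zero_le _) hp
  have hp2 : ∀ w : Place κ L, ∀ p ∈ E,
      pp w.1 ((derivative A).evalEval p.1 p.2)⁻¹ ≤ f₂ w := by
    intro w p hp
    exact Finset.single_le_sum
      (f := fun p : L × L => pp w.1 ((derivative A).evalEval p.1 p.2)⁻¹)
      (fun _ _ => Nat.zero_le _) hp
  have hp3 : ∀ w : Place κ L, ∀ p ∈ E, ∀ p' ∈ E, pp w.1 (p.1 - p'.1)⁻¹ ≤ f₃ w := by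
    intro w p hp p' hp'
    refine (Finset.single_le_sum (f := fun p' : L × L => pp w.1 (p.1 - p'.1)⁻¹)
      (fun _ _ => Nat.zero_le _) hp').trans ?_
    exact Finset.single_le_sum
      (f := fun p : L × L => ∑ p' ∈ E, pp w.1 (p.1 - p'.1)⁻¹)
      (fun _ _ => Nat.zero_le _) hp
  have hp4 : ∀ w : Place κ L, ∀ p ∈ E,
      pp w.1 ((derivative A').evalEval p.1 p.2)⁻¹ ≤ f₄ w := by
    intro w p hp
    exact Finset.single_le_sum
      (f := fun p : L × L => pp w.1 ((derivative A').evalEval p.1 p.2)⁻¹)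
      (fun _ _ => Nat.zero_le _) hp
  have hBpos : 1 ≤ B := by omega
  have hσ : ∀ w : Place κ L, τ w + f₁ w ≤ B * (τ w + f₁ w) := by
    intro w
    exact Nat.le_mul_of_pos_left _ hBpos
  have i0 : ∀ w, τ' w = ρ w + B * (τ w + f₁ w) + (d + 1) * f₂ w + f₃ w + f₄ w := fun w => rfl
  have i1 : ∀ w, ρ w ≤ τ' w := by
    intro w
    rw [i0 w]
    generalize (d + 1) * f₂ w = x
    generalize B * (τ w + f₁ w) = z
    omega
  have i2 : ∀ w, τ w + f₁ w ≤ τ' w := by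
    intro w
    rw [i0 w]
    have := hσ w
    generalize (d + 1) * f₂ w = x
    generalize B * (τ w + f₁ w) = z at this ⊢
    omega
  have i3 : ∀ w, f₃ w ≤ τ' w := by
    intro w
    rw [i0 w]
    generalize (d + 1) * f₂ w = x
    generalize B * (τ w + f₁ w) = z
    omega
  have i4 : ∀ w, (d + 1) * f₂ w + B * (τ w + f₁ w) ≤ τ' w := by
    intro w
    rw [i0 w]
    generalize (d + 1) * f₂ w = x
    generalize B * (τ w + f₁ w) = z
    omega
  have i5 : ∀ w, f₄ w ≤ τ' w := by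
    intro w
    rw [i0 w]
    generalize (d + 1) * f₂ w = x
    generalize B * (τ w + f₁ w) = z
    omega
  have m13 : ∑ᶠ w, (τ' w : ℤ) = (∑ᶠ w, ((ρ w + B * (τ w + f₁ w) + (d + 1) * f₂ w +
      f₃ w : ℕ) : ℤ)) + ∑ᶠ w, (f₄ w : ℤ) := m12
  clear_value τ'
  have hfin := moving_curve3 h D hD hβ m11 hpole hirr (hAb.of_dvd hA0 hdvd) hdeg
    (S := E) (fun p hp => (hE p hp).1) hE2 hinj hcard
    (fun w => (hρle w).trans (hexp (i1 w)))
    (fun w p hp => by
      have h1 := hp1 w p hp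
      have h2 := i2 w
      refine ⟨(le_exp_pp w.1 p.1).trans (hexp ?_),
        (le_exp_pp w.1 p.2).trans (hexp ?_)⟩
      · omega
      · omega)
    (fun w p hp p' hp' hne => by
      have h1 := hp3 w p hp p' hp'
      have h2 := le_exp_pp w.1 (p.1 - p'.1)⁻¹
      have h3 : w.1 (p.1 - p'.1) ≠ 0 := by
        rw [Ne, w.1.zero_iff]
        exact sub_ne_zero.2 hne
      rw [map_inv₀] at h2
      have h4 := inv_anti₀ (zero_lt_iff.2 (inv_ne_zero h3)) h2
      rw [inv_inv, ← exp_neg] at h4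
      refine le_trans (exp_le_exp.2 ?_) h4
      have h5 : ((pp w.1 (p.1 - p'.1)⁻¹ : ℕ) : ℤ) ≤ (τ' w : ℤ) := by
        exact_mod_cast h1.trans (i3 w)
      exact neg_le_neg h5)
    (fun w p hp => by
      have h1 := hp4 w p hp
      have h2 := le_exp_pp w.1 ((derivative A').evalEval p.1 p.2)⁻¹
      have h3 : w.1 ((derivative A').evalEval p.1 p.2) ≠ 0 := by
        rw [Ne, w.1.zero_iff]
        exact hE2 p hp
      rw [map_inv₀] at h2
      have h4 := inv_anti₀ (zero_lt_iff.2 (inv_ne_zero h3)) h2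
      rw [inv_inv, ← exp_neg] at h4
      refine le_trans (exp_le_exp.2 ?_) h4
      have h5 : ((pp w.1 ((derivative A').evalEval p.1 p.2)⁻¹ : ℕ) : ℤ) ≤ (τ' w : ℤ) := by
        exact_mod_cast h1.trans (i5 w)
      exact neg_le_neg h5)
    hAy (fun w => (hle w).trans (mul_le_mul' (hexp ((Nat.le_add_right _ _).trans (i2 w))) le_rfl))
    (P := P)
    (fun w hw p hp => by
      have h1 := hp1 w p hp
      have h2 := hp2 w p hp
      have h4 : pp w.1 p.1 ≤ τ w + f₁ w := by omega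
      have h5 : pp w.1 p.2 ≤ τ w + f₁ w := by omega
      refine not_near w.1 hAb hΦb (d := d) (τ := τ w + f₁ w)
        ((hAτ w).trans (hexp (Nat.le_add_right _ _)))
        ((hΦτ w).trans (hexp (Nat.le_add_right _ _)))
        ((le_exp_pp w.1 p.1).trans (hexp h4))
        ((le_exp_pp w.1 p.2).trans (hexp h5)) (hE p hp).2.1 (hE p hp).2.2 (hP w hw) ?_
      have h3 : (d + 1) * pp w.1 ((derivative A).evalEval p.1 p.2)⁻¹ ≤ (d + 1) * f₂ w :=
        Nat.mul_le_mul_left _ h2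
      exact (Nat.add_le_add_right h3 _).trans (i4 w))
  refine hfin.trans ?_
  rw [m13, m15, m10, m8, m4, m2, m6]
  set T := ∑ᶠ w, (τ w : ℤ) with hT
  set Bt := ∑ᶠ w, (β w : ℤ) with hBt
  have e1 := k₁.2
  have e2 := k₂.2
  have e3 := k₃.2
  have e4 := k₄.2
  set S₁ := ∑ᶠ w, (f₁ w : ℤ) with hS₁
  set S₂ := ∑ᶠ w, (f₂ w : ℤ) with hS₂
  set S₃ := ∑ᶠ w, (f₃ w : ℤ) with hS₃
  set S₄ := ∑ᶠ w, (f₄ w : ℤ) with hS₄
  set S₀ := ∑ᶠ w, (ρ w : ℤ) with hS₀
  unfold cN3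
  set q : ℕ := E.card with hq
  rw [← hB]
  have hcF : (0 : ℤ) ≤ (cF3 b q : ℕ) := Int.natCast_nonneg _
  have hPc : (0 : ℤ) ≤ (P.card : ℤ) := Int.natCast_nonneg _
  have hqc : (0 : ℤ) ≤ (q : ℤ) := Int.natCast_nonneg _
  have hbc : (0 : ℤ) ≤ (b : ℤ) := Int.natCast_nonneg _
  have hdc : (0 : ℤ) ≤ (d : ℤ) := Int.natCast_nonneg _
  have hBc : (0 : ℤ) ≤ (B : ℤ) := Int.natCast_nonneg _
  have g1 : (B : ℤ) * (T + S₁) ≤ B * (T + 2 * q * H) :=
    mul_le_mul_of_nonneg_left (by linarith) hBc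
  have g2 : ((d + 1 : ℕ) : ℤ) * S₂ ≤ ((d + 1 : ℕ) : ℤ) * (q * (T + 2 * b * H)) :=
    mul_le_mul_of_nonneg_left e2 (Int.natCast_nonneg _)
  have g3 : (P.card : ℤ) + Bt + (S₀ + B * (T + S₁) + ((d + 1 : ℕ) : ℤ) * S₂ + S₃ + S₄) ≤
      P.card + Bt + (T + B * (T + 2 * q * H) + ((d + 1 : ℕ) : ℤ) * (q * (T + 2 * b * H))
        + q * (q * (2 * H)) + q * (T + 2 * b * H)) := by linarith
  refine (mul_le_mul_of_nonneg_left g3 hcF).trans ?_
  rw [Nat.cast_mul, mul_assoc ((cF3 b q : ℕ) : ℤ)]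
  refine mul_le_mul_of_nonneg_left ?_ hcF
  push_cast
  have t1 : 0 ≤ (d : ℤ) * q := mul_nonneg hdc hqc
  have t2 : 0 ≤ (B : ℤ) * q := mul_nonneg hBc hqc
  have t3 : 0 ≤ (d : ℤ) * q * b := mul_nonneg t1 hbc
  have t4 : 0 ≤ (q : ℤ) * b := mul_nonneg hqc hbc
  have t5 : 0 ≤ (q : ℤ) ^ 2 := sq_nonneg _
  have u0 : 0 ≤ (P.card : ℤ) + Bt := by linarith
  have key : (2 + (B : ℤ) * (1 + 2 * q) + (d + 2) * q * (1 + 2 * b) + 2 * q ^ 2)
      * (P.card + Bt + T + H)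
      - (P.card + Bt + (T + B * (T + 2 * q * H) + (d + 1) * (q * (T + 2 * b * H))
        + q * (q * (2 * H)) + q * (T + 2 * b * H)))
      = (1 + (B : ℤ) * (1 + 2 * q) + (d * q + 2 * q) * (1 + 2 * b) + 2 * q ^ 2) * (P.card + Bt)
        + (1 + 2 * (B * q) + 2 * (d * q * b + 2 * (q * b)) + 2 * q ^ 2) * T
        + (2 + (B : ℤ) + (d * q + 2 * q)) * H := by ring
  have v1 : 0 ≤ (1 + (B : ℤ) * (1 + 2 * q) + (d * q + 2 * q) * (1 + 2 * b) + 2 * q ^ 2)
      * (P.card + Bt) := by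
    refine mul_nonneg ?_ u0
    have : 0 ≤ (B : ℤ) * (1 + 2 * q) := mul_nonneg hBc (by linarith)
    have : 0 ≤ ((d : ℤ) * q + 2 * q) * (1 + 2 * b) := mul_nonneg (by linarith) (by linarith)
    linarith
  have v2 : 0 ≤ (1 + 2 * ((B : ℤ) * q) + 2 * (d * q * b + 2 * (q * b)) + 2 * q ^ 2) * T := by
    refine mul_nonneg ?_ hτ0
    linarith
  have v3 : 0 ≤ (2 + (B : ℤ) + (d * q + 2 * q)) * H := by
    refine mul_nonneg ?_ hH0
    linarith
  linarith

/-- **Moving curve, zeros of a polynomial `Φ`.** `A'` is an irreducible factor of `A`, the points of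
`E` are zeros of `A'` and of `Φ` at which `A_Y` does not vanish. Outside of the places of `P` one has
`|A_Y| ^ d ≤ |Φ|` at the point `(y₁, y)` of the curve `A' = 0`. -/
theorem moving_curve2₃ (h : IsFF κ L) (D : Derivation κ L L) (hD : ∃ s, D s ≠ 0)
    {β τ : Place κ L → ℕ} (hβ : (Function.support β).Finite) (hτ : (Function.support τ).Finite)
    (hpole : ∀ w : Place κ L, ∀ y, w.1 y ≤ 1 → w.1 (D y) ≤ exp (β w : ℤ))
    {b e d : ℕ} {A Φ A' : L[X][X]} (hAb : Box b A) (hΦb : Box e Φ)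
    (hAτ : ∀ w : Place κ L, gg w.1 A ≤ exp (τ w : ℤ))
    (hΦτ : ∀ w : Place κ L, gg w.1 Φ ≤ exp (τ w : ℤ))
    (hA0 : A ≠ 0) (hirr : Irreducible A') (hdvd : A' ∣ A) (hdeg : A'.natDegree ≠ 0)
    {y₁ y : L} (hAy : A'.evalEval y₁ y = 0) (hle : ∀ w : Place κ L, w.1 y ≤ exp (τ w : ℤ) * max 1 (w.1 y₁))
    {P : Finset (Place κ L)}
    (hP : ∀ w : Place κ L, w ∉ P →
      w.1 ((derivative A).evalEval y₁ y) ^ d ≤ w.1 (Φ.evalEval y₁ y))
    {E : Finset (L × L)} (hinj : Set.InjOn Prod.fst (E : Set (L × L)))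
    (hE : ∀ p ∈ E, A'.evalEval p.1 p.2 = 0 ∧ (derivative A).evalEval p.1 p.2 ≠ 0 ∧
      Φ.evalEval p.1 p.2 = 0)
    (hcard : 3 * A'.natDegree ≤ E.card) {H : ℤ}
    (hH : ∀ p ∈ E, height κ ![1, p.1] ≤ H ∧ height κ ![1, p.2] ≤ H) :
    height κ ![1, y₁] ≤
      cN3 b e d E.card * (P.card + ∑ᶠ w, (β w : ℤ) + ∑ᶠ w, (τ w : ℤ) + H) := by
  -- We may assume that one coefficient of `A'` is `1` (multiply by a constant).  Apply
  -- `moving_curve` to `A'` (`Box.of_dvd`), `S = E`, and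
  -- `τ' w = (log (gg w A')).toNat + (2 b + 2 e + 2) * (τ w + ∑ p ∈ E, (pp w p.1 + pp w p.2))
  --   + (d + 1) * ∑ p ∈ E, pp w (A_Y p)⁻¹ + ∑ p ∈ E, ∑ p' ∈ E, pp w (p.1 - p'.1)⁻¹`;
  -- `not_near` gives `hnear`.  Sum: `gh_le_of_dvd`, `pp_sum`, `pp_inv_sum`, `height_sub_le`,
  -- `height_value_le` (for `derivative A`: `box_derivative`, `gg_derivative_le`).
  classical
  have hA'0 : A' ≠ 0 := hirr.ne_zero
  obtain ⟨i₀, j₀, hc⟩ : ∃ i j, (A'.coeff i).coeff j ≠ 0 := by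
    by_contra hcon
    push Not at hcon
    apply hA'0
    refine Polynomial.ext fun i => Polynomial.ext fun j => ?_
    rw [coeff_zero, coeff_zero]
    exact hcon i j
  set c : L := (A'.coeff i₀).coeff j₀ with hcdef
  have hcinv : c⁻¹ ≠ 0 := inv_ne_zero hc
  have hunit : IsUnit (C (C c⁻¹) : L[X][X]) :=
    (IsUnit.mk0 _ hcinv).map (C.comp C : L →+* L[X][X])
  have hassoc : Associated A' (C (C c⁻¹) * A') := by
    rw [mul_comm]
    exact ⟨hunit.unit, by rw [IsUnit.unit_spec]⟩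
  have hirr' : Irreducible (C (C c⁻¹) * A') := hassoc.irreducible hirr
  have hdvd' : C (C c⁻¹) * A' ∣ A := hassoc.dvd_iff_dvd_left.1 hdvd
  have hdeg' : (C (C c⁻¹) * A').natDegree = A'.natDegree :=
    natDegree_C_mul (by rwa [Ne, C_eq_zero])
  have hone : ((C (C c⁻¹) * A').coeff i₀).coeff j₀ = 1 := by
    rw [coeff_C_mul, coeff_C_mul, ← hcdef, inv_mul_cancel₀ hc]
  have hev : ∀ s t : L, A'.evalEval s t = 0 → (C (C c⁻¹) * A').evalEval s t = 0 := by
    intro s t hst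
    rw [evalEval_mul, hst, mul_zero]
  exact m6_main h D hD hβ hτ hpole hAb hΦb hAτ hΦτ hA0 hirr' hdvd' (by rwa [hdeg']) hone
    (hev _ _ hAy) hle hP hinj (fun p hp => ⟨hev _ _ (hE p hp).1, (hE p hp).2⟩) (by rwa [hdeg']) hH

end Pool.Agent.Lib.MP_44a246_ntPC
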