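import Mathlib
import Pool.Agent.Lib.MP_44a246_ntPC.G1

/-!
Ultraproducts: the number of the zeros on the curves.
-/

namespace Pool.Agent.Lib.MP_44a246_ntPC

open Pool.Agent.Lib.MP_e52354_nt
open Pool.Agent.Lib.MP_44a246_ntS
open Pool.Agent.Lib.MP_44a246_ntY
open Polynomial

theorem m2_aeval {R S : Type*} [CommRing R] [CommRing S] (φ : R →+* S) (V : Fin 3 → R[X][X])
    (P : MvPolynomial (Fin 3) R) :
    m2 φ (MvPolynomial.aeval V P) =
      MvPolynomial.aeval (fun i => m2 φ (V i)) (MvPolynomial.map φ P) := by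
  induction P using MvPolynomial.induction_on with
  | C a =>
    rw [MvPolynomial.aeval_C, MvPolynomial.map_C, MvPolynomial.aeval_C]
    exact m2_CC φ a
  | add p q hp hq => rw [map_add, map_add, map_add, map_add, hp, hq]
  | mul_X p i hp =>
    rw [map_mul, map_mul, MvPolynomial.aeval_X, map_mul, map_mul, MvPolynomial.map_X,
      MvPolynomial.aeval_X, hp]

/-- lifting of forms to the ring of sequences -/
theorem exists_lift_form {L : Type*} [Field L] {m : ℕ} {P : MvPolynomial (Fin 3) (UP L)}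
    (hP : P.IsHomogeneous m) : ∃ P' : MvPolynomial (Fin 3) (ℕ → L),
      MvPolynomial.map germHom P' = P ∧ ∀ N,
        (MvPolynomial.map (Pi.evalRingHom (fun _ => L) N) P').IsHomogeneous m := by
  classical
  choose c hc using fun I => germHom_surjective (P.coeff I)
  refine ⟨∑ I ∈ expo (Fin 3) m, MvPolynomial.monomial I (c I), ?_, fun N => ?_⟩
  · rw [map_sum]
    ext I
    rw [MvPolynomial.coeff_sum]
    simp only [MvPolynomial.map_monomial, MvPolynomial.coeff_monomial, hc]
    by_cases hI : I ∈ expo (Fin 3) m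
    · rw [Finset.sum_eq_single_of_mem I hI, if_pos rfl]
      intro J _ hJ
      rw [if_neg hJ]
    · rw [Finset.sum_eq_zero]
      · exact (hP.coeff_eq_zero fun h => hI (mem_expo.2 h)).symm
      · intro J hJ
        rw [if_neg]
        rintro rfl
        exact hI hJ
  · rw [map_sum]
    refine MvPolynomial.IsHomogeneous.sum _ _ _ fun I hI => ?_
    rw [MvPolynomial.map_monomial]
    exact MvPolynomial.isHomogeneous_monomial _ (mem_expo.1 hI)

section

variable {L : Type*} [Field L]

/-- dehomogenisation over a ring -/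
noncomputable def dehR {R : Type*} [CommRing R] (P : MvPolynomial (Fin 3) R) : R[X][X] :=
  MvPolynomial.aeval ![1, C X, X] P

theorem m2_dehR {R S : Type*} [CommRing R] [CommRing S] (φ : R →+* S)
    (P : MvPolynomial (Fin 3) R) : m2 φ (dehR P) = dehR (MvPolynomial.map φ P) := by
  unfold dehR
  rw [m2_aeval]
  congr 2
  funext i
  fin_cases i
  · exact map_one _
  · exact m2_CX φ
  · exact m2_X φ

/-- linear forms over a ring -/
noncomputable def ubR {R : Type*} [CommRing R] {n : ℕ} (u : Fin 3 → Fin (n + 1) → ℕ)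
    (B : Fin (n + 1) → R[X][X]) (i : Fin 3) : R[X][X] :=
  ∑ j, C (C (u i j : R)) * B j

theorem m2_ubR {R S : Type*} [CommRing R] [CommRing S] (φ : R →+* S) {n : ℕ}
    (u : Fin 3 → Fin (n + 1) → ℕ) (B : Fin (n + 1) → R[X][X]) (i : Fin 3) :
    m2 φ (ubR u B i) = ubR u (fun j => m2 φ (B j)) i := by
  unfold ubR
  rw [map_sum]
  refine Finset.sum_congr rfl fun j _ => ?_
  rw [map_mul, m2_CC, map_natCast]

theorem m2_aeval_ubR {R S : Type*} [CommRing R] [CommRing S] (φ : R →+* S) {n : ℕ}
    (u : Fin 3 → Fin (n + 1) → ℕ) (B : Fin (n + 1) → R[X][X]) (P : MvPolynomial (Fin 3) R) :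
    m2 φ (MvPolynomial.aeval (ubR u B) P) =
      MvPolynomial.aeval (ubR u fun j => m2 φ (B j)) (MvPolynomial.map φ P) := by
  rw [m2_aeval]
  congr 2
  funext i
  exact m2_ubR φ u B i

/-- **the number of the zeros, for ultraproducts** -/
theorem fewZ_germ {n d : ℕ} {A' : (ℕ → L)[X][X]} {B' : Fin (n + 1) → (ℕ → L)[X][X]}
    {a : (Fin (n + 1) →₀ ℕ) → L}
    (hA : ∀ N, m2 (Pi.evalRingHom (fun _ => L) N) A' ≠ 0)
    (h : ∀ N, FewZ (m2 (Pi.evalRingHom (fun _ => L) N) A')
      (fun j => m2 (Pi.evalRingHom (fun _ => L) N) (B' j)) d a) :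
    FewZ (m2 germHom A') (fun j => m2 germHom (B' j)) d (fun I => constHom (a I)) := by
  classical
  intro u m P Q hP E hEinj hE
  obtain ⟨P', hP', hP'h⟩ := exists_lift_form hP.hom
  choose Q' hQ' hQ'h using fun j => exists_lift_form (hP.homQ j)
  -- the identification
  have e1 : ∀ᶠ N in (Filter.hyperfilter ℕ : Filter ℕ),
      Irreducible (deh (MvPolynomial.map (Pi.evalRingHom (fun _ => L) N) P')) := by
    have h1 : Irreducible (m2 germHom (dehR P')) := by
      rw [m2_dehR, hP']
      exact hP.irr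
    filter_upwards [eventually_irreducible h1] with N hN
    rw [m2_dehR] at hN
    exact hN
  have hcoef : ∀ (R : MvPolynomial (Fin 3) (ℕ → L)) (I : Fin 3 →₀ ℕ) (t : L),
      (MvPolynomial.map germHom R).coeff I = germHom (fun _ => t) →
      ∀ᶠ N in (Filter.hyperfilter ℕ : Filter ℕ),
        (MvPolynomial.map (Pi.evalRingHom (fun _ => L) N) R).coeff I = t := by
    intro R I t hR
    rw [MvPolynomial.coeff_map, germHom_eq_iff] at hR
    filter_upwards [hR] with N hN
    rw [MvPolynomial.coeff_map]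
    exact hN
  have e2 : ∀ᶠ N in (Filter.hyperfilter ℕ : Filter ℕ),
      (MvPolynomial.map (Pi.evalRingHom (fun _ => L) N) P').coeff (Finsupp.single 2 m) = 1 := by
    refine hcoef P' _ 1 ?_
    rw [hP', hP.monic]
    exact (map_one germHom).symm
  have e3 : ∀ᶠ N in (Filter.hyperfilter ℕ : Filter ℕ), ∀ j,
      (MvPolynomial.map (Pi.evalRingHom (fun _ => L) N) (Q' j)).coeff
        (Finsupp.single 2 m) = 0 := by
    rw [Filter.eventually_all]
    intro j
    refine hcoef (Q' j) _ 0 ?_
    rw [hQ', hP.coeffQ]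
    exact (map_zero germHom).symm
  have e4 : ∀ᶠ N in (Filter.hyperfilter ℕ : Filter ℕ),
      m2 (Pi.evalRingHom (fun _ => L) N) A' ∣ MvPolynomial.aeval
        (ub u fun j => m2 (Pi.evalRingHom (fun _ => L) N) (B' j))
        (MvPolynomial.map (Pi.evalRingHom (fun _ => L) N) P') := by
    have h1 : m2 germHom A' ∣ m2 germHom (MvPolynomial.aeval (ubR u B') P') := by
      rw [m2_aeval_ubR, hP']
      exact hP.dvd
    filter_upwards [eventually_dvd h1] with N hN
    rw [m2_aeval_ubR] at hN
    exact hN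
  have e5 : ∀ᶠ N in (Filter.hyperfilter ℕ : Filter ℕ), ∀ j,
      m2 (Pi.evalRingHom (fun _ => L) N) A' ∣ MvPolynomial.aeval
        (ub u fun j => m2 (Pi.evalRingHom (fun _ => L) N) (B' j))
        (MvPolynomial.map (Pi.evalRingHom (fun _ => L) N) (Q' j)) -
      MvPolynomial.aeval (ub u fun j => m2 (Pi.evalRingHom (fun _ => L) N) (B' j))
        (MvPolynomial.pderiv 2 (MvPolynomial.map (Pi.evalRingHom (fun _ => L) N) P')) *
          m2 (Pi.evalRingHom (fun _ => L) N) (B' j) := by
    rw [Filter.eventually_all]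
    intro j
    have h1 : m2 germHom A' ∣ m2 germHom (MvPolynomial.aeval (ubR u B') (Q' j) -
        MvPolynomial.aeval (ubR u B') (MvPolynomial.pderiv 2 P') * B' j) := by
      rw [map_sub, map_mul, m2_aeval_ubR, m2_aeval_ubR, ← MvPolynomial.pderiv_map, hP', hQ']
      exact hP.dvdQ j
    filter_upwards [eventually_dvd h1] with N hN
    rw [map_sub, map_mul, m2_aeval_ubR, m2_aeval_ubR, ← MvPolynomial.pderiv_map] at hN
    exact hN
  have e6 : ∀ᶠ N in (Filter.hyperfilter ℕ : Filter ℕ),
      ¬ m2 (Pi.evalRingHom (fun _ => L) N) A' ∣ MvPolynomial.aeval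
        (ub u fun j => m2 (Pi.evalRingHom (fun _ => L) N) (B' j))
        (MvPolynomial.pderiv 2 (MvPolynomial.map (Pi.evalRingHom (fun _ => L) N) P')) := by
    have h1 : ¬ m2 germHom A' ∣
        m2 germHom (MvPolynomial.aeval (ubR u B') (MvPolynomial.pderiv 2 P')) := by
      rw [m2_aeval_ubR, ← MvPolynomial.pderiv_map, hP']
      exact hP.ndvd
    filter_upwards [eventually_not_dvd hA h1] with N hN
    rw [m2_aeval_ubR, ← MvPolynomial.pderiv_map] at hN
    exact hN
  -- the points
  have hlift : ∀ p : UP L × UP L, ∃ u w : ℕ → L, p = (germHom u, germHom w) := by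
    rintro ⟨p1, p2⟩
    obtain ⟨u, rfl⟩ := germHom_surjective p1
    obtain ⟨w, rfl⟩ := germHom_surjective p2
    exact ⟨u, w, rfl⟩
  choose s w hsw using hlift
  have hev : ∀ (G : (ℕ → L)[X][X]) (x y : ℕ → L), (m2 germHom G).evalEval (germHom x) (germHom y) =
      germHom fun N => (m2 (Pi.evalRingHom (fun _ => L) N) G).evalEval (x N) (y N) := by
    intro G x y
    rw [m2_evalEval]
    congr 1
    funext N
    exact (m2_evalEval (Pi.evalRingHom (fun _ => L) N) G x y).symm
  obtain ⟨F', hF'def⟩ : ∃ F' : (ℕ → L)[X][X], F' =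
      ∑ I ∈ expo (Fin (n + 1)) d, C (C (fun _ : ℕ => a I)) * ∏ j, dehR (Q' j) ^ I j := ⟨_, rfl⟩
  have hF' : ∀ N, m2 (Pi.evalRingHom (fun _ => L) N) F' =
      FB d a (fun j => deh (MvPolynomial.map (Pi.evalRingHom (fun _ => L) N) (Q' j))) := by
    intro N
    rw [hF'def, map_sum]
    unfold FB
    refine Finset.sum_congr rfl fun I _ => ?_
    rw [map_mul, m2_CC, map_prod]
    congr 1
    refine Finset.prod_congr rfl fun j _ => ?_
    rw [map_pow, m2_dehR]
    rfl
  have hF'g : m2 germHom F' = FB d (fun I => constHom (a I)) (fun j => deh (Q j)) := by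
    rw [hF'def, map_sum]
    unfold FB
    refine Finset.sum_congr rfl fun I _ => ?_
    rw [map_mul, m2_CC, map_prod]
    congr 1
    refine Finset.prod_congr rfl fun j _ => ?_
    rw [map_pow, m2_dehR, hQ']
    rfl
  have c1 : ∀ᶠ N in (Filter.hyperfilter ℕ : Filter ℕ), ∀ p ∈ E,
      (deh (MvPolynomial.map (Pi.evalRingHom (fun _ => L) N) P')).evalEval (s p N) (w p N) = 0 ∧
      (derivative (deh (MvPolynomial.map (Pi.evalRingHom (fun _ => L) N) P'))).evalEval
        (s p N) (w p N) ≠ 0 ∧
      (FB d a (fun j => deh (MvPolynomial.map (Pi.evalRingHom (fun _ => L) N) (Q' j)))).evalEval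
        (s p N) (w p N) = 0 := by
    rw [Filter.eventually_all_finset]
    intro p hp
    obtain ⟨g1, g2, g3⟩ := hE p hp
    have f1 : p.1 = germHom (s p) := congrArg Prod.fst (hsw p)
    have f2 : p.2 = germHom (w p) := congrArg Prod.snd (hsw p)
    have hd : deh P = m2 germHom (dehR P') := by
      rw [m2_dehR, hP']
      rfl
    rw [f1, f2] at g1 g2 g3
    rw [hd] at g1 g2
    rw [← m2_derivative] at g2
    rw [← hF'g] at g3
    rw [hev, germHom_eq_zero_iff] at g1 g3
    rw [hev, Ne, germHom_eq_zero_iff] at g2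
    filter_upwards [g1, Ultrafilter.eventually_not.2 g2, g3] with N k1 k2 k3
    rw [m2_dehR] at k1
    rw [m2_derivative, m2_dehR] at k2
    rw [hF'] at k3
    exact ⟨k1, k2, k3⟩
  have c2 : ∀ᶠ N in (Filter.hyperfilter ℕ : Filter ℕ), ∀ p ∈ E, ∀ q ∈ E, p ≠ q →
      s p N ≠ s q N := by
    rw [Filter.eventually_all_finset]
    intro p hp
    rw [Filter.eventually_all_finset]
    intro q hq
    by_cases hpq : p = q
    · exact Filter.Eventually.of_forall fun N hne => absurd hpq hne
    · have h1 : ∀ᶠ N in (Filter.hyperfilter ℕ : Filter ℕ), ¬ (s p N = s q N) := by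
        rw [Ultrafilter.eventually_not]
        intro h2
        apply hpq
        refine hEinj hp hq ?_
        have f1 : p.1 = germHom (s p) := congrArg Prod.fst (hsw p)
        have f2 : q.1 = germHom (s q) := congrArg Prod.fst (hsw q)
        rw [f1, f2, germHom_eq_iff]
        exact h2
      exact h1.mono fun N hN _ => hN
  obtain ⟨N, d1, d2, d3, d4, d5, d6, d7, d8⟩ :=
    (e1.and (e2.and (e3.and (e4.and (e5.and (e6.and (c1.and c2))))))).exists
  have hcard : (E.image fun p => (s p N, w p N)).card = E.card := by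
    apply Finset.card_image_of_injOn
    intro p hp q hq hpq
    by_contra hne
    exact d8 p hp q hq hne (Prod.ext_iff.1 hpq).1
  have hinj : Set.InjOn Prod.fst ((E.image fun p => (s p N, w p N) : Finset (L × L)) :
      Set (L × L)) := by
    intro r hr r' hr' hrr
    rw [Finset.mem_coe, Finset.mem_image] at hr hr'
    obtain ⟨p, hp, rfl⟩ := hr
    obtain ⟨q, hq, rfl⟩ := hr'
    by_cases hpq : p = q
    · rw [hpq]
    · exact absurd hrr (d8 p hp q hq hpq)
  have h5 := h N u m (MvPolynomial.map (Pi.evalRingHom (fun _ => L) N) P')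
    (fun j => MvPolynomial.map (Pi.evalRingHom (fun _ => L) N) (Q' j))
    ⟨d1, hP'h N, d2, fun j => hQ'h j N, d3, d4, d5, d6⟩
    (E.image fun p => (s p N, w p N)) hinj (by
      intro r hr
      obtain ⟨p, hp, rfl⟩ := Finset.mem_image.1 hr
      exact d7 p hp)
  rwa [hcard] at h5

end

end Pool.Agent.Lib.MP_44a246_ntPC
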