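import Mathlib
import Pool.Agent.Lib.MP_44a246_nt.Places
import Pool.Agent.Lib.MP_e52354_nt.Local
import Pool.Agent.Lib.MP_44a246_ntL.LMain
import Pool.Agent.Lib.MP_44a246_ntS.SP7
import Pool.Agent.Lib.MP_44a246_ntS.SM1
import Pool.Agent.Lib.MP_44a246_ntR.R06
import Pool.Agent.Lib.MP_44a246_ntK.K11

/-!
The values of forms and the rank of the matrix of the derivatives at the generic point of a curve.
-/

namespace Pool.Agent.Lib.MP_44a246_ntPC

open Pool.Agent.Lib.MP_e52354_nt
open Pool.Agent.Lib.MP_44a246_nt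
open Pool.Agent.Lib.MP_44a246_ntK
open Pool.Agent.Lib.MP_44a246_ntL
open Pool.Agent.Lib.MP_44a246_ntQ
open Pool.Agent.Lib.MP_44a246_ntR
open Pool.Agent.Lib.MP_44a246_ntS
open WithZero Polynomial

universe u

/-- evaluation of a form at polynomials -/
theorem ev_FB {κ M : Type*} [Field κ] [Field M] (φ : κ →+* M) (x y : M) {n : ℕ} (d : ℕ)
    (a : (Fin (n + 1) →₀ ℕ) → κ) (B : Fin (n + 1) → κ[X][X]) :
    ev φ x y (FB d a B) = Fval d (fun I => φ (a I)) (fun j => ev φ x y (B j)) := by
  unfold FB Fval mon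
  rw [map_sum]
  refine Finset.sum_congr rfl fun I _ => ?_
  rw [map_mul, ev_C_C, map_prod]
  congr 1
  refine Finset.prod_congr rfl fun j _ => ?_
  rw [map_pow]

/-- the value of a form with constant coefficients at a place without poles -/
theorem val_Fval_le {κ M : Type*} [Field κ] [Field M] [Algebra κ M] {n : ℕ}
    {w : Place κ M} {γ : Fin (n + 1) → M} (h : vmax w.1 γ ≤ 1) (d : ℕ)
    (a : (Fin (n + 1) →₀ ℕ) → κ) : w.1 (Fval d (fun I => algebraMap κ M (a I)) γ) ≤ 1 := by
  unfold Fval mon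
  refine w.1.map_sum_le fun I _ => ?_
  rw [map_mul, map_prod]
  have h1 : w.1 (algebraMap κ M (a I)) ≤ 1 := by
    by_cases hc : a I = 0
    · rw [hc, map_zero, map_zero]
      exact zero_le
    · exact (w.2.2 _ hc).le
  refine mul_le_one' h1 (Finset.prod_le_one' fun j _ => ?_)
  rw [map_pow]
  exact pow_le_one' ((le_vmax w.1 γ j).trans h) _

/-- the rank condition at the generic point of a curve through the point -/
theorem jrank_generic {κ : Type u} [Field κ] {k : Type*} [Field k] [Algebra k κ] {n p ρ : ℕ}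
    {d : Fin p → ℕ} {ι : Type*} {e : ι → ℕ} {F : ι → MvPolynomial (Fin p ⊕ Fin (n + 1)) k}
    (hF : ∀ i, (F i).IsWeightedHomogeneous (wtP (n + 1) d) (e i))
    {a : Fin p → (Fin (n + 1) →₀ ℕ) → κ} {Bv : Fin (n + 1) → κ[X][X]} {x : Fin (n + 1) → κ}
    {y₁ y β : κ} (hβ0 : β ≠ 0) (hB : ∀ l, β * x l = (Bv l).evalEval y₁ y) {M : Type u} [Field M]
    [Algebra κ M] [Algebra k M] [IsScalarTower k κ M] {X' Y : M}
    (hspec : ∀ G : κ[X][X], evalEvalRingHom y₁ y G ≠ 0 → ev (algebraMap κ M) X' Y G ≠ 0)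
    (hne : JRank ρ F (Sum.elim (fun j => Fval (d j) (a j) x) x : Fin p ⊕ Fin (n + 1) → κ)) :
    JRank ρ F (Sum.elim (fun j => Fval (d j) (fun I => algebraMap κ M (a j I))
      (fun l => ev (algebraMap κ M) X' Y (Bv l))) (fun l => ev (algebraMap κ M) X' Y (Bv l)) :
      Fin p ⊕ Fin (n + 1) → M) := by
  classical
  obtain ⟨i, jj, hdet⟩ := hne.smul hF hβ0
  refine ⟨i, jj, ?_⟩
  set φ := algebraMap κ M with hφ
  have hkM : ∀ u : k, algebraMap k M u = algebraMap κ M (algebraMap k κ u) :=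
    fun u => IsScalarTower.algebraMap_apply k κ M u
  set Hb : Fin p → κ[X][X] := fun j => FB (d j) (a j) Bv with hHb
  set N : Matrix (Fin ρ) (Fin ρ) κ[X][X] := Matrix.of fun a b =>
    MvPolynomial.aeval (Sum.elim Hb Bv : Fin p ⊕ Fin (n + 1) → κ[X][X])
      (MvPolynomial.pderiv (Sum.inl (jj b)) (F (i a))) with hN
  have h3 : ∀ (S : Type u) [Field S] [Algebra k S] (ψ : κ[X][X] →+* S)
      (_ : ∀ u : k, ψ (algebraMap k κ[X][X] u) = algebraMap k S u)
      (q : MvPolynomial (Fin p ⊕ Fin (n + 1)) k),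
      ψ (MvPolynomial.aeval (Sum.elim Hb Bv : Fin p ⊕ Fin (n + 1) → κ[X][X]) q) =
        MvPolynomial.aeval (Sum.elim (fun j => ψ (Hb j)) (fun j => ψ (Bv j)) :
        Fin p ⊕ Fin (n + 1) → S) q := by
    intro S _ _ ψ hψ q
    rw [MvPolynomial.aeval_def, MvPolynomial.hom_eval₂, MvPolynomial.aeval_def]
    congr 1
    · exact RingHom.ext hψ
    · funext t
      rcases t with t | t <;> rfl
  have h3' : ∀ (S : Type u) [Field S] [Algebra k S] (ψ : κ[X][X] →+* S)
      (_ : ∀ u : k, ψ (algebraMap k κ[X][X] u) = algebraMap k S u),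
      ψ N.det = (Matrix.of fun a b => MvPolynomial.aeval
        (Sum.elim (fun j => ψ (Hb j)) (fun j => ψ (Bv j)) : Fin p ⊕ Fin (n + 1) → S)
        (MvPolynomial.pderiv (Sum.inl (jj b)) (F (i a)))).det := by
    intro S _ _ ψ hψ
    rw [RingHom.map_det]
    congr 1
    ext a b
    rw [RingHom.mapMatrix_apply, Matrix.map_apply, hN, Matrix.of_apply, Matrix.of_apply,
      h3 S ψ hψ]
  have h4 : evalEvalRingHom y₁ y N.det ≠ 0 := by
    rw [h3' κ (evalEvalRingHom y₁ y) (fun u => by
      rw [IsScalarTower.algebraMap_apply k κ κ[X][X]]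
      show evalEval y₁ y (C (C (algebraMap k κ u))) = _
      rw [evalEval_C, eval_C])]
    have hBv : ∀ l, evalEvalRingHom y₁ y (Bv l) = β * x l := by
      intro l
      show evalEval y₁ y (Bv l) = β * x l
      rw [← hB l]
    have h5 : (Sum.elim (fun j => evalEvalRingHom y₁ y (Hb j))
        (fun j => evalEvalRingHom y₁ y (Bv j)) : Fin p ⊕ Fin (n + 1) → κ) =
        Sum.elim (fun j => β ^ d j * (Sum.elim (fun j => Fval (d j) (a j) x) x :
          Fin p ⊕ Fin (n + 1) → κ) (Sum.inl j))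
          (fun l => β * (Sum.elim (fun j => Fval (d j) (a j) x) x :
            Fin p ⊕ Fin (n + 1) → κ) (Sum.inr l)) := by
      funext t
      rcases t with t | t
      · simp only [Sum.elim_inl]
        rw [← Fval_smul, hHb]
        show evalEval y₁ y (FB (d t) (a t) Bv) = _
        rw [FB_eval]
        exact congrArg _ (funext fun l => hBv l)
      · simp only [Sum.elim_inr]
        exact hBv t
    rw [h5]
    exact hdet
  have h6 := hspec N.det h4
  rw [h3' M (ev φ X' Y) (fun u => by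
    rw [IsScalarTower.algebraMap_apply k κ κ[X][X], hkM]
    show ev φ X' Y (C (C (algebraMap k κ u))) = _
    rw [ev_C_C])] at h6
  have h8 : (Sum.elim (fun j => ev φ X' Y (Hb j)) (fun j => ev φ X' Y (Bv j)) :
      Fin p ⊕ Fin (n + 1) → M) = Sum.elim (fun j => Fval (d j) (fun I => φ (a j I))
      (fun l => ev φ X' Y (Bv l))) (fun l => ev φ X' Y (Bv l)) := by
    funext t
    rcases t with t | t
    · exact ev_FB φ X' Y _ _ _
    · rfl
  rw [h8] at h6
  exact h6

/-- an intermediate field which contains `X` and `Y` -/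
theorem top_of_mem {κ M : Type*} [Field κ] [Field M] [Algebra κ M] [Algebra κ[X] M]
    [IsScalarTower κ κ[X] M] [Algebra (RatFunc κ) M] [IsScalarTower κ[X] (RatFunc κ) M] {Y : M}
    (hgen : IntermediateField.adjoin (RatFunc κ) {Y} = ⊤) (F : IntermediateField κ M)
    (hX : algebraMap κ[X] M X ∈ F) (hY : Y ∈ F) : F = ⊤ := by
  have h1 : ∀ g : κ[X], algebraMap κ[X] M g ∈ F := by
    intro g
    have h2 : algebraMap κ[X] M g = aeval (algebraMap κ[X] M X) g := by
      rw [aeval_algebraMap_apply, aeval_X_left_apply]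
    rw [h2, aeval_eq_sum_range]
    exact sum_mem fun i _ => F.smul_mem (pow_mem hX i)
  have h2 : ∀ u : RatFunc κ, algebraMap (RatFunc κ) M u ∈ F := by
    intro u
    obtain ⟨a, b, hb, rfl⟩ := IsFractionRing.div_surjective (A := κ[X]) u
    rw [map_div₀, ← IsScalarTower.algebraMap_apply, ← IsScalarTower.algebraMap_apply]
    exact div_mem (h1 a) (h1 b)
  let G : IntermediateField (RatFunc κ) M := { F.toSubfield with algebraMap_mem' := h2 }
  have h3 : G = ⊤ := by
    rw [eq_top_iff, ← hgen, IntermediateField.adjoin_le_iff, Set.singleton_subset_iff]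
    exact hY
  rw [eq_top_iff]
  intro z _
  have h4 : z ∈ G := by
    rw [h3]
    exact IntermediateField.mem_top
  exact h4

end Pool.Agent.Lib.MP_44a246_ntPC
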