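import Mathlib
import Pool.Agent.Lib.MP_44a246_ntY.Y53
import Pool.Agent.Lib.MP_44a246_ntE.E03
import Pool.Agent.Lib.MP_44a246_ntE.E07

/-!
The logarithmic derivatives of functions whose zeros on a plane curve are not moved by a derivation.
-/

namespace Pool.Agent.Lib.MP_44a246_ntPC

open Pool.Agent.Lib.MP_e52354_nt
open Pool.Agent.Lib.MP_44a246_nt
open Pool.Agent.Lib.MP_44a246_ntL
open Pool.Agent.Lib.MP_44a246_ntR
open Pool.Agent.Lib.MP_44a246_ntS
open Pool.Agent.Lib.MP_44a246_ntE
open Pool.Agent.Lib.MP_44a246_ntY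
open WithZero Polynomial Module

private theorem dvd_of_res' {L : Type*} [Field L] [CharZero L] {A Q : L[X][X]} (hA : Irreducible A)
    (hm : A.natDegree ≠ 0) {N : ℕ} (hQ : Q.natDegree ≤ N)
    (h : resultant A Q A.natDegree N = 0) : A ∣ Q := by
  have hprim : A.IsPrimitive := hA.isPrimitive hm
  have hinj : Function.Injective (algebraMap L[X] (FractionRing L[X])) :=
    IsFractionRing.injective _ _
  have hirr : Irreducible (A.map (algebraMap L[X] (FractionRing L[X]))) :=
    hprim.irreducible_iff_irreducible_map_fraction_map.mp hA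
  apply hprim.dvd_of_fraction_map_dvd_fraction_map (K := FractionRing L[X])
  obtain ⟨k, hk⟩ := Nat.exists_eq_add_of_le hQ
  have h1 : resultant (A.map (algebraMap L[X] (FractionRing L[X])))
      (Q.map (algebraMap L[X] (FractionRing L[X]))) A.natDegree N = 0 := by
    rw [resultant_map_map, h, map_zero]
  rw [hk, resultant_add_right_deg _ _ _ _ _ natDegree_map_le, mul_eq_zero] at h1
  have h2 : (A.map (algebraMap L[X] (FractionRing L[X]))).coeff A.natDegree ^ k ≠ 0 := by
    apply pow_ne_zero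
    rw [coeff_map]
    intro h0
    rw [map_eq_zero_iff _ hinj, coeff_natDegree, leadingCoeff_eq_zero] at h0
    exact hA.ne_zero h0
  have h3 := h1.resolve_left h2
  have e1 : (A.map (algebraMap L[X] (FractionRing L[X]))).natDegree = A.natDegree :=
    natDegree_map_eq_of_injective hinj A
  have e2 : (Q.map (algebraMap L[X] (FractionRing L[X]))).natDegree = Q.natDegree :=
    natDegree_map_eq_of_injective hinj Q
  rw [← e1, ← e2, resultant_eq_zero_iff] at h3
  by_contra hnd
  exact h3.2 ((hirr.coprime_iff_not_dvd).mpr hnd)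

section

variable {κ M : Type*} [Field κ] [IsAlgClosed κ] [CharZero κ] [Field M] [Algebra κ M]
  [Algebra κ[X] M] [IsScalarTower κ κ[X] M]
  [Algebra (RatFunc κ) M] [IsScalarTower κ[X] (RatFunc κ) M]
  [Algebra (Rinf κ) M] [IsScalarTower (Rinf κ) (RatFunc κ) M]
  [FiniteDimensional (RatFunc κ) M]

private theorem value_one (w : Place κ M) {c : κ}
    (hw : w.1 (algebraMap κ[X] M X - algebraMap κ M c) < 1)
    (hX : w.1 (algebraMap κ[X] M X) ≤ 1) {p : κ[X]} (hp : p.eval c ≠ 0) :
    w.1 (algebraMap κ[X] M p) = 1 := by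
  obtain ⟨q, hq⟩ : (X - C c) ∣ p - C (p.eval c) := by
    rw [dvd_iff_isRoot, IsRoot, eval_sub, eval_C, sub_self]
  have h1 : algebraMap κ[X] M p = algebraMap κ M (p.eval c) +
      (algebraMap κ[X] M X - algebraMap κ M c) * algebraMap κ[X] M q := by
    have h2 := congrArg (algebraMap κ[X] M) hq
    rw [map_sub, map_mul, map_sub] at h2
    have hC : ∀ a : κ, algebraMap κ[X] M (C a) = algebraMap κ M a := fun a => by
      rw [IsScalarTower.algebraMap_apply κ κ[X] M]; rfl
    rw [hC, hC] at h2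
    rw [← h2]
    ring
  have h3 : w.1 (algebraMap κ M (p.eval c)) = 1 := w.2.2 _ hp
  have h4 : w.1 ((algebraMap κ[X] M X - algebraMap κ M c) * algebraMap κ[X] M q) < 1 := by
    rw [map_mul]
    exact mul_lt_one_of_lt_of_le hw (place_poly w hX q)
  rw [h1, Valuation.map_add_eq_of_lt_left w.1 (by rw [h3]; exact h4), h3]

omit [IsAlgClosed κ] [CharZero κ] [Algebra (Rinf κ) M] [IsScalarTower (Rinf κ) (RatFunc κ) M]
  [FiniteDimensional (RatFunc κ) M] in
private theorem inj_poly : Function.Injective (algebraMap κ[X] M) := by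
  rw [IsScalarTower.algebraMap_eq κ[X] (RatFunc κ) M]
  exact (algebraMap (RatFunc κ) M).injective.comp (IsFractionRing.injective κ[X] (RatFunc κ))

omit [IsAlgClosed κ] [CharZero κ] [Algebra (Rinf κ) M] [IsScalarTower (Rinf κ) (RatFunc κ) M] in
private theorem alg_X :
    Algebra.IsAlgebraic (IntermediateField.adjoin κ {algebraMap κ[X] M X}) M := by
  have hinj2 : Function.Injective (algebraMap κ[X] M) := inj_poly
  set x : M := algebraMap κ[X] M X with hx
  refine ⟨fun z => ?_⟩
  have h1 : IsAlgebraic (RatFunc κ) z := Algebra.IsAlgebraic.isAlgebraic z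
  have h2 : IsAlgebraic κ[X] z := (IsFractionRing.isAlgebraic_iff κ[X] (RatFunc κ) _).mpr h1
  obtain ⟨Q, hQ0, hQ⟩ := h2
  let F := IntermediateField.adjoin κ {x}
  let ξ : F := IntermediateField.AdjoinSimple.gen κ x
  let φ : κ[X] →+* F := (aeval ξ : κ[X] →ₐ[κ] F).toRingHom
  have hφ : (algebraMap F M).comp φ = algebraMap κ[X] M := by
    refine RingHom.ext fun p => ?_
    have e1 : algebraMap F M (aeval ξ p) = aeval (algebraMap F M ξ) p :=
      (aeval_algebraMap_apply M ξ p).symm
    have e2 : algebraMap F M ξ = x := rfl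
    have e3 : aeval x p = algebraMap κ[X] M p := by
      rw [hx, aeval_algebraMap_apply, aeval_X_left_apply]
    rw [e2, e3] at e1
    exact e1
  have hφinj : Function.Injective φ := by
    have : Function.Injective ((algebraMap F M).comp φ) := by
      rw [hφ]; exact hinj2
    exact Function.Injective.of_comp (f := algebraMap F M) this
  refine ⟨Q.map φ, (Polynomial.map_ne_zero_iff hφinj).mpr hQ0, ?_⟩
  rw [aeval_def, eval₂_map, hφ]
  exact hQ

/-- Let the coefficients of the equation `A` of the curve be killed by `D₀` and the value `c` of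
`X` at `w` not. Then `Y` has no pole at `w` and the derivative of `A` does not vanish. -/
theorem unram_der (w : Place κ M) {D₀ : Derivation ℤ κ κ} {A : κ[X][X]} (hA : Irreducible A)
    (hdeg : A.natDegree ≠ 0) (hDA : cE D₀ A = 0) {Y : M} (hY : aeval Y A = 0) {c : κ}
    (hc : D₀ c ≠ 0) (hw : w.1 (algebraMap κ[X] M X - algebraMap κ M c) < 1) :
    w.1 Y ≤ 1 ∧ w.1 (aeval Y (derivative A)) = 1 := by
  -- the first part of the proof of `unram` (E03)
  have hX : w.1 (algebraMap κ[X] M X) ≤ 1 := by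
    have h1 : algebraMap κ[X] M X =
        (algebraMap κ[X] M X - algebraMap κ M c) + algebraMap κ M c := by ring
    rw [h1]
    exact (w.1.map_add _ _).trans (max_le hw.le (place_const_le w c))
  have hint : ∀ q : κ[X], w.1 (algebraMap κ[X] M q) ≤ 1 := place_poly w hX
  have hco : ∀ i j, D₀ ((A.coeff i).coeff j) = 0 := by
    intro i j
    have h1 : (cE D₀ A).coeff i = mc D₀ (A.coeff i) := rfl
    rw [hDA, coeff_zero] at h1
    rw [← mc_coeff, ← h1, coeff_zero]
  set m := A.natDegree with hm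
  have hA0 : A ≠ 0 := hA.ne_zero
  have hlc : w.1 (algebraMap κ[X] M (A.coeff m)) = 1 := by
    refine value_one w hw hX (eval_ne_zero_of_der ?_ (hco m) hc)
    rw [hm, coeff_natDegree]
    exact leadingCoeff_ne_zero.mpr hA0
  -- `Y` is integral
  have hYint : w.1 Y ≤ 1 := by
    by_contra hcon
    push Not at hcon
    have hY0 : w.1 Y ≠ 0 := (zero_lt_one.trans hcon).ne'
    rw [aeval_eq_sum_range, Finset.sum_range_succ, ← hm] at hY
    simp only [Algebra.smul_def] at hY
    have h1 : algebraMap κ[X] M (A.coeff m) * Y ^ m =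
        - ∑ i ∈ Finset.range m, algebraMap κ[X] M (A.coeff i) * Y ^ i := by
      linear_combination hY
    have h2 : w.1 (algebraMap κ[X] M (A.coeff m) * Y ^ m) = w.1 Y ^ m := by
      rw [map_mul, map_pow, hlc, one_mul]
    have h3 : w.1 (∑ i ∈ Finset.range m, algebraMap κ[X] M (A.coeff i) * Y ^ i) < w.1 Y ^ m := by
      refine Valuation.map_sum_lt w.1 (pow_ne_zero m hY0) fun i hi => ?_
      rw [map_mul, map_pow]
      calc w.1 (algebraMap κ[X] M (A.coeff i)) * w.1 Y ^ i ≤ 1 * w.1 Y ^ i :=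
            mul_le_mul' (hint _) le_rfl
        _ = w.1 Y ^ i := one_mul _
        _ < w.1 Y ^ m := pow_lt_pow_right₀ hcon (Finset.mem_range.mp hi)
    rw [← h2, h1, Valuation.map_neg] at h3
    exact lt_irrefl _ h3
  have hev : ∀ q : κ[X][X], w.1 (aeval Y q) ≤ 1 := by
    intro q
    rw [aeval_eq_sum_range]
    refine Valuation.map_sum_le w.1 fun i _ => ?_
    rw [Algebra.smul_def, map_mul, map_pow]
    exact _root_.mul_le_one' (hint _) (pow_le_one' hYint i)
  -- the resultant
  have hder : (derivative A).natDegree ≤ m := (natDegree_derivative_le A).trans (Nat.sub_le _ _)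
  have hres : resultant A (derivative A) m m ≠ 0 := by
    intro h0
    have h1 : A ∣ derivative A := dvd_of_res' hA hdeg hder h0
    have h2 : derivative A ≠ 0 := by
      intro h3
      exact hdeg (natDegree_eq_zero_of_derivative_eq_zero h3)
    have h3 := natDegree_le_of_dvd h1 h2
    have h4 := natDegree_derivative_lt hdeg
    omega
  have hDA' : cE D₀ (derivative A) = 0 := by
    refine Polynomial.ext fun i => ?_
    have h1 : (cE D₀ (derivative A)).coeff i = mc D₀ ((derivative A).coeff i) := rfl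
    rw [h1, coeff_derivative, coeff_zero]
    have h2 : mc D₀ (A.coeff (i + 1)) = 0 := by
      have h3 : (cE D₀ A).coeff (i + 1) = mc D₀ (A.coeff (i + 1)) := rfl
      rw [hDA, coeff_zero] at h3
      exact h3.symm
    have h4 : mc D₀ ((i : κ[X]) + 1) = 0 := by
      have h5 : mc D₀ (((i + 1 : ℕ) : κ[X])) = 0 := (mc D₀).map_natCast (i + 1)
      push_cast at h5
      exact h5
    rw [Derivation.leibniz, h2, h4, smul_zero, smul_zero, add_zero]
  have hresw : w.1 (algebraMap κ[X] M (resultant A (derivative A) m m)) = 1 :=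
    value_one w hw hX (eval_ne_zero_of_der hres (resultant_mem hDA hDA' m m) hc)
  obtain ⟨p, q, -, -, hpq⟩ := exists_mul_add_mul_eq_C_resultant A (derivative A) hm.ge hder
    (Or.inl hdeg)
  have h1 := congrArg (aeval Y) hpq
  rw [map_add, map_mul, map_mul, hY, zero_mul, zero_add, aeval_C] at h1
  have h2 : w.1 (aeval Y (derivative A)) = 1 := by
    refine le_antisymm (hev _) ?_
    calc (1 : ℤᵐ⁰) = w.1 (aeval Y (derivative A) * aeval Y q) := by rw [h1]; exact hresw.symm
      _ = w.1 (aeval Y (derivative A)) * w.1 (aeval Y q) := map_mul _ _ _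
      _ ≤ w.1 (aeval Y (derivative A)) * 1 := mul_le_mul' le_rfl (hev q)
      _ = _ := mul_one _
  exact ⟨hYint, h2⟩

/-- **The logarithmic derivative is a constant.** -/
theorem der_le_of_points {A Φ : κ[X][X]} (hA : Irreducible A) (hdeg : A.natDegree ≠ 0) {Y : M}
    (hY : aeval Y A = 0) (hgen : IntermediateField.adjoin (RatFunc κ) {Y} = ⊤)
    {D₀ : Derivation ℤ κ κ} (hDA : cE D₀ A = 0) (D : Derivation ℤ M M)
    (hD : ∀ u : κ, D (algebraMap κ M u) = algebraMap κ M (D₀ u))
    (hDX : D (algebraMap κ[X] M X) = 0) {q N : ℕ} {h : Fin q → M}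
    (hh : ∀ (w : Place κ M), w.1 (algebraMap κ[X] M X) ≤ 1 → ∀ l, w.1 (h l) ≤ 1)
    (hΦ : aeval Y Φ = aeval Y (derivative A) ^ N * ∏ l, h l)
    (h0 : ∀ s t : κ, A.evalEval s t = 0 → (derivative A).evalEval s t ≠ 0 →
      Φ.evalEval s t = 0 → D₀ s = 0) (l : Fin q) (w : Place κ M) :
    w.1 (D (h l)) ≤ w.1 (h l) := by
  -- `w X > 1`: `der_dich` (E03). Otherwise let `s` be the value of `X` (`place_residue`). If
  -- `D₀ s = 0`: `der_le_place` (E02), with `D'` as in the proof of `der_dich`. Otherwise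
  -- `unram_der`, `t` the value of `Y`; `A (s, t) = 0`, `A_Y (s, t) ≠ 0` (`val_ev` in
  -- MP_44a246_ntY/Y53, `ev_aeval` in MP_44a246_ntS/SP7), so `Φ (s, t) ≠ 0` by `h0`,
  -- so `w (∏ l, h l) = 1`, so `w (h l) = 1` for all `l`; `der_dich`
  have htr : Transcendental κ (algebraMap κ[X] M X) :=
    (transcendental_algebraMap_iff inj_poly).mpr (transcendental_X κ)
  obtain ⟨D', hκ, hX⟩ := exists_der_ext htr alg_X (0 : Derivation ℤ κ κ) 1
  have hκ' : ∀ u : κ, D' (algebraMap κ M u) = 0 := fun u => by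
    rw [hκ]
    simp
  by_cases hwX : w.1 (algebraMap κ[X] M X) ≤ 1
  swap
  · push Not at hwX
    exact der_le_place w D D' hD hDX hκ' hX (Or.inl hwX) (h l)
  obtain ⟨s, hs⟩ := place_residue w hwX
  by_cases hD₀ : D₀ s = 0
  · exact der_le_place w D D' hD hDX hκ' hX (Or.inr ⟨s, hD₀, hs⟩) (h l)
  obtain ⟨hY1, hY2⟩ := unram_der w hA hdeg hDA hY hD₀ hs
  obtain ⟨t, ht⟩ := place_residue w hY1
  have hAst : A.evalEval s t = 0 := by
    by_contra hne
    have h1 := (val_ev hs ht A).2.2 hne
    rw [ev_aeval, hY, map_zero] at h1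
    exact zero_ne_one h1
  have hA'st : (derivative A).evalEval s t ≠ 0 := by
    refine (val_ev hs ht (derivative A)).2.1 ?_
    rw [ev_aeval]
    exact hY2
  have hΦst : Φ.evalEval s t ≠ 0 := fun h1 => hD₀ (h0 s t hAst hA'st h1)
  have hΦ1 := (val_ev hs ht Φ).2.2 hΦst
  rw [ev_aeval, hΦ, map_mul, map_pow, hY2, one_pow, one_mul, map_prod] at hΦ1
  have hl : w.1 (h l) = 1 :=
    (Finset.prod_eq_one_iff_of_le_one' fun i _ => hh w hwX i).1 hΦ1 l (Finset.mem_univ l)
  rcases der_dich w hA hdeg hDA hY hgen D hD hDX with h2 | ⟨-, -, h2⟩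
  · exact h2 (h l)
  · rw [hl]
    exact h2 (h l) hl.le

end

end Pool.Agent.Lib.MP_44a246_ntPC
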