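import Mathlib
import Pool.Agent.Lib.MP_44a246_ntE.E08
import Pool.Agent.Lib.MP_44a246_ntE.E10
import Pool.Agent.Lib.MP_44a246_ntPC.E5

/-!
Derivations which do not move a curve nor its intersections with the boundary.
-/

namespace Pool.Agent.Lib.MP_44a246_ntPC

open Pool.Agent.Lib.MP_e52354_nt
open Pool.Agent.Lib.MP_44a246_nt
open Pool.Agent.Lib.MP_44a246_ntL
open Pool.Agent.Lib.MP_44a246_ntR
open Pool.Agent.Lib.MP_44a246_ntS
open Pool.Agent.Lib.MP_44a246_ntE
open WithZero Polynomial Module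

variable {κ M : Type*} [Field κ] [IsAlgClosed κ] [CharZero κ] [Field M] [Algebra κ M]

/-- the combination of the derivations of the constants -/
private noncomputable def e6_Dz {κ T : Type*} [Field κ] [Fintype T]
    (D₀ : T → Derivation ℤ κ κ) (c : T → κ) : Derivation ℤ κ κ :=
  ∑ t, c t • D₀ t

private theorem e6_Dz_apply {κ T : Type*} [Field κ] [Fintype T]
    (D₀ : T → Derivation ℤ κ κ) (c : T → κ) (u : κ) : e6_Dz D₀ c u = ∑ t, c t * D₀ t u := by
  have h1 : e6_Dz D₀ c u = Derivation.coeFnAddMonoidHom (∑ t, c t • D₀ t) u := rfl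
  rw [h1, map_sum, Finset.sum_apply]
  rfl

private theorem e6_Dc_algebraMap {κ M T : Type*} [Field κ] [Field M] [Algebra κ M] [Fintype T]
    {D₀ : T → Derivation ℤ κ κ} {D : T → Derivation ℤ M M}
    (hD : ∀ t, ∀ u : κ, D t (algebraMap κ M u) = algebraMap κ M (D₀ t u)) (c : T → κ) (u : κ) :
    Dc D c (algebraMap κ M u) = algebraMap κ M (e6_Dz D₀ c u) := by
  rw [Dc_apply, e6_Dz_apply, map_sum]
  refine Finset.sum_congr rfl fun t _ => ?_
  rw [hD, map_mul]

omit [IsAlgClosed κ] [CharZero κ] in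
/-- the field generated by `X, Y` over `κ` is generated by `Y` over `κ (X)` -/
private theorem e6_gen [Algebra (RatFunc κ) M] [IsScalarTower κ (RatFunc κ) M] {X Y : M}
    (hX : tL κ M = X) (hgen : IntermediateField.adjoin κ {X, Y} = ⊤) :
    IntermediateField.adjoin (RatFunc κ) {Y} = ⊤ := by
  rw [eq_top_iff]
  intro x _
  have h1 : x ∈ IntermediateField.adjoin κ {X, Y} := by
    rw [hgen]
    exact IntermediateField.mem_top
  have h2 : IntermediateField.adjoin κ {X, Y} ≤
      (IntermediateField.adjoin (RatFunc κ) {Y}).restrictScalars κ := by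
    rw [IntermediateField.adjoin_le_iff]
    rintro y (rfl | hy)
    · change _ ∈ IntermediateField.adjoin (RatFunc κ) {Y}
      rw [← hX]
      exact (IntermediateField.adjoin (RatFunc κ) {Y}).algebraMap_mem _
    · change y ∈ IntermediateField.adjoin (RatFunc κ) {Y}
      exact IntermediateField.subset_adjoin (RatFunc κ) {Y} hy
  exact h2 h1

/-- the values of the combinations at finitely many elements, linear in the coefficients -/
private noncomputable def e6_evM {κ M T ι : Type*} [Field κ] [Field M] [Algebra κ M] [Fintype T]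
    (D : T → Derivation ℤ M M) (y : ι → M) : (T → κ) →ₗ[κ] (ι → M) where
  toFun c := fun i => Dc D c (y i)
  map_add' a b := by
    funext i
    rw [Pi.add_apply, Dc_apply, Dc_apply, Dc_apply, ← Finset.sum_add_distrib]
    refine Finset.sum_congr rfl fun t _ => ?_
    rw [Pi.add_apply, map_add]
    ring
  map_smul' r a := by
    funext i
    rw [Pi.smul_apply, Dc_apply, Dc_apply, RingHom.id_apply, Finset.smul_sum]
    refine Finset.sum_congr rfl fun t _ => ?_
    rw [Pi.smul_apply, smul_eq_mul, map_mul, Algebra.smul_def, mul_assoc]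

private noncomputable def e6_evK {κ T ι : Type*} [Field κ] [Fintype T]
    (D₀ : T → Derivation ℤ κ κ) (y : ι → κ) : (T → κ) →ₗ[κ] (ι → κ) where
  toFun c := fun i => e6_Dz D₀ c (y i)
  map_add' a b := by
    funext i
    rw [Pi.add_apply, e6_Dz_apply, e6_Dz_apply, e6_Dz_apply, ← Finset.sum_add_distrib]
    refine Finset.sum_congr rfl fun t _ => ?_
    rw [Pi.add_apply]
    ring
  map_smul' r a := by
    funext i
    rw [Pi.smul_apply, e6_Dz_apply, e6_Dz_apply, RingHom.id_apply, Finset.smul_sum]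
    refine Finset.sum_congr rfl fun t _ => ?_
    rw [Pi.smul_apply, smul_eq_mul, smul_eq_mul, mul_assoc]

/-- multiplication of the members of a family by constants -/
private noncomputable def e6_mul {κ M ι : Type*} [Field κ] [Field M] [Algebra κ M]
    (h : ι → M) : (ι → κ) →ₗ[κ] (ι → M) where
  toFun a := fun i => algebraMap κ M (a i) * h i
  map_add' a b := by
    funext i
    rw [Pi.add_apply, Pi.add_apply, map_add]
    ring
  map_smul' r a := by
    funext i
    rw [Pi.smul_apply, Pi.smul_apply, smul_eq_mul, map_mul, RingHom.id_apply, Algebra.smul_def,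
      mul_assoc]

/-- **Killing the logarithmic derivatives.** -/
theorem kill_logs (hM : IsFF κ M) {x y : M} (hx : Transcendental κ x)
    (hgen : IntermediateField.adjoin κ {x, y} = ⊤) {A : κ[X][X]} (hA : Irreducible A)
    (hdeg : A.natDegree ≠ 0) (hA1 : ∃ i k, (A.coeff i).coeff k = 1)
    (hAG : ∀ G : κ[X][X], ev (algebraMap κ M) x y G = 0 ↔ A ∣ G) {q e N : ℕ} {h : Fin q → M}
    (hh0 : ∀ l, h l ≠ 0) (hh : ∀ (w : Place κ M), w.1 x ≤ 1 → ∀ l, w.1 (h l) ≤ 1) {Φ : κ[X][X]}
    (hΦ : ev (algebraMap κ M) x y Φ = ev (algebraMap κ M) x y (derivative A) ^ e * ∏ l, h l)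
    (hE : ∀ E : Finset (κ × κ), Set.InjOn Prod.fst (E : Set (κ × κ)) →
      (∀ p ∈ E, A.evalEval p.1 p.2 = 0 ∧ (derivative A).evalEval p.1 p.2 ≠ 0 ∧
        Φ.evalEval p.1 p.2 = 0) → E.card < N) {T : Type*} [Fintype T]
    {D₀ : T → Derivation ℤ κ κ} {D : T → Derivation ℤ M M}
    (hD : ∀ t, ∀ u : κ, D t (algebraMap κ M u) = algebraMap κ M (D₀ t u))
    (S : Submodule κ (T → κ)) (hS : ∀ c ∈ S, Dc D c x = 0 ∧ Dc D c y = 0) :
    ∃ S' ≤ S, finrank κ S + 1 ≤ finrank κ S' + N + q ∧ ∀ c ∈ S', ∀ l, Dc D c (h l) = 0 := by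
  classical
  -- the points
  let Pts : Set κ := {s | ∃ t, A.evalEval s t = 0 ∧ (derivative A).evalEval s t ≠ 0 ∧
    Φ.evalEval s t = 0}
  have hcard : ∀ E' : Finset κ, (E' : Set κ) ⊆ Pts → E'.card < N := by
    intro E' hE'
    choose! tt ht using fun s (hs : s ∈ Pts) => hs
    have hinj : Function.Injective fun s : κ => (s, tt s) := fun a b hab => congrArg Prod.fst hab
    have h1 := hE (E'.image fun s => (s, tt s)) (by
      intro a ha b hb hab
      obtain ⟨a', -, rfl⟩ := Finset.mem_image.1 (Finset.mem_coe.1 ha)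
      obtain ⟨b', -, rfl⟩ := Finset.mem_image.1 (Finset.mem_coe.1 hb)
      have h2 : a' = b' := hab
      rw [h2]) (by
      intro p hp
      obtain ⟨a', ha', rfl⟩ := Finset.mem_image.1 hp
      exact ht a' (hE' (Finset.mem_coe.2 ha')))
    rwa [Finset.card_image_of_injective _ hinj] at h1
  have hfin : Pts.Finite := by
    by_contra hinf
    obtain ⟨E', hE', hc⟩ := Set.Infinite.exists_subset_card_eq hinf N
    exact absurd (hcard E' hE') (by omega)
  obtain ⟨F, hF⟩ : ∃ F : Finset κ, F = hfin.toFinset := ⟨_, rfl⟩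
  have hFm : ∀ s, s ∈ F ↔ s ∈ Pts := fun s => by rw [hF, Set.Finite.mem_toFinset]
  have hFc : F.card < N := hcard F fun s hs => (hFm s).1 (Finset.mem_coe.1 hs)
  -- the first step
  have hS1 := exists_ker S (e6_evK D₀ (fun s : F => (s : κ))) (F := ⊤) fun _ _ => trivial
  rw [finrank_top, Module.finrank_fintype_fun_eq_card, Fintype.card_coe] at hS1
  obtain ⟨S₁, hS₁⟩ : ∃ S₁, S₁ = S ⊓ LinearMap.ker (e6_evK D₀ (fun s : F => (s : κ))) := ⟨_, rfl⟩
  rw [← hS₁] at hS1
  have hS₁S : S₁ ≤ S := by rw [hS₁]; exact inf_le_left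
  have hS₁F : ∀ c ∈ S₁, ∀ s ∈ F, e6_Dz D₀ c s = 0 := by
    intro c hc s hs
    rw [hS₁] at hc
    have h1 := LinearMap.mem_ker.1 hc.2
    exact congrFun h1 ⟨s, hs⟩
  -- the logarithmic derivatives
  have hle : ∀ c ∈ S₁, ∀ l, ∀ w : Place κ M, w.1 (Dc D c (h l)) ≤ w.1 (h l) := by
    intro c hc
    refine with_sep hM hx ?_
    intro iA t1 iR t2 iI t3 fd hXf
    have htower : IsScalarTower κ (RatFunc κ) M := tower_ratFunc
    have htL : tL κ M = x := by rw [tL_eq, hXf]
    have hev : ∀ G : κ[X][X], ev (algebraMap κ M) x y G = aeval y G := by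
      intro G
      rw [← hXf]
      exact ev_aeval y G
    have hY : ∀ G : κ[X][X], aeval y G = 0 ↔ A ∣ G := by
      intro G
      rw [← hev]
      exact hAG G
    have hcE := cE_eq_zero hdeg hY hA1 (D₀ := e6_Dz D₀ c) (Dc D c)
      (fun u => e6_Dc_algebraMap hD c u) (by rw [hXf]; exact (hS c (hS₁S hc)).1)
      (hS c (hS₁S hc)).2
    intro l w
    refine der_le_of_points (Φ := Φ) (N := e) hA hdeg ((hY A).2 dvd_rfl) (e6_gen htL hgen) hcE (Dc D c)
      (fun u => e6_Dc_algebraMap hD c u) (by rw [hXf]; exact (hS c (hS₁S hc)).1)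
      (by rw [hXf]; exact hh) (by rw [← hev, ← hev]; exact hΦ) ?_ l w
    intro s t hs1 hs2 hs3
    exact hS₁F c hc s ((hFm s).2 ⟨t, hs1, hs2, hs3⟩)
  have hconst : ∀ c ∈ S₁, ∀ l, ∃ v : κ, algebraMap κ M v * h l = Dc D c (h l) := by
    intro c hc l
    obtain ⟨v, hv⟩ := const_of_rr_zero hM (f := Dc D c (h l) / h l) (by
      intro w
      have hne : w.1 (h l) ≠ 0 := (map_ne_zero w.1).2 (hh0 l)
      rw [map_div₀]
      have h1 := hle c hc l w
      calc w.1 (Dc D c (h l)) / w.1 (h l) ≤ w.1 (h l) / w.1 (h l) := by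
            rw [div_eq_mul_inv, div_eq_mul_inv]
            exact mul_le_mul_left h1 _
        _ = 1 := div_self hne)
    refine ⟨v, ?_⟩
    rw [hv, div_mul_cancel₀ _ (hh0 l)]
  -- the second step
  have hmem : ∀ c ∈ S₁, e6_evM D h c ∈ LinearMap.range (e6_mul (κ := κ) h) := by
    intro c hc
    choose v hv using hconst c hc
    exact ⟨v, funext fun l => hv l⟩
  have hS2 := exists_ker S₁ (e6_evM D h) hmem
  have hr : finrank κ ↥(LinearMap.range (e6_mul (κ := κ) h)) ≤ q := by
    refine (LinearMap.finrank_range_le _).trans ?_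
    rw [Module.finrank_fintype_fun_eq_card, Fintype.card_fin]
  refine ⟨S₁ ⊓ LinearMap.ker (e6_evM D h), inf_le_left.trans hS₁S, by omega, ?_⟩
  intro c hc l
  exact congrFun (LinearMap.mem_ker.1 hc.2) l

end Pool.Agent.Lib.MP_44a246_ntPC
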