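import Mathlib
import Pool.Agent.Lib.MP_44a246_ntE.E12
import Pool.Agent.Lib.MP_44a246_ntE.E13

/-!
The conditions which come from the equations and from the forms on the boundary; the numbers.
-/

namespace Pool.Agent.Lib.MP_44a246_ntPC

open Pool.Agent.Lib.MP_e52354_nt
open Pool.Agent.Lib.MP_44a246_nt
open Pool.Agent.Lib.MP_44a246_ntL
open Pool.Agent.Lib.MP_44a246_ntR
open Pool.Agent.Lib.MP_44a246_ntS
open Pool.Agent.Lib.MP_44a246_ntE
open Polynomial Module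

/-- the vanishing of the forms `∑ F₀ (a_I) x ^ I` at a point which is fixed by `F`, if `F` kills
the values of the forms on the boundary -/
theorem forms_vanishL {κ M : Type*} [Field κ] [Field M] [Algebra κ M] {n p ρ q : ℕ}
    {d : Fin p → ℕ} {a : Fin p → (Fin (n + 1) →₀ ℕ) → κ} {γ : Fin (n + 1) → M} {h : Fin q → M}
    {jj : Fin ρ → Fin p} {Λ : Fin ρ → Fin p → M} {cr : Fin ρ → Fin (n + 1) → M}
    {ν : Fin ρ → Fin q → M} (hΛ : ∀ b b', Λ b (jj b') = if b = b' then 1 else 0)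
    {F : Derivation ℤ M M} {F₀ : Derivation ℤ κ κ}
    (hF : ∀ u : κ, F (algebraMap κ M u) = algebraMap κ M (F₀ u))
    (hder : ∀ b, ∑ l, cr b l * F (γ l) - ∑ t, ν b t * (F (h t) / h t) =
      - ∑ j, Λ b j * ∑ I ∈ expo (Fin (n + 1)) (d j), F (algebraMap κ M (a j I)) * mon γ I)
    (hFγ : ∀ l, F (γ l) = 0) (hFh : ∀ t, F (h t) = 0)
    (h0 : ∀ j, j ∉ Set.range jj → ∀ I ∈ expo (Fin (n + 1)) (d j), F₀ (a j I) = 0) (b : Fin ρ) :
    ∑ I ∈ expo (Fin (n + 1)) (d (jj b)), algebraMap κ M (F₀ (a (jj b) I)) * mon γ I = 0 := by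
  classical
  have h3 := hder b
  simp only [hFγ, hFh, mul_zero, zero_div, Finset.sum_const_zero, sub_zero] at h3
  rw [eq_comm, neg_eq_zero, Finset.sum_eq_single (jj b)] at h3
  · rw [hΛ, if_pos rfl, one_mul] at h3
    simp only [hF] at h3
    exact h3
  · intro j _ hj
    by_cases hjr : j ∈ Set.range jj
    · obtain ⟨b', rfl⟩ := hjr
      have hne : b ≠ b' := fun h => hj (by rw [h])
      rw [hΛ, if_neg hne, zero_mul]
    · rw [Finset.sum_eq_zero, mul_zero]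
      intro I hI
      rw [hF, h0 j hjr I hI, map_zero, zero_mul]
  · intro h
    exact absurd (Finset.mem_univ _) h

/-- the computation: `r = R + 2`, `σ` the sum of the degrees plus `ρ` -/
theorem numEP {R ρ q σ τ c m p J s : ℕ} (hq : 1 ≤ q) (hm : 1 ≤ m)
    (h1 : 2 * (R + 2) + c + 2 ≤ σ + τ) (h2 : R + 2 + (ρ + q) + 3 ≤ σ)
    (h3 : (ρ + q + 3) * m + 2 ≤ σ)
    (h : (m = 1 ∧ J = 0 ∧ p = 2 * (R + 1)) ∨
        (2 ≤ m ∧ 2 ≤ s ∧ s ≤ R + 2 ∧
          p ≤ (R + 2 - s) * (s + 1) + (s - 2) * (m + 1) + (m + 2 * J + 1) ∧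
          ((2 * s ≤ m ∧ 2 * J = m * (m - 1)) ∨ (m < 2 * s ∧ s ≤ m ∧ J + s + 1 ≤ 2 * m)))) :
    p + 3 * m + q + (ρ + q) * J + c < m * (σ + q) + τ := by
  obtain ⟨σ', rfl⟩ : ∃ σ', σ = σ' + 2 := ⟨σ - 2, by omega⟩
  have h4 := numE (R := R) (ρ := ρ + q) (σ := σ') (τ := τ) (c := c) (m := m) (p := p) (J := J)
    (s := s) (by omega) (by omega) (by omega) h
  have h5 : 3 * m + q ≤ m * (2 + q) + 1 := by
    obtain ⟨q', rfl⟩ : ∃ q', q = q' + 1 := ⟨q - 1, by omega⟩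
    obtain ⟨m', rfl⟩ : ∃ m', m = m' + 1 := ⟨m - 1, by omega⟩
    ring_nf
    have := Nat.zero_le (m' * q')
    omega
  have h6 : m * (σ' + 2 + q) = m * σ' + m * (2 + q) := by ring
  omega

end Pool.Agent.Lib.MP_44a246_ntPC
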