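import Mathlib
import Pool.Agent.Lib.MP_44a246_ntL.LMain
import Pool.Agent.Lib.MP_44a246_ntU.U12
import Pool.Agent.Lib.MP_44a246_ntD.D19
import Pool.Agent.Lib.MP_44a246_ntD.D20
import Pool.Agent.Lib.MP_44a246_ntK.K10
import Pool.Agent.Lib.MP_44a246_ntK.K12
import Pool.Agent.Lib.MP_44a246_ntK.K22
import Pool.Agent.Lib.MP_44a246_ntC.C16
import Pool.Agent.Lib.MP_44a246_ntC.C17
import Pool.Agent.Lib.MP_44a246_ntC.C32
import Pool.Agent.Lib.MP_44a246_ntE.E09
import Pool.Agent.Lib.MP_44a246_ntE.E10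
import Pool.Agent.Lib.MP_44a246_ntE.E11
import Pool.Agent.Lib.MP_44a246_ntE.E12
import Pool.Agent.Lib.MP_44a246_ntPC.D0
import Pool.Agent.Lib.MP_44a246_ntPC.E4
import Pool.Agent.Lib.MP_44a246_ntPC.E6
import Pool.Agent.Lib.MP_44a246_ntPC.E7
import Pool.Agent.Lib.MP_44a246_ntPC.E8

/-!
**Step E for pairs**: the points of a section `t_j = H_j (x)` of a weighted projective variety on
plane curves of small degree which meet the boundary in few points move in few directions. The
number of the parameters of the curve is compared with the number of the conditions.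
-/

namespace Pool.Agent.Lib.MP_44a246_ntPC

open Pool.Agent.Lib.MP_44a246_ntK
open Pool.Agent.Lib.MP_44a246_ntR
open Pool.Agent.Lib.MP_44a246_ntC
open Pool.Agent.Lib.MP_44a246_ntD
open Pool.Agent.Lib.MP_44a246_ntQ
open Pool.Agent.Lib.MP_e52354_nt
open Pool.Agent.Lib.MP_44a246_nt
open Pool.Agent.Lib.MP_44a246_ntL
open Pool.Agent.Lib.MP_44a246_ntS
open Pool.Agent.Lib.MP_44a246_ntG
open Pool.Agent.Lib.MP_44a246_ntU
open Pool.Agent.Lib.MP_44a246_ntE
open WithZero Polynomial Module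

universe u

/-- **Step E for pairs**, for points which need not be generic. -/
theorem no_certWL_der {κ : Type u} [Field κ] [IsAlgClosed κ] [CharZero κ] {k : Type*} [Field k]
    [CharZero k] [Algebra k κ] {n m' p r b s ρ q : ℕ} {d : Fin p → ℕ} (hr : 2 ≤ r) (hq1 : 1 ≤ q)
    (hd : ∀ B : Finset (Fin p), B.card = ρ + q → 2 * r + s + 2 ≤ (∑ j ∈ B, d j) + m' + ρ)
    (hd1 : ∀ B : Finset (Fin p), B.card = ρ + q → r + (ρ + q) + 3 ≤ (∑ j ∈ B, d j) + ρ)
    (hd2 : ∀ B : Finset (Fin p), B.card = ρ + q →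
      (ρ + q + 3) * (2 * b) + 2 ≤ (∑ j ∈ B, d j) + ρ)
    (hdb : ∀ j, 2 * b ≤ d j)
    {ι : Type*} {e : ι → ℕ} {f : ι → MvPolynomial (Fin p ⊕ Fin (n + 1)) k}
    (hf : ∀ i, (f i).IsWeightedHomogeneous (wtP (n + 1) d) (e i))
    (hI : ringKrullDim (MvPolynomial (Fin (n + 1)) k ⧸ imI f) ≤ ((r + 1 : ℕ) : ℕ))
    {g : Fin q → MvPolynomial (Fin p ⊕ Fin (n + 1)) k} {El : Fin q → ℕ}
    (hg : ∀ l, (g l).IsWeightedHomogeneous (wtP (n + 1) d) (El l))
    {a : Fin p → (Fin (n + 1) →₀ ℕ) → κ} (δ : Fin m' → Derivation ℤ κ κ)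
    (hδk : ∀ i, ∀ u : k, δ i (algebraMap k κ u) = 0)
    (hδa : ∀ i j, ∀ I ∈ expo (Fin (n + 1)) (d j), δ i (a j I) = 0)
    {P : Finset (Fin p × (Fin (n + 1) →₀ ℕ))} (hP : P.card ≤ s)
    (W : Fin p → (Fin (n + 1) →₀ ℕ) → Derivation ℤ κ κ)
    (hWk : ∀ b I, ∀ u : k, W b I (algebraMap k κ u) = 0)
    (hWa : ∀ b, ∀ I ∈ expo (Fin (n + 1)) (d b), ∀ b', ∀ J ∈ expo (Fin (n + 1)) (d b'),
      (b', J) ∉ P → W b I (a b' J) = if (b, I) = (b', J) then 1 else 0)
    {x : Fin (n + 1) → κ}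
    (hx : LinearIndependent κ
      (Fin.cons x (fun i k => δ i (x k)) : Fin (m' + 1) → Fin (n + 1) → κ))
    (hgx : ∀ l, Fval (El l) (aWP d a g l) x ≠ 0)
    (hne : JRank (ρ + q) (Sum.elim f g)
      (Sum.elim (fun j => Fval (d j) (a j) x) x : Fin p ⊕ Fin (n + 1) → κ)) :
    ¬ CertWL e (aWP d a f) (∑ l, El l) (aWP d a (fun _ : Unit => ∏ l, g l) ()) b x := by
  classical
  obtain ⟨R, rfl⟩ : ∃ R, r = R + 2 := ⟨r - 2, by omega⟩
  rintro ⟨A, Bv, ξ₀, ξ₁, ξ₂, c, y₁, y, hirr, hfew, hboxA, -, hc, hξ₀, hξ₁, hξ₂, hA, hAY, hB, hF,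
    h0, h1, h2, hproj⟩
  set α := (derivative A).evalEval y₁ y with hα
  have hdegA : 0 < A.natDegree := by
    rw [Nat.pos_iff_ne_zero]
    intro h3
    apply hAY
    rw [hα, eq_C_of_natDegree_eq_zero h3, derivative_C]
    simp
  refine with_curve hirr hdegA ?_
  intro M _ _ _ _ _ _ _ _ _ Y hY hgen hfin ht halg
  set φ := algebraMap κ M with hφ
  set X' : M := algebraMap κ[X] M X with hX'
  -- specialisation
  have hevA : ∀ G : κ[X][X], ev φ X' Y G = 0 ↔ A ∣ G := by
    intro G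
    rw [hX', ev_aeval, hY]
  have hspec : ∀ G : κ[X][X], evalEvalRingHom y₁ y G ≠ 0 → ev φ X' Y G ≠ 0 := by
    intro G hG h3
    obtain ⟨q, rfl⟩ := (hevA G).1 h3
    apply hG
    rw [map_mul]
    have h4 : evalEvalRingHom y₁ y A = 0 := hA
    rw [h4, zero_mul]
  have hAP : ev φ X' Y A = 0 := (hevA A).2 dvd_rfl
  have hAYP : ev φ X' Y (derivative A) ≠ 0 := hspec _ hAY
  set ω := ev φ X' Y (derivative A) with hω
  set γ : Fin (n + 1) → M := fun j => ev φ X' Y (Bv j) with hγdef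
  -- the relations between `γ` and the projection
  have hsum : ∀ ξ : Fin (n + 1) → κ, ev φ X' Y (∑ j, C (C (ξ j)) * Bv j) = ∑ j, φ (ξ j) * γ j := by
    intro ξ
    rw [map_sum]
    refine Finset.sum_congr rfl fun j _ => ?_
    rw [map_mul, ev_C_C]
  have r0 : ∑ j, φ (ξ₀ j) * γ j = ω := by
    rw [← hsum, ← sub_eq_zero, hω, ← map_sub]
    exact (hevA _).2 h0
  have r1 : ∑ j, φ (ξ₁ j) * γ j = X' * ω := by
    rw [← hsum, ← sub_eq_zero, hω]
    have h4 : X' * ev φ X' Y (derivative A) = ev φ X' Y (C X * derivative A) := by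
      rw [map_mul, ev_C_X]
    rw [h4, ← map_sub]
    exact (hevA _).2 h1
  have r2 : ∑ j, φ (ξ₂ j) * γ j = Y * ω := by
    rw [← hsum, ← sub_eq_zero, hω]
    have h4 : Y * ev φ X' Y (derivative A) = ev φ X' Y (X * derivative A) := by
      rw [map_mul, ev_X]
    rw [h4, ← map_sub]
    exact (hevA _).2 h2
  have hγ : γ ≠ 0 := by
    intro h3
    apply hAYP
    rw [← r0, h3]
    simp
  -- the structure of an algebra over `k`
  let _ : Algebra k M := ((algebraMap κ M).comp (algebraMap k κ)).toAlgebra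
  have hkM : ∀ u : k, algebraMap k M u = algebraMap κ M (algebraMap k κ u) := fun u => rfl
  have tkM : IsScalarTower k κ M := IsScalarTower.of_algebraMap_eq hkM
  -- `γ` is a zero of all the forms
  have hFo : ∀ o : ι, Fval (e o) (fun I => algebraMap κ M (aWP d a f o I)) γ = 0 := by
    intro o
    have h3 := (hevA _).2 (hF o)
    rw [ev_FB] at h3
    exact h3
  set η : Fin p → M := fun j => Fval (d j) (fun I => algebraMap κ M (a j I)) γ with hη
  have hfγ : ∀ i, MvPolynomial.aeval (Sum.elim η γ : Fin p ⊕ Fin (n + 1) → M) (f i) = 0 := by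
    intro i
    rw [hη, ← Fval_aWP hf a γ i]
    exact hFo i
  -- the rank condition at the generic point of the curve
  have hwt : ∀ i, (Sum.elim f g i).IsWeightedHomogeneous (wtP (n + 1) d) (Sum.elim e El i) := by
    rintro (i | i)
    · exact hf i
    · exact hg i
  have hβ0 : α * c ≠ 0 := mul_ne_zero hAY hc
  have hne' : JRank (ρ + q) (Sum.elim f g) (Sum.elim η γ : Fin p ⊕ Fin (n + 1) → M) :=
    jrank_generic hwt hβ0 (fun l => by rw [mul_assoc]; exact hB l) hspec hne
  obtain ⟨l, hl⟩ : ∃ l, γ l ≠ 0 := by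
    by_contra hcon
    push Not at hcon
    exact hγ (funext hcon)
  obtain ⟨T, hT, hγT, hDT⟩ := exists_tangent (k := k) (r := R + 2) hl
    (fun p j hj => card_le_of_dimI hf hI hfγ hl hj)
  have hMff : IsFF κ M := by
    have t : IsScalarTower κ (RatFunc κ) M := by
      refine IsScalarTower.of_algebraMap_eq fun u => ?_
      rw [IsScalarTower.algebraMap_apply κ κ[X] M,
        IsScalarTower.algebraMap_apply κ κ[X] (RatFunc κ),
        ← IsScalarTower.algebraMap_apply κ[X] (RatFunc κ) M]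
    exact (sp5b_isFF κ).of_finite
  -- the field of the point
  have hgen' : pointField κ γ = ⊤ := by
    have hmem : ∀ ξ : Fin (n + 1) → κ, (∑ j, φ (ξ j) * γ j) / γ l ∈ pointField κ γ := by
      intro ξ
      rw [Finset.sum_div]
      refine sum_mem fun j _ => ?_
      rw [mul_div_assoc]
      exact mul_mem ((pointField κ γ).algebraMap_mem _)
        (IntermediateField.subset_adjoin _ _ ⟨j, l, rfl⟩)
    refine top_of_mem hgen _ ?_ ?_
    · have h6 : X' = ((∑ j, φ (ξ₁ j) * γ j) / γ l) / ((∑ j, φ (ξ₀ j) * γ j) / γ l) := by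
        rw [r0, r1]
        field_simp
      rw [← hX', h6]
      exact div_mem (hmem ξ₁) (hmem ξ₀)
    · have h6 : Y = ((∑ j, φ (ξ₂ j) * γ j) / γ l) / ((∑ j, φ (ξ₀ j) * γ j) / γ l) := by
        rw [r0, r2]
        field_simp
      rw [h6]
      exact div_mem (hmem ξ₂) (hmem ξ₀)
  -- generic linear forms
  obtain ⟨u, hω₀, hmax, htr, hgen₂, hinj⟩ := exists_lin_forms hMff hγ hgen' (R := R) hT
  set ω₀ : M := ∑ j, (u 0 j : M) * γ j with hω₀d
  set z : Fin (R + 3) → M := fun i => (∑ j, (u i j : M) * γ j) / ω₀ with hzd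
  set γh : Fin (n + 1) → M := fun j => γ j / ω₀ with hγh
  have hzspan : ∀ i, z i ∈ Submodule.span κ (Set.range γh) := by
    intro i
    have h3 : z i = ∑ j, (u i j : κ) • γh j := by
      rw [hzd, hγh]
      simp only
      rw [Finset.sum_div]
      refine Finset.sum_congr rfl fun j _ => ?_
      rw [Algebra.smul_def, map_natCast, mul_div_assoc]
    rw [h3]
    exact Submodule.sum_mem _ fun j _ => Submodule.smul_mem _ _
      (Submodule.subset_span (Set.mem_range_self j))
  have hγhmax : ∀ w : Place κ M, vmax w.1 γh ≤ max 1 (w.1 (z 1)) := by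
    intro w
    have h3 : γh = fun j => ω₀⁻¹ * γ j := by
      funext j
      rw [hγh]
      simp only
      rw [div_eq_mul_inv, mul_comm]
    have hw0 : w.1 ω₀ ≠ 0 := w.1.ne_zero_iff.2 hω₀
    rw [h3, vmax_smul]
    refine (mul_le_mul_right (hmax w) (w.1 ω₀⁻¹)).trans ?_
    rw [mul_max, ← map_mul, ← map_mul, inv_mul_cancel₀ hω₀, map_one]
    refine max_le_max le_rfl (le_of_eq ?_)
    rw [inv_mul_eq_div]
  have hz0 : z 0 = 1 := div_self hω₀
  have hωz : ∀ i : Fin (R + 3), ω₀ * z i = ∑ j, (u i j : M) * γ j := by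
    intro i
    rw [hzd]
    simp only
    rw [mul_div_cancel₀ _ hω₀]
  have hz2 : ∀ w : Place κ M, w.1 (z 2) ≤ max 1 (w.1 (z 1)) := by
    intro w
    refine le_trans ?_ (hγhmax w)
    have h3 : z 2 = ∑ j, (u 2 j : M) * γh j := by
      rw [hzd, hγh]
      simp only
      rw [Finset.sum_div]
      refine Finset.sum_congr rfl fun j _ => ?_
      rw [mul_div_assoc]
    rw [h3]
    refine w.1.map_sum_le fun j _ => ?_
    rw [map_mul]
    have h4 : w.1 ((u 2 j : ℕ) : M) ≤ 1 := by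
      rw [← map_natCast (algebraMap κ M)]
      exact place_const_le w _
    exact (mul_le_mul' h4 (le_vmax w.1 γh j)).trans (one_mul _).le
  -- the values of the forms at the normalised point
  set ηh : Fin p → M := fun j => Fval (d j) (fun I => algebraMap κ M (a j I)) γh with hηh
  have hγω : (fun j => ω₀⁻¹ * γ j) = γh := by
    funext j
    rw [hγh]
    simp only
    rw [div_eq_mul_inv, mul_comm]
  have hηω : (fun j => ω₀⁻¹ ^ d j * η j) = ηh := by
    funext j
    rw [hηh, hη]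
    simp only
    rw [← Fval_smul, hγω]
  have hfγh : ∀ i, MvPolynomial.aeval (Sum.elim ηh γh : Fin p ⊕ Fin (n + 1) → M) (f i) = 0 := by
    intro i
    rw [hηh, ← Fval_aWP hf a γh i, ← hγω, Fval_smul, hFo i, mul_zero]
  have hneh : JRank (ρ + q) (Sum.elim f g) (Sum.elim ηh γh : Fin p ⊕ Fin (n + 1) → M) := by
    have h3 := hne'.smul hwt (inv_ne_zero hω₀)
    simp only [Sum.elim_inl, Sum.elim_inr] at h3
    rw [hγω, hηω] at h3
    exact h3
  -- the values of the forms on the boundary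
  set aP : (Fin (n + 1) →₀ ℕ) → κ := aWP d a (fun _ : Unit => ∏ l, g l) () with haP
  have hprod : (∏ l, g l).IsWeightedHomogeneous (wtP (n + 1) d) (∑ l, El l) :=
    MvPolynomial.IsWeightedHomogeneous.prod Finset.univ g El fun l _ => hg l
  have hPx : Fval (∑ l, El l) aP x ≠ 0 := by
    have h3 := Fval_aWP' (e := fun _ : Unit => ∑ l, El l) (f := fun _ : Unit => ∏ l, g l)
      (fun _ => hprod) a x ()
    rw [haP, h3, map_prod]
    refine Finset.prod_ne_zero_iff.2 fun l _ => ?_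
    rw [← Fval_aWP' hg]
    exact hgx l
  obtain ⟨hv, hhv⟩ : ∃ hv : Fin q → M, ∀ l,
      MvPolynomial.aeval (Sum.elim ηh γh : Fin p ⊕ Fin (n + 1) → M) (g l) = hv l :=
    ⟨fun l => MvPolynomial.aeval (Sum.elim ηh γh : Fin p ⊕ Fin (n + 1) → M) (g l), fun l => rfl⟩
  have hFh : Fval (∑ l, El l) (fun I => algebraMap κ M (aP I)) γh = ∏ l, hv l := by
    have h3 := Fval_aWP (e := fun _ : Unit => ∑ l, El l) (f := fun _ : Unit => ∏ l, g l)
      (fun _ => hprod) a γh ()
    rw [haP, h3, map_prod]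
    exact Finset.prod_congr rfl fun l _ => hhv l
  have hf0 : ∏ l, hv l ≠ 0 := by
    rw [← hFh, ← hγω, Fval_smul]
    refine mul_ne_zero (pow_ne_zero _ (inv_ne_zero hω₀)) ?_
    rw [← ev_FB]
    apply hspec
    show (FB (∑ l, El l) aP Bv).evalEval y₁ y ≠ 0
    rw [FB_eval]
    have h4 : (fun j => (Bv j).evalEval y₁ y) = fun j => α * c * x j := by
      funext j
      rw [← hB j]
      ring
    rw [h4, Fval_smul]
    exact mul_ne_zero (pow_ne_zero _ hβ0) hPx
  have hv0 : ∀ l, hv l ≠ 0 := fun l => Finset.prod_ne_zero_iff.1 hf0 l (Finset.mem_univ l)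
  have hvle : ∀ (w : Place κ M), w.1 (z 1) ≤ 1 → ∀ l, w.1 (hv l) ≤ 1 := by
    intro w hw l
    rw [← hhv l, hηh, ← Fval_aWP hg a γh l]
    refine val_Fval_le ((hγhmax w).trans ?_) _ _
    rw [max_eq_left hw]
  -- the functionals
  set aM : Fin p → (Fin (n + 1) →₀ ℕ) → M := fun j I => algebraMap κ M (a j I) with haM
  obtain ⟨jj, Λ, cr', ν, hjj, hΛ, -, hgder⟩ := exists_jacL (a := aM) hf hg hfγh hhv hv0 hneh
  -- the derivations
  set D₀ : ↥(tset d jj P) ⊕ Fin m' → Derivation ℤ κ κ :=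
    Sum.elim (fun t => W (jj t.1.1) t.1.2) δ with hD₀
  have hfd : FiniteDimensional (IntermediateField.adjoin κ {z 1}) M := finite_over_adjoin hMff htr
  have halg1 : Algebra.IsAlgebraic (IntermediateField.adjoin κ {z 1}) M := inferInstance
  choose Dh hDhκ hDhX using fun t => exists_der_ext htr halg1 (D₀ t) 0
  have hFκ : ∀ (c : ↥(tset d jj P) ⊕ Fin m' → κ) (u : κ),
      Dc Dh c (algebraMap κ M u) = algebraMap κ M (Dc D₀ c u) := by
    intro c u
    rw [Dc_apply, Dc_apply, map_sum]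
    refine Finset.sum_congr rfl fun t _ => ?_
    rw [hDhκ, map_mul]
    rfl
  have hFk : ∀ (c : ↥(tset d jj P) ⊕ Fin m' → κ) (u : k), Dc Dh c (algebraMap k M u) = 0 := by
    intro c u
    rw [hkM, hFκ, Dc_apply, Finset.sum_eq_zero, map_zero]
    intro t _
    rcases t with t | i
    · rw [hD₀, Sum.elim_inl, hWk, mul_zero]
    · rw [hD₀, Sum.elim_inr, hδk, mul_zero]
  obtain ⟨S, mm, pp, J, s', hmm, hq, hSz, hpow, hcase⟩ := count_ff hMff (z := z) (γ := γh)
    (D := Dh) (D₀ := D₀) hzspan hz0 htr hγhmax hgen₂ hDhκ hDhX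
  -- the derivations of `S` do not move the point
  have hSγ : ∀ c ∈ S, ∀ j, Dc Dh c (γ j / ω₀) = 0 := by
    intro c hc
    set F := Dc Dh c with hF'
    have h3 : (fun j => F (γ j) - (F ω₀ / ω₀) * γ j) = 0 := by
      refine hinj _ ?_ ?_
      · exact T.sub_mem (hDT F (hFk c)) (T.smul_mem (F ω₀ / ω₀) hγT)
      · intro i
        have h4 : ∑ j, (u i j : M) * γ j = z i * ω₀ := by
          rw [hzd]
          simp only
          rw [div_mul_cancel₀ _ hω₀]
        have h5 : ∑ j, (u i j : M) * F (γ j) = z i * F ω₀ := by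
          have h6 : F (∑ j, (u i j : M) * γ j) = ∑ j, (u i j : M) * F (γ j) := by
            rw [map_sum]
            refine Finset.sum_congr rfl fun j _ => ?_
            rw [Derivation.leibniz, Derivation.map_natCast, smul_zero, add_zero, smul_eq_mul]
          rw [← h6, h4, Derivation.leibniz, hSz c hc i, smul_zero, add_zero, smul_eq_mul]
        have h6 : ∀ j, (u i j : M) * (F (γ j) - (F ω₀ / ω₀) * γ j) =
            (u i j : M) * F (γ j) - (F ω₀ / ω₀) * ((u i j : M) * γ j) := fun j => by ring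
        simp only [h6]
        rw [Finset.sum_sub_distrib, ← Finset.mul_sum, h5, h4]
        field_simp
        ring
    intro j
    have h4 := congrFun h3 j
    have h5 : F (γ j) = (F ω₀ / ω₀) * γ j := sub_eq_zero.1 h4
    have h6 : F (γ j / ω₀ * ω₀) = F (γ j) := by rw [div_mul_cancel₀ _ hω₀]
    rw [Derivation.leibniz, smul_eq_mul, smul_eq_mul, h5] at h6
    have h7 : ω₀ * F (γ j / ω₀) = 0 := by
      have h8 : γ j / ω₀ * F ω₀ = F ω₀ / ω₀ * γ j := by ring
      rw [h8] at h6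
      linear_combination h6
    exact (mul_eq_zero.1 h7).resolve_left hω₀
  -- the plane curve
  obtain ⟨PP, QQ, hPirr, hPdeg, hPhom, hPmon, hQhom, hQcoeff, hPdvd, hPder, hQder⟩ :=
    exists_plane hMff htr hgen₂ hγhmax hz2 hmm
  have hmm1 : 1 ≤ mm := by
    rcases hcase with ⟨h3, -⟩ | ⟨h3, -⟩ <;> omega
  -- evaluation of forms at the projection
  set uc : Fin 3 → Fin (n + 1) → ℕ := fun i => u (Fin.castLE (by omega) i) with huc
  have hub : ∀ i, ev φ X' Y (ub uc Bv i) = ω₀ * (![1, z 1, z 2] : Fin 3 → M) i := by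
    intro i
    have h6 : ∀ i : Fin (R + 3), ev φ X' Y (∑ j, C (C ((u i j : ℕ) : κ)) * Bv j) =
        ω₀ * z i := by
      intro i
      rw [hωz, hsum]
      refine Finset.sum_congr rfl fun j _ => ?_
      rw [map_natCast]
    fin_cases i
    · show ev φ X' Y (∑ j, C (C ((u 0 j : ℕ) : κ)) * Bv j) = ω₀ * 1
      rw [h6, hz0]
    · exact h6 1
    · exact h6 2
  have hevhom : ∀ (G : MvPolynomial (Fin 3) κ) (D : ℕ), G.IsHomogeneous D →
      ev φ X' Y (MvPolynomial.aeval (ub uc Bv) G) = ω₀ ^ D * ev φ (z 1) (z 2) (deh G) := by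
    intro G D hG
    have h4 : ev φ X' Y (MvPolynomial.aeval (ub uc Bv) G) =
        MvPolynomial.aeval (fun i => ω₀ * (![1, z 1, z 2] : Fin 3 → M) i) G := by
      rw [MvPolynomial.aeval_def, MvPolynomial.hom_eval₂, MvPolynomial.aeval_def]
      congr 1
      · ext c
        show ev φ X' Y (C (C c)) = _
        rw [ev_C_C]
      · funext i
        exact hub i
    rw [h4, Pool.Agent.Lib.MP_44a246_ntU.aeval_eq_Fval hG, Fval_smul,
      ← Pool.Agent.Lib.MP_44a246_ntU.aeval_eq_Fval hG, hφ, ev_deh]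
  have hderhom : (MvPolynomial.pderiv 2 PP).IsHomogeneous (mm - 1) := hPhom.pderiv
  have hPD : ev φ X' Y (MvPolynomial.aeval (ub uc Bv) (MvPolynomial.pderiv 2 PP)) =
      ω₀ ^ (mm - 1) * ev φ (z 1) (z 2) (derivative (deh PP)) := by
    rw [hevhom _ _ hderhom, deh_pderiv]
  have hprojid : ProjId A Bv uc mm PP QQ := by
    refine ⟨hPirr, hPhom, hPmon, hQhom, hQcoeff, ?_, ?_, ?_⟩
    · rw [← hevA, hevhom _ _ hPhom, (hPdvd _).2 dvd_rfl, mul_zero]
    · intro j
      rw [← hevA, map_sub, map_mul, hevhom _ _ (hQhom j), hPD, hQder j]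
      have h3 : ω₀ ^ mm = ω₀ ^ (mm - 1) * ω₀ := by
        rw [← pow_succ, Nat.sub_add_cancel hmm1]
      have h4 : ω₀ * γh j = ev φ X' Y (Bv j) := by
        rw [hγh]
        simp only
        rw [mul_div_cancel₀ _ hω₀]
      rw [h3, ← h4]
      ring
    · rw [← hevA, hPD]
      exact mul_ne_zero (pow_ne_zero _ hω₀) hPder
  -- the points on the boundary
  have hPcoef : ∃ i k, ((deh PP).coeff i).coeff k = 1 := by
    refine ⟨mm, 0, ?_⟩
    rw [deh_coeff hPhom, if_pos (by omega), ← hPmon]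
    congr 1
    simp
  obtain ⟨S', hS'S, hS'1, hS'2⟩ := kill_logs (x := z 1) (y := z 2) hMff htr hgen₂ hPirr
    (by rw [hPdeg]; omega) hPcoef hPdvd (q := q) (e := ∑ l, El l) (N := 3 * mm) hv0 hvle
    (Φ := FB (∑ l, El l) aP (fun j => deh (QQ j)))
    (by
      rw [ev_FB]
      have h3 : (fun j => ev (algebraMap κ M) (z 1) (z 2) (deh (QQ j))) =
          fun j => ev (algebraMap κ M) (z 1) (z 2) (derivative (deh PP)) * γh j :=
        funext hQder
      rw [h3, Fval_smul, hFh])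
    (fun E hE1 hE2 => hfew uc mm PP QQ hprojid E hE1 hE2)
    (D₀ := D₀) (D := Dh) hDhκ S (fun c hc => ⟨hSz c hc 1, hSz c hc 2⟩)
  -- the count
  have hcount := count_forms (v := fun j => (vf A (cX κ) (Bv j)).evalEval y₁ y) (γ := γh)
    (S := S') (q := pp + 3 * mm + q - 1)
    δ hδa hP W hWa hx hjj (fun t => rfl) (fun i => rfl) (by omega) (fun c hc h3 b => by
      refine forms_vanishL (cr := cr') (ν := ν) hΛ (hFκ c) (fun b => ?_) (hSγ c (hS'S hc))
        (hS'2 c hc) h3 b
      exact hgder b (Dc Dh c) (hFk c))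
    (fun c hcS' h3 => by
      have hcS := hS'S hcS'
      set F := Dc Dh c with hF'
      set δ' := Dc δ (fun i => c (Sum.inr i)) with hδ'
      have hFδ : ∀ u : κ, F (algebraMap κ M u) = algebraMap κ M (δ' u) := by
        intro u
        rw [hF', hFκ, Dc_apply, hδ', Dc_apply, Fintype.sum_sum_type]
        congr 1
        rw [Finset.sum_eq_zero, zero_add]
        · rfl
        · intro t _
          rw [h3, map_zero, zero_mul]
      refine der_x_mem hA hAY (mul_ne_zero hAY hc) (fun j => by rw [mul_assoc]; exact hB j) h0 h1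
        δ' ?_
      intro hli
      have h4 := indep_of_spec (evalEvalRingHom y₁ y) (ev φ X' Y) hspec
        (N := (![Bv, fun j => vf A (cX κ) (Bv j), fun j => vf A (cE δ') (Bv j)] :
          Fin 3 → Fin (n + 1) → κ[X][X])) (by
          convert hli using 1
          funext i
          fin_cases i <;> rfl)
      -- the third vector is a combination of the others
      have hFγ : ∀ j, F (γ j) = (F ω₀ / ω₀) * γ j := by
        intro j
        have h5 : F (γ j / ω₀ * ω₀) = F (γ j) := by rw [div_mul_cancel₀ _ hω₀]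
        rw [Derivation.leibniz, hSγ c hcS j, smul_zero, add_zero, smul_eq_mul] at h5
        rw [← h5]
        ring
      have hFe : ∀ j, ω * F (γ j) = ev φ X' Y (vf A (cE δ') (Bv j)) +
          F X' * ev φ X' Y (vf A (cX κ) (Bv j)) := fun j => ev_vf φ δ' F hFδ hAP (Bv j)
      rw [Fintype.linearIndependent_iff] at h4
      have h5 := h4 ![ω * (F ω₀ / ω₀), - F X', -1] (by
        rw [Fin.sum_univ_three]
        funext j
        simp only [Matrix.cons_val_zero, Matrix.cons_val_one, Matrix.cons_val, Pi.add_apply,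
          Pi.smul_apply, smul_eq_mul, Pi.zero_apply]
        have h6 := hFe j
        rw [hFγ j] at h6
        have h7 : ev φ X' Y (Bv j) = γ j := rfl
        rw [h7]
        linear_combination h6) 2
      simp at h5)
  -- the degree
  have hdeg : mm ≤ 2 * b := by
    obtain ⟨Q, hQ0, hQh, hQ⟩ := hproj uc
    have h3 := (hevA _).2 hQ
    rw [hevhom _ _ hQh, hφ, ev_deh] at h3
    have h5 : MvPolynomial.aeval (![1, z 1, z 2] : Fin 3 → M) Q = 0 :=
      (mul_eq_zero.1 h3).resolve_left (pow_ne_zero _ hω₀)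
    have h6 := degree_le_form hMff htr hgen₂ hQ0 hQh h5
    rw [hmm] at h6
    exact_mod_cast h6
  -- the inequalities
  have hB1 : (Finset.univ.image jj).card = ρ + q := by
    rw [Finset.card_image_of_injective _ hjj, Finset.card_univ, Fintype.card_fin]
  have hB2 : ∑ j ∈ Finset.univ.image jj, d j = ∑ b, d (jj b) :=
    Finset.sum_image fun x _ y _ h => hjj h
  have e1 := hd _ hB1
  have e2 := hd1 _ hB1
  have e3 := hd2 _ hB1
  rw [hB2] at e1 e2 e3
  have e4 : (ρ + q + 3) * mm ≤ (ρ + q + 3) * (2 * b) := Nat.mul_le_mul_left _ hdeg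
  have h5 := numEP (R := R) (ρ := ρ) (q := q) (σ := ∑ b, d (jj b) + ρ) (τ := m') (c := s) hq1 hmm1
    (by omega) (by omega) (by omega) hcase
  have h6 : ∀ b, mm * (d (jj b) + 1) ≤
      finrank κ ↥(Submodule.span κ (Set.range γh) ^ d (jj b)) + J := fun b =>
    hpow _ (hdeg.trans (hdb _))
  have h7 := Finset.sum_le_sum fun b (_ : b ∈ (Finset.univ : Finset (Fin (ρ + q)))) => h6 b
  rw [Finset.sum_add_distrib, ← Finset.mul_sum, Finset.sum_add_distrib, Finset.sum_const,
    Finset.sum_const, Finset.card_univ, Fintype.card_fin, smul_eq_mul, smul_eq_mul, mul_one] at h7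
  have h8 : mm * (∑ b, d (jj b) + ρ + q) = mm * (∑ b, d (jj b) + (ρ + q)) := by ring
  omega

end Pool.Agent.Lib.MP_44a246_ntPC
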