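import Mathlib
import Pool.Agent.Lib.MP_44a246_ntD.D20
import Pool.Agent.Lib.MP_44a246_ntPC.E9

/-!
Step E for pairs, for a point of a section `t_j = H_j (x)` with `m` algebraically independent
coordinates over an algebraically closed field, if all but `s` of the coefficients of the forms
`H_j` are algebraically independent.
-/

namespace Pool.Agent.Lib.MP_44a246_ntPC

open Pool.Agent.Lib.MP_44a246_ntK
open Pool.Agent.Lib.MP_44a246_ntR
open Pool.Agent.Lib.MP_44a246_ntD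
open Pool.Agent.Lib.MP_44a246_ntQ
open Pool.Agent.Lib.MP_e52354_nt
open Pool.Agent.Lib.MP_44a246_nt
open Pool.Agent.Lib.MP_44a246_ntL
open Pool.Agent.Lib.MP_44a246_ntS
open Pool.Agent.Lib.MP_44a246_ntG
open Pool.Agent.Lib.MP_44a246_ntU
open Module

universe u

/-- **Step E for pairs** over an algebraically closed field -/
theorem no_certWL_closed {κ : Type u} [Field κ] [IsAlgClosed κ] [CharZero κ] {k : Type*} [Field k]
    [CharZero k] [Algebra k κ] {n m p r b s ρ q : ℕ} {d : Fin p → ℕ} (hr : 2 ≤ r) (hq1 : 1 ≤ q)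
    (hd : ∀ B : Finset (Fin p), B.card = ρ + q → 2 * r + s + 2 ≤ (∑ j ∈ B, d j) + m + ρ)
    (hd1 : ∀ B : Finset (Fin p), B.card = ρ + q → r + (ρ + q) + 3 ≤ (∑ j ∈ B, d j) + ρ)
    (hd2 : ∀ B : Finset (Fin p), B.card = ρ + q →
      (ρ + q + 3) * (2 * b) + 2 ≤ (∑ j ∈ B, d j) + ρ)
    (hdb : ∀ j, 2 * b ≤ d j)
    {ι : Type*} {e : ι → ℕ}
    {f : ι → MvPolynomial (Fin p ⊕ Fin (n + 1)) k}
    (hf : ∀ i, (f i).IsWeightedHomogeneous (wtP (n + 1) d) (e i))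
    (hI : ringKrullDim (MvPolynomial (Fin (n + 1)) k ⧸ imI f) ≤ ((r + 1 : ℕ) : ℕ))
    {g : Fin q → MvPolynomial (Fin p ⊕ Fin (n + 1)) k} {El : Fin q → ℕ}
    (hg : ∀ l, (g l).IsWeightedHomogeneous (wtP (n + 1) d) (El l))
    {a : Fin p → (Fin (n + 1) →₀ ℕ) → κ} {P : Finset (Fin p × (Fin (n + 1) →₀ ℕ))}
    (hP : P.card ≤ s)
    (ha : AlgebraicIndependent k (fun s : {s // s ∈ jexpo n d ∧ s ∉ P} => a s.1.1 s.1.2))
    {k₂ : Type*} [Field k₂] [CharZero k₂] [Algebra k k₂] [Algebra k₂ κ] [IsScalarTower k k₂ κ]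
    {a₂ : Fin p → (Fin (n + 1) →₀ ℕ) → k₂}
    (ha₂ : ∀ j, ∀ I ∈ expo (Fin (n + 1)) (d j), algebraMap k₂ κ (a₂ j I) = a j I)
    {x : Fin (n + 1) → κ} {l : Fin (n + 1)} (hl : x l ≠ 0) {j : Fin m → Fin (n + 1)}
    (hind : AlgebraicIndependent k₂ (fun i : Fin m => x (j i) / x l))
    (hgx : ∀ l, Fval (El l) (aWP d a g l) x ≠ 0)
    (hne : JRank (ρ + q) (Sum.elim f g)
      (Sum.elim (fun j => Fval (d j) (a j) x) x : Fin p ⊕ Fin (n + 1) → κ)) :
    ¬ CertWL e (aWP d a f) (∑ l, El l) (aWP d a (fun _ : Unit => ∏ l, g l) ()) b x := by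
  classical
  choose δ hδ using fun i : Fin m => exists_der_indepV hind (fun i' => if i = i' then 1 else 0)
  choose W hW using fun I : Fin p × (Fin (n + 1) →₀ ℕ) => exists_der_indepV ha
    (fun J => if I = J.1 then (1 : κ) else 0)
  refine no_certWL_der hr hq1 hd hd1 hd2 hdb hf hI hg δ (fun i u => ?_) (fun i j' I hI => ?_) hP
    (fun b I => W (b, I)) (fun b I u => (hW (b, I)).1 u)
    (fun b I _ b' J hJ hJP => (hW (b, I)).2 ⟨(b', J), mem_jexpo.2 hJ, hJP⟩)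
    (indep_pointE (j := j) hl δ fun i i' => ?_) hgx hne
  · rw [IsScalarTower.algebraMap_apply k k₂ κ]
    exact (hδ i).1 _
  · rw [← ha₂ j' I hI]
    exact (hδ i).1 _
  · exact (hδ i).2 i'

end Pool.Agent.Lib.MP_44a246_ntPC
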