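import Mathlib
import Pool.Agent.Lib.MP_44a246_ntY.Y20

/-!
Cramer's rule over a field, for systems whose solutions are known over a larger field.
-/

namespace Pool.Agent.Lib.MP_44a246_ntPC

open WithZero

/-- The absolute value of a determinant. -/
private theorem l1_det {ι L : Type*} [Fintype ι] [DecidableEq ι] [Field L]
    (v : Valuation L ℤᵐ⁰) (ρ : ℕ) (N : Matrix ι ι L) (hN : ∀ i j, v (N i j) ≤ exp (ρ : ℤ)) :
    v N.det ≤ exp ((Fintype.card ι * ρ : ℕ) : ℤ) := by
  rw [Matrix.det_apply]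
  refine Valuation.map_sum_le v fun σ _ => ?_
  have h1 : v (Equiv.Perm.sign σ • ∏ i, N (σ i) i) = ∏ i, v (N (σ i) i) := by
    rcases Int.units_eq_one_or (Equiv.Perm.sign σ) with h | h
    · rw [h, one_smul, map_prod]
    · rw [h, Units.neg_smul, one_smul, Valuation.map_neg, map_prod]
  rw [h1]
  have h2 : ∏ i, v (N (σ i) i) ≤ ∏ _i : ι, exp (ρ : ℤ) :=
    Finset.prod_le_prod' fun i _ => hN _ _
  refine h2.trans (le_of_eq ?_)
  rw [Finset.prod_const, Finset.card_univ, ← exp_nsmul, nsmul_eq_mul]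
  push_cast
  rfl

/-- Either there is a nonzero minor with all columns, or a nonzero vector in the kernel whose
coordinates are zero or minors. -/
private theorem l1_key {ι' ι L : Type*} [Fintype ι'] [Fintype ι] [Field L] (M : Matrix ι' ι L) :
    (∃ (r : ℕ) (I : Fin r → ι') (e : Fin r ≃ ι), (M.submatrix I e).det ≠ 0) ∨
    ∃ z : ι → L, z ≠ 0 ∧ M.mulVec z = 0 ∧ ∀ (v : Valuation L ℤᵐ⁰) (ρ : ℕ),
      (∀ i j, v (M i j) ≤ exp (ρ : ℤ)) → ∀ j, v (z j) ≤ exp ((Fintype.card ι * ρ : ℕ) : ℤ) := by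
  classical
  have hinjJ : ∀ (r : ℕ) (I : Fin r → ι') (J : Fin r → ι), (M.submatrix I J).det ≠ 0 →
      Function.Injective J := by
    intro r I J hdet a b hab
    by_contra hne
    apply hdet
    refine Matrix.det_zero_of_column_eq hne ?_
    intro k
    rw [Matrix.submatrix_apply, Matrix.submatrix_apply, hab]
  have hbdd : ∀ r, (∃ (I : Fin r → ι') (J : Fin r → ι), (M.submatrix I J).det ≠ 0) →
      r ≤ Fintype.card ι := by
    rintro r ⟨I, J, hdet⟩
    have h1 := Fintype.card_le_of_injective J (hinjJ r I J hdet)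
    rwa [Fintype.card_fin] at h1
  obtain ⟨r, ⟨I, J, hdet⟩, hmax⟩ : ∃ r, (∃ (I : Fin r → ι') (J : Fin r → ι),
      (M.submatrix I J).det ≠ 0) ∧ ∀ r', r < r' → ¬ ∃ (I : Fin r' → ι') (J : Fin r' → ι),
      (M.submatrix I J).det ≠ 0 := by
    have h0 : ∃ (I : Fin 0 → ι') (J : Fin 0 → ι), (M.submatrix I J).det ≠ 0 :=
      ⟨Fin.elim0, Fin.elim0, by rw [Matrix.det_fin_zero]; exact one_ne_zero⟩
    refine ⟨Nat.findGreatest (fun r => ∃ (I : Fin r → ι') (J : Fin r → ι),
      (M.submatrix I J).det ≠ 0) (Fintype.card ι), ?_, ?_⟩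
    · exact Nat.findGreatest_spec (P := fun r => ∃ (I : Fin r → ι') (J : Fin r → ι),
        (M.submatrix I J).det ≠ 0) (Nat.zero_le _) h0
    · intro r' hr' h1
      exact Nat.findGreatest_is_greatest hr' (hbdd r' h1) h1
  have hr := hbdd r ⟨I, J, hdet⟩
  by_cases hsurj : Function.Surjective J
  · left
    exact ⟨r, I, Equiv.ofBijective J ⟨hinjJ r I J hdet, hsurj⟩, hdet⟩
  right
  obtain ⟨j₀, hj₀⟩ : ∃ j₀, ∀ k, J k ≠ j₀ := by
    by_contra hcon
    push Not at hcon
    exact hsurj hcon
  obtain ⟨J', hJ'⟩ : ∃ J' : Fin (r + 1) → ι, J' = Fin.cons j₀ J := ⟨_, rfl⟩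
  obtain ⟨w, hw⟩ : ∃ w : Fin (r + 1) → L, w = fun k : Fin (r + 1) => (-1) ^ (k : ℕ) *
      (M.submatrix I (J' ∘ k.succAbove)).det := ⟨_, rfl⟩
  refine ⟨fun j => ∑ k : Fin (r + 1), if J' k = j then w k else 0, ?_, ?_, ?_⟩
  · intro h0
    have h1 := congrFun h0 j₀
    simp only [Pi.zero_apply] at h1
    rw [Fin.sum_univ_succ] at h1
    have h2 : ∀ k : Fin r, (if J' k.succ = j₀ then w k.succ else 0) = 0 := by
      intro k
      rw [if_neg]
      rw [hJ', Fin.cons_succ]
      exact hj₀ k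
    rw [Finset.sum_eq_zero (fun k _ => h2 k), add_zero, if_pos (by rw [hJ', Fin.cons_zero]), hw] at h1
    apply hdet
    have h3 : J' ∘ (0 : Fin (r + 1)).succAbove = J := by
      funext k
      rw [Function.comp_apply, Fin.succAbove_zero, hJ', Fin.cons_succ]
    simp only [Fin.val_zero, pow_zero, one_mul] at h1
    rw [h3] at h1
    exact h1
  · funext i
    have h1 : (M.submatrix (Fin.cons i I : Fin (r + 1) → ι') J').det = 0 := by
      by_contra hne
      exact hmax (r + 1) (Nat.lt_succ_self r) ⟨_, _, hne⟩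
    rw [Matrix.det_succ_row_zero] at h1
    rw [Pi.zero_apply]
    refine Eq.trans ?_ h1
    show ∑ j, M i j * (∑ k : Fin (r + 1), if J' k = j then w k else 0) = _
    simp only [Finset.mul_sum]
    rw [Finset.sum_comm]
    refine Finset.sum_congr rfl fun k _ => ?_
    rw [Finset.sum_eq_single (J' k)]
    · rw [if_pos rfl, hw, Matrix.submatrix_apply, Fin.cons_zero, Matrix.submatrix_submatrix]
      have h3 : (Fin.cons i I : Fin (r + 1) → ι') ∘ Fin.succ = I := by
        funext k
        rw [Function.comp_apply, Fin.cons_succ]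
      rw [h3]
      ring
    · intro j _ hj
      rw [if_neg (Ne.symm hj), mul_zero]
    · intro h
      exact absurd (Finset.mem_univ _) h
  · intro v ρ hv j
    refine Valuation.map_sum_le v fun k _ => ?_
    split_ifs
    · rw [hw]
      show v ((-1) ^ (k : ℕ) * (M.submatrix I (J' ∘ k.succAbove)).det) ≤ _
      rw [map_mul, map_pow, Valuation.map_neg, map_one, one_pow, one_mul]
      refine (l1_det v ρ _ fun a b => hv _ _).trans ?_
      rw [exp_le_exp, Fintype.card_fin]
      exact_mod_cast Nat.mul_le_mul_right ρ hr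
    · rw [map_zero]
      exact zero_le_one.trans (by rw [← exp_zero, exp_le_exp]; exact Int.natCast_nonneg _)

/-- **Cramer's rule for the kernel**: a homogeneous linear system over `L` which has a nonzero
solution over a larger field `F` has a nonzero solution over `L` whose coordinates are zero or
minors of the matrix up to sign. -/
theorem exists_kernel_ext {ι' ι L F : Type*} [Fintype ι'] [Fintype ι] [Field L] [Field F]
    [Algebra L F] (M : Matrix ι' ι L) {z₀ : ι → F} (hz₀ : z₀ ≠ 0)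
    (h0 : (M.map (algebraMap L F)).mulVec z₀ = 0) :
    ∃ z : ι → L, z ≠ 0 ∧ M.mulVec z = 0 ∧ ∀ (v : Valuation L ℤᵐ⁰) (ρ : ℕ),
      (∀ i j, v (M i j) ≤ exp (ρ : ℤ)) → ∀ j, v (z j) ≤ exp ((Fintype.card ι * ρ : ℕ) : ℤ) := by
  classical
  rcases l1_key M with ⟨r, I, e, hdet⟩ | h
  · exfalso
    apply hz₀
    have h1 : ((M.map (algebraMap L F)).submatrix I e).det ≠ 0 := by
      have h2 : (M.map (algebraMap L F)).submatrix I e =
          (algebraMap L F).mapMatrix (M.submatrix I e) := rfl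
      rw [h2, ← RingHom.map_det]
      exact (map_ne_zero (algebraMap L F)).2 hdet
    have h3 : ((M.map (algebraMap L F)).submatrix I e).mulVec (z₀ ∘ e) = 0 := by
      funext i
      have h4 := congrFun h0 (I i)
      rw [Pi.zero_apply] at h4 ⊢
      rw [← h4]
      exact Equiv.sum_comp e fun j => (M.map (algebraMap L F)) (I i) j * z₀ j
    have h5 := Matrix.eq_zero_of_mulVec_eq_zero h1 h3
    funext j
    have h6 := congrFun h5 (e.symm j)
    rwa [Function.comp_apply, Equiv.apply_symm_apply] at h6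
  · exact h

/-- **Cramer's rule, with a denominator which does not depend on the right side**: let the matrix
`M` over `L` be injective. There is a nonzero minor `Δ` such that for all vectors `y` over `L` and
all solutions `z` of the system `M z = y` over the larger field `F` the vector `Δ z` has
coordinates in `L`, with a bound for their absolute values. -/
theorem exists_cramer_ext {ι' ι L F : Type*} [Fintype ι'] [Fintype ι] [Field L] [Field F]
    [Algebra L F] (M : Matrix ι' ι L) (hM : ∀ z : ι → L, M.mulVec z = 0 → z = 0) :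
    ∃ Δ : L, Δ ≠ 0 ∧
      (∀ (v : Valuation L ℤᵐ⁰) (ρ : ℕ), (∀ i j, v (M i j) ≤ exp (ρ : ℤ)) →
        v Δ ≤ exp ((Fintype.card ι * ρ : ℕ) : ℤ)) ∧
      ∀ (y : ι' → L) (z : ι → F),
        (M.map (algebraMap L F)).mulVec z = (fun i => algebraMap L F (y i)) →
        ∃ z' : ι → L, (∀ j, algebraMap L F (z' j) = algebraMap L F Δ * z j) ∧
          ∀ (v : Valuation L ℤᵐ⁰) (ρ ρ' : ℕ), (∀ i j, v (M i j) ≤ exp (ρ : ℤ)) →
            (∀ i, v (y i) ≤ exp (ρ' : ℤ)) →
            ∀ j, v (z' j) ≤ exp ((Fintype.card ι * ρ + ρ' : ℕ) : ℤ) := by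
  classical
  rcases l1_key M with ⟨r, I, e, hdet⟩ | ⟨z, hz, hMz, _⟩
  swap
  · exact absurd (hM z hMz) hz
  obtain ⟨I', hI'⟩ : ∃ I' : ι → ι', I' = I ∘ e.symm := ⟨_, rfl⟩
  obtain ⟨N, hN⟩ : ∃ N : Matrix ι ι L, N = M.submatrix I' id := ⟨_, rfl⟩
  have hNdet : N.det ≠ 0 := by
    have h1 : N.submatrix e e = M.submatrix I e := by
      rw [hN, Matrix.submatrix_submatrix, hI']
      congr 1
      funext k
      rw [Function.comp_apply, Function.comp_apply, Equiv.symm_apply_apply]
    rw [← h1, Matrix.det_submatrix_equiv_self] at hdet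
    exact hdet
  have hNle : ∀ (v : Valuation L ℤᵐ⁰) (ρ : ℕ), (∀ i j, v (M i j) ≤ exp (ρ : ℤ)) →
      ∀ i j, v (N i j) ≤ exp (ρ : ℤ) := by
    intro v ρ hv i j
    rw [hN]
    exact hv _ _
  have hadj : ∀ (v : Valuation L ℤᵐ⁰) (ρ : ℕ), (∀ i j, v (M i j) ≤ exp (ρ : ℤ)) →
      ∀ i j, v (N.adjugate i j) ≤ exp ((Fintype.card ι * ρ : ℕ) : ℤ) := by
    intro v ρ hv i j
    rw [Matrix.adjugate_apply]
    refine l1_det v ρ _ fun a b => ?_
    rw [Matrix.updateRow_apply]
    have h1 : (1 : ℤᵐ⁰) ≤ exp (ρ : ℤ) := by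
      rw [← exp_zero, exp_le_exp]
      exact Int.natCast_nonneg _
    split_ifs
    · rw [Pi.single_apply]
      split_ifs
      · rw [map_one]
        exact h1
      · rw [map_zero]
        exact zero_le
    · exact hNle v ρ hv _ _
  refine ⟨N.det, hNdet, fun v ρ hv => l1_det v ρ N (hNle v ρ hv), ?_⟩
  intro y z hz
  refine ⟨N.adjugate.mulVec (y ∘ I'), ?_, ?_⟩
  · intro j
    have h1 : (N.map (algebraMap L F)).mulVec z = fun i => algebraMap L F (y (I' i)) := by
      funext i
      have h2 := congrFun hz (I' i)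
      rw [hN]
      exact h2
    have h3 : ((N.adjugate).map (algebraMap L F)).mulVec ((N.map (algebraMap L F)).mulVec z) =
        algebraMap L F N.det • z := by
      rw [Matrix.mulVec_mulVec, ← Matrix.map_mul, Matrix.adjugate_mul]
      have h4 : ((N.det • (1 : Matrix ι ι L)).map (algebraMap L F)) =
          algebraMap L F N.det • (1 : Matrix ι ι F) := by
        ext a b
        rw [Matrix.map_apply, Matrix.smul_apply, Matrix.smul_apply, smul_eq_mul, smul_eq_mul,
          map_mul, Matrix.one_apply, Matrix.one_apply]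
        split_ifs
        · rw [map_one]
        · rw [map_zero]
      rw [h4, Matrix.smul_mulVec, Matrix.one_mulVec]
    rw [h1] at h3
    have h5 := congrFun h3 j
    rw [Pi.smul_apply, smul_eq_mul] at h5
    rw [← h5]
    show algebraMap L F (∑ i, N.adjugate j i * y (I' i)) = ∑ i, algebraMap L F (N.adjugate j i) *
      algebraMap L F (y (I' i))
    rw [map_sum]
    refine Finset.sum_congr rfl fun i _ => ?_
    rw [map_mul]
  · intro v ρ ρ' hv hy j
    show v (∑ i, N.adjugate j i * y (I' i)) ≤ _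
    refine Valuation.map_sum_le v fun i _ => ?_
    rw [map_mul]
    refine (mul_le_mul' (hadj v ρ hv j i) (hy (I' i))).trans (le_of_eq ?_)
    rw [← exp_add]
    push_cast
    rfl

end Pool.Agent.Lib.MP_44a246_ntPC
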