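import Mathlib
import Pool.Agent.Lib.MP_44a246_ntS.SR0
import Pool.Agent.Lib.MP_44a246_ntS.SJ1c
import Pool.Agent.Lib.MP_44a246_nt.PlacesGen
import Pool.Agent.Lib.MP_44a246_ntE.E20
import Pool.Agent.Lib.MP_44a246_ntPC.L1

/-!
Linear relations with constant coefficients between polynomials in two variables: descent from a
larger field, with bounds.
-/

namespace Pool.Agent.Lib.MP_44a246_ntPC

open Pool.Agent.Lib.MP_44a246_nt
open Pool.Agent.Lib.MP_44a246_ntL
open Pool.Agent.Lib.MP_44a246_ntS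
open Pool.Agent.Lib.MP_44a246_ntE
open WithZero Polynomial

variable {L F : Type*} [Field L] [Field F] [Algebra L F]

private theorem l1b_coef {K ι : Type*} [Field K] [Fintype ι] (G : ι → K[X][X]) (z : ι → K)
    (s t : ℕ) :
    ((∑ i, C (C (z i)) * G i).coeff s).coeff t = ∑ i, ((G i).coeff s).coeff t * z i := by
  rw [finsetSum_coeff, finsetSum_coeff]
  refine Finset.sum_congr rfl fun i _ => ?_
  rw [coeff_C_mul, coeff_C_mul, mul_comm]

private theorem l1b_box_mono {K : Type*} [Field K] {A : K[X][X]} {b c : ℕ} (hbc : b ≤ c)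
    (h : Box b A) : Box c A :=
  ⟨h.1.trans hbc, fun i => (h.2 i).trans hbc⟩

private theorem l1b_box_one {K : Type*} [Field K] (A : K[X][X]) : ∃ b, Box b A := by
  refine ⟨max A.natDegree (A.support.sup fun i => (A.coeff i).natDegree), le_max_left _ _, ?_⟩
  intro i
  by_cases hi : i ∈ A.support
  · exact (Finset.le_sup (f := fun i => (A.coeff i).natDegree) hi).trans (le_max_right _ _)
  · rw [notMem_support_iff.1 hi, natDegree_zero]
    exact Nat.zero_le _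

private theorem l1b_box {K ι : Type*} [Field K] [Fintype ι] (G : ι → K[X][X]) :
    ∃ b, ∀ i, Box b (G i) := by
  choose b hb using fun i => l1b_box_one (G i)
  exact ⟨Finset.univ.sup b, fun i => l1b_box_mono (Finset.le_sup (Finset.mem_univ i)) (hb i)⟩

private theorem l1b_zero {K ι : Type*} [Field K] [Fintype ι] {G : ι → K[X][X]} {N : ℕ}
    (hG : ∀ i, Box N (G i)) (z : ι → K)
    (h : (Matrix.of fun (p : Fin (N + 1) × Fin (N + 1)) i =>
      ((G i).coeff p.1).coeff p.2).mulVec z = 0) :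
    ∑ i, C (C (z i)) * G i = 0 := by
  refine Polynomial.ext fun s => Polynomial.ext fun t => ?_
  rw [l1b_coef, coeff_zero, coeff_zero]
  by_cases hs : s < N + 1
  · by_cases ht : t < N + 1
    · exact congrFun h (⟨s, hs⟩, ⟨t, ht⟩)
    · refine Finset.sum_eq_zero fun i _ => ?_
      rw [coeff_eq_zero_of_natDegree_lt (lt_of_le_of_lt ((hG i).2 s) (by omega)), zero_mul]
  · refine Finset.sum_eq_zero fun i _ => ?_
    rw [coeff_eq_zero_of_natDegree_lt (p := G i) (lt_of_le_of_lt (hG i).1 (by omega)), coeff_zero,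
      zero_mul]

/-- a relation over `F` gives a relation over `L` -/
theorem ker_poly {ι : Type*} [Fintype ι] (G : ι → L[X][X]) {z₀ : ι → F} (hz₀ : z₀ ≠ 0)
    (h0 : ∑ i, C (C (z₀ i)) * mp L F (G i) = 0) :
    ∃ z : ι → L, z ≠ 0 ∧ ∑ i, C (C (z i)) * G i = 0 ∧
      ∀ (v : Valuation L ℤᵐ⁰) (ρ : ℕ), (∀ i, gg v (G i) ≤ exp (ρ : ℤ)) →
        ∀ i, v (z i) ≤ exp ((Fintype.card ι * ρ : ℕ) : ℤ) := by
  obtain ⟨N, hN⟩ := l1b_box G
  obtain ⟨z, hz, hMz, hv⟩ := exists_kernel_ext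
    (Matrix.of fun (p : Fin (N + 1) × Fin (N + 1)) i => ((G i).coeff p.1).coeff p.2) hz₀ (by
      funext p
      have h1 := congrArg (fun P => (P.coeff (p.1 : ℕ)).coeff (p.2 : ℕ)) h0
      simp only [l1b_coef, coeff_zero, mp_coeff] at h1
      exact h1)
  refine ⟨z, hz, l1b_zero hN z hMz, fun v ρ hρ => hv v ρ fun p i => ?_⟩
  exact (le_gg v (G i) _ _).trans (hρ i)

/-- **Cramer's rule**: independent polynomials `G i`, right sides `y`. -/
theorem cramer_poly {ι : Type*} [Fintype ι] (G : ι → L[X][X])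
    (hG : ∀ z : ι → L, ∑ i, C (C (z i)) * G i = 0 → z = 0) (N : ℕ) :
    ∃ Δ : L, Δ ≠ 0 ∧
      (∀ (v : Valuation L ℤᵐ⁰) (ρ : ℕ), (∀ i, gg v (G i) ≤ exp (ρ : ℤ)) →
        v Δ ≤ exp ((Fintype.card ι * ρ : ℕ) : ℤ)) ∧
      ∀ (y : L[X][X]) (z : ι → F), Box N y →
        ∑ i, C (C (z i)) * mp L F (G i) = mp L F y →
        ∃ z' : ι → L, (∀ i, algebraMap L F (z' i) = algebraMap L F Δ * z i) ∧
          ∀ (v : Valuation L ℤᵐ⁰) (ρ ρ' : ℕ), (∀ i, gg v (G i) ≤ exp (ρ : ℤ)) →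
            gg v y ≤ exp (ρ' : ℤ) → ∀ i, v (z' i) ≤ exp ((Fintype.card ι * ρ + ρ' : ℕ) : ℤ) := by
  obtain ⟨N', hN'⟩ := l1b_box G
  obtain ⟨Δ, hΔ, hv, hy⟩ := exists_cramer_ext (F := F)
    (Matrix.of fun (p : Fin (N' + 1) × Fin (N' + 1)) i => ((G i).coeff p.1).coeff p.2)
    (fun z hz => hG z (l1b_zero hN' z hz))
  refine ⟨Δ, hΔ, fun v ρ hρ => hv v ρ fun p i => (le_gg v (G i) _ _).trans (hρ i), ?_⟩
  intro y z _ hyz
  obtain ⟨z', hz', hvz⟩ := hy (fun p => (y.coeff p.1).coeff p.2) z (by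
    funext p
    have h1 := congrArg (fun P => (P.coeff (p.1 : ℕ)).coeff (p.2 : ℕ)) hyz
    simp only [l1b_coef, mp_coeff] at h1
    exact h1)
  refine ⟨z', hz', fun v ρ ρ' hρ hρ' => hvz v ρ ρ' (fun p i => (le_gg v (G i) _ _).trans (hρ i))
    fun p => (le_gg v y _ _).trans hρ'⟩

end Pool.Agent.Lib.MP_44a246_ntPC
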