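import Mathlib
import Pool.Agent.Lib.MP_44a246_ntPC.D0

/-!
The projection of a curve to the plane: the image is not a point.
-/

namespace Pool.Agent.Lib.MP_44a246_ntPC

open Pool.Agent.Lib.MP_e52354_nt
open Pool.Agent.Lib.MP_44a246_ntS
open Pool.Agent.Lib.MP_44a246_ntG
open Pool.Agent.Lib.MP_44a246_ntE
open Polynomial

/-- an irreducible curve with a map which is inverse to a linear projection -/
structure Nondeg {F : Type*} [Field F] {n : ℕ} (A : F[X][X]) (B : Fin (n + 1) → F[X][X]) :
    Prop where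
  irr : Irreducible A
  deg : A.natDegree ≠ 0
  nd : ¬ A ∣ derivative A
  lin₀ : ∃ ξ : Fin (n + 1) → F, A ∣ ∑ j, C (C (ξ j)) * B j - derivative A
  lin₁ : ∃ ξ : Fin (n + 1) → F, A ∣ ∑ j, C (C (ξ j)) * B j - C X * derivative A

variable {F : Type*} [Field F] {n m : ℕ} {A : F[X][X]} {B : Fin (n + 1) → F[X][X]}
  {u : Fin 3 → Fin (n + 1) → ℕ} {P : MvPolynomial (Fin 3) F}
  {Q : Fin (n + 1) → MvPolynomial (Fin 3) F}

/-- the degree is positive -/
theorem ProjId.one_le (hP : ProjId A B u m P Q) : 1 ≤ m := by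
  -- if `m = 0` then `P = 1` (`hom`, `monic`), `deh P = 1` is a unit
  rcases Nat.eq_zero_or_pos m with h0 | h0
  · exfalso
    subst h0
    have h1 : P = MvPolynomial.C (P.coeff 0) :=
      MvPolynomial.totalDegree_eq_zero_iff_eq_C.1 (Nat.le_zero.1 hP.hom.totalDegree_le)
    have h2 : P.coeff 0 = 1 := by
      have h3 := hP.monic
      rwa [Finsupp.single_zero] at h3
    rw [h2, MvPolynomial.C_1] at h1
    have h4 := hP.irr
    rw [h1] at h4
    unfold deh at h4
    rw [map_one] at h4
    exact h4.not_isUnit isUnit_one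
  · exact h0

theorem ProjId.natDegree (hP : ProjId A B u m P Q) : (deh P).natDegree = m ∧ (deh P).Monic := by
  -- `deh_coeff`: the coefficient of `Y ^ m` is the constant `P.coeff (single 2 m) = 1`
  have h1 : (deh P).coeff m = 1 := by
    ext i
    rw [deh_coeff hP.hom]
    rcases Nat.eq_zero_or_pos i with h0 | h0
    · subst h0
      rw [if_pos (by omega)]
      have h2 : m - 0 - m = 0 := by omega
      rw [h2, Finsupp.single_zero, Finsupp.single_zero, zero_add, zero_add, hP.monic]
      simp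
    · rw [if_neg (by omega), coeff_one, if_neg (by omega)]
  have h2 : (deh P).natDegree = m := by
    refine natDegree_eq_of_le_of_coeff_ne_zero (deh_box hP.hom).1 ?_
    rw [h1]
    exact one_ne_zero
  refine ⟨h2, ?_⟩
  rw [Monic.def, leadingCoeff, h2, h1]

/-- the values of a form at a multiple of a point -/
private theorem map_form {M : Type*} [Field M] [Algebra F M] {φ : F[X][X] →+* M}
    (hφ : ∀ c, φ (C (C c)) = algebraMap F M c) {R : MvPolynomial (Fin 3) F} {k : ℕ}
    (hR : R.IsHomogeneous k) (U : Fin 3 → F[X][X]) (w : Fin 3 → M) (β : M)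
    (h : ∀ i, φ (U i) = w i * β) :
    φ (MvPolynomial.aeval U R) = β ^ k * MvPolynomial.eval₂ (algebraMap F M) w R := by
  have h1 : φ.comp (algebraMap F F[X][X]) = algebraMap F M := by
    ext c
    exact hφ c
  rw [MvPolynomial.map_aeval, h1, MvPolynomial.coe_eval₂Hom, MvPolynomial.eval₂_eq',
    MvPolynomial.eval₂_eq', Finset.mul_sum]
  refine Finset.sum_congr rfl fun d hd => ?_
  have h2 : d.degree = k := by
    rw [← hR (MvPolynomial.mem_support_iff.1 hd), Finsupp.degree_eq_weight_one]
    rfl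
  have h3 : ∏ i, φ (U i) ^ d i = (∏ i, w i ^ d i) * β ^ k := by
    rw [← h2, Finsupp.degree_eq_sum, ← Finset.prod_pow_eq_pow_sum, ← Finset.prod_mul_distrib]
    exact Finset.prod_congr rfl fun i _ => by rw [h i, mul_pow]
  rw [h3]
  ring

/-- the specialisation of a monic form is monic -/
private theorem spec_monic {R : MvPolynomial (Fin 3) F} {k : ℕ} (hR : R.IsHomogeneous k)
    (h1 : R.coeff (Finsupp.single 2 k) = 1) (v₀ v₁ : F) :
    (MvPolynomial.aeval (![C v₀, C v₁, X] : Fin 3 → F[X]) R).Monic := by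
  classical
  have hterm : ∀ (d : Fin 3 →₀ ℕ) (j : ℕ), (algebraMap F F[X] (R.coeff d) *
      ∏ i, (![C v₀, C v₁, X] : Fin 3 → F[X]) i ^ d i).coeff j =
        if j = d 2 then R.coeff d * v₀ ^ d 0 * v₁ ^ d 1 else 0 := by
    intro d j
    rw [Fin.prod_univ_three]
    have h2 : algebraMap F F[X] (R.coeff d) = C (R.coeff d) := rfl
    have h3 : algebraMap F F[X] (R.coeff d) *
        ((![C v₀, C v₁, X] : Fin 3 → F[X]) 0 ^ d 0 * (![C v₀, C v₁, X] : Fin 3 → F[X]) 1 ^ d 1 *
          (![C v₀, C v₁, X] : Fin 3 → F[X]) 2 ^ d 2) =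
        C (R.coeff d * v₀ ^ d 0 * v₁ ^ d 1) * X ^ d 2 := by
      rw [h2]
      simp only [Matrix.cons_val_zero, Matrix.cons_val_one, Matrix.cons_val]
      rw [C_mul, C_mul, C_pow, C_pow]
      ring
    rw [h3, coeff_C_mul_X_pow]
  have hdeg : ∀ d ∈ R.support, d.degree = k := by
    intro d hd
    rw [← hR (MvPolynomial.mem_support_iff.1 hd), Finsupp.degree_eq_weight_one]
    rfl
  refine monic_of_natDegree_le_of_coeff_eq_one k ?_ ?_
  · rw [natDegree_le_iff_coeff_eq_zero]
    intro j hj
    rw [MvPolynomial.aeval_def, MvPolynomial.eval₂_eq', finsetSum_coeff]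
    refine Finset.sum_eq_zero fun d hd => ?_
    rw [hterm, if_neg]
    intro h2
    have h3 := hdeg d hd
    rw [Finsupp.degree_eq_sum, Fin.sum_univ_three] at h3
    omega
  · rw [MvPolynomial.aeval_def, MvPolynomial.eval₂_eq', finsetSum_coeff,
      Finset.sum_eq_single (Finsupp.single 2 k)]
    · rw [hterm]
      simp [h1]
    · intro d hd hne
      rw [hterm, if_neg]
      intro h2
      have h3 := hdeg d hd
      rw [Finsupp.degree_eq_sum, Fin.sum_univ_three] at h3
      refine hne ?_
      ext i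
      fin_cases i
      · simp
        omega
      · simp
        omega
      · simp [h2]
    · intro hd
      rw [hterm, MvPolynomial.notMem_support_iff.1 hd]
      simp

/-- an integral element over an algebraically closed field -/
private theorem exists_algebraMap {M : Type*} [Field M] [Algebra F M] [IsAlgClosed F] {x : M}
    (hx : IsIntegral F x) : ∃ c : F, algebraMap F M c = x := by
  have h1 : (minpoly F x).degree = 1 :=
    IsAlgClosed.degree_eq_one_of_irreducible F (minpoly.irreducible hx)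
  exact minpoly.mem_range_of_degree_eq_one F x h1

section

variable {M : Type*} [Field M] [Algebra F M] {φ : F[X][X] →+* M}

/-- the image of the curve under the three linear forms is not a point -/
theorem not_point (hA : Nondeg A B) (hP : ProjId A B u m P Q)
    (hφ : ∀ c, φ (C (C c)) = algebraMap F M c) (hker : ∀ G, φ G = 0 ↔ A ∣ G)
    (v : Fin 3 → F) (β : M) : ¬ ∀ i, φ (ub u B i) = algebraMap F M (v i) * β := by
  -- Let `φ (U i) = v i * β`. For a form `R` of degree `k`: `φ (R (U)) = β ^ k * R (v)`. So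
  -- `dvdQ` gives `β ^ m * Q j (v) = β ^ (m - 1) * (∂ P / ∂ X 2) (v) * φ (B j)`, and `ndvd` says
  -- that `β ^ (m - 1) * (∂ P / ∂ X 2) (v) ≠ 0`. So `φ (B j) = β * c j` with constants
  -- `c j = Q j (v) / (∂ P / ∂ X 2) (v)` in `F`. Then `lin₀`, `lin₁`: `φ (A_Y) = β * s₀`,
  -- `φ (C X) * φ (A_Y) = β * s₁` with `s₀, s₁` in `F`; `φ (A_Y) ≠ 0` by `nd`, so `s₀ ≠ 0` and
  -- `φ (C X) = s₁ / s₀`: `A` divides `C X - C (C (s₁ / s₀))`, contradiction to `deg`
  -- (degree in `Y`).
  intro h
  have hev : ∀ R : MvPolynomial (Fin 3) F,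
      MvPolynomial.eval₂ (algebraMap F M) (fun i => algebraMap F M (v i)) R =
        algebraMap F M (MvPolynomial.eval v R) := by
    intro R
    rw [MvPolynomial.eval, MvPolynomial.coe_eval₂Hom, MvPolynomial.hom_eval₂, RingHom.comp_id]
  have h1 : φ (MvPolynomial.aeval (ub u B) (MvPolynomial.pderiv 2 P)) =
      β ^ (m - 1) * algebraMap F M (MvPolynomial.eval v (MvPolynomial.pderiv 2 P)) := by
    rw [← hev]
    exact map_form hφ (hP.hom.pderiv) (ub u B) (fun i => algebraMap F M (v i)) β h
  have h2 : ∀ j, φ (MvPolynomial.aeval (ub u B) (Q j)) =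
      β ^ m * algebraMap F M (MvPolynomial.eval v (Q j)) := by
    intro j
    rw [← hev]
    exact map_form hφ (hP.homQ j) (ub u B) (fun i => algebraMap F M (v i)) β h
  have h3 : φ (MvPolynomial.aeval (ub u B) (MvPolynomial.pderiv 2 P)) ≠ 0 :=
    fun h0 => hP.ndvd ((hker _).1 h0)
  rw [h1] at h3
  have h4 : β ^ (m - 1) ≠ 0 := left_ne_zero_of_mul h3
  have h5 : algebraMap F M (MvPolynomial.eval v (MvPolynomial.pderiv 2 P)) ≠ 0 :=
    right_ne_zero_of_mul h3
  set D : F := MvPolynomial.eval v (MvPolynomial.pderiv 2 P) with hD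
  have h6 : ∀ j, φ (B j) = β * algebraMap F M (MvPolynomial.eval v (Q j) / D) := by
    intro j
    have h7 := (hker _).2 (hP.dvdQ j)
    rw [map_sub, map_mul, h1, h2, sub_eq_zero] at h7
    have h8 : β ^ m = β ^ (m - 1) * β := by
      rw [← pow_succ]
      congr 1
      have := hP.one_le
      omega
    rw [h8] at h7
    rw [map_div₀]
    field_simp
    have h9 : β ^ (m - 1) * (β * algebraMap F M (MvPolynomial.eval v (Q j))) =
        β ^ (m - 1) * (algebraMap F M D * φ (B j)) := by
      linear_combination h7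
    have h10 := mul_left_cancel₀ h4 h9
    linear_combination -h10
  have hlin : ∀ ξ : Fin (n + 1) → F, φ (∑ j, C (C (ξ j)) * B j) =
      β * algebraMap F M (∑ j, ξ j * (MvPolynomial.eval v (Q j) / D)) := by
    intro ξ
    rw [map_sum, map_sum, Finset.mul_sum]
    refine Finset.sum_congr rfl fun j _ => ?_
    rw [map_mul, map_mul, hφ, h6 j]
    ring
  obtain ⟨ξ₀, hξ₀⟩ := hA.lin₀
  obtain ⟨ξ₁, hξ₁⟩ := hA.lin₁
  have h7 := (hker _).2 hξ₀
  have h8 := (hker _).2 hξ₁
  rw [map_sub, hlin, sub_eq_zero] at h7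
  rw [map_sub, hlin, map_mul, sub_eq_zero] at h8
  set s₀ : F := ∑ j, ξ₀ j * (MvPolynomial.eval v (Q j) / D)
  set s₁ : F := ∑ j, ξ₁ j * (MvPolynomial.eval v (Q j) / D)
  have h9 : φ (derivative A) ≠ 0 := fun h0 => hA.nd ((hker _).1 h0)
  rw [← h7] at h9
  have hβ : β ≠ 0 := left_ne_zero_of_mul h9
  have hs : algebraMap F M s₀ ≠ 0 := right_ne_zero_of_mul h9
  have h10 : φ (C X) = algebraMap F M (s₁ / s₀) := by
    rw [← h7] at h8
    have h11 : β * (algebraMap F M s₁) = β * (φ (C X) * algebraMap F M s₀) := by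
      linear_combination h8
    have h12 := mul_left_cancel₀ hβ h11
    rw [map_div₀, h12]
    field_simp
  have h11 : φ (C (X - C (s₁ / s₀))) = 0 := by
    rw [C_sub, map_sub, hφ, h10, sub_self]
  have h12 := (hker _).1 h11
  have h13 : (C (X - C (s₁ / s₀)) : F[X][X]) ≠ 0 := by
    rw [Ne, C_eq_zero]
    exact X_sub_C_ne_zero _
  have h14 := natDegree_le_of_dvd h12 h13
  rw [natDegree_C] at h14
  exact hA.deg (Nat.le_zero.1 h14)

/-- the first affine coordinate is transcendental -/
theorem x₁_transcendental [IsAlgClosed F] (hA : Nondeg A B) (hP : ProjId A B u m P Q)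
    (hφ : ∀ c, φ (C (C c)) = algebraMap F M c) (hker : ∀ G, φ G = 0 ↔ A ∣ G) :
    φ (ub u B 0) ≠ 0 ∧ Transcendental F (φ (ub u B 1) / φ (ub u B 0)) := by
  -- `P (U) ↦ 0`. If `φ (U 0) = 0` and `φ (U 1) = 0` then `φ (U 2) ^ m = 0` (`monic`, `hom`):
  -- contradiction to `not_point` with `v = 0`. If `φ (U 0) = 0`, `φ (U 1) ≠ 0` then
  -- `x = φ (U 2) / φ (U 1)` is a root of the monic polynomial `P (0, 1, T)` over `F`, so `x` is in
  -- `F` (algebraically closed): `φ (U) = φ (U 1) * (0, 1, x)`, contradiction to `not_point`.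
  -- If `x₁ = φ (U 1) / φ (U 0)` is algebraic, it is in `F`, and `x₂ = φ (U 2) / φ (U 0)` is a root
  -- of the monic `P (1, x₁, T)`, so in `F`: contradiction.
  have key : ∀ (v₀ v₁ : F) (β : M), β ≠ 0 → φ (ub u B 0) = algebraMap F M v₀ * β →
      φ (ub u B 1) = algebraMap F M v₁ * β → False := by
    intro v₀ v₁ β hβ h0 h1
    have h2 : IsIntegral F (φ (ub u B 2) / β) := by
      refine ⟨_, spec_monic hP.hom hP.monic v₀ v₁, ?_⟩
      have h3 : φ (MvPolynomial.aeval (ub u B) P) = 0 := (hker _).2 hP.dvd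
      have h4 := map_form hφ hP.hom (ub u B)
        ![algebraMap F M v₀, algebraMap F M v₁, φ (ub u B 2) / β] β (by
          intro i
          fin_cases i
          · simpa using h0
          · simpa using h1
          · simp
            field_simp)
      rw [h3] at h4
      have h5 : MvPolynomial.eval₂ (algebraMap F M)
          ![algebraMap F M v₀, algebraMap F M v₁, φ (ub u B 2) / β] P = 0 := by
        rcases mul_eq_zero.1 h4.symm with h6 | h6
        · exact absurd h6 (pow_ne_zero _ hβ)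
        · exact h6
      rw [← h5]
      have h6 : (eval₂RingHom (algebraMap F M) (φ (ub u B 2) / β)).comp
          (MvPolynomial.aeval (R := F) (![C v₀, C v₁, X] : Fin 3 → F[X])).toRingHom =
          MvPolynomial.eval₂Hom (algebraMap F M)
            ![algebraMap F M v₀, algebraMap F M v₁, φ (ub u B 2) / β] := by
        apply MvPolynomial.ringHom_ext
        · intro c
          simp
        · intro k
          fin_cases k <;> simp
      exact congrArg (fun f : MvPolynomial (Fin 3) F →+* M => f P) h6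
    obtain ⟨c, hc⟩ := exists_algebraMap h2
    refine not_point hA hP hφ hker ![v₀, v₁, c] β fun i => ?_
    fin_cases i
    · simpa using h0
    · simpa using h1
    · simp [hc]
      field_simp
  have h0 : φ (ub u B 0) ≠ 0 := by
    intro h0
    by_cases h1 : φ (ub u B 1) = 0
    · exact key 0 0 1 one_ne_zero (by rw [h0]; simp) (by rw [h1]; simp)
    · exact key 0 1 (φ (ub u B 1)) h1 (by rw [h0]; simp) (by simp)
  refine ⟨h0, fun h1 => ?_⟩
  obtain ⟨c, hc⟩ := exists_algebraMap h1.isIntegral
  refine key 1 c (φ (ub u B 0)) h0 (by simp) ?_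
  rw [hc]
  field_simp

end

end Pool.Agent.Lib.MP_44a246_ntPC
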