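import Mathlib
import Pool.Agent.Lib.MP_44a246_ntPC.L2a
import Pool.Agent.Lib.MP_44a246_ntS.SE2

/-!
The projection of a curve to the plane: its equation divides all relations.
-/

namespace Pool.Agent.Lib.MP_44a246_ntPC

open Pool.Agent.Lib.MP_e52354_nt
open Pool.Agent.Lib.MP_44a246_ntS
open Pool.Agent.Lib.MP_44a246_ntG
open Pool.Agent.Lib.MP_44a246_ntE
open Polynomial

universe v

variable {F : Type*} [Field F] {n m : ℕ} {A : F[X][X]} {B : Fin (n + 1) → F[X][X]}
  {u : Fin 3 → Fin (n + 1) → ℕ} {P : MvPolynomial (Fin 3) F}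
  {Q : Fin (n + 1) → MvPolynomial (Fin 3) F}

/-- a prime element is the kernel of a homomorphism to a field -/
private theorem exists_field_prime {R : Type v} [CommRing R] {a : R} (ha : Prime a) :
    ∃ (M : Type v) (_ : Field M) (φ : R →+* M), ∀ G, φ G = 0 ↔ a ∣ G := by
  have : (Ideal.span {a}).IsPrime := (Ideal.span_singleton_prime ha.ne_zero).2 ha
  refine ⟨FractionRing (R ⧸ Ideal.span {a}), inferInstance,
    (algebraMap (R ⧸ Ideal.span {a}) (FractionRing (R ⧸ Ideal.span {a}))).comp
      (Ideal.Quotient.mk (Ideal.span {a})), fun G => ?_⟩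
  rw [RingHom.comp_apply, map_eq_zero_iff _ (IsFractionRing.injective _ _),
    Ideal.Quotient.eq_zero_iff_mem, Ideal.mem_span_singleton]

/-- scaling of the arguments of a form -/
private theorem aeval_scale {M : Type*} [Field M] [Algebra F M] {N : ℕ}
    {P' : MvPolynomial (Fin 3) F} (hP' : P'.IsHomogeneous N) (c : M) (w : Fin 3 → M) :
    MvPolynomial.aeval (fun i => c * w i) P' = c ^ N * MvPolynomial.aeval w P' := by
  rw [MvPolynomial.aeval_def, MvPolynomial.aeval_def, MvPolynomial.eval₂_eq',
    MvPolynomial.eval₂_eq', Finset.mul_sum]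
  refine Finset.sum_congr rfl fun d hd => ?_
  have h1 : ∑ i, d i = N := by
    have h2 := hP' (MvPolynomial.mem_support_iff.1 hd)
    rw [← h2, Finsupp.weight_apply, Finsupp.sum_fintype _ _ (fun i => by simp)]
    simp
  have h3 : ∏ i, (c * w i) ^ d i = c ^ N * ∏ i, w i ^ d i := by
    rw [← h1, ← Finset.prod_pow_eq_pow_sum, ← Finset.prod_mul_distrib]
    exact Finset.prod_congr rfl fun i _ => mul_pow _ _ _
  rw [h3]
  ring

private theorem deh_dvd_aux [IsAlgClosed F] {M : Type*} [Field M] [Algebra F M]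
    {φ : F[X][X] →+* M} (hA : Nondeg A B) (hP : ProjId A B u m P Q)
    (hφ : ∀ c, φ (C (C c)) = algebraMap F M c) (hker : ∀ G, φ G = 0 ↔ A ∣ G) {N : ℕ}
    {P' : MvPolynomial (Fin 3) F} (hP' : P'.IsHomogeneous N)
    (hd : A ∣ MvPolynomial.aeval (ub u B) P') : deh P ∣ deh P' := by
  obtain ⟨h0, htr⟩ := x₁_transcendental hA hP hφ hker
  by_contra hnd
  obtain ⟨s, t, r, hr, hst⟩ := exists_elim_poly (hP.irr.isRelPrime_iff_not_dvd.2 hnd)
  -- the evaluation at the point
  let ψ : F[X][X] →+* M := eval₂RingHom (eval₂RingHom (algebraMap F M)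
    (φ (ub u B 1) / φ (ub u B 0))) (φ (ub u B 2) / φ (ub u B 0))
  let w : Fin 3 → M := ![1, φ (ub u B 1) / φ (ub u B 0), φ (ub u B 2) / φ (ub u B 0)]
  have hψ : ∀ R : MvPolynomial (Fin 3) F, ψ (deh R) = MvPolynomial.aeval w R := by
    intro R
    have h : ψ.comp (MvPolynomial.aeval (R := F) (![1, C X, X] : Fin 3 → F[X][X])).toRingHom =
        (MvPolynomial.aeval (R := F) w).toRingHom := by
      apply MvPolynomial.ringHom_ext
      · intro c
        simp [ψ]
      · intro k
        fin_cases k <;> simp [ψ, w]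
    exact congrArg (fun f : MvPolynomial (Fin 3) F →+* M => f R) h
  have hφ' : ∀ R : MvPolynomial (Fin 3) F, φ (MvPolynomial.aeval (ub u B) R) =
      MvPolynomial.aeval (fun i => φ (ub u B 0) * w i) R := by
    intro R
    have h : φ.comp (MvPolynomial.aeval (R := F) (ub u B)).toRingHom =
        (MvPolynomial.aeval (R := F) (fun i => φ (ub u B 0) * w i)).toRingHom := by
      apply MvPolynomial.ringHom_ext
      · intro c
        simp only [RingHom.comp_apply, AlgHom.toRingHom_eq_coe, RingHom.coe_coe,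
          MvPolynomial.algHom_C]
        exact hφ c
      · intro k
        fin_cases k
        · simp [w]
        · simp [w]
          field_simp
        · simp [w]
          field_simp
    exact congrArg (fun f : MvPolynomial (Fin 3) F →+* M => f R) h
  have key : ∀ {N' : ℕ} {R : MvPolynomial (Fin 3) F}, R.IsHomogeneous N' →
      A ∣ MvPolynomial.aeval (ub u B) R → ψ (deh R) = 0 := by
    intro N' R hR hdR
    have h1 := (hker _).2 hdR
    rw [hφ', aeval_scale hR, mul_eq_zero] at h1
    rw [hψ]
    exact h1.resolve_left (pow_ne_zero _ h0)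
  have h2 : ψ (s * deh P + t * deh P') = 0 := by
    rw [map_add, map_mul, map_mul, key hP.hom hP.dvd, key hP' hd, mul_zero, mul_zero, add_zero]
  rw [hst] at h2
  have h3 : ψ (C r) = aeval (φ (ub u B 1) / φ (ub u B 0)) r := by
    simp [ψ, aeval_def]
  rw [h3] at h2
  exact hr (transcendental_iff.1 htr r h2)

/-- **The equation divides all relations.** -/
theorem deh_dvd [IsAlgClosed F] (hA : Nondeg A B) (hP : ProjId A B u m P Q) {N : ℕ}
    {P' : MvPolynomial (Fin 3) F} (hP' : P'.IsHomogeneous N)
    (hd : A ∣ MvPolynomial.aeval (ub u B) P') : deh P ∣ deh P' := by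
  -- `M = FractionRing (F[X][X] ⧸ span {A})`, `φ` the canonical map, `x₁, x₂` as above, `x₁` is
  -- transcendental (`x₁_transcendental`), `deh P (x₁, x₂) = 0`, `deh P' (x₁, x₂) = 0` (divide by
  -- `φ (U 0) ^ N`). Structure of an `F[X]`-algebra and of an algebra over `K = RatFunc F` (or
  -- `FractionRing F[X]`) on `M` by `X ↦ x₁`. `deh P` is monic and irreducible, so irreducible
  -- over `K` (`Polynomial.Monic.irreducible_iff_irreducible_map_fraction_map`) and its image is the
  -- minimal polynomial of `x₂` over `K`; it divides the image of `deh P'`, and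
  -- `Polynomial.map_dvd_map` (monic divisor) or `Polynomial.modByMonic` gives the claim over `F[X]`.
  obtain ⟨M, hM, φ, hφ⟩ := exists_field_prime hA.irr.prime
  let _ : Algebra F M := (φ.comp (C.comp C)).toAlgebra
  exact deh_dvd_aux (φ := φ) hA hP (fun c => rfl) hφ hP' hd

end Pool.Agent.Lib.MP_44a246_ntPC
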