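import Mathlib
import Pool.Agent.Lib.MP_44a246_ntPC.L2b

/-!
The projection of a curve to the plane: uniqueness of its equation and of the inverse map.
-/

namespace Pool.Agent.Lib.MP_44a246_ntPC

open Pool.Agent.Lib.MP_e52354_nt
open Pool.Agent.Lib.MP_44a246_ntS
open Pool.Agent.Lib.MP_44a246_ntG
open Pool.Agent.Lib.MP_44a246_ntE
open Polynomial

variable {F : Type*} [Field F] {n m : ℕ} {A : F[X][X]} {B : Fin (n + 1) → F[X][X]}
  {u : Fin 3 → Fin (n + 1) → ℕ} {P : MvPolynomial (Fin 3) F}
  {Q : Fin (n + 1) → MvPolynomial (Fin 3) F}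

/-- the degree is at most the degree of any relation -/
theorem ProjId.deg_le [IsAlgClosed F] (hA : Nondeg A B) (hP : ProjId A B u m P Q) {N : ℕ}
    {P' : MvPolynomial (Fin 3) F} (hP'0 : P' ≠ 0) (hP' : P'.IsHomogeneous N)
    (hd : A ∣ MvPolynomial.aeval (ub u B) P') : m ≤ N := by
  have h1 := deh_dvd hA hP hP' hd
  have h2 := Polynomial.natDegree_le_of_dvd h1 (deh_ne_zero hP' hP'0)
  rw [hP.natDegree.1] at h2
  exact h2.trans (deh_box hP').1

private theorem deh_C_mul (c : F) (R : MvPolynomial (Fin 3) F) :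
    deh (MvPolynomial.C c * R) = C (C c) * deh R := by
  unfold deh
  rw [map_mul, MvPolynomial.aeval_C]
  rfl

private theorem deh_sub (R S : MvPolynomial (Fin 3) F) : deh (R - S) = deh R - deh S := by
  unfold deh
  rw [map_sub]

/-- **Uniqueness of the equation.** -/
theorem ProjId.uniqP [IsAlgClosed F] (hA : Nondeg A B) (hP : ProjId A B u m P Q)
    {P' : MvPolynomial (Fin 3) F} (hP' : P'.IsHomogeneous m)
    (hd : A ∣ MvPolynomial.aeval (ub u B) P') :
    P' = MvPolynomial.C (P'.coeff (Finsupp.single 2 m)) * P := by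
  obtain ⟨T, hT⟩ := deh_dvd hA hP hP' hd
  obtain ⟨hm, hmon⟩ := hP.natDegree
  set c : F := P'.coeff (Finsupp.single 2 m) with hc
  have hD : deh (P' - MvPolynomial.C c * P) = 0 := by
    rw [deh_sub, deh_C_mul]
    by_cases hT0 : T = 0
    · have h0 : deh P' = 0 := by rw [hT, hT0, mul_zero]
      have h1 : c = 0 := by
        have h2 := deh_coeff hP' 0 m
        rw [h0, coeff_zero, coeff_zero, if_pos (by omega)] at h2
        rw [hc, h2]
        congr 1
        simp
      rw [h0, h1, C_0, C_0, zero_mul, sub_zero]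
    · have h1 := (deh_box hP').1
      rw [hT, hmon.natDegree_mul' hT0, hm] at h1
      have h2 : T.natDegree = 0 := by omega
      obtain ⟨t, rfl⟩ := Polynomial.natDegree_eq_zero.1 h2
      have h3 : (deh P').coeff m = t := by
        rw [hT, coeff_mul_C, ← hm, hmon.coeff_natDegree, one_mul]
      have h4 : t = C c := by
        rw [← h3]
        ext i
        rw [deh_coeff hP', coeff_C]
        by_cases hi : i = 0
        · rw [if_pos hi, if_pos (by omega), hi, hc]
          congr 1
          simp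
        · rw [if_neg hi, if_neg (by omega)]
      rw [hT, h4]
      ring
  have hhom : (P' - MvPolynomial.C c * P).IsHomogeneous m := by
    refine hP'.sub ?_
    have h1 := (MvPolynomial.isHomogeneous_C (Fin 3) c).mul hP.hom
    rwa [zero_add] at h1
  by_contra hne
  exact deh_ne_zero hhom (sub_ne_zero.2 hne) hD

/-- **Uniqueness of the inverse map.** -/
theorem ProjId.uniqQ [IsAlgClosed F] (hA : Nondeg A B) (hP : ProjId A B u m P Q)
    {Q' : MvPolynomial (Fin 3) F} (hQ' : Q'.IsHomogeneous m)
    (h0 : Q'.coeff (Finsupp.single 2 m) = 0) {c : F} {j : Fin (n + 1)}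
    (hd : A ∣ MvPolynomial.aeval (ub u B) Q' -
      C (C c) * (MvPolynomial.aeval (ub u B) (MvPolynomial.pderiv 2 P) * B j)) :
    Q' = MvPolynomial.C c * Q j := by
  have hhom : (Q' - MvPolynomial.C c * Q j).IsHomogeneous m := by
    refine hQ'.sub ?_
    have h1 := (MvPolynomial.isHomogeneous_C (Fin 3) c).mul (hP.homQ j)
    rwa [zero_add] at h1
  have hdv : A ∣ MvPolynomial.aeval (ub u B) (Q' - MvPolynomial.C c * Q j) := by
    have h1 := dvd_sub hd (Dvd.dvd.mul_left (hP.dvdQ j) (C (C c)))
    have h2 : MvPolynomial.aeval (ub u B) (Q' - MvPolynomial.C c * Q j) =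
        MvPolynomial.aeval (ub u B) Q' -
          C (C c) * (MvPolynomial.aeval (ub u B) (MvPolynomial.pderiv 2 P) * B j) -
        C (C c) * (MvPolynomial.aeval (ub u B) (Q j) -
          MvPolynomial.aeval (ub u B) (MvPolynomial.pderiv 2 P) * B j) := by
      have h3 : algebraMap F F[X][X] c = C (C c) := rfl
      rw [map_sub, map_mul, MvPolynomial.aeval_C, h3]
      ring
    rw [h2]
    exact h1
  have h4 := hP.uniqP hA hhom hdv
  have h5 : (Q' - MvPolynomial.C c * Q j).coeff (Finsupp.single 2 m) = 0 := by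
    rw [MvPolynomial.coeff_sub, MvPolynomial.coeff_C_mul, h0, hP.coeffQ j, mul_zero, sub_zero]
  rw [h5, MvPolynomial.C_0, zero_mul] at h4
  exact sub_eq_zero.1 h4

end Pool.Agent.Lib.MP_44a246_ntPC
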