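import Mathlib
import Pool.Agent.Lib.MP_44a246_ntS.SJ3
import Pool.Agent.Lib.MP_44a246_ntS.SJ1c
import Pool.Agent.Lib.MP_44a246_ntS.SF2
import Pool.Agent.Lib.MP_44a246_ntE.E20
import Pool.Agent.Lib.MP_44a246_ntPC.D0

/-!
Forms in three variables at polynomials in two variables: base change, sizes, degrees, values.
-/

namespace Pool.Agent.Lib.MP_44a246_ntPC

open Pool.Agent.Lib.MP_e52354_nt
open Pool.Agent.Lib.MP_44a246_nt
open Pool.Agent.Lib.MP_44a246_ntL
open Pool.Agent.Lib.MP_44a246_ntS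
open Pool.Agent.Lib.MP_44a246_ntE
open WithZero Polynomial

section

variable {L F : Type*} [Field L] [Field F] [Algebra L F] {n : ℕ}

private theorem mp_CC (c : L) : mp L F (C (C c)) = C (C (algebraMap L F c)) := by
  unfold mp
  rw [coe_mapRingHom, Polynomial.map_C, coe_mapRingHom, Polynomial.map_C]

theorem mp_ub (u : Fin 3 → Fin (n + 1) → ℕ) (B : Fin (n + 1) → L[X][X]) (i : Fin 3) :
    mp L F (ub u B i) = ub u (fun j => mp L F (B j)) i := by
  unfold ub
  rw [map_sum]
  refine Finset.sum_congr rfl fun j _ => ?_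
  rw [map_mul, mp_CC, map_natCast]

theorem mp_aeval (U : Fin 3 → L[X][X]) (P : MvPolynomial (Fin 3) L) :
    mp L F (MvPolynomial.aeval U P) =
      MvPolynomial.aeval (fun i => mp L F (U i)) (MvPolynomial.map (algebraMap L F) P) := by
  induction P using MvPolynomial.induction_on with
  | C a =>
    rw [MvPolynomial.map_C, MvPolynomial.aeval_C, MvPolynomial.aeval_C]
    exact mp_CC a
  | add p q hp hq => simp only [map_add, hp, hq]
  | mul_X p i hp => simp only [map_mul, hp, MvPolynomial.aeval_X, MvPolynomial.map_X]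

theorem mp_deh (P : MvPolynomial (Fin 3) L) :
    mp L F (deh P) = deh (MvPolynomial.map (algebraMap L F) P) := by
  unfold deh
  rw [mp_aeval]
  congr 2
  funext i
  unfold mp
  fin_cases i <;> simp

theorem mp_derivative (P : L[X][X]) : mp L F (derivative P) = derivative (mp L F P) := by
  unfold mp
  rw [coe_mapRingHom, derivative_map]

/-- the derivative of the dehomogenisation -/
theorem deh_pderiv (P : MvPolynomial (Fin 3) L) :
    deh (MvPolynomial.pderiv 2 P) = derivative (deh P) := by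
  induction P using MvPolynomial.induction_on with
  | C a =>
    have h : deh (MvPolynomial.C a) = (C (C a) : L[X][X]) := by
      unfold deh
      rw [MvPolynomial.aeval_C]
      rfl
    rw [MvPolynomial.pderiv_C, h, derivative_C]
    unfold deh
    rw [map_zero]
  | add p q hp hq =>
    unfold deh at hp hq ⊢
    simp only [map_add, hp, hq]
  | mul_X p i hp =>
    unfold deh at hp ⊢
    rw [MvPolynomial.pderiv_mul, map_add, map_mul, map_mul, map_mul, hp, derivative_mul]
    congr 1
    rw [MvPolynomial.aeval_X]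
    congr 1
    fin_cases i
    · simp [MvPolynomial.pderiv_X_of_ne]
    · have : MvPolynomial.pderiv 2 (MvPolynomial.X 1 : MvPolynomial (Fin 3) L) = 0 :=
        MvPolynomial.pderiv_X_of_ne (by decide)
      simp [this]
    · simp [MvPolynomial.pderiv_X_self]

theorem pderiv_hom {m : ℕ} {P : MvPolynomial (Fin 3) L} (hP : P.IsHomogeneous m) :
    (MvPolynomial.pderiv 2 P).IsHomogeneous (m - 1) :=
  hP.pderiv

private theorem support_sub {m : ℕ} {P : MvPolynomial (Fin 3) L} (hP : P.IsHomogeneous m) :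
    P.support ⊆ expo (Fin 3) m := by
  intro I hI
  rw [mem_expo]
  have h1 := hP (MvPolynomial.mem_support_iff.1 hI)
  rw [← h1, Finsupp.degree_eq_weight_one]
  rfl

/-- the value of a form at polynomials, as a sum over the monomials -/
theorem aeval_eq_sum {m : ℕ} {P : MvPolynomial (Fin 3) L} (hP : P.IsHomogeneous m)
    (U : Fin 3 → L[X][X]) : MvPolynomial.aeval U P =
      ∑ I ∈ expo (Fin 3) m, C (C (P.coeff I)) * ∏ i, U i ^ I i := by
  rw [MvPolynomial.aeval_def, MvPolynomial.eval₂_eq']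
  refine (Finset.sum_subset (support_sub hP) fun I _ hI => ?_)
  rw [MvPolynomial.notMem_support_iff.1 hI, map_zero, zero_mul]

private theorem bx_add {b : ℕ} {A B : L[X][X]} (hA : Box b A)
    (hB : Box b B) : Box b (A + B) := by
  refine ⟨natDegree_add_le_of_degree_le hA.1 hB.1, fun i => ?_⟩
  rw [coeff_add]
  exact natDegree_add_le_of_degree_le (hA.2 i) (hB.2 i)

private theorem bx_CC (a : L) : Box 0 (C (C a) : L[X][X]) := by
  refine ⟨by simp, fun i => ?_⟩
  rw [coeff_C]
  split_ifs <;> simp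

private theorem bx_mul {b c : ℕ} {A B : L[X][X]} (hA : Box b A)
    (hB : Box c B) : Box (b + c) (A * B) := by
  refine ⟨natDegree_mul_le.trans (add_le_add hA.1 hB.1), fun i => ?_⟩
  rw [coeff_mul]
  refine natDegree_sum_le_of_forall_le _ _ fun x _ => ?_
  exact natDegree_mul_le.trans (add_le_add (hA.2 _) (hB.2 _))

private theorem bx_one : Box 0 (1 : L[X][X]) := by
  have := bx_CC (1 : L)
  simpa using this

private theorem bx_pow {b : ℕ} {A : L[X][X]} (hA : Box b A) (k : ℕ) :
    Box (k * b) (A ^ k) := by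
  induction k with
  | zero => rw [pow_zero, zero_mul]; exact bx_one
  | succ k ih => rw [pow_succ, add_mul, one_mul]; exact bx_mul ih hA

private theorem bx_prod {ι : Type*} (s : Finset ι) {b : ι → ℕ} {A : ι → L[X][X]}
    (hA : ∀ i, Box (b i) (A i)) : Box (∑ i ∈ s, b i) (∏ i ∈ s, A i) := by
  classical
  induction s using Finset.induction_on with
  | empty => rw [Finset.sum_empty, Finset.prod_empty]; exact bx_one
  | insert i s hi ih =>
    rw [Finset.sum_insert hi, Finset.prod_insert hi]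
    exact bx_mul (hA i) ih

private theorem bx_sum {ι : Type*} (s : Finset ι) {b : ℕ} {A : ι → L[X][X]}
    (hA : ∀ i ∈ s, Box b (A i)) : Box b (∑ i ∈ s, A i) := by
  classical
  induction s using Finset.induction_on with
  | empty => rw [Finset.sum_empty]; exact ⟨by simp, fun i => by simp⟩
  | insert i s hi ih =>
    rw [Finset.sum_insert hi]
    exact bx_add (hA i (Finset.mem_insert_self _ _))
      (ih fun j hj => hA j (Finset.mem_insert_of_mem hj))

theorem box_ub {b : ℕ} {B : Fin (n + 1) → L[X][X]} (hB : ∀ j, Box b (B j))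
    (u : Fin 3 → Fin (n + 1) → ℕ) (i : Fin 3) : Box b (ub u B i) := by
  unfold ub
  refine bx_sum _ fun j _ => ?_
  have := bx_mul (bx_CC (u i j : L)) (hB j)
  rwa [zero_add] at this

theorem box_aeval {b m : ℕ} {U : Fin 3 → L[X][X]} (hU : ∀ i, Box b (U i))
    {P : MvPolynomial (Fin 3) L} (hP : P.IsHomogeneous m) :
    Box (m * b) (MvPolynomial.aeval U P) := by
  rw [aeval_eq_sum hP]
  refine bx_sum _ fun I hI => ?_
  have h1 : Box (∑ j, I j * b) (∏ j, U j ^ I j) := bx_prod _ fun j => bx_pow (hU j) (I j)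
  have h2 : ∑ j, I j * b = m * b := by
    rw [← Finset.sum_mul]
    congr 1
    rw [← Finsupp.degree_eq_sum]; exact (mem_expo).1 hI
  rw [h2] at h1
  have h3 := bx_mul (bx_CC (P.coeff I)) h1
  rwa [zero_add] at h3

variable (v : Valuation L ℤᵐ⁰)

private theorem v_nat (k : ℕ) : v (k : L) ≤ 1 := by
  induction k with
  | zero => rw [Nat.cast_zero, map_zero]; exact zero_le
  | succ k ih =>
    rw [Nat.cast_succ]
    exact v.map_add_le ih (by rw [map_one])

theorem gg_ub_le {B : Fin (n + 1) → L[X][X]} {γ : ℤᵐ⁰} (hB : ∀ j, gg v (B j) ≤ γ)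
    (u : Fin 3 → Fin (n + 1) → ℕ) (i : Fin 3) : gg v (ub u B i) ≤ γ := by
  -- natural numbers have absolute value at most `1`
  unfold ub
  refine Valuation.map_sum_le _ fun j _ => ?_
  rw [map_mul, gg_CC]
  calc v (u i j : L) * gg v (B j) ≤ 1 * γ := mul_le_mul' (v_nat v _) (hB j)
    _ = γ := one_mul γ

theorem gg_prod_le {m : ℕ} {U : Fin 3 → L[X][X]} {γ : ℤᵐ⁰} (hU : ∀ i, gg v (U i) ≤ γ)
    {I : Fin 3 →₀ ℕ} (hI : I ∈ expo (Fin 3) m) : gg v (∏ i, U i ^ I i) ≤ γ ^ m := by
  rw [map_prod]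
  have h2 : ∑ j, I j = m := by
    rw [← Finsupp.degree_eq_sum]; exact (mem_expo).1 hI
  rw [← h2, ← Finset.prod_pow_eq_pow_sum]
  refine Finset.prod_le_prod' fun i _ => ?_
  rw [map_pow]
  exact pow_le_pow_left' (hU i) _

theorem gg_aeval_le {m : ℕ} {U : Fin 3 → L[X][X]} {γ c : ℤᵐ⁰} (hU : ∀ i, gg v (U i) ≤ γ)
    {P : MvPolynomial (Fin 3) L} (hP : P.IsHomogeneous m) (hc : ∀ I, v (P.coeff I) ≤ c) :
    gg v (MvPolynomial.aeval U P) ≤ c * γ ^ m := by
  rw [aeval_eq_sum hP]
  refine Valuation.map_sum_le _ fun I hI => ?_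
  rw [map_mul, gg_CC]
  exact mul_le_mul' (hc I) (gg_prod_le v hU hI)

theorem pderiv_coeff_le {P : MvPolynomial (Fin 3) L} {c : ℤᵐ⁰} (hc : ∀ I, v (P.coeff I) ≤ c)
    (I : Fin 3 →₀ ℕ) : v ((MvPolynomial.pderiv 2 P).coeff I) ≤ c := by
  -- the coefficient is a natural number times a coefficient of `P`
  rw [MvPolynomial.coeff_pderiv, map_mul]
  have h1 : v ((I 2 : L) + 1) ≤ 1 := by
    have := v_nat v (I 2 + 1)
    rwa [Nat.cast_succ] at this
  calc v (P.coeff (I + Finsupp.single 2 1)) * v ((I 2 : L) + 1) ≤ c * 1 :=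
        mul_le_mul' (hc _) h1
    _ = c := mul_one c

/-- the value of a form at a point -/
theorem eval_le {m : ℕ} {P : MvPolynomial (Fin 3) L} {c γ : ℤᵐ⁰} (hP : P.IsHomogeneous m)
    (hc : ∀ I, v (P.coeff I) ≤ c) {x : Fin 3 → L} (hx : ∀ i, v (x i) ≤ γ) :
    v (MvPolynomial.eval x P) ≤ c * γ ^ m := by
  rw [MvPolynomial.eval_eq']
  refine Valuation.map_sum_le _ fun I hI => ?_
  rw [map_mul]
  refine mul_le_mul' (hc I) ?_
  rw [map_prod]
  have h2 : ∑ j, I j = m := by
    rw [← Finsupp.degree_eq_sum]; exact (mem_expo).1 (support_sub hP hI)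
  rw [← h2, ← Finset.prod_pow_eq_pow_sum]
  refine Finset.prod_le_prod' fun i _ => ?_
  rw [map_pow]
  exact pow_le_pow_left' (hx i) _

end

end Pool.Agent.Lib.MP_44a246_ntPC
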