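import Mathlib
import Pool.Agent.Lib.MP_44a246_ntS.SD1
import Pool.Agent.Lib.MP_44a246_ntS.SJ5
import Pool.Agent.Lib.MP_44a246_ntPC.L1b
import Pool.Agent.Lib.MP_44a246_ntPC.L2
import Pool.Agent.Lib.MP_44a246_ntPC.L3a

/-!
The projection of a curve over `L` to the plane: the equation is defined over `L`, with a bound for
its coefficients.
-/

namespace Pool.Agent.Lib.MP_44a246_ntPC

open Pool.Agent.Lib.MP_e52354_nt
open Pool.Agent.Lib.MP_44a246_nt
open Pool.Agent.Lib.MP_44a246_ntL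
open Pool.Agent.Lib.MP_44a246_ntS
open Pool.Agent.Lib.MP_44a246_ntE
open WithZero Polynomial

/-- the constant of the bounds -/
def cK (b m : ℕ) : ℕ := ((m + 1) * (m + 2) + ((m + 1) * b + 1) ^ 2) * (m + 1)

/-- the coefficients of the polynomial with given coefficients in a box -/
private theorem boxSum_coeff {K : Type*} [Field K] {N : ℕ}
    (t : Fin (N + 1) × Fin (N + 1) → K) (i j : ℕ) :
    ((∑ p : Fin (N + 1) × Fin (N + 1), C (C (t p)) * (C X ^ (p.2 : ℕ) * X ^ (p.1 : ℕ)) :
      K[X][X]).coeff i).coeff j =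
      if h : i < N + 1 ∧ j < N + 1 then t (⟨i, h.1⟩, ⟨j, h.2⟩) else 0 := by
  have h1 : ∀ p : Fin (N + 1) × Fin (N + 1),
      ((C (C (t p)) * (C X ^ (p.2 : ℕ) * X ^ (p.1 : ℕ)) : K[X][X]).coeff i).coeff j =
        if (p.1 : ℕ) = i ∧ (p.2 : ℕ) = j then t p else 0 := by
    intro p
    have h2 : (C (C (t p)) * (C X ^ (p.2 : ℕ) * X ^ (p.1 : ℕ)) : K[X][X]) =
        C (C (t p) * X ^ (p.2 : ℕ)) * X ^ (p.1 : ℕ) := by
      rw [C_mul, C_pow]
      ring
    rw [h2, coeff_C_mul_X_pow]
    by_cases h3 : i = (p.1 : ℕ)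
    · rw [if_pos h3, coeff_C_mul_X_pow]
      by_cases h4 : j = (p.2 : ℕ)
      · rw [if_pos h4, if_pos ⟨h3.symm, h4.symm⟩]
      · rw [if_neg h4, if_neg fun h5 => h4 h5.2.symm]
    · rw [if_neg h3, coeff_zero, if_neg fun h5 => h3 h5.1.symm]
  rw [finsetSum_coeff, finsetSum_coeff, Finset.sum_congr rfl fun p _ => h1 p]
  split_ifs with h
  · rw [Finset.sum_eq_single (⟨i, h.1⟩, ⟨j, h.2⟩)]
    · rw [if_pos ⟨rfl, rfl⟩]
    · intro p _ hp
      rw [if_neg]
      rintro ⟨h5, h6⟩
      exact hp (Prod.ext (Fin.ext h5) (Fin.ext h6))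
    · intro h5
      exact absurd (Finset.mem_univ _) h5
  · refine Finset.sum_eq_zero fun p _ => ?_
    rw [if_neg]
    rintro ⟨h5, h6⟩
    exact h ⟨h5 ▸ p.1.2, h6 ▸ p.2.2⟩

/-- a polynomial in a box is the sum of its monomials -/
private theorem boxSum_eq {K : Type*} [Field K] {N : ℕ} {T : K[X][X]} (hT : Box N T) :
    (∑ p : Fin (N + 1) × Fin (N + 1),
      C (C ((T.coeff (p.1 : ℕ)).coeff (p.2 : ℕ))) * (C X ^ (p.2 : ℕ) * X ^ (p.1 : ℕ)) :
        K[X][X]) = T := by
  ext i j
  rw [boxSum_coeff (fun p : Fin (N + 1) × Fin (N + 1) => (T.coeff (p.1 : ℕ)).coeff (p.2 : ℕ))]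
  split_ifs with h
  · rfl
  · by_cases h1 : i < N + 1
    · have h2 : N < j := by
        by_contra h3
        exact h ⟨h1, by omega⟩
      exact (coeff_eq_zero_of_natDegree_lt (lt_of_le_of_lt (hT.2 i) h2)).symm
    · rw [coeff_eq_zero_of_natDegree_lt (lt_of_le_of_lt hT.1 (by omega)), coeff_zero]

variable {L F : Type*} [Field L] [Field F] [Algebra L F] [IsAlgClosed F] {n b m : ℕ}
  {A : L[X][X]} {B : Fin (n + 1) → L[X][X]} {u : Fin 3 → Fin (n + 1) → ℕ}
  {P : MvPolynomial (Fin 3) F} {Q : Fin (n + 1) → MvPolynomial (Fin 3) F}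

/-- the family of the polynomials: the monomials in the linear forms, the multiples of `A` -/
private noncomputable def fam (b m : ℕ) (U : Fin 3 → L[X][X]) (A : L[X][X]) :
    ↥(expo (Fin 3) m) ⊕ Fin (m * b + 1) × Fin (m * b + 1) → L[X][X] :=
  Sum.elim (fun I => ∏ i, U i ^ (I : Fin 3 →₀ ℕ) i)
    (fun p => C X ^ (p.2 : ℕ) * X ^ (p.1 : ℕ) * A)

omit [IsAlgClosed F] in
private theorem coeff_form (y : ↥(expo (Fin 3) m) → L) (J : Fin 3 →₀ ℕ) :
    (∑ I : ↥(expo (Fin 3) m), MvPolynomial.monomial (I : Fin 3 →₀ ℕ) (y I) : MvPolynomial (Fin 3) L).coeff J =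
      if h : J ∈ expo (Fin 3) m then y ⟨J, h⟩ else 0 := by
  rw [MvPolynomial.coeff_sum]
  simp only [MvPolynomial.coeff_monomial]
  split_ifs with h
  · rw [Finset.sum_eq_single ⟨J, h⟩]
    · rw [if_pos rfl]
    · intro I _ hI
      rw [if_neg fun h1 => hI (Subtype.ext h1)]
    · intro h1
      exact absurd (Finset.mem_univ _) h1
  · refine Finset.sum_eq_zero fun I _ => ?_
    rw [if_neg fun h1 => h (by rw [← h1]; exact I.2)]

private theorem form_hom (y : ↥(expo (Fin 3) m) → L) :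
    (∑ I : ↥(expo (Fin 3) m), MvPolynomial.monomial (I : Fin 3 →₀ ℕ) (y I) :
      MvPolynomial (Fin 3) L).IsHomogeneous m := by
  refine MvPolynomial.IsHomogeneous.sum _ _ _ fun I _ => ?_
  exact MvPolynomial.isHomogeneous_monomial _ (mem_expo.1 I.2)

private theorem aeval_form (y : ↥(expo (Fin 3) m) → L) (U : Fin 3 → L[X][X]) :
    MvPolynomial.aeval U (∑ I : ↥(expo (Fin 3) m), MvPolynomial.monomial (I : Fin 3 →₀ ℕ) (y I) :
      MvPolynomial (Fin 3) L) =
      ∑ I : ↥(expo (Fin 3) m), C (C (y I)) * ∏ i, U i ^ (I : Fin 3 →₀ ℕ) i := by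
  rw [aeval_eq_sum (form_hom y), ← Finset.sum_coe_sort]
  refine Finset.sum_congr rfl fun I _ => ?_
  rw [coeff_form, dif_pos I.2]

/-- **The equation over `L`.** -/
theorem exists_descentP (hAb : Box b A) (hBb : ∀ j, Box b (B j))
    (hN : Nondeg (mp L F A) (fun j => mp L F (B j)))
    (hP : ProjId (mp L F A) (fun j => mp L F (B j)) u m P Q) :
    ∃ (ω : L) (Ph : MvPolynomial (Fin 3) L), ω ≠ 0 ∧ Ph.IsHomogeneous m ∧
      MvPolynomial.map (algebraMap L F) Ph = MvPolynomial.C (algebraMap L F ω) * P ∧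
      ∀ (v : Valuation L ℤᵐ⁰) (τ : ℕ), gg v A ≤ exp (τ : ℤ) →
        (∀ j, gg v (B j) ≤ exp (τ : ℤ)) → ∀ I, v (Ph.coeff I) ≤ exp ((cK b m * τ : ℕ) : ℤ) := by
  -- `ker_poly` for the family indexed by `↥(expo (Fin 3) m) ⊕ Fin (m * b + 1) × Fin (m * b + 1)`:
  -- `G (inl I) = ∏ i, U i ^ I i`, `G (inr (s, t)) = C X ^ t * X ^ s * A`, `U = ub u B`. A nonzero
  -- relation over `F`: `aeval U P = A * T` with `Box (m * b) T` (`box_aeval`, `Box.of_dvd`, or
  -- `T = 0`), coefficients `P.coeff I` and `- T_{s t}` (`aeval_eq_sum`); it is nonzero because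
  -- `P.coeff (single 2 m) = 1`. The relation over `L` gives a form `Ph` (sum of monomials) with
  -- `A ∣ aeval U Ph`, `Ph ≠ 0` (otherwise all `T_{s t} * A` add up to `0`, so `T = 0`). Over `F`
  -- (`mp_aeval`, `mp_ub`) `ProjId.uniqP` gives `map Ph = C c * P` with
  -- `c = algebraMap L F (Ph.coeff (single 2 m))`; `ω := Ph.coeff (single 2 m)`, not `0` because
  -- `Ph ≠ 0` and `map` is injective. Size: all `G` have size at most `exp ((m + 1) * τ)`, the
  -- number of the indices is at most `(m + 1) * (m + 2) + (m * b + 1) ^ 2` (the number of the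
  -- exponents of degree `m` in three variables is `(m + 1) * (m + 2) / 2`; there is a lemma in
  -- MP_44a246_ntS or use any bound which fits).
  have hA0 : A ≠ 0 := by
    rintro rfl
    exact hN.irr.ne_zero (map_zero _)
  -- the relation over `F`
  have hub : (fun i => mp L F (ub u B i)) = ub u (fun j => mp L F (B j)) := funext (mp_ub u B)
  obtain ⟨T, hT⟩ := hP.dvd
  have hTb : Box (m * b) T := by
    by_cases hT0 : T = 0
    · rw [hT0]
      exact ⟨by simp, fun i => by simp⟩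
    · have h1 : ∀ j, Box b (mp L F (B j)) := by
        intro j
        unfold mp
        refine ⟨?_, fun i => ?_⟩
        · exact (natDegree_map_le).trans (hBb j).1
        · rw [coe_mapRingHom, coeff_map, coe_mapRingHom]
          exact (natDegree_map_le).trans ((hBb j).2 i)
      have h2 := box_aeval (box_ub h1 u) hP.hom
      rw [hT] at h2
      exact h2.of_dvd (mul_ne_zero hN.irr.ne_zero hT0) (dvd_mul_left _ _)
  let z₀ : ↥(expo (Fin 3) m) ⊕ Fin (m * b + 1) × Fin (m * b + 1) → F :=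
    Sum.elim (fun I => P.coeff (I : Fin 3 →₀ ℕ))
      (fun p => - (T.coeff (p.1 : ℕ)).coeff (p.2 : ℕ))
  have hmem : Finsupp.single 2 m ∈ expo (Fin 3) m := by
    rw [mem_expo, Finsupp.degree_single]
  have hz₀ : z₀ ≠ 0 := by
    intro h
    have h1 : P.coeff (Finsupp.single 2 m) = 0 := congrFun h (Sum.inl ⟨_, hmem⟩)
    rw [hP.monic] at h1
    exact one_ne_zero h1
  have h0 : ∑ i, C (C (z₀ i)) * mp L F (fam b m (ub u B) A i) = 0 := by
    rw [Fintype.sum_sum_type]
    have h1 : ∑ I : ↥(expo (Fin 3) m), C (C (z₀ (Sum.inl I))) *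
        mp L F (fam b m (ub u B) A (Sum.inl I)) = mp L F A * T := by
      rw [← hT, aeval_eq_sum hP.hom, ← Finset.sum_coe_sort (expo (Fin 3) m), ← hub]
      refine Finset.sum_congr rfl fun I _ => ?_
      simp only [z₀, fam, Sum.elim_inl, map_prod, map_pow]
    have h2 : ∑ p : Fin (m * b + 1) × Fin (m * b + 1), C (C (z₀ (Sum.inr p))) *
        mp L F (fam b m (ub u B) A (Sum.inr p)) = - (mp L F A * T) := by
      conv_rhs => rw [← boxSum_eq hTb]
      rw [Finset.mul_sum, ← Finset.sum_neg_distrib]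
      refine Finset.sum_congr rfl fun p _ => ?_
      have h3 : mp L F X = X := by
        unfold mp
        rw [coe_mapRingHom, map_X]
      have h4 : mp L F (C X) = C X := by
        unfold mp
        rw [coe_mapRingHom, map_C, coe_mapRingHom, map_X]
      simp only [z₀, fam, Sum.elim_inr, map_mul, map_pow, h3, h4, C_neg]
      ring
    rw [h1, h2]
    ring
  obtain ⟨z, hz, hz0, hzb⟩ := ker_poly (fam b m (ub u B) A) hz₀ h0
  set Ph : MvPolynomial (Fin 3) L :=
    ∑ I : ↥(expo (Fin 3) m), MvPolynomial.monomial (I : Fin 3 →₀ ℕ) (z (Sum.inl I)) with hPh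
  have hPhh : Ph.IsHomogeneous m := form_hom fun I => z (Sum.inl I)
  have hPhc : ∀ J, Ph.coeff J = if h : J ∈ expo (Fin 3) m then z (Sum.inl ⟨J, h⟩) else 0 :=
    coeff_form fun I => z (Sum.inl I)
  set T' : L[X][X] := ∑ p : Fin (m * b + 1) × Fin (m * b + 1),
    C (C (z (Sum.inr p))) * (C X ^ (p.2 : ℕ) * X ^ (p.1 : ℕ)) with hT'
  have hrel : MvPolynomial.aeval (ub u B) Ph + T' * A = 0 := by
    have h1 : ∑ p : Fin (m * b + 1) × Fin (m * b + 1), C (C (z (Sum.inr p))) *
        fam b m (ub u B) A (Sum.inr p) = T' * A := by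
      rw [hT', Finset.sum_mul]
      refine Finset.sum_congr rfl fun p _ => ?_
      rw [mul_assoc]
      rfl
    rw [hPh, aeval_form (fun I => z (Sum.inl I)), ← h1, ← hz0, Fintype.sum_sum_type]
    rfl
  have hPh0 : Ph ≠ 0 := by
    intro h
    rw [h, map_zero, zero_add] at hrel
    have hT0 : T' = 0 := (mul_eq_zero.1 hrel).resolve_right hA0
    apply hz
    funext i
    rcases i with I | p
    · have h1 := hPhc (I : Fin 3 →₀ ℕ)
      rw [h, MvPolynomial.coeff_zero, dif_pos I.2] at h1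
      exact h1.symm
    · have h1 := boxSum_coeff (fun p => z (Sum.inr p)) (p.1 : ℕ) (p.2 : ℕ)
      rw [← hT', hT0, coeff_zero, coeff_zero, dif_pos ⟨p.1.2, p.2.2⟩] at h1
      exact h1.symm
  have hdvd : mp L F A ∣ MvPolynomial.aeval (ub u (fun j => mp L F (B j)))
      (MvPolynomial.map (algebraMap L F) Ph) := by
    rw [← hub, ← mp_aeval]
    refine _root_.map_dvd (mp L F) ⟨- T', ?_⟩
    linear_combination hrel
  have hmaph : (MvPolynomial.map (algebraMap L F) Ph).IsHomogeneous m := hPhh.map _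
  have huniq := hP.uniqP hN hmaph hdvd
  rw [MvPolynomial.coeff_map] at huniq
  refine ⟨Ph.coeff (Finsupp.single 2 m), Ph, ?_, hPhh, huniq, ?_⟩
  · intro h
    rw [h, map_zero, map_zero, zero_mul] at huniq
    apply hPh0
    apply MvPolynomial.map_injective (algebraMap L F) (algebraMap L F).injective
    rw [huniq, map_zero]
  · intro v τ hA hB J
    have hG : ∀ i, gg v (fam b m (ub u B) A i) ≤ exp (((m + 1) * τ : ℕ) : ℤ) := by
      rintro (I | p)
      · refine (gg_prod_le v (fun i => gg_ub_le v hB u i) I.2).trans ?_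
        rw [← exp_nsmul, exp_le_exp]
        push_cast
        rw [nsmul_eq_mul]
        nlinarith [Int.natCast_nonneg τ]
      · have h1 : gg v (C X : L[X][X]) = 1 := gg_CX v
        have h2 : gg v (X : L[X][X]) = 1 := gn_X (gv v)
        have h3 : gg v (fam b m (ub u B) A (Sum.inr p)) = gg v A := by
          simp only [fam, Sum.elim_inr, map_mul, map_pow, h1, h2, one_pow, one_mul]
        rw [h3]
        refine hA.trans ?_
        rw [exp_le_exp]
        push_cast
        nlinarith [Int.natCast_nonneg τ, mul_nonneg (Int.natCast_nonneg m) (Int.natCast_nonneg τ)]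
    rw [hPhc J]
    split_ifs with h
    · refine (hzb v _ hG _).trans ?_
      rw [exp_le_exp, Nat.cast_le, Fintype.card_sum, Fintype.card_prod, Fintype.card_fin]
      have h1 : Fintype.card ↥(expo (Fin 3) m) = (m + 1) * (m + 2) / 2 := card_M3 m
      rw [h1]
      unfold cK
      have h2 : (m + 1) * (m + 2) / 2 ≤ (m + 1) * (m + 2) := Nat.div_le_self _ _
      have h3 : (m * b + 1) * (m * b + 1) ≤ ((m + 1) * b + 1) ^ 2 := by
        rw [sq]
        have : m * b + 1 ≤ (m + 1) * b + 1 := by nlinarith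
        exact Nat.mul_le_mul this this
      calc ((m + 1) * (m + 2) / 2 + (m * b + 1) * (m * b + 1)) * ((m + 1) * τ)
          ≤ ((m + 1) * (m + 2) + ((m + 1) * b + 1) ^ 2) * ((m + 1) * τ) :=
            Nat.mul_le_mul (Nat.add_le_add h2 h3) le_rfl
        _ = ((m + 1) * (m + 2) + ((m + 1) * b + 1) ^ 2) * (m + 1) * τ := by ring
    · rw [map_zero]
      exact zero_le

end Pool.Agent.Lib.MP_44a246_ntPC
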