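import Mathlib
import Pool.Agent.Lib.MP_44a246_ntPC.L3b

/-!
The projection of a curve over `L` to the plane: the inverse map is defined over `L`, with a bound
for its coefficients.
-/

namespace Pool.Agent.Lib.MP_44a246_ntPC

open Pool.Agent.Lib.MP_e52354_nt
open Pool.Agent.Lib.MP_44a246_nt
open Pool.Agent.Lib.MP_44a246_ntL
open Pool.Agent.Lib.MP_44a246_ntS
open Pool.Agent.Lib.MP_44a246_ntE
open WithZero Polynomial

section Aux

variable {M : Type*} [Field M]

/-- the exponents of degree `m` except for `X 2 ^ m` -/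
private noncomputable abbrev l3S (m : ℕ) : Finset (Fin 3 →₀ ℕ) :=
  (expo (Fin 3) m).erase (Finsupp.single 2 m)

/-- the index set of the family -/
private noncomputable abbrev l3I (m K : ℕ) : Type := ↥(l3S m) ⊕ Fin (K + 1) × Fin (K + 1)

/-- the family -/
private noncomputable def l3G (m K : ℕ) (U : Fin 3 → M[X][X]) (A : M[X][X]) :
    l3I m K → M[X][X] :=
  Sum.elim (fun I => ∏ i, U i ^ (I : Fin 3 →₀ ℕ) i)
    (fun st => C X ^ (st.2 : ℕ) * X ^ (st.1 : ℕ) * A)

/-- the form of a relation -/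
private noncomputable def l3Q {m K : ℕ} (z : l3I m K → M) : MvPolynomial (Fin 3) M :=
  ∑ I : ↥(l3S m), MvPolynomial.monomial (I : Fin 3 →₀ ℕ) (z (.inl I))

/-- the cofactor of a relation -/
private noncomputable def l3T {m K : ℕ} (z : l3I m K → M) : M[X][X] :=
  ∑ st : Fin (K + 1) × Fin (K + 1), C (C (z (.inr st))) * (C X ^ (st.2 : ℕ) * X ^ (st.1 : ℕ))

private theorem l3Q_coeff {m K : ℕ} (z : l3I m K → M) (I : ↥(l3S m)) :
    (l3Q z).coeff (I : Fin 3 →₀ ℕ) = z (.inl I) := by
  unfold l3Q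
  rw [MvPolynomial.coeff_sum]
  rw [Finset.sum_eq_single I]
  · rw [MvPolynomial.coeff_monomial, if_pos rfl]
  · intro J _ hJ
    rw [MvPolynomial.coeff_monomial, if_neg]
    intro h
    exact hJ (Subtype.ext h)
  · intro h
    exact absurd (Finset.mem_univ _) h

private theorem l3Q_coeff' {m K : ℕ} (z : l3I m K → M) {I : Fin 3 →₀ ℕ} (hI : I ∉ l3S m) :
    (l3Q z).coeff I = 0 := by
  unfold l3Q
  rw [MvPolynomial.coeff_sum]
  refine Finset.sum_eq_zero fun J _ => ?_
  rw [MvPolynomial.coeff_monomial, if_neg]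
  intro h
  exact hI (h ▸ J.2)

private theorem l3Q_hom {m K : ℕ} (z : l3I m K → M) : (l3Q z).IsHomogeneous m := by
  unfold l3Q
  refine MvPolynomial.IsHomogeneous.sum _ _ _ fun I _ => ?_
  exact MvPolynomial.isHomogeneous_monomial _ (mem_expo.1 (Finset.mem_of_mem_erase I.2))

private theorem l3Q_aeval {m K : ℕ} (z : l3I m K → M) (U : Fin 3 → M[X][X]) :
    MvPolynomial.aeval U (l3Q z) =
      ∑ I : ↥(l3S m), C (C (z (.inl I))) * ∏ i, U i ^ (I : Fin 3 →₀ ℕ) i := by
  unfold l3Q
  rw [map_sum]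
  refine Finset.sum_congr rfl fun I _ => ?_
  rw [MvPolynomial.aeval_monomial, Finsupp.prod_fintype _ _ fun i => pow_zero _]
  rfl

private theorem l3_sum {m K : ℕ} (z : l3I m K → M) (U : Fin 3 → M[X][X]) (A : M[X][X]) :
    ∑ i, C (C (z i)) * l3G m K U A i = MvPolynomial.aeval U (l3Q z) + l3T z * A := by
  rw [Fintype.sum_sum_type, l3Q_aeval]
  unfold l3T l3G
  rw [Finset.sum_mul]
  simp only [Sum.elim_inl, Sum.elim_inr, mul_assoc]

private theorem l3_mono (c : M) (s t : ℕ) :
    (C (C c) * (C X ^ t * X ^ s) : M[X][X]) = monomial s (monomial t c) := by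
  rw [← C_mul_X_pow_eq_monomial, ← C_mul_X_pow_eq_monomial, C_mul, C_pow, mul_assoc]

private theorem l3T_coeff {m K : ℕ} (z : l3I m K → M) (st : Fin (K + 1) × Fin (K + 1)) :
    ((l3T z).coeff (st.1 : ℕ)).coeff (st.2 : ℕ) = z (.inr st) := by
  unfold l3T
  rw [finsetSum_coeff, finsetSum_coeff, Finset.sum_eq_single st]
  · rw [l3_mono, coeff_monomial, if_pos rfl, coeff_monomial, if_pos rfl]
  · intro st' _ h
    rw [l3_mono, coeff_monomial]
    split_ifs with h1
    · rw [coeff_monomial, if_neg]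
      intro h2
      exact h (Prod.ext (Fin.ext h1) (Fin.ext h2))
    · rw [coeff_zero]
  · intro h
    exact absurd (Finset.mem_univ _) h

/-- a polynomial in a box as a sum of monomials -/
private theorem l3T_eq {K : ℕ} {T : M[X][X]} (hT : Box K T) (m : ℕ) {z : l3I m K → M}
    (hz : ∀ st : Fin (K + 1) × Fin (K + 1),
      z (.inr st) = (T.coeff (st.1 : ℕ)).coeff (st.2 : ℕ)) : l3T z = T := by
  refine Polynomial.ext fun s => Polynomial.ext fun t => ?_
  by_cases hs : s < K + 1
  · by_cases ht : t < K + 1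
    · have h1 := l3T_coeff z (⟨s, hs⟩, ⟨t, ht⟩)
      rw [hz] at h1
      exact h1
    · rw [(natDegree_le_iff_coeff_eq_zero.mp (hT.2 s)) t (by omega)]
      unfold l3T
      rw [finsetSum_coeff, finsetSum_coeff]
      refine Finset.sum_eq_zero fun st _ => ?_
      rw [l3_mono, coeff_monomial]
      split_ifs with h1
      · rw [coeff_monomial, if_neg]
        intro h2
        have := st.2.isLt
        omega
      · rw [coeff_zero]
  · rw [(natDegree_le_iff_coeff_eq_zero.mp hT.1) s (by omega), coeff_zero]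
    unfold l3T
    rw [finsetSum_coeff, finsetSum_coeff]
    refine Finset.sum_eq_zero fun st _ => ?_
    rw [l3_mono, coeff_monomial, if_neg, coeff_zero]
    intro h2
    have := st.1.isLt
    omega

private theorem l3_box_mul {b c : ℕ} {A B : M[X][X]} (hA : Box b A)
    (hB : Box c B) : Box (b + c) (A * B) := by
  refine ⟨natDegree_mul_le.trans (add_le_add hA.1 hB.1), fun i => ?_⟩
  rw [coeff_mul]
  refine natDegree_sum_le_of_forall_le _ _ fun x _ => ?_
  exact natDegree_mul_le.trans (add_le_add (hA.2 _) (hB.2 _))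

private theorem l3_box_mono {b c : ℕ} (h : b ≤ c) {A : M[X][X]} (hA : Box b A) :
    Box c A := ⟨hA.1.trans h, fun i => (hA.2 i).trans h⟩

private theorem l3_box_sub {b : ℕ} {A B : M[X][X]} (hA : Box b A)
    (hB : Box b B) : Box b (A - B) := by
  refine ⟨(natDegree_sub_le_of_le hA.1 hB.1).trans (le_of_eq (max_self _)), fun i => ?_⟩
  rw [coeff_sub]
  exact (natDegree_sub_le_of_le (hA.2 i) (hB.2 i)).trans (le_of_eq (max_self _))

private theorem l3_box_CC {b : ℕ} {A : M[X][X]} (hA : Box b A) (c : M) :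
    Box b (C (C c) * A) := by
  refine ⟨(natDegree_C_mul_le _ _).trans hA.1, fun i => ?_⟩
  rw [coeff_C_mul]
  exact (natDegree_C_mul_le _ _).trans (hA.2 i)

/-- the number of the exponents -/
private theorem l3_card (m : ℕ) : (expo (Fin 3) m).card ≤ (m + 1) * (m + 2) := by
  have h1 : (expo (Fin 3) m).card ≤ (Finset.range (m + 1) ×ˢ Finset.range (m + 1)).card := by
    refine Finset.card_le_card_of_injOn (fun I => (I 0, I 1)) ?_ ?_
    · intro I hI
      have h2 := mem_expo.1 (Finset.mem_coe.1 hI)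
      rw [Finsupp.degree_eq_sum, Fin.sum_univ_three] at h2
      simp only [Finset.coe_product, Finset.coe_range, Set.mem_prod, Set.mem_Iio]
      omega
    · intro I hI J hJ h
      have h2 := mem_expo.1 (Finset.mem_coe.1 hI)
      have h3 := mem_expo.1 (Finset.mem_coe.1 hJ)
      rw [Finsupp.degree_eq_sum, Fin.sum_univ_three] at h2 h3
      have h4 : I 0 = J 0 := congrArg Prod.fst h
      have h5 : I 1 = J 1 := congrArg Prod.snd h
      ext i
      fin_cases i
      · exact h4
      · exact h5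
      · show I 2 = J 2
        omega
  refine h1.trans ?_
  rw [Finset.card_product, Finset.card_range]
  exact Nat.mul_le_mul le_rfl (by omega)

private theorem l3_cardI (m K : ℕ) : Fintype.card (l3I m K) ≤
    (m + 1) * (m + 2) + (K + 1) ^ 2 := by
  rw [Fintype.card_sum, Fintype.card_coe, Fintype.card_prod, Fintype.card_fin, sq]
  exact Nat.add_le_add ((Finset.card_le_card (Finset.erase_subset _ _)).trans (l3_card m)) le_rfl

end Aux

variable {L F : Type*} [Field L] [Field F] [Algebra L F] [IsAlgClosed F] {n b m : ℕ}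
  {A : L[X][X]} {B : Fin (n + 1) → L[X][X]} {u : Fin 3 → Fin (n + 1) → ℕ}
  {P : MvPolynomial (Fin 3) F} {Q : Fin (n + 1) → MvPolynomial (Fin 3) F}

omit [IsAlgClosed F] in
private theorem l3_mpCC (c : L) : mp L F (C (C c)) = C (C (algebraMap L F c)) := by
  unfold mp
  rw [coe_mapRingHom, map_C, coe_mapRingHom, map_C]

omit [IsAlgClosed F] in
private theorem l3_mpG (m K : ℕ) (U : Fin 3 → L[X][X]) (A : L[X][X]) (i : l3I m K) :
    mp L F (l3G m K U A i) = l3G m K (fun i => mp L F (U i)) (mp L F A) i := by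
  have h1 : mp L F (C X) = C X := by
    unfold mp
    rw [coe_mapRingHom, map_C, coe_mapRingHom, map_X]
  have h2 : mp L F X = X := by
    unfold mp
    rw [coe_mapRingHom, map_X]
  unfold l3G
  rcases i with I | st
  · simp only [Sum.elim_inl, map_prod, map_pow]
  · simp only [Sum.elim_inr, map_mul, map_pow, h1, h2]

private theorem l3_ggX {L : Type*} [Field L] (v : Valuation L ℤᵐ⁰) : gg v (X : L[X][X]) ≤ 1 := by
  refine gg_le v fun i j => ?_
  rw [coeff_X]
  split_ifs
  · rw [coeff_one]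
    split_ifs
    · rw [map_one]
    · rw [map_zero]
      exact zero_le
  · rw [coeff_zero, map_zero]
    exact zero_le

private theorem l3_ggG {L : Type*} [Field L] (m K : ℕ) {U : Fin 3 → L[X][X]} {A : L[X][X]}
    (v : Valuation L ℤᵐ⁰) {τ : ℕ} (hU : ∀ i, gg v (U i) ≤ exp (τ : ℤ))
    (hA : gg v A ≤ exp (τ : ℤ)) (i : l3I m K) :
    gg v (l3G m K U A i) ≤ exp (((m + 1) * τ : ℕ) : ℤ) := by
  unfold l3G
  rcases i with I | st
  · rw [Sum.elim_inl]
    refine (gg_prod_le v hU (Finset.mem_of_mem_erase I.2)).trans ?_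
    rw [← exp_nsmul, nsmul_eq_mul, exp_le_exp]
    push_cast
    nlinarith [Int.natCast_nonneg τ]
  · rw [Sum.elim_inr, map_mul, map_mul, map_pow, map_pow, gg_CX, one_pow, one_mul]
    refine (mul_le_mul' (pow_le_one' (l3_ggX v) _) hA).trans ?_
    rw [one_mul, exp_le_exp]
    push_cast
    nlinarith [Int.natCast_nonneg τ, Int.natCast_nonneg m, mul_nonneg (Int.natCast_nonneg m)
      (Int.natCast_nonneg τ)]

/-- **The inverse map over `L`.** -/
theorem exists_descentQ (hAb : Box b A) (hBb : ∀ j, Box b (B j))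
    (hN : Nondeg (mp L F A) (fun j => mp L F (B j)))
    (hP : ProjId (mp L F A) (fun j => mp L F (B j)) u m P Q) {ω : L}
    {Ph : MvPolynomial (Fin 3) L} (hPh : Ph.IsHomogeneous m)
    (hω : MvPolynomial.map (algebraMap L F) Ph = MvPolynomial.C (algebraMap L F ω) * P) :
    ∃ Δ : L, Δ ≠ 0 ∧
      (∀ (v : Valuation L ℤᵐ⁰) (τ : ℕ), gg v A ≤ exp (τ : ℤ) → (∀ j, gg v (B j) ≤ exp (τ : ℤ)) →
        v Δ ≤ exp ((cK b m * τ : ℕ) : ℤ)) ∧
      ∀ j, ∃ Qh : MvPolynomial (Fin 3) L, Qh.IsHomogeneous m ∧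
        MvPolynomial.map (algebraMap L F) Qh =
          MvPolynomial.C (algebraMap L F (Δ * ω)) * Q j ∧
        ∀ (v : Valuation L ℤᵐ⁰) (τ ρ : ℕ), gg v A ≤ exp (τ : ℤ) →
          (∀ j, gg v (B j) ≤ exp (τ : ℤ)) → (∀ I, v (Ph.coeff I) ≤ exp (ρ : ℤ)) →
          ∀ I, v (Qh.coeff I) ≤ exp ((cK b m * τ + (m + 1) * τ + ρ : ℕ) : ℤ) := by
  -- `cramer_poly` for the family indexed by
  -- `↥((expo (Fin 3) m).erase (single 2 m)) ⊕ Fin (K + 1) × Fin (K + 1)`, `K = (m + 1) * b`:
  -- `G (inl I) = ∏ i, U i ^ I i`, `G (inr (s, t)) = C X ^ t * X ^ s * A`, `U = ub u B`, and the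
  -- right sides `y j = aeval U (pderiv 2 Ph) * B j` (box `(m + 1) * b`). The family is
  -- independent over `L`: a relation gives a form `Q'` without `X 2 ^ m` with `A ∣ aeval U Q'`, so
  -- `map Q' = 0` by `ProjId.uniqP`, `Q' = 0` and then `T * A = 0`. The solution over `F`: by
  -- `dvdQ` (multiplied with `ω`), `ω * (aeval U (Q j) - aeval U (pderiv 2 P) * B j) = A * T` over
  -- `F`, `Box K T`, so `z (inl I) = ω * (Q j).coeff I`, `z (inr (s, t)) = - T_{s t}`. The
  -- solution `z'` over `L` gives `Qh = ∑ z' (inl I) * monomial`. `gg v (y j) ≤ exp (ρ + m * τ)`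
  -- (`gg_aeval_le`, `pderiv_coeff_le`).
  obtain ⟨K, hK⟩ : ∃ K, K = (m + 1) * b := ⟨_, rfl⟩
  obtain ⟨U, hU⟩ : ∃ U : Fin 3 → L[X][X], U = ub u B := ⟨_, rfl⟩
  have hUF : (fun i => mp L F (U i)) = ub u (fun j => mp L F (B j)) := by
    funext i
    rw [hU, mp_ub]
  have hA0 : A ≠ 0 := by
    rintro rfl
    exact hN.irr.ne_zero (map_zero _)
  have hmap0 : ∀ R : MvPolynomial (Fin 3) L, MvPolynomial.map (algebraMap L F) R = 0 → R = 0 := by
    intro R hR
    exact (map_eq_zero_iff _ (MvPolynomial.map_injective _ (algebraMap L F).injective)).1 hR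
  have hind : ∀ z : l3I m K → L, ∑ i, C (C (z i)) * l3G m K U A i = 0 → z = 0 := by
    intro z hz
    rw [l3_sum] at hz
    have h1 : A ∣ MvPolynomial.aeval U (l3Q z) :=
      ⟨- l3T z, by rw [eq_neg_of_add_eq_zero_left hz]; ring⟩
    have h2 : mp L F A ∣ MvPolynomial.aeval (ub u (fun j => mp L F (B j)))
        (MvPolynomial.map (algebraMap L F) (l3Q z)) := by
      rw [← hUF, ← mp_aeval]
      exact _root_.map_dvd _ h1
    have h3 := hP.uniqP hN ((l3Q_hom z).map (algebraMap L F)) h2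
    rw [MvPolynomial.coeff_map, l3Q_coeff' z (Finset.notMem_erase _ _), map_zero, map_zero,
      zero_mul] at h3
    have h4 : l3Q z = 0 := hmap0 _ h3
    rw [h4, map_zero, zero_add] at hz
    have h5 : l3T z = 0 := (mul_eq_zero.1 hz).resolve_right hA0
    funext i
    rcases i with I | st
    · rw [← l3Q_coeff z I, h4, MvPolynomial.coeff_zero, Pi.zero_apply]
    · rw [← l3T_coeff z st, h5, coeff_zero, coeff_zero, Pi.zero_apply]
  obtain ⟨Δ, hΔ0, hΔ, hsol⟩ := cramer_poly (F := F) (l3G m K U A) hind K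
  have hcard : Fintype.card (l3I m K) * (m + 1) ≤ cK b m := by
    have h1 := l3_cardI m K
    rw [hK] at h1
    unfold cK
    rw [hK]
    exact Nat.mul_le_mul h1 le_rfl
  have hcardτ : ∀ τ : ℕ, Fintype.card (l3I m K) * ((m + 1) * τ) ≤ cK b m * τ := by
    intro τ
    rw [← mul_assoc]
    exact Nat.mul_le_mul hcard le_rfl
  have hgU : ∀ (v : Valuation L ℤᵐ⁰) (τ : ℕ), (∀ j, gg v (B j) ≤ exp (τ : ℤ)) →
      ∀ i, gg v (U i) ≤ exp (τ : ℤ) := by
    intro v τ h i
    rw [hU]
    exact gg_ub_le v h u i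
  refine ⟨Δ, hΔ0, ?_, ?_⟩
  · intro v τ hvA hvB
    refine (hΔ v ((m + 1) * τ) (fun i => l3_ggG m K v (hgU v τ hvB) hvA i)).trans ?_
    rw [exp_le_exp]
    exact_mod_cast hcardτ τ
  intro j
  -- the cofactor over `F`
  obtain ⟨T, hT⟩ := hP.dvdQ j
  have hbU : ∀ i, Box b (ub u (fun j => mp L F (B j)) i) := by
    intro i
    refine box_ub (fun j => ?_) u i
    refine ⟨(natDegree_map_le).trans (hBb j).1, fun i => ?_⟩
    show ((mp L F (B j)).coeff i).natDegree ≤ b
    unfold mp
    rw [coe_mapRingHom, coeff_map, coe_mapRingHom]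
    exact (natDegree_map_le).trans ((hBb j).2 i)
  have hbB : Box b (mp L F (B j)) := by
    refine ⟨(natDegree_map_le).trans (hBb j).1, fun i => ?_⟩
    unfold mp
    rw [coe_mapRingHom, coeff_map, coe_mapRingHom]
    exact (natDegree_map_le).trans ((hBb j).2 i)
  have hmb : (m - 1) * b + b ≤ K := by
    rw [hK]
    rcases m with _ | m
    · simp
    · rw [Nat.add_sub_cancel]
      nlinarith
  have hbT : Box K T := by
    have h1 : Box K (mp L F A * T) := by
      rw [← hT]
      refine l3_box_sub (l3_box_mono ?_ (box_aeval hbU (hP.homQ j)))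
        (l3_box_mono hmb (l3_box_mul (box_aeval hbU (pderiv_hom hP.hom)) hbB))
      rw [hK]
      exact Nat.mul_le_mul (Nat.le_succ _) le_rfl
    by_cases h0 : mp L F A * T = 0
    · have h2 : T = 0 := (mul_eq_zero.1 h0).resolve_left hN.irr.ne_zero
      rw [h2]
      exact ⟨by simp, fun i => by simp⟩
    · exact Box.of_dvd h1 h0 (dvd_mul_left _ _)
  obtain ⟨z, hz⟩ : ∃ z : l3I m K → F, z = Sum.elim
      (fun I : ↥(l3S m) => algebraMap L F ω * (Q j).coeff (I : Fin 3 →₀ ℕ))
      (fun st : Fin (K + 1) × Fin (K + 1) =>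
        (((- C (C (algebraMap L F ω)) * T).coeff (st.1 : ℕ)).coeff (st.2 : ℕ))) := ⟨_, rfl⟩
  have hzQ : l3Q z = MvPolynomial.C (algebraMap L F ω) * Q j := by
    ext I
    rw [MvPolynomial.coeff_C_mul]
    by_cases hI : I ∈ l3S m
    · rw [l3Q_coeff z ⟨I, hI⟩, hz, Sum.elim_inl]
    · rw [l3Q_coeff' z hI]
      have h1 : (Q j).coeff I = 0 := by
        by_cases hI2 : I = Finsupp.single 2 m
        · rw [hI2]
          exact hP.coeffQ j
        · refine (hP.homQ j).coeff_eq_zero fun h => hI ?_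
          exact Finset.mem_erase.2 ⟨hI2, mem_expo.2 h⟩
      rw [h1, mul_zero]
  have hzT : l3T z = - C (C (algebraMap L F ω)) * T := by
    refine l3T_eq ?_ m fun st => ?_
    · have h1 : (- C (C (algebraMap L F ω)) : F[X][X]) = C (C (-algebraMap L F ω)) := by
        rw [C_neg, C_neg]
      rw [h1]
      exact l3_box_CC hbT _
    · rw [hz, Sum.elim_inr]
  have hPd : MvPolynomial.map (algebraMap L F) (MvPolynomial.pderiv 2 Ph) =
      MvPolynomial.C (algebraMap L F ω) * MvPolynomial.pderiv 2 P := by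
    rw [← MvPolynomial.pderiv_map, hω, MvPolynomial.pderiv_C_mul]
  have hby : Box K (MvPolynomial.aeval U (MvPolynomial.pderiv 2 Ph) * B j) := by
    have h1 : ∀ i, Box b (U i) := by
      intro i
      rw [hU]
      exact box_ub hBb u i
    exact l3_box_mono hmb (l3_box_mul (box_aeval h1 (pderiv_hom hPh)) (hBb j))
  have hsum : ∑ i, C (C (z i)) * mp L F (l3G m K U A i) =
      mp L F (MvPolynomial.aeval U (MvPolynomial.pderiv 2 Ph) * B j) := by
    have h1 : ∑ i, C (C (z i)) * mp L F (l3G m K U A i) =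
        ∑ i, C (C (z i)) * l3G m K (fun i => mp L F (U i)) (mp L F A) i :=
      Finset.sum_congr rfl fun i _ => by rw [l3_mpG]
    rw [h1, l3_sum, hzQ, hzT, map_mul (mp L F), mp_aeval, hUF, hPd, map_mul, map_mul]
    have h2 : MvPolynomial.aeval (ub u (fun j => mp L F (B j)))
        (MvPolynomial.C (algebraMap L F ω)) = (C (C (algebraMap L F ω)) : F[X][X]) := by
      rw [MvPolynomial.aeval_C]
      rfl
    rw [h2]
    linear_combination C (C (algebraMap L F ω)) * hT
  obtain ⟨z', hz', hv'⟩ := hsol _ z hby hsum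
  refine ⟨l3Q z', l3Q_hom z', ?_, ?_⟩
  · ext I
    rw [MvPolynomial.coeff_map, map_mul, map_mul, mul_assoc, ← hzQ, MvPolynomial.coeff_C_mul]
    by_cases hI : I ∈ l3S m
    · rw [l3Q_coeff z' ⟨I, hI⟩, l3Q_coeff z ⟨I, hI⟩, hz']
    · rw [l3Q_coeff' z' hI, l3Q_coeff' z hI, map_zero, mul_zero]
  · intro v τ ρ hvA hvB hvP I
    by_cases hI : I ∈ l3S m
    · rw [l3Q_coeff z' ⟨I, hI⟩]
      have h1 : gg v (MvPolynomial.aeval U (MvPolynomial.pderiv 2 Ph) * B j) ≤
          exp (((m + 1) * τ + ρ : ℕ) : ℤ) := by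
        rw [map_mul]
        refine (mul_le_mul' (gg_aeval_le v (hgU v τ hvB) (pderiv_hom hPh)
          (pderiv_coeff_le v hvP)) (hvB j)).trans ?_
        rw [← exp_nsmul, nsmul_eq_mul, ← exp_add, ← exp_add, exp_le_exp]
        have h2 : (m - 1) * τ + τ ≤ (m + 1) * τ := by
          rcases m with _ | m
          · simp
          · rw [Nat.add_sub_cancel]
            nlinarith
        have h3 : (((m - 1) * τ + τ : ℕ) : ℤ) ≤ (((m + 1) * τ : ℕ) : ℤ) := by exact_mod_cast h2
        push_cast at h3 ⊢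
        linarith
      refine (hv' v ((m + 1) * τ) ((m + 1) * τ + ρ)
        (fun i => l3_ggG m K v (hgU v τ hvB) hvA i) h1 _).trans ?_
      rw [exp_le_exp]
      have h2 := hcardτ τ
      exact_mod_cast (by omega : Fintype.card (l3I m K) * ((m + 1) * τ) + ((m + 1) * τ + ρ) ≤
        cK b m * τ + (m + 1) * τ + ρ)
    · rw [l3Q_coeff' z' hI, map_zero]
      exact zero_le

end Pool.Agent.Lib.MP_44a246_ntPC
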