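import Mathlib
import Pool.Agent.Lib.MP_44a246_ntPC.L3c

/-!
The projection of a curve over `L` to the plane: equation and inverse map over `L`, with bounds.
-/

namespace Pool.Agent.Lib.MP_44a246_ntPC

open Pool.Agent.Lib.MP_e52354_nt
open Pool.Agent.Lib.MP_44a246_nt
open Pool.Agent.Lib.MP_44a246_ntL
open Pool.Agent.Lib.MP_44a246_ntS
open Pool.Agent.Lib.MP_44a246_ntE
open WithZero Polynomial

universe v

variable {L F : Type*} [Field L] [Field F] [Algebra L F] [IsAlgClosed F] {n b m : ℕ}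
  {A : L[X][X]} {B : Fin (n + 1) → L[X][X]} {u : Fin 3 → Fin (n + 1) → ℕ}
  {P : MvPolynomial (Fin 3) F} {Q : Fin (n + 1) → MvPolynomial (Fin 3) F}

/-- the constant of the bounds -/
def cP (b m : ℕ) : ℕ := 2 * cK b m + (m + 1)

section Aux

omit [IsAlgClosed F]

/-- divisibility does not change under the extension of the field -/
private theorem l3_dvd {A G : L[X][X]} : mp L F A ∣ mp L F G ↔ A ∣ G := by
  constructor
  · intro h
    obtain ⟨φ, hφ⟩ := LinearMap.exists_leftInverse_of_injective (Algebra.linearMap L F)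
      (LinearMap.ker_eq_bot.mpr (algebraMap L F).injective)
    have h1 : ∀ c, φ (algebraMap L F c) = c := fun c => LinearMap.congr_fun hφ c
    have h2 : fn φ (mp L F G) = G := by
      ext i j
      rw [fn_coeff, mp_coeff, h1]
    rw [← h2]
    exact dvd_fn φ h
  · intro h
    exact map_dvd (mp L F) h

private theorem l3_unit {a : L[X][X]} (h : IsUnit (mp L F a)) : IsUnit a := by
  obtain ⟨r, hr, hr'⟩ := Polynomial.isUnit_iff.mp h
  obtain ⟨c, hc, hc'⟩ := Polynomial.isUnit_iff.mp hr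
  have h1 : ∀ i j, algebraMap L F ((a.coeff i).coeff j) = ((C (C c) : F[X][X]).coeff i).coeff j := by
    intro i j
    rw [← mp_coeff, ← hr', ← hc']
  have h2 : a = C (C ((a.coeff 0).coeff 0)) := by
    ext i j
    apply (algebraMap L F).injective
    rw [h1]
    by_cases hi : i = 0
    · by_cases hj : j = 0
      · rw [hi, hj, coeff_C_zero, coeff_C_zero, coeff_C_zero, coeff_C_zero, h1, coeff_C_zero,
          coeff_C_zero]
      · rw [hi, coeff_C_zero, coeff_C_zero, coeff_C_of_ne_zero hj, coeff_C_of_ne_zero hj, map_zero]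
    · rw [coeff_C_of_ne_zero hi, coeff_C_of_ne_zero hi, coeff_zero, coeff_zero, map_zero]
  have h3 : (a.coeff 0).coeff 0 ≠ 0 := by
    intro h4
    have h5 := h1 0 0
    rw [h4, map_zero, coeff_C_zero, coeff_C_zero] at h5
    exact hc.ne_zero h5.symm
  rw [h2]
  exact (h3.isUnit.map C).map C

private theorem l3_CC {c : F} (hc : c ≠ 0) : IsUnit (C (C c) : F[X][X]) :=
  (hc.isUnit.map C).map C

private theorem l3_field {R : Type v} [CommRing R] {a : R} (ha : Prime a) :
    ∃ (M : Type v) (_ : Field M) (φ : R →+* M), ∀ G, φ G = 0 ↔ a ∣ G := by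
  have : (Ideal.span {a}).IsPrime := (Ideal.span_singleton_prime ha.ne_zero).2 ha
  refine ⟨FractionRing (R ⧸ Ideal.span {a}), inferInstance,
    (algebraMap (R ⧸ Ideal.span {a}) (FractionRing (R ⧸ Ideal.span {a}))).comp
      (Ideal.Quotient.mk (Ideal.span {a})), fun G => ?_⟩
  rw [RingHom.comp_apply, map_eq_zero_iff _ (IsFractionRing.injective _ _),
    Ideal.Quotient.eq_zero_iff_mem, Ideal.mem_span_singleton]

/-- the value of a multiple -/
private theorem l3_aeval_C (U : Fin 3 → F[X][X]) (c : F) (R : MvPolynomial (Fin 3) F) :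
    MvPolynomial.aeval U (MvPolynomial.C c * R) = C (C c) * MvPolynomial.aeval U R := by
  rw [map_mul, MvPolynomial.aeval_C]
  rfl

end Aux

private theorem l3_not_dvd (hN : Nondeg (mp L F A) (fun j => mp L F (B j)))
    (hP : ProjId (mp L F A) (fun j => mp L F (B j)) u m P Q) :
    ¬ mp L F A ∣ ub u (fun j => mp L F (B j)) 0 := by
  intro h
  obtain ⟨M, hM, φ, hφ⟩ := l3_field hN.irr.prime
  let _ : Algebra F M := (φ.comp (C.comp C)).toAlgebra
  exact (x₁_transcendental (φ := φ) hN hP (fun c => rfl) hφ).1 ((hφ _).mpr h)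

/-- **The projection over `L`.** -/
theorem exists_descent [Algebra.IsAlgebraic L F] (hAb : Box b A) (hBb : ∀ j, Box b (B j))
    (hN : Nondeg (mp L F A) (fun j => mp L F (B j)))
    (hP : ProjId (mp L F A) (fun j => mp L F (B j)) u m P Q) :
    ∃ (ω : L) (Ph : MvPolynomial (Fin 3) L) (Qh : Fin (n + 1) → MvPolynomial (Fin 3) L),
      ω ≠ 0 ∧ Ph.IsHomogeneous m ∧ (∀ j, (Qh j).IsHomogeneous m) ∧
      MvPolynomial.map (algebraMap L F) Ph = MvPolynomial.C (algebraMap L F ω) * P ∧
      (∀ j, MvPolynomial.map (algebraMap L F) (Qh j) =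
        MvPolynomial.C (algebraMap L F ω) * Q j) ∧
      Ph.coeff (Finsupp.single 2 m) = ω ∧ Irreducible (deh Ph) ∧
      (deh Ph).natDegree = m ∧
      A ∣ MvPolynomial.aeval (ub u B) Ph ∧
      (∀ j, A ∣ MvPolynomial.aeval (ub u B) (Qh j) -
        MvPolynomial.aeval (ub u B) (MvPolynomial.pderiv 2 Ph) * B j) ∧
      ¬ A ∣ MvPolynomial.aeval (ub u B) (MvPolynomial.pderiv 2 Ph) ∧
      ¬ A ∣ ub u B 0 ∧
      ∀ (v : Valuation L ℤᵐ⁰) (τ : ℕ), gg v A ≤ exp (τ : ℤ) → (∀ j, gg v (B j) ≤ exp (τ : ℤ)) →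
        (∀ I, v (Ph.coeff I) ≤ exp ((cP b m * τ : ℕ) : ℤ)) ∧
        ∀ j I, v ((Qh j).coeff I) ≤ exp ((cP b m * τ : ℕ) : ℤ) := by
  -- `exists_descentP`, `exists_descentQ`: `ω := Δ * ω'`, `Ph := C Δ * Ph'`, `Qh j` as given
  -- (`cP = 2 cK + (m + 1)` fits). Divisibilities: over `F` by `ProjId`, and
  -- `mp L F A ∣ mp L F G ↔ A ∣ G` (`dvd_fn` in E20 with a functional `φ`, `φ 1 = 1`, `fn_mp` is
  -- private there: copy; or `Polynomial` lemmas). `Irreducible (deh Ph)`: `mp L F (deh Ph)` is a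
  -- constant times `deh P`, irreducible over `F`; a factorisation over `L` is one over `F`, and
  -- polynomials over `L` which are units over `F` are units. `¬ A ∣ ub u B 0`: over `F` by
  -- `x₁_transcendental` (L2a) in `FractionRing (F[X][X] ⧸ span {mp L F A})`.
  obtain ⟨ω', Ph', hω', hPh', hmP', hbP⟩ := exists_descentP hAb hBb hN hP
  obtain ⟨Δ, hΔ, hΔb, hQ⟩ := exists_descentQ hAb hBb hN hP hPh' hmP'
  choose Qh hQh hmQ hbQ using hQ
  have hω : Δ * ω' ≠ 0 := mul_ne_zero hΔ hω'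
  have hωF : algebraMap L F (Δ * ω') ≠ 0 := by
    rw [Ne, FaithfulSMul.algebraMap_eq_zero_iff]
    exact hω
  obtain ⟨Ph, hPh0⟩ : ∃ Ph, Ph = MvPolynomial.C Δ * Ph' := ⟨_, rfl⟩
  have hmP : MvPolynomial.map (algebraMap L F) Ph =
      MvPolynomial.C (algebraMap L F (Δ * ω')) * P := by
    rw [hPh0, map_mul, MvPolynomial.map_C, hmP', map_mul, MvPolynomial.C_mul, mul_assoc]
  have hhom : Ph.IsHomogeneous m := by
    rw [hPh0]
    have := (MvPolynomial.isHomogeneous_C (Fin 3) Δ).mul hPh'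
    rwa [zero_add] at this
  have hU : (fun i => mp L F (ub u B i)) = ub u (fun j => mp L F (B j)) := by
    funext i
    exact mp_ub u B i
  have hdeh : mp L F (deh Ph) = C (C (algebraMap L F (Δ * ω'))) * deh P := by
    rw [mp_deh, hmP]
    unfold deh
    rw [l3_aeval_C]
  have hpd : mp L F (MvPolynomial.aeval (ub u B) (MvPolynomial.pderiv 2 Ph)) =
      C (C (algebraMap L F (Δ * ω'))) *
        MvPolynomial.aeval (ub u (fun j => mp L F (B j))) (MvPolynomial.pderiv 2 P) := by
    rw [mp_aeval, ← MvPolynomial.pderiv_map, hmP, MvPolynomial.pderiv_C_mul, hU, l3_aeval_C]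
  have hcoef : Ph.coeff (Finsupp.single 2 m) = Δ * ω' := by
    apply (algebraMap L F).injective
    rw [← MvPolynomial.coeff_map, hmP, MvPolynomial.coeff_C_mul, hP.monic, mul_one]
  refine ⟨Δ * ω', Ph, Qh, hω, hhom, hQh, hmP, hmQ, hcoef, ?_, ?_, ?_, ?_, ?_, ?_, ?_⟩
  · -- irreducible
    have hirr : Irreducible (mp L F (deh Ph)) := by
      rw [hdeh]
      exact (irreducible_isUnit_mul (l3_CC hωF)).mpr hP.irr
    refine ⟨fun h => hirr.not_isUnit (h.map (mp L F)), ?_⟩
    intro a c hac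
    rcases hirr.isUnit_or_isUnit (by rw [hac, map_mul]) with h | h
    · exact Or.inl (l3_unit h)
    · exact Or.inr (l3_unit h)
  · have h1 : (mp L F (deh Ph)).natDegree = (deh Ph).natDegree := by
      unfold mp
      exact natDegree_map_eq_of_injective (map_injective _ (algebraMap L F).injective) _
    rw [← h1, hdeh, natDegree_C_mul (by rw [Ne, C_eq_zero]; exact hωF)]
    exact hP.natDegree.1
  · rw [← l3_dvd (F := F), mp_aeval, hU, hmP, l3_aeval_C]
    exact hP.dvd.mul_left _
  · intro j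
    rw [← l3_dvd (F := F), map_sub, map_mul, hpd, mp_aeval, hU, hmQ, l3_aeval_C, mul_assoc,
      ← mul_sub]
    exact (hP.dvdQ j).mul_left _
  · rw [← l3_dvd (F := F), hpd, (l3_CC hωF).dvd_mul_left]
    exact hP.ndvd
  · rw [← l3_dvd (F := F), mp_ub]
    exact l3_not_dvd hN hP
  · intro v τ hA hB
    have h1 := hbP v τ hA hB
    have h2 := hΔb v τ hA hB
    constructor
    · intro I
      rw [hPh0, MvPolynomial.coeff_C_mul, map_mul]
      calc v Δ * v (Ph'.coeff I) ≤ exp ((cK b m * τ : ℕ) : ℤ) * exp ((cK b m * τ : ℕ) : ℤ) :=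
            mul_le_mul' h2 (h1 I)
        _ = exp (((cK b m * τ : ℕ) : ℤ) + ((cK b m * τ : ℕ) : ℤ)) := by rw [exp_add]
        _ ≤ exp ((cP b m * τ : ℕ) : ℤ) := by
            rw [exp_le_exp]
            have : cP b m * τ = cK b m * τ + cK b m * τ + (m + 1) * τ := by
              unfold cP
              ring
            rw [this]
            push_cast
            have : (0 : ℤ) ≤ ((m : ℤ) + 1) * τ := by positivity
            linarith
    · intro j I
      refine (hbQ j v τ (cK b m * τ) hA hB h1 I).trans ?_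
      rw [exp_le_exp]
      have : cP b m * τ = cK b m * τ + (m + 1) * τ + cK b m * τ := by
        unfold cP
        ring
      rw [this]

end Pool.Agent.Lib.MP_44a246_ntPC
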