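import Mathlib
import Pool.Agent.Lib.MP_44a246_ntPC.L3a

/-!
A point, its projection to the plane by linear forms with natural coefficients, and the values of
forms.
-/

namespace Pool.Agent.Lib.MP_44a246_ntPC

open Pool.Agent.Lib.MP_e52354_nt
open Pool.Agent.Lib.MP_44a246_nt
open Pool.Agent.Lib.MP_44a246_ntL
open Pool.Agent.Lib.MP_44a246_ntS
open WithZero Polynomial

variable {L : Type*} [Field L] {n m : ℕ}

/-- the values of the three linear forms at the point `x` -/
noncomputable def ux (u : Fin 3 → Fin (n + 1) → ℕ) (x : Fin (n + 1) → L) (i : Fin 3) : L :=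
  ∑ j, (u i j : L) * x j

/-- evaluation of a form at a multiple of a vector -/
private theorem eval_mul_hom {P : MvPolynomial (Fin 3) L} (hP : P.IsHomogeneous m) (c : L)
    (z : Fin 3 → L) :
    MvPolynomial.eval (fun i => c * z i) P = c ^ m * MvPolynomial.eval z P := by
  rw [MvPolynomial.eval_eq', MvPolynomial.eval_eq', Finset.mul_sum]
  refine Finset.sum_congr rfl fun I hI => ?_
  have hdeg : ∑ i, I i = m := by
    rw [← Finsupp.degree_eq_sum, ← hP (MvPolynomial.mem_support_iff.1 hI),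
      Finsupp.degree_eq_weight_one]
    rfl
  simp only [mul_pow]
  rw [Finset.prod_mul_distrib, Finset.prod_pow_eq_pow_sum, hdeg]
  ring

private theorem Fval_mul_hom (d : ℕ) (a : (Fin (n + 1) →₀ ℕ) → L) (p : Fin (n + 1) → L) (c : L) :
    Fval d a (fun k => c * p k) = c ^ d * Fval d a p := by
  unfold Fval mon
  rw [Finset.mul_sum]
  refine Finset.sum_congr rfl fun I hI => ?_
  rw [mem_expo, Finsupp.degree_eq_sum] at hI
  simp only [mul_pow]
  rw [Finset.prod_mul_distrib, Finset.prod_pow_eq_pow_sum, hI]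
  ring

/-- the values of the forms at the projection of a parametrised point -/
theorem ub_value {B : Fin (n + 1) → L[X][X]} {x : Fin (n + 1) → L} {α y₁ y : L}
    (hB : ∀ j, α * x j = (B j).evalEval y₁ y) (u : Fin 3 → Fin (n + 1) → ℕ) (i : Fin 3) :
    (ub u B i).evalEval y₁ y = α * ux u x i := by
  have h : ∀ P : L[X][X], P.evalEval y₁ y = evalEvalRingHom y₁ y P := fun P => rfl
  have hC : ∀ c : L, evalEvalRingHom y₁ y (C (C c)) = c := fun c => by
    rw [← h]; simp
  rw [h]
  unfold ub ux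
  rw [map_sum, Finset.mul_sum]
  refine Finset.sum_congr rfl fun j _ => ?_
  rw [map_mul, hC, ← h, ← hB j]
  ring

theorem aeval_value {B : Fin (n + 1) → L[X][X]} {x : Fin (n + 1) → L} {α y₁ y : L}
    (hB : ∀ j, α * x j = (B j).evalEval y₁ y) (u : Fin 3 → Fin (n + 1) → ℕ)
    {P : MvPolynomial (Fin 3) L} (hP : P.IsHomogeneous m) :
    (MvPolynomial.aeval (ub u B) P).evalEval y₁ y = α ^ m * MvPolynomial.eval (ux u x) P := by
  -- evaluation is a ring homomorphism: `MvPolynomial.eval (fun i => α * ux u x i) P`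
  rw [← eval_mul_hom hP]
  have h : (evalEvalRingHom y₁ y).comp (MvPolynomial.aeval (R := L) (ub u B)).toRingHom =
      MvPolynomial.eval (fun i => α * ux u x i) := by
    apply MvPolynomial.ringHom_ext
    · intro c
      simp
    · intro k
      have h1 := ub_value hB u k
      simpa using h1
  exact congrArg (fun f : MvPolynomial (Fin 3) L →+* L => f P) h

/-- the value at the normalised point -/
theorem eval_norm {z : Fin 3 → L} (hz : z 0 ≠ 0) {P : MvPolynomial (Fin 3) L}
    (hP : P.IsHomogeneous m) :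
    (deh P).evalEval (z 1 / z 0) (z 2 / z 0) * z 0 ^ m = MvPolynomial.eval z P := by
  -- `deh_eval` (S/SJ3b), homogeneity
  rw [deh_eval, mul_comm, ← eval_mul_hom hP]
  congr 2
  funext i
  fin_cases i
  · simp
  · simp [mul_div_cancel₀ _ hz]
  · simp [mul_div_cancel₀ _ hz]

/-- the value of the derivative at the normalised point -/
theorem eval_der_norm {z : Fin 3 → L} (hz : z 0 ≠ 0) {P : MvPolynomial (Fin 3) L}
    (hP : P.IsHomogeneous m) :
    (derivative (deh P)).evalEval (z 1 / z 0) (z 2 / z 0) * z 0 ^ (m - 1) =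
      MvPolynomial.eval z (MvPolynomial.pderiv 2 P) := by
  -- `deh_pderiv`, `pderiv_hom` (L3a), `eval_norm`
  rw [← deh_pderiv]
  exact eval_norm hz (pderiv_hom hP)

/-- **The value of the boundary form at the projected point**: it is at least as large as the power
of the derivative. -/
theorem value_bound {d : ℕ} {c : (Fin (n + 1) →₀ ℕ) → L} {x : Fin (n + 1) → L} {z : Fin 3 → L}
    (hz : z 0 ≠ 0) (hm : 1 ≤ m) {P : MvPolynomial (Fin 3) L}
    {Q : Fin (n + 1) → MvPolynomial (Fin 3) L} (hP : P.IsHomogeneous m)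
    (hQ : ∀ j, (Q j).IsHomogeneous m)
    (hQx : ∀ j, MvPolynomial.eval z (Q j) = MvPolynomial.eval z (MvPolynomial.pderiv 2 P) * x j) :
    (FB d c (fun j => deh (Q j))).evalEval (z 1 / z 0) (z 2 / z 0) * z 0 ^ d =
      (derivative (deh P)).evalEval (z 1 / z 0) (z 2 / z 0) ^ d * Fval d c x ∧
    ∀ v : Valuation L ℤᵐ⁰, (∀ i, v (z i) ≤ vmax v x) → v (Fval d c x) = vmax v x ^ d →
      v ((derivative (deh P)).evalEval (z 1 / z 0) (z 2 / z 0)) ^ d ≤
        v ((FB d c (fun j => deh (Q j))).evalEval (z 1 / z 0) (z 2 / z 0)) := by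
  -- `FB_eval`, `Fval` is homogeneous of degree `d`: the values of `deh (Q j)` are
  -- `Q j (z) / z 0 ^ m = (∂ P / ∂ X 2) (z) / z 0 ^ m * x j = (derivative (deh P)) (..) / z 0 * x j`.
  -- For the valuations: `v (z 0) ^ d ≤ vmax v x ^ d = v (Fval d c x)`.
  have h1 : ∀ j, z 0 * (deh (Q j)).evalEval (z 1 / z 0) (z 2 / z 0) =
      (derivative (deh P)).evalEval (z 1 / z 0) (z 2 / z 0) * x j := by
    intro j
    have h2 := eval_norm hz (hQ j)
    have h3 := eval_der_norm hz hP
    rw [hQx j, ← h3] at h2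
    have h4 : z 0 ^ m = z 0 ^ (m - 1) * z 0 := by
      rw [← pow_succ, Nat.sub_add_cancel hm]
    rw [h4] at h2
    refine mul_left_cancel₀ (pow_ne_zero (m - 1) hz) ?_
    calc z 0 ^ (m - 1) * (z 0 * (deh (Q j)).evalEval (z 1 / z 0) (z 2 / z 0)) =
        (deh (Q j)).evalEval (z 1 / z 0) (z 2 / z 0) * (z 0 ^ (m - 1) * z 0) := by ring
      _ = _ := by rw [h2]; ring
  have h5 : (FB d c (fun j => deh (Q j))).evalEval (z 1 / z 0) (z 2 / z 0) * z 0 ^ d =
      (derivative (deh P)).evalEval (z 1 / z 0) (z 2 / z 0) ^ d * Fval d c x := by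
    rw [FB_eval, mul_comm, ← Fval_mul_hom, ← Fval_mul_hom]
    congr 1
    funext j
    exact h1 j
  refine ⟨h5, fun v hv hF => ?_⟩
  have h6 := congrArg v h5
  rw [map_mul, map_mul, map_pow, map_pow, hF] at h6
  have h7 : v (z 0) ^ d ≤ vmax v x ^ d := pow_le_pow_left' (hv 0) d
  have h8 : 0 < v (z 0) ^ d := by
    rw [zero_lt_iff]
    exact pow_ne_zero _ ((Valuation.ne_zero_iff v).2 hz)
  refine le_of_mul_le_mul_right ?_ h8
  rw [h6]
  gcongr

end Pool.Agent.Lib.MP_44a246_ntPC
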