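import Mathlib
import Pool.Agent.Lib.MP_44a246_ntG.G18
import Pool.Agent.Lib.MP_44a246_ntPC.L5a

/-!
The sizes of the curve and of its parametrisation; forms which do not vanish on the curve do not
vanish at a point of large height.
-/

namespace Pool.Agent.Lib.MP_44a246_ntPC

open Pool.Agent.Lib.MP_e52354_nt
open Pool.Agent.Lib.MP_44a246_nt
open Pool.Agent.Lib.MP_44a246_ntL
open Pool.Agent.Lib.MP_44a246_ntS
open Pool.Agent.Lib.MP_44a246_ntX
open Pool.Agent.Lib.MP_44a246_ntG
open WithZero Module Polynomial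

variable {κ L : Type*} [Field κ] [IsAlgClosed κ] [CharZero κ] [Field L] [CharZero L]
  [Algebra κ L] {n d : ℕ} (X : DatG κ (L := L) n d) {a : ℕ} {A : L[X][X]} (hA : CrvG X a A)

/-- the size of the curve and of its parametrisation -/
noncomputable def sg (A : L[X][X]) (w : Place κ L) : ℕ := 2 * (log (gg w.1 A)).toNat + X.δ w

private theorem l5b_natCast_support {f : Place κ L → ℕ} (hf : (Function.support f).Finite) :
    (Function.support fun w => (f w : ℤ)).Finite := by
  refine hf.subset fun w hw h0 => hw ?_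
  simp only
  rw [h0, Nat.cast_zero]

private theorem l5b_const_mul_support {f : Place κ L → ℤ} (hf : (Function.support f).Finite)
    (c : ℤ) : (Function.support fun w => c * f w).Finite := by
  refine hf.subset fun w hw h0 => hw ?_
  simp only
  rw [h0, mul_zero]

include hA in
private theorem l5b_log_nonneg (w : Place κ L) : 0 ≤ log (gg w.1 A) := by
  have h1 : gg w.1 A ≠ 0 := by
    rw [Ne, gg_eq_zero]
    exact hA.irr.ne_zero
  rw [le_log_iff_exp_le h1, exp_zero]
  exact one_le_gg hA.one w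

include hA in
private theorem l5b_sg_cast (w : Place κ L) :
    (sg X A w : ℤ) = 2 * log (gg w.1 A) + (X.δ w : ℤ) := by
  unfold sg
  push_cast
  rw [Int.toNat_of_nonneg (l5b_log_nonneg X hA w)]

include hA in
theorem sg_sum (h : IsFF κ L) : (Function.support (sg X A)).Finite ∧
    ∑ᶠ w, (sg X A w : ℤ) = 2 * gh κ A + X.Δ := by
  -- as `tauD_sum` (MP_44a246_ntC/C27)
  have s1 := l5b_const_mul_support (gg_support h hA.irr.ne_zero) 2
  have s2 := l5b_natCast_support X.hδ
  have s3 : (Function.support fun w : Place κ L =>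
      2 * log (gg w.1 A) + (X.δ w : ℤ)).Finite :=
    (s1.union s2).subset (Function.support_add _ _)
  refine ⟨s3.subset fun w hw h0 => hw ?_, ?_⟩
  · have h1 := l5b_sg_cast X hA w
    simp only at h0
    rw [h0] at h1
    exact_mod_cast h1
  · have e : (fun w => (sg X A w : ℤ)) = fun w : Place κ L =>
        2 * log (gg w.1 A) + (X.δ w : ℤ) := funext fun w => l5b_sg_cast X hA w
    rw [e, finsum_add_distrib s1 s2, ← mul_finsum]
    rfl

include hA in
theorem gg_le_sg (w : Place κ L) : gg w.1 A ≤ exp (sg X A w : ℤ) ∧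
    ∀ j, gg w.1 (X.B A j) ≤ exp (sg X A w : ℤ) := by
  -- as `gg_le_tauD`, `c27_B_le_exp` (MP_44a246_ntC/C27)
  have h1 : gg w.1 A ≠ 0 := by
    rw [Ne, gg_eq_zero]
    exact hA.irr.ne_zero
  have h2 := l5b_log_nonneg X hA w
  have hδ0 : (0 : ℤ) ≤ X.δ w := Int.natCast_nonneg _
  rw [l5b_sg_cast X hA w]
  constructor
  · rw [← log_le_iff_le_exp h1]
    linarith
  · intro j
    have h3 := X.B_le hA j w
    rw [← exp_log h1, ← exp_nsmul, ← exp_add, nsmul_eq_mul, Nat.cast_ofNat] at h3
    exact h3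

include hA in
/-- **Forms which do not vanish on the curve do not vanish at the point.** -/
theorem eval_ne_zero (h : IsFF κ L) {u : Fin 3 → Fin (n + 1) → ℕ} {m : ℕ}
    {P : MvPolynomial (Fin 3) L} (hP : P.IsHomogeneous m)
    (hnd : ¬ A ∣ MvPolynomial.aeval (ub u (X.B A)) P) {ρ : Place κ L → ℕ}
    (hρ : (Function.support ρ).Finite) (hPρ : ∀ w : Place κ L, ∀ I,
      w.1 (P.coeff I) ≤ exp (ρ w : ℤ))
    (hbig : (m * a : ℤ) * gh κ A + a * (∑ᶠ w, (ρ w : ℤ) + m * (2 * gh κ A + X.Δ)) <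
      height κ X.x) : MvPolynomial.eval (ux u X.x) P ≠ 0 := by
  -- otherwise `aeval U P` vanishes at the point (`aeval_value`, `X.B_eval hA`), its degree in `Y`
  -- is at most `m * a` (`box_aeval`, `box_ub`, `X.B_box hA`) and its height at most
  -- `∑ ρ + m * ∑ sg` (`gg_aeval_le`, `gg_ub_le`, `gg_le_sg`, `sg_sum`, `finsum_mono`), so
  -- `dvd_of_small` (G18)
  intro h0
  obtain ⟨hs1, hs2⟩ := sg_sum X hA h
  refine hnd (dvd_of_small X hA h (m := m) (g := ∑ᶠ w, (ρ w : ℤ) + m * (2 * gh κ A + X.Δ))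
    (box_aeval (box_ub (X.B_box hA) u) hP).1 ?_ ?_ hbig)
  · intro hne
    have s1 := l5b_natCast_support hρ
    have s2 := l5b_const_mul_support (l5b_natCast_support hs1) (m : ℤ)
    have s3 : (Function.support fun w : Place κ L =>
        (ρ w : ℤ) + (m : ℤ) * (sg X A w : ℤ)).Finite :=
      (s1.union s2).subset (Function.support_add _ _)
    have hsum : ∑ᶠ w : Place κ L, ((ρ w : ℤ) + (m : ℤ) * (sg X A w : ℤ)) =
        ∑ᶠ w, (ρ w : ℤ) + m * (2 * gh κ A + X.Δ) := by
      rw [finsum_add_distrib s1 s2, ← mul_finsum, hs2]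
    rw [← hsum]
    refine finsum_mono (gg_support h hne) s3 fun w => ?_
    have h1 : gg w.1 (MvPolynomial.aeval (ub u (X.B A)) P) ≠ 0 := by
      rw [Ne, gg_eq_zero]
      exact hne
    rw [log_le_iff_le_exp h1]
    refine (gg_aeval_le w.1 (fun i => gg_ub_le w.1 (gg_le_sg X hA w).2 u i) hP
      (hPρ w)).trans ?_
    rw [← exp_nsmul, ← exp_add, nsmul_eq_mul]
  · rw [aeval_value (fun j => X.B_eval hA j) u hP, h0, mul_zero]

end Pool.Agent.Lib.MP_44a246_ntPC
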