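import Mathlib
import Pool.Agent.Lib.MP_44a246_ntY.Y34
import Pool.Agent.Lib.MP_44a246_ntPC.L5a

/-!
The second coordinate of the projection is bounded by the first, and the height of the point by the
height of the first coordinate.
-/

namespace Pool.Agent.Lib.MP_44a246_ntPC

open Pool.Agent.Lib.MP_e52354_nt
open Pool.Agent.Lib.MP_44a246_nt
open Pool.Agent.Lib.MP_44a246_ntL
open Pool.Agent.Lib.MP_44a246_ntS
open Pool.Agent.Lib.MP_44a246_ntY
open WithZero Module Polynomial

/-- the size of a root of a form in which the power of the last variable occurs -/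
theorem root_le {L : Type*} [Field L] (v : Valuation L ℤᵐ⁰) {m c : ℕ}
    {P : MvPolynomial (Fin 3) L} (hP : P.IsHomogeneous m) {ω : L}
    (hω : P.coeff (Finsupp.single 2 m) = ω) (hω0 : ω ≠ 0)
    (hc : ∀ I, v (P.coeff I) ≤ exp (c : ℤ)) {y₁ y : L} (h0 : (deh P).evalEval y₁ y = 0) :
    v y ≤ exp ((c + pp v ω⁻¹ : ℕ) : ℤ) * max 1 (v y₁) := by
  by_contra hcon
  push Not at hcon
  set N : ℤᵐ⁰ := max 1 (v y₁) with hN
  have hN1 : 1 ≤ N := le_max_left _ _
  have hN0 : N ≠ 0 := (zero_lt_one.trans_le hN1).ne'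
  have hvω : v ω ≠ 0 := (v.ne_zero_iff).2 hω0
  have hE : exp (c : ℤ) ≤ v ω * exp ((c + pp v ω⁻¹ : ℕ) : ℤ) := by
    have h1 : (1 : ℤᵐ⁰) ≤ v ω * exp (pp v ω⁻¹ : ℤ) := by
      calc (1 : ℤᵐ⁰) = v ω * v ω⁻¹ := by rw [← map_mul, mul_inv_cancel₀ hω0, map_one]
        _ ≤ v ω * exp (pp v ω⁻¹ : ℤ) := mul_le_mul' le_rfl (le_exp_pp v _)
    calc exp (c : ℤ) = exp (c : ℤ) * 1 := (mul_one _).symm
      _ ≤ exp (c : ℤ) * (v ω * exp (pp v ω⁻¹ : ℤ)) := mul_le_mul' le_rfl h1
      _ = v ω * exp ((c + pp v ω⁻¹ : ℕ) : ℤ) := by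
        rw [Nat.cast_add, exp_add, mul_left_comm]
  have hEone : (1 : ℤᵐ⁰) ≤ exp ((c + pp v ω⁻¹ : ℕ) : ℤ) := by
    rw [← exp_zero, exp_le_exp]
    positivity
  have hNy : N ≤ v y := by
    calc N = 1 * N := (one_mul _).symm
      _ ≤ exp ((c + pp v ω⁻¹ : ℕ) : ℤ) * N := mul_le_mul' hEone le_rfl
      _ ≤ v y := hcon.le
  have hy0 : v y ≠ 0 := (lt_of_lt_of_le (zero_lt_iff.2 hN0) hNy).ne'
  -- the key inequality
  have key : ∀ k : ℕ, 1 ≤ k → exp (c : ℤ) * N ^ k < v ω * v y ^ k := by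
    intro k hk
    obtain ⟨k, rfl⟩ : ∃ k', k = k' + 1 := ⟨k - 1, by omega⟩
    calc exp (c : ℤ) * N ^ (k + 1) ≤ (v ω * exp ((c + pp v ω⁻¹ : ℕ) : ℤ)) * N ^ (k + 1) :=
          mul_le_mul' hE le_rfl
      _ = v ω * ((exp ((c + pp v ω⁻¹ : ℕ) : ℤ) * N) * N ^ k) := by
          rw [pow_succ', mul_assoc, mul_assoc]
      _ < v ω * (v y * N ^ k) := by
          refine mul_lt_mul_of_pos_left ?_ (zero_lt_iff.2 hvω)
          exact mul_lt_mul_of_pos_right hcon (zero_lt_iff.2 (pow_ne_zero _ hN0))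
      _ ≤ v ω * (v y * v y ^ k) :=
          mul_le_mul' le_rfl (mul_le_mul' le_rfl (pow_le_pow_left₀ zero_le hNy _))
      _ = v ω * v y ^ (k + 1) := by rw [pow_succ']
  rw [deh_eval, MvPolynomial.eval_eq'] at h0
  have hmem : Finsupp.single 2 m ∈ P.support := by
    rw [MvPolynomial.mem_support_iff, hω]
    exact hω0
  rw [← Finset.add_sum_erase _ _ hmem] at h0
  have hterm : P.coeff (Finsupp.single 2 m) *
      ∏ i, (![1, y₁, y] : Fin 3 → L) i ^ (Finsupp.single 2 m : Fin 3 →₀ ℕ) i = ω * y ^ m := by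
    rw [hω, Fin.prod_univ_three]
    simp
  rw [hterm] at h0
  have hlt : v (∑ I ∈ P.support.erase (Finsupp.single 2 m), P.coeff I *
      ∏ i, (![1, y₁, y] : Fin 3 → L) i ^ I i) < v ω * v y ^ m := by
    refine Valuation.map_sum_lt v (mul_ne_zero hvω (pow_ne_zero _ hy0)) fun I hI => ?_
    obtain ⟨hI1, hI2⟩ := Finset.mem_erase.1 hI
    have hdeg : I 0 + I 1 + I 2 = m := by
      have h1 := hP (MvPolynomial.mem_support_iff.1 hI2)
      have h2 : I.degree = m := by
        rw [← h1, Finsupp.degree_eq_weight_one]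
        rfl
      rw [Finsupp.degree_eq_sum, Fin.sum_univ_three] at h2
      exact h2
    have hI3 : I 2 < m := by
      by_contra hc2
      have h3 : I 2 = m := by omega
      apply hI1
      ext i
      fin_cases i
      · simp; omega
      · simp; omega
      · simp [h3]
    rw [map_mul, Fin.prod_univ_three]
    simp only [Matrix.cons_val_zero, Matrix.cons_val_one, Matrix.cons_val, one_pow, one_mul,
      map_mul, map_pow]
    have h5 : v y₁ ^ I 1 ≤ N ^ (m - I 2) :=
      (pow_le_pow_left₀ zero_le (le_max_right _ _) _).trans (pow_le_pow_right₀ hN1 (by omega))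
    calc v (P.coeff I) * (v y₁ ^ I 1 * v y ^ I 2) ≤
          exp (c : ℤ) * (N ^ (m - I 2) * v y ^ I 2) :=
          mul_le_mul' (hc I) (mul_le_mul' h5 le_rfl)
      _ = (exp (c : ℤ) * N ^ (m - I 2)) * v y ^ I 2 := (mul_assoc _ _ _).symm
      _ < (v ω * v y ^ (m - I 2)) * v y ^ I 2 :=
          mul_lt_mul_of_pos_right (key _ (by omega)) (zero_lt_iff.2 (pow_ne_zero _ hy0))
      _ = v ω * v y ^ m := by
          rw [mul_assoc, ← pow_add]
          congr 2
          omega
  have heq : v (ω * y ^ m) = v (∑ I ∈ P.support.erase (Finsupp.single 2 m), P.coeff I *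
      ∏ i, (![1, y₁, y] : Fin 3 → L) i ^ I i) := by
    rw [eq_neg_of_add_eq_zero_left h0, Valuation.map_neg]
  rw [map_mul, map_pow] at heq
  rw [← heq] at hlt
  exact lt_irrefl _ hlt

section

variable {κ L : Type*} [Field κ] [IsAlgClosed κ] [CharZero κ] [Field L] [CharZero L]
  [Algebra κ L] {n m : ℕ}

/-- **The height of the point and of its projection.** -/
theorem height_le_proj (h : IsFF κ L) {x : Fin (n + 1) → L} (hx : x ≠ 0) {z : Fin 3 → L}
    (hz : z 0 ≠ 0) {P : MvPolynomial (Fin 3) L} {Q : Fin (n + 1) → MvPolynomial (Fin 3) L}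
    (hQ : ∀ j, (Q j).IsHomogeneous m)
    (hQx : ∀ j, MvPolynomial.eval z (Q j) = MvPolynomial.eval z (MvPolynomial.pderiv 2 P) * x j)
    (hne : MvPolynomial.eval z (MvPolynomial.pderiv 2 P) ≠ 0) {ρ τ : Place κ L → ℕ}
    (hρ : (Function.support ρ).Finite) (hτ : (Function.support τ).Finite)
    (hQρ : ∀ w : Place κ L, ∀ j I, w.1 ((Q j).coeff I) ≤ exp (ρ w : ℤ))
    (hy : ∀ w : Place κ L, w.1 (z 2 / z 0) ≤ exp (τ w : ℤ) * max 1 (w.1 (z 1 / z 0))) :
    height κ x ≤ m * height κ ![1, z 1 / z 0] + ∑ᶠ w, (ρ w : ℤ) + m * ∑ᶠ w, (τ w : ℤ) := by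
  set a : L := z 1 / z 0 with ha
  set b : L := z 2 / z 0 with hb
  set c : L := (z 0 ^ m)⁻¹ * MvPolynomial.eval z (MvPolynomial.pderiv 2 P) with hc
  have hzm : z 0 ^ m ≠ 0 := pow_ne_zero _ hz
  have hc0 : c ≠ 0 := mul_ne_zero (inv_ne_zero hzm) hne
  have hval : ∀ j, MvPolynomial.eval ![1, a, b] (Q j) = c * x j := by
    intro j
    have h1 := eval_norm hz (hQ j)
    rw [deh_eval, hQx j] at h1
    rw [hc, mul_assoc, ← h1, mul_comm (MvPolynomial.eval _ _), inv_mul_cancel_left₀ hzm]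
  have hy0 : (fun j => c * x j) ≠ 0 := by
    intro h0
    apply hx
    funext j
    have := congrFun h0 j
    simp only [Pi.zero_apply] at this
    exact (mul_eq_zero.1 this).resolve_left hc0
  rw [← h.height_smul (x := x) hc0]
  have hs1 : (Function.support fun w : Place κ L => (ρ w : ℤ)).Finite :=
    hρ.subset fun w hw h0 => hw (by simp only at h0 ⊢; rw [h0, Nat.cast_zero])
  have hs2 : (Function.support fun w : Place κ L => (m : ℤ) * (τ w : ℤ)).Finite :=
    hτ.subset fun w hw h0 => hw (by simp only at h0 ⊢; rw [h0, Nat.cast_zero, mul_zero])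
  have hs3 : (Function.support fun w : Place κ L => (m : ℤ) * log (max 1 (w.1 a))).Finite :=
    (log_max_support h a).subset fun w hw h0 => hw (by simp only at h0 ⊢; rw [h0, mul_zero])
  have hs12 : (Function.support fun w : Place κ L =>
      (m : ℤ) * log (max 1 (w.1 a)) + (ρ w : ℤ)).Finite := by
    refine (hs3.union hs1).subset fun w hw => ?_
    by_contra hcon
    rw [Set.mem_union, not_or, Function.mem_support, Function.mem_support, not_not, not_not]
      at hcon
    exact hw (by simp only; rw [hcon.1, hcon.2, add_zero])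
  have hs123 : (Function.support fun w : Place κ L =>
      (m : ℤ) * log (max 1 (w.1 a)) + (ρ w : ℤ) + (m : ℤ) * (τ w : ℤ)).Finite := by
    refine (hs12.union hs2).subset fun w hw => ?_
    by_contra hcon
    rw [Set.mem_union, not_or, Function.mem_support, Function.mem_support, not_not, not_not]
      at hcon
    exact hw (by simp only at hcon ⊢; rw [hcon.1, hcon.2, add_zero])
  rw [height_one, mul_finsum, mul_finsum, ← finsum_add_distrib hs3 hs1,
    ← finsum_add_distrib hs12 hs2]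
  unfold height
  refine finsum_mono (h.vmax_support hy0) hs123 fun w => ?_
  have hv0 : vmax w.1 (fun j => c * x j) ≠ 0 := fun h0 => hy0 ((vmax_eq_zero_iff w.1).1 h0)
  have hm0 : max 1 (w.1 a) ≠ 0 := (zero_lt_one.trans_le (le_max_left _ _)).ne'
  have hτ1 : (1 : ℤᵐ⁰) ≤ exp (τ w : ℤ) := by
    rw [← exp_zero, exp_le_exp]
    positivity
  have hle : vmax w.1 (fun j => c * x j) ≤
      exp (ρ w : ℤ) * (exp (τ w : ℤ) * max 1 (w.1 a)) ^ m := by
    refine vmax_le w.1 fun j => ?_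
    rw [← hval j]
    refine eval_le w.1 (hQ j) (hQρ w j) fun i => ?_
    fin_cases i
    · simp only [Fin.zero_eta, Matrix.cons_val_zero, map_one]
      exact one_le_mul hτ1 (le_max_left _ _)
    · simp only [Fin.mk_one, Matrix.cons_val_one]
      exact (le_max_right _ _).trans (le_mul_of_one_le_left' hτ1)
    · exact hy w
  have hr0 : exp (ρ w : ℤ) * (exp (τ w : ℤ) * max 1 (w.1 a)) ^ m ≠ 0 :=
    mul_ne_zero exp_ne_zero (pow_ne_zero _ (mul_ne_zero exp_ne_zero hm0))
  have h6 := (log_le_log hv0 hr0).2 hle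
  rw [log_mul exp_ne_zero (pow_ne_zero _ (mul_ne_zero exp_ne_zero hm0)), log_exp, log_pow,
    log_mul exp_ne_zero hm0, log_exp, nsmul_eq_mul] at h6
  calc log (vmax w.1 (fun j => c * x j)) ≤ _ := h6
    _ = _ := by ring

end

end Pool.Agent.Lib.MP_44a246_ntPC
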