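import Mathlib
import Pool.Agent.Lib.MP_44a246_ntY.Y63
import Pool.Agent.Lib.MP_44a246_ntE.E25
import Pool.Agent.Lib.MP_44a246_ntPC.L3
import Pool.Agent.Lib.MP_44a246_ntPC.L5b
import Pool.Agent.Lib.MP_44a246_ntPC.L5c

/-!
The projections of the curve through a point: the curve is not degenerate, the degree of the
projection is bounded, and the constants.
-/

namespace Pool.Agent.Lib.MP_44a246_ntPC

open Pool.Agent.Lib.MP_e52354_nt
open Pool.Agent.Lib.MP_44a246_nt
open Pool.Agent.Lib.MP_44a246_ntL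
open Pool.Agent.Lib.MP_44a246_ntS
open Pool.Agent.Lib.MP_44a246_ntX
open Pool.Agent.Lib.MP_44a246_ntG
open Pool.Agent.Lib.MP_44a246_ntY
open Pool.Agent.Lib.MP_44a246_ntE
open WithZero Module Polynomial

/-- the constant of the bounds for the projection, for all degrees -/
def cQ (b : ℕ) : ℕ := ∑ i ∈ Finset.range (2 * b + 1), cP b i

theorem cP_le_cQ {b m : ℕ} (hm : m ≤ 2 * b) : cP b m ≤ cQ b :=
  Finset.single_le_sum (f := cP b) (fun _ _ => Nat.zero_le _)
    (Finset.mem_range.2 (Nat.lt_succ_of_le hm))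

/-- the constant of the comparison of the heights of a point and of its projection -/
def c6 (b : ℕ) : ℕ := 6 * b ^ 2 + (10 * b + 2) * cQ b

private theorem l6a_CC {L M : Type*} [Field L] [Field M] [Algebra L M] (c : L) :
    mp L M (C (C c)) = C (C (algebraMap L M c)) := by
  unfold mp
  rw [coe_mapRingHom, Polynomial.map_C, coe_mapRingHom, Polynomial.map_C]

private theorem l6a_CX {L M : Type*} [Field L] [Field M] [Algebra L M] :
    mp L M (C Polynomial.X) = C Polynomial.X := by
  unfold mp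
  rw [coe_mapRingHom, Polynomial.map_C, coe_mapRingHom, Polynomial.map_X]

private theorem l6a_evalEval {L M : Type*} [Field L] [Field M] [Algebra L M] (P : L[X][X])
    (x y : L) : (mp L M P).evalEval (algebraMap L M x) (algebraMap L M y) =
      algebraMap L M (P.evalEval x y) :=
  map_mapRingHom_evalEval (algebraMap L M) P x y

variable {κ L : Type*} [Field κ] [IsAlgClosed κ] [CharZero κ] [Field L] [CharZero L]
  [Algebra κ L] {n d : ℕ} (X : DatG κ (L := L) n d) {a b : ℕ} {A : L[X][X]} (hA : CrvG X a A)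
  {M : Type*} [Field M] [IsAlgClosed M] [Algebra L M] [Algebra.IsAlgebraic L M]

include hA in
/-- the curve is not degenerate -/
theorem nondeg_dat (h : IsFF κ L)
    (hlin : (a : ℤ) * gh κ A + a * (2 * gh κ A + X.Δ) < height κ X.x) :
    Nondeg (mp L M A) (fun j => mp L M (X.B A j)) := by
  -- `irr`: `irreducible_mp hA.irr hA.zero hA.der` (E20). `deg`: the degree in `Y` does not change
  -- (`natDegree_map_eq_of_injective`). `nd`: evaluate at the point: `mp A` vanishes there,
  -- the derivative does not (`map_mapRingHom_evalEval` / `m2_evalEval`; `mp_derivative` in L3a).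
  -- `lin₀`, `lin₁`: `dvd_lin` (Y62) and `map_dvd (mp L M)`, with `ξ j := algebraMap L M (X.ξ₀ j)`.
  obtain ⟨h1, h2, -⟩ := dvd_lin X hA h hlin
  refine ⟨irreducible_mp hA.irr hA.zero hA.der, ?_, ?_,
    ⟨fun j => algebraMap L M (X.ξ₀ j : L), ?_⟩, ⟨fun j => algebraMap L M (X.ξ₁ j : L), ?_⟩⟩
  · unfold mp
    rw [coe_mapRingHom, natDegree_map_eq_of_injective (map_injective _ (algebraMap L M).injective)]
    exact hA.deg
  · rintro ⟨q, hq⟩
    have h3 := congrArg (fun G : M[X][X] =>
      G.evalEval (algebraMap L M X.y₁) (algebraMap L M X.y)) hq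
    rw [evalEval_mul, ← mp_derivative, l6a_evalEval, l6a_evalEval, hA.zero, map_zero,
      zero_mul] at h3
    exact hA.der ((algebraMap L M).injective (by rw [h3, map_zero]))
  · have h3 := map_dvd (mp L M) h1
    rw [map_sub, map_sum, mp_derivative] at h3
    simp only [map_mul, l6a_CC] at h3
    exact h3
  · have h3 := map_dvd (mp L M) h2
    rw [map_sub, map_sum, map_mul _ (C Polynomial.X), mp_derivative, l6a_CX] at h3
    simp only [map_mul, l6a_CC] at h3
    exact h3

include hA in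
/-- the degree of the projection is bounded -/
theorem proj_deg_le (h : IsFF κ L)
    (hspan : 9 * (a : ℤ) * gh κ A + 3 * a * X.Δ < height κ X.x) {u : Fin 3 → Fin (n + 1) → ℕ}
    {m : ℕ} {P : MvPolynomial (Fin 3) M} {Q : Fin (n + 1) → MvPolynomial (Fin 3) M}
    (hP : ProjId (mp L M A) (fun j => mp L M (X.B A j)) u m P Q) : m ≤ 2 * a := by
  -- `exists_proj_form_dat` (E25) over `L`, mapped to `M` (`mp_aeval`, `mp_ub` in L3a; the form in
  -- E25 is `fun i => ∑ j, C (C (u i j : L)) * X.B A j`, which is `ub u (X.B A)` by definition),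
  -- `ProjId.deg_le` (L2) with `nondeg_dat` (`3 a gh A + a Δ ≤ 9 a gh A + 3 a Δ`, `gh_nonneg`,
  -- `X.Δ_nonneg`). The mapped form is not `0` (`MvPolynomial.map_injective`).
  obtain ⟨P', hP'0, hP', hd⟩ := exists_proj_form_dat h X hA hspan u
  have hg := gh_nonneg h hA.irr.ne_zero
  have hΔ := X.Δ_nonneg
  have ha : (0 : ℤ) ≤ (a : ℤ) := Int.natCast_nonneg _
  refine hP.deg_le (nondeg_dat X hA h ?_) (P' := MvPolynomial.map (algebraMap L M) P') ?_
    (hP'.map _) ?_
  · nlinarith [mul_nonneg ha hg, mul_nonneg ha hΔ]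
  · intro h0
    apply hP'0
    exact MvPolynomial.map_injective _ (algebraMap L M).injective (by rw [h0, map_zero])
  · have h1 := map_dvd (mp L M) hd
    have h2 : (fun i => mp L M (∑ j, C (C (u i j : L)) * X.B A j)) =
        ub u (fun j => mp L M (X.B A j)) := by
      funext i
      exact mp_ub u (X.B A) i
    rw [mp_aeval, h2] at h1
    exact h1

/-- the size of the projection -/
noncomputable def tq (b : ℕ) (A : L[X][X]) (ω : L) (w : Place κ L) : ℕ :=
  cQ b * sg X A w + pp w.1 ω⁻¹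

include hA in
theorem tq_sum (h : IsFF κ L) {ω : L} (hω : ω ≠ 0)
    (hs : ∀ w : Place κ L, w.1 ω ≤ exp ((cQ b * sg X A w : ℕ) : ℤ)) :
    (Function.support (tq X b A ω)).Finite ∧
      ∑ᶠ w, (tq X b A ω w : ℤ) ≤ 4 * cQ b * (gh κ A + X.Δ) := by
  -- `sg_sum` (L5b), `pp_sum`, `pp_inv_sum` (Y34), `height_one`: `∑ pp ω⁻¹ = height ![1, ω] =
  -- ∑ log (max 1 (w ω)) ≤ ∑ cQ * sg = cQ * (2 gh A + Δ)`; `finsum_add_distrib`, `finsum_mono`.
  obtain ⟨s1, e1⟩ := sg_sum X hA h
  have s2 := (pp_sum h ω⁻¹).1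
  have s1' : (Function.support fun w : Place κ L => (cQ b : ℤ) * (sg X A w : ℤ)).Finite := by
    refine s1.subset fun w hw h0 => hw ?_
    simp only at h0 ⊢
    rw [h0, Nat.cast_zero, mul_zero]
  have s2' : (Function.support fun w : Place κ L => (pp w.1 ω⁻¹ : ℤ)).Finite := by
    refine s2.subset fun w hw h0 => hw ?_
    simp only at h0 ⊢
    rw [h0, Nat.cast_zero]
  have hcast : ∀ w : Place κ L, (tq X b A ω w : ℤ) =
      (cQ b : ℤ) * (sg X A w : ℤ) + (pp w.1 ω⁻¹ : ℤ) := by
    intro w
    unfold tq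
    push_cast
    ring
  have e2 : ∑ᶠ w : Place κ L, (pp w.1 ω⁻¹ : ℤ) ≤ (cQ b : ℤ) * (2 * gh κ A + X.Δ) := by
    rw [pp_inv_sum h hω, height_one, ← e1, mul_finsum]
    refine finsum_mono (log_max_support h ω) s1' fun w => ?_
    have h1 : max 1 (w.1 ω) ≤ exp ((cQ b * sg X A w : ℕ) : ℤ) := by
      refine max_le ?_ (hs w)
      rw [← exp_zero, exp_le_exp]
      exact Int.natCast_nonneg _
    have h2 : max 1 (w.1 ω) ≠ 0 := (zero_lt_one.trans_le (le_max_left _ _)).ne'
    have h3 := (log_le_iff_le_exp h2).2 h1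
    push_cast at h3
    exact h3
  constructor
  · refine (s1.union s2).subset fun w hw => ?_
    by_contra hcon
    rw [Set.mem_union, not_or, Function.mem_support, Function.mem_support, not_not, not_not]
      at hcon
    apply hw
    unfold tq
    rw [hcon.1, hcon.2, mul_zero, add_zero]
  · rw [finsum_congr hcast, finsum_add_distrib s1' s2', ← mul_finsum, e1]
    have hΔ := X.Δ_nonneg
    have hc : (0 : ℤ) ≤ (cQ b : ℤ) := Int.natCast_nonneg _
    nlinarith [mul_nonneg hc hΔ]

end Pool.Agent.Lib.MP_44a246_ntPC
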