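import Mathlib
import Pool.Agent.Lib.MP_44a246_ntPC.L6a

/-!
The projection of the curve through a point, at this point.
-/

namespace Pool.Agent.Lib.MP_44a246_ntPC

open Pool.Agent.Lib.MP_e52354_nt
open Pool.Agent.Lib.MP_44a246_nt
open Pool.Agent.Lib.MP_44a246_ntL
open Pool.Agent.Lib.MP_44a246_ntS
open Pool.Agent.Lib.MP_44a246_ntX
open Pool.Agent.Lib.MP_44a246_ntG
open Pool.Agent.Lib.MP_44a246_ntY
open Pool.Agent.Lib.MP_44a246_ntE
open WithZero Module Polynomial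

variable {κ L : Type*} [Field κ] [IsAlgClosed κ] [CharZero κ] [Field L] [CharZero L]
  [Algebra κ L] {n d : ℕ} (X : DatG κ (L := L) n d) {a b : ℕ} {A : L[X][X]} (hA : CrvG X a A)
  {M : Type*} [Field M] [IsAlgClosed M] [Algebra L M] [Algebra.IsAlgebraic L M]

private theorem l6b_v_nat {L : Type*} [Field L] (v : Valuation L ℤᵐ⁰) (k : ℕ) :
    v (k : L) ≤ 1 := by
  induction k with
  | zero => rw [Nat.cast_zero, map_zero]; exact zero_le
  | succ k ih =>
    rw [Nat.cast_succ]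
    exact v.map_add_le ih (by rw [map_one])

private theorem l6b_gg_deh {L : Type*} [Field L] (v : Valuation L ℤᵐ⁰) {m : ℕ}
    {P : MvPolynomial (Fin 3) L} (hP : P.IsHomogeneous m) {r : ℤᵐ⁰}
    (hr : ∀ I, v (P.coeff I) ≤ r) : gg v (deh P) ≤ r := by
  refine gg_le v fun i j => ?_
  rw [deh_coeff hP]
  split_ifs
  · exact hr _
  · rw [map_zero]
    exact zero_le

private theorem l6b_z_le {L : Type*} [Field L] {n : ℕ} (v : Valuation L ℤᵐ⁰)
    (u : Fin 3 → Fin (n + 1) → ℕ) (x : Fin (n + 1) → L) (i : Fin 3) :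
    v (ux u x i) ≤ vmax v x := by
  unfold ux
  refine Valuation.map_sum_le _ fun j _ => ?_
  rw [map_mul]
  calc v (u i j : L) * v (x j) ≤ 1 * vmax v x := mul_le_mul' (l6b_v_nat v _) (le_vmax v x j)
    _ = vmax v x := one_mul _

include hA in
/-- **The projection at the point.** -/
theorem exists_pointproj (h : IsFF κ L) (hab : a ≤ b)
    (hspan : 9 * (a : ℤ) * gh κ A + 3 * a * X.Δ < height κ X.x) {u : Fin 3 → Fin (n + 1) → ℕ}
    {m : ℕ} {P : MvPolynomial (Fin 3) M} {Q : Fin (n + 1) → MvPolynomial (Fin 3) M}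
    (hP : ProjId (mp L M A) (fun j => mp L M (X.B A j)) u m P Q) :
    height κ X.x ≤ c6 b * (gh κ A + X.Δ) ∨
    ∃ (ω : L) (Ph : MvPolynomial (Fin 3) L) (Qh : Fin (n + 1) → MvPolynomial (Fin 3) L)
      (y₁ y : L) (τ : Place κ L → ℕ), ω ≠ 0 ∧ Ph.IsHomogeneous m ∧
      (∀ j, (Qh j).IsHomogeneous m) ∧
      MvPolynomial.map (algebraMap L M) Ph = MvPolynomial.C (algebraMap L M ω) * P ∧
      (∀ j, MvPolynomial.map (algebraMap L M) (Qh j) =
        MvPolynomial.C (algebraMap L M ω) * Q j) ∧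
      Irreducible (deh Ph) ∧ (deh Ph).natDegree = m ∧
      (deh Ph).evalEval y₁ y = 0 ∧ (derivative (deh Ph)).evalEval y₁ y ≠ 0 ∧
      (Function.support τ).Finite ∧ ∑ᶠ w, (τ w : ℤ) ≤ 4 * cQ b * (gh κ A + X.Δ) ∧
      (∀ w : Place κ L, gg w.1 (deh Ph) ≤ exp (τ w : ℤ)) ∧
      (∀ w : Place κ L, ∀ j, gg w.1 (deh (Qh j)) ≤ exp (τ w : ℤ)) ∧
      (∀ w : Place κ L, w.1 y ≤ exp (τ w : ℤ) * max 1 (w.1 y₁)) ∧
      height κ X.x ≤ 2 * b * height κ ![1, y₁] + c6 b * (gh κ A + X.Δ) ∧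
      ∀ (D : ℕ) (c : (Fin (n + 1) →₀ ℕ) → L), Fval D c X.x ≠ 0 →
        (FB D c (fun j => deh (Qh j))).evalEval y₁ y ≠ 0 ∧
        ∀ w : Place κ L, w.1 (Fval D c X.x) = vmax w.1 X.x ^ D →
          w.1 ((derivative (deh Ph)).evalEval y₁ y) ^ D ≤
            w.1 ((FB D c (fun j => deh (Qh j))).evalEval y₁ y) := by
  by_cases hht : height κ X.x ≤ c6 b * (gh κ A + X.Δ)
  · exact Or.inl hht
  refine Or.inr ?_
  push Not at hht
  have hG : 0 ≤ gh κ A := gh_nonneg h hA.irr.ne_zero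
  have hD : 0 ≤ X.Δ := X.Δ_nonneg
  have hm1 : 1 ≤ m := hP.one_le
  have hm2 : m ≤ 2 * a := proj_deg_le X hA h hspan hP
  have hm3 : m ≤ 2 * b := hm2.trans (by omega)
  have haG : 0 ≤ (a : ℤ) * gh κ A := mul_nonneg (Int.natCast_nonneg _) hG
  have haD : 0 ≤ (a : ℤ) * X.Δ := mul_nonneg (Int.natCast_nonneg _) hD
  have hlin : (a : ℤ) * gh κ A + a * (2 * gh κ A + X.Δ) < height κ X.x := by
    nlinarith
  have hN := nondeg_dat (M := M) X hA h hlin
  have hAb : Box b A := ⟨hA.box.1.trans hab, fun i => (hA.box.2 i).trans hab⟩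
  have hBb : ∀ j, Box b (X.B A j) := fun j =>
    ⟨(X.B_box hA j).1.trans hab, fun i => ((X.B_box hA j).2 i).trans hab⟩
  obtain ⟨ω, Ph, Qh, hω, hhom, hQh, hmP, hmQ, hcoef, hirr, hdeg, hdvd, hdvdQ, hndvd, hnd0,
    hbound⟩ := exists_descent hAb hBb hN hP
  set z : Fin 3 → L := ux u X.x with hz
  -- sizes
  have hsz : ∀ w : Place κ L, (∀ I, w.1 (Ph.coeff I) ≤ exp ((cQ b * sg X A w : ℕ) : ℤ)) ∧
      ∀ j I, w.1 ((Qh j).coeff I) ≤ exp ((cQ b * sg X A w : ℕ) : ℤ) := by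
    intro w
    obtain ⟨h1, h2⟩ := hbound w.1 (sg X A w) (gg_le_sg X hA w).1 (gg_le_sg X hA w).2
    have h3 : exp ((cP b m * sg X A w : ℕ) : ℤ) ≤ exp ((cQ b * sg X A w : ℕ) : ℤ) := by
      rw [exp_le_exp]
      exact_mod_cast Nat.mul_le_mul_right _ (cP_le_cQ hm3)
    exact ⟨fun I => (h1 I).trans h3, fun j I => (h2 j I).trans h3⟩
  obtain ⟨hsg1, hsg2⟩ := sg_sum X hA h
  have hρ1 : (Function.support fun w : Place κ L => cQ b * sg X A w).Finite := by
    refine hsg1.subset fun w hw h0 => hw ?_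
    simp only
    rw [h0, mul_zero]
  have hρ2 : ∑ᶠ w : Place κ L, ((cQ b * sg X A w : ℕ) : ℤ) =
      cQ b * (2 * gh κ A + X.Δ) := by
    rw [← hsg2, mul_finsum]
    refine finsum_congr fun w => ?_
    push_cast
    ring
  have hωb : ∀ w : Place κ L, w.1 ω ≤ exp ((cQ b * sg X A w : ℕ) : ℤ) := by
    intro w
    rw [← hcoef]
    exact (hsz w).1 _
  obtain ⟨hτ1, hτ2⟩ := tq_sum (b := b) X hA h hω hωb
  have htq : ∀ w : Place κ L, exp ((cQ b * sg X A w : ℕ) : ℤ) ≤ exp (tq X b A ω w : ℤ) := by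
    intro w
    rw [exp_le_exp]
    unfold tq
    exact_mod_cast Nat.le_add_right _ _
  -- the first coordinate does not vanish
  have hz0 : z 0 ≠ 0 := by
    have h1 := eval_ne_zero X hA h (u := u) (m := 1) (P := MvPolynomial.X 0)
      (MvPolynomial.isHomogeneous_X L 0) (by rwa [MvPolynomial.aeval_X]) (ρ := fun _ => 0)
      (by simp) (fun w I => by
        classical
        rw [MvPolynomial.coeff_X]
        split_ifs
        · simp
        · simp) (by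
        have h2 : ∑ᶠ w : Place κ L, (((fun _ => 0 : Place κ L → ℕ) w : ℕ) : ℤ) = 0 := by simp
        rw [h2]
        push_cast
        linarith)
    rwa [MvPolynomial.eval_X] at h1
  have hpd : MvPolynomial.eval z (MvPolynomial.pderiv 2 Ph) ≠ 0 := by
    refine eval_ne_zero X hA h (u := u) (m := m - 1) (pderiv_hom hhom) hndvd
      (ρ := fun w => cQ b * sg X A w) hρ1 (fun w I => pderiv_coeff_le w.1 (hsz w).1 I) ?_
    rw [hρ2]
    refine lt_of_le_of_lt ?_ hht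
    have h1 : ((m - 1 : ℕ) : ℤ) ≤ 2 * b := by
      have : m - 1 ≤ 2 * b := by omega
      exact_mod_cast this
    have h2 : (a : ℤ) ≤ b := by exact_mod_cast hab
    have h3 : (0 : ℤ) ≤ ((m - 1 : ℕ) : ℤ) := Int.natCast_nonneg _
    have h4 : (0 : ℤ) ≤ a := Int.natCast_nonneg _
    have h5 : (0 : ℤ) ≤ b := Int.natCast_nonneg _
    have h6 : (0 : ℤ) ≤ cQ b := Int.natCast_nonneg _
    have h7 : ((m - 1 : ℕ) : ℤ) * a ≤ 2 * b * b := mul_le_mul h1 h2 h4 (by positivity)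
    have h8 : ((m - 1 : ℕ) : ℤ) * a * gh κ A ≤ 2 * b * b * (gh κ A + X.Δ) :=
      mul_le_mul h7 (by linarith) hG (by positivity)
    have h9 : (2 * gh κ A + X.Δ) ≤ 2 * (gh κ A + X.Δ) := by linarith
    have h10 : 0 ≤ 2 * gh κ A + X.Δ := by linarith
    have h11 : (a : ℤ) * (cQ b * (2 * gh κ A + X.Δ)) ≤ b * (cQ b * (2 * (gh κ A + X.Δ))) :=
      mul_le_mul h2 (mul_le_mul_of_nonneg_left h9 h6) (mul_nonneg h6 h10) h5
    have h12 : ((m - 1 : ℕ) : ℤ) * a * (2 * gh κ A + X.Δ) ≤ 2 * b * b * (2 * (gh κ A + X.Δ)) :=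
      mul_le_mul h7 h9 h10 (by positivity)
    have h13 : (0 : ℤ) ≤ cQ b * (gh κ A + X.Δ) := mul_nonneg h6 (by linarith)
    have h14 : (0 : ℤ) ≤ b * (cQ b * (gh κ A + X.Δ)) := mul_nonneg h5 h13
    have h15 : (c6 b : ℤ) * (gh κ A + X.Δ) = 6 * b * b * (gh κ A + X.Δ) +
        10 * (b * (cQ b * (gh κ A + X.Δ))) + 2 * (cQ b * (gh κ A + X.Δ)) := by
      unfold c6
      push_cast
      ring
    rw [h15]
    calc ((m - 1 : ℕ) : ℤ) * a * gh κ A +
          a * (cQ b * (2 * gh κ A + X.Δ) + ((m - 1 : ℕ) : ℤ) * (2 * gh κ A + X.Δ)) =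
        ((m - 1 : ℕ) : ℤ) * a * gh κ A + (a : ℤ) * (cQ b * (2 * gh κ A + X.Δ)) +
          ((m - 1 : ℕ) : ℤ) * a * (2 * gh κ A + X.Δ) := by ring
      _ ≤ 2 * b * b * (gh κ A + X.Δ) + b * (cQ b * (2 * (gh κ A + X.Δ))) +
          2 * b * b * (2 * (gh κ A + X.Δ)) := add_le_add (add_le_add h8 h11) h12
      _ ≤ _ := by linarith
  -- evaluation at the point
  have hα : (derivative A).evalEval X.y₁ X.y ≠ 0 := hA.der
  have hBe := fun j => X.B_eval hA j
  have hev : ∀ {G : L[X][X]}, A ∣ G → G.evalEval X.y₁ X.y = 0 := by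
    rintro G ⟨T, rfl⟩
    rw [show (A * T).evalEval X.y₁ X.y = A.evalEval X.y₁ X.y * T.evalEval X.y₁ X.y from
      map_mul (evalEvalRingHom X.y₁ X.y) A T, hA.zero, zero_mul]
  have hz1 : MvPolynomial.eval z Ph = 0 := by
    have h1 := hev hdvd
    rw [aeval_value hBe u hhom] at h1
    exact (mul_eq_zero.1 h1).resolve_left (pow_ne_zero _ hα)
  have hz2 : ∀ j, MvPolynomial.eval z (Qh j) =
      MvPolynomial.eval z (MvPolynomial.pderiv 2 Ph) * X.x j := by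
    intro j
    have h1 := hev (hdvdQ j)
    rw [show (MvPolynomial.aeval (ub u (X.B A)) (Qh j) -
        MvPolynomial.aeval (ub u (X.B A)) (MvPolynomial.pderiv 2 Ph) * X.B A j).evalEval
          X.y₁ X.y = (MvPolynomial.aeval (ub u (X.B A)) (Qh j)).evalEval X.y₁ X.y -
        (MvPolynomial.aeval (ub u (X.B A)) (MvPolynomial.pderiv 2 Ph)).evalEval X.y₁ X.y *
          (X.B A j).evalEval X.y₁ X.y from by
        change evalEvalRingHom X.y₁ X.y _ = evalEvalRingHom X.y₁ X.y _ -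
          evalEvalRingHom X.y₁ X.y _ * evalEvalRingHom X.y₁ X.y _
        rw [map_sub, map_mul], aeval_value hBe u (hQh j), aeval_value hBe u (pderiv_hom hhom),
      ← hBe j] at h1
    have h2 : (derivative A).evalEval X.y₁ X.y ^ m =
        (derivative A).evalEval X.y₁ X.y ^ (m - 1) * (derivative A).evalEval X.y₁ X.y := by
      rw [← pow_succ, Nat.sub_add_cancel hm1]
    refine mul_left_cancel₀ (pow_ne_zero m hα) ?_
    have h3 := sub_eq_zero.1 h1
    rw [h3, h2]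
    ring
  have hroot : (deh Ph).evalEval (z 1 / z 0) (z 2 / z 0) = 0 := by
    have h1 := eval_norm hz0 hhom
    rw [hz1] at h1
    exact (mul_eq_zero.1 h1).resolve_right (pow_ne_zero _ hz0)
  have hder : (derivative (deh Ph)).evalEval (z 1 / z 0) (z 2 / z 0) ≠ 0 := by
    intro h0
    have h1 := eval_der_norm hz0 hhom
    rw [h0, zero_mul] at h1
    exact hpd h1.symm
  have hy : ∀ w : Place κ L, w.1 (z 2 / z 0) ≤ exp (tq X b A ω w : ℤ) *
      max 1 (w.1 (z 1 / z 0)) := by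
    intro w
    exact root_le w.1 hhom hcoef hω (hsz w).1 hroot
  refine ⟨ω, Ph, Qh, z 1 / z 0, z 2 / z 0, tq X b A ω, hω, hhom, hQh, hmP, hmQ, hirr, hdeg,
    hroot, hder, hτ1, hτ2, ?_, ?_, hy, ?_, ?_⟩
  · intro w
    exact l6b_gg_deh w.1 hhom fun I => ((hsz w).1 I).trans (htq w)
  · intro w j
    exact l6b_gg_deh w.1 (hQh j) fun I => ((hsz w).2 j I).trans (htq w)
  · have h1 := height_le_proj h X.x_ne_zero hz0 (P := Ph) hQh hz2 hpd hρ1 hτ1
      (fun w => (hsz w).2) hy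
    rw [hρ2] at h1
    have h2 : 0 ≤ height κ ![1, z 1 / z 0] := h.height_nonneg (by
      intro h0
      have := congrFun h0 0
      simp at this)
    have h3 : (m : ℤ) ≤ 2 * b := by exact_mod_cast hm3
    have h4 : (m : ℤ) * height κ ![1, z 1 / z 0] ≤ 2 * b * height κ ![1, z 1 / z 0] :=
      mul_le_mul_of_nonneg_right h3 h2
    have h5 : (0 : ℤ) ≤ cQ b := Int.natCast_nonneg _
    have h6 : (0 : ℤ) ≤ b := Int.natCast_nonneg _
    have h7 : (0 : ℤ) ≤ cQ b * (gh κ A + X.Δ) := mul_nonneg h5 (by linarith)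
    have h8 : (m : ℤ) * ∑ᶠ w, (tq X b A ω w : ℤ) ≤ 2 * b * (4 * cQ b * (gh κ A + X.Δ)) := by
      refine (mul_le_mul_of_nonneg_left hτ2 (Int.natCast_nonneg _)).trans ?_
      refine mul_le_mul_of_nonneg_right h3 ?_
      linarith
    have h9 : (cQ b : ℤ) * (2 * gh κ A + X.Δ) ≤ 2 * (cQ b * (gh κ A + X.Δ)) := by
      have : (cQ b : ℤ) * (2 * gh κ A + X.Δ) ≤ cQ b * (2 * (gh κ A + X.Δ)) :=
        mul_le_mul_of_nonneg_left (by linarith) h5
      linarith
    have h10 : (0 : ℤ) ≤ b * (cQ b * (gh κ A + X.Δ)) := mul_nonneg h6 h7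
    have h11 : (0 : ℤ) ≤ b ^ 2 * (gh κ A + X.Δ) := mul_nonneg (by positivity) (by linarith)
    have h12 : (c6 b : ℤ) * (gh κ A + X.Δ) = 6 * (b ^ 2 * (gh κ A + X.Δ)) +
        10 * (b * (cQ b * (gh κ A + X.Δ))) + 2 * (cQ b * (gh κ A + X.Δ)) := by
      unfold c6
      push_cast
      ring
    rw [h12]
    have h13 : 2 * (b : ℤ) * (4 * cQ b * (gh κ A + X.Δ)) =
        8 * (b * (cQ b * (gh κ A + X.Δ))) := by ring
    rw [h13] at h8
    linarith
  · intro D c hF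
    obtain ⟨h1, h2⟩ := value_bound (d := D) (c := c) hz0 hm1 hhom hQh hz2
    refine ⟨fun h0 => ?_, fun w hw => h2 w.1 (fun i => l6b_z_le w.1 u X.x i) hw⟩
    rw [h0, zero_mul] at h1
    exact mul_ne_zero (pow_ne_zero _ hder) hF h1.symm

end Pool.Agent.Lib.MP_44a246_ntPC
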