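import Mathlib
import Pool.Agent.Lib.MP_44a246_ntC.C27
import Pool.Agent.Lib.MP_44a246_ntPC.L6b
import Pool.Agent.Lib.MP_44a246_ntPC.M8

/-!
The second main theorem on the curve, for all the projections of the curve to the plane: a point on
a curve of small height, whose image in one of the planes has many points on the boundary, has small
height.
-/

namespace Pool.Agent.Lib.MP_44a246_ntPC

open Pool.Agent.Lib.MP_e52354_nt
open Pool.Agent.Lib.MP_44a246_nt
open Pool.Agent.Lib.MP_44a246_ntL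
open Pool.Agent.Lib.MP_44a246_ntS
open Pool.Agent.Lib.MP_44a246_ntX
open Pool.Agent.Lib.MP_44a246_ntG
open Pool.Agent.Lib.MP_44a246_ntY
open Pool.Agent.Lib.MP_44a246_ntC
open Pool.Agent.Lib.MP_44a246_ntE
open WithZero Module Polynomial

universe u v w x

/-- the constant of the second main theorem on the curve -/
noncomputable def c3 (b D : ℕ) : ℕ :=
  c6 b + 2 * b * (cE3 (2 * b) (D * (2 * b)) D * (1 + (D + 1) * (4 * cQ b)))

/-- homogeneity of the boundary form -/
private theorem l6_FB_smul {F : Type*} [Field F] {n : ℕ} (D : ℕ) (c : (Fin (n + 1) →₀ ℕ) → F)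
    (B : Fin (n + 1) → F[X][X]) (r : F[X][X]) :
    FB D c (fun j => r * B j) = r ^ D * FB D c B := by
  unfold FB
  rw [Finset.mul_sum]
  refine Finset.sum_congr rfl fun I hI => ?_
  have hdeg : ∑ j, I j = D := by
    have := mem_expo.1 hI
    rwa [Finsupp.degree_eq_sum] at this
  simp only [mul_pow]
  rw [Finset.prod_mul_distrib, Finset.prod_pow_eq_pow_sum, hdeg]
  ring

/-- the dehomogenisation of a multiple, after extension of the field -/
private theorem l6_ex_deh {L M : Type*} [Field L] [Field M] [Algebra L M] {ω : L}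
    {Ph : MvPolynomial (Fin 3) L} {P : MvPolynomial (Fin 3) M}
    (h : MvPolynomial.map (algebraMap L M) Ph = MvPolynomial.C (algebraMap L M ω) * P) :
    ex M (deh Ph) = C (C (algebraMap L M ω)) * deh P := by
  have h1 : ex M (deh Ph) = mp L M (deh Ph) := rfl
  rw [h1, mp_deh, h]
  unfold deh
  rw [map_mul, MvPolynomial.aeval_C]
  rfl

private theorem l6_arith {S α G k E c6' b' c h y : ℤ} (hS : 0 ≤ S) (hα : 0 ≤ α) (hG : 0 ≤ G)
    (hk : 0 ≤ k) (hE : 0 ≤ E) (hc : 0 ≤ c6') (hb : 0 ≤ b') (h1 : h ≤ b' * y + c6' * G)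
    (h2 : y ≤ E * (S + (α + k * G))) (hcd : c = c6' + b' * (E * (1 + k))) :
    h ≤ c * (S + (α + G)) := by
  have h3 : b' * y ≤ b' * (E * (S + (α + k * G))) := mul_le_mul_of_nonneg_left h2 hb
  have h4 : 0 ≤ c6' * (S + α) := by positivity
  have h5 : 0 ≤ b' * (E * (k * (S + α) + G)) := by positivity
  rw [hcd]
  nlinarith

/-- **The second main theorem on the curve, for the projections.** -/
theorem curve_smt3 {κ : Type u} {K : Type v} [Field κ] [IsAlgClosed κ] [CharZero κ] [Field K]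
    [Algebra κ K] (hK : IsFF κ K) :
    ∃ C : ℕ, ∀ (L : Type w) (M : Type x) [Field L] [CharZero L] [Algebra κ L] [Algebra K L]
      [IsScalarTower κ K L] [FiniteDimensional K L] [Field M] [Algebra κ M] [Algebra L M]
      [IsScalarTower κ L M] [IsAlgClosed M] [Algebra.IsAlgebraic L M]
      {n d b D : ℕ} (X : DatG κ (L := L) n d) {a : ℕ} {A : L[X][X]} (_ : CrvG X a A) (_ : a ≤ b)
      (_ : 9 * (a : ℤ) * gh κ A + 3 * a * X.Δ < height κ X.x)
      {c : (Fin (n + 1) →₀ ℕ) → L} (_ : Fval D c X.x ≠ 0)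
      {ε α : Place κ L → ℕ} (_ : (Function.support ε).Finite) (_ : (Function.support α).Finite)
      (_ : ∀ w : Place κ L, w.1 (Fval D c X.x) = vmax w.1 X.x ^ D ∨ 1 ≤ ε w)
      (_ : ∀ I ∈ expo (Fin (n + 1)) D, ∀ w : Place κ L, w.1 (c I) ≤ exp (α w : ℤ)),
      (D ≠ 0 ∧ height κ X.x ≤ c3 b D * (∑ᶠ w, (ε w : ℤ) + (ramDeg κ L K : ℤ) +
        C * finrank K L + (∑ᶠ w, (α w : ℤ) + gh κ A + X.Δ))) ∨
      FewZ (mp L M A) (fun j => mp L M (X.B A j)) D (fun I => algebraMap L M (c I)) := by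
  -- as `curve_smt` (MP_44a246_ntC/C27): `C` of `moving_curve_rel3` (M8). Assume that `FewZ` is
  -- false: `u`, `m`, `P`, `Q`, `hP : ProjId ..`, `E` with `3 * m ≤ E.card`.
  -- `D ≠ 0`: otherwise the value of the form at a point of `E` is the constant `c 0`
  -- (`Fval_zero_deg` in C27, `FB_eval`), which is not `0` (`1 ≤ m` by `hP.one_le`, so `E` is not
  -- empty).
  -- `exists_pointproj` (L6b): the first alternative gives the claim (`c6 b ≤ c3 b D`, all terms are
  -- at least `0`). In the second apply `moving_curve_rel3` to `A := deh Ph`,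
  -- `Φ := FB D c (fun j => deh (Qh j))`, `b := 2 * b` (`deh_box`, `proj_deg_le`),
  -- `e := D * (2 * b)` (`box_FB`), `d := D`, `τ' w := α w + (D + 1) * τ w` (`FB_le`), `P := hε.toFinset`,
  -- `A₁ := deh P`: `ex M (deh Ph) = mp L M (deh Ph) = deh (map Ph) = C (C ω) * deh P`
  -- (`mp_deh` in L3a; `ex M` and `mp L M` are both the map of the coefficients, `rfl`),
  -- `hP.natDegree`; and `ex M Φ = C (C ω ^ D) * FB D .. (fun j => deh (Q j))` (`ex_FB` in Y63;
  -- the form is homogeneous of degree `D`).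
  classical
  obtain ⟨C', hC⟩ := moving_curve_rel3.{u, v, w, x} hK
  refine ⟨C', ?_⟩
  intro L M _ _ _ _ _ _ _ _ _ _ _ _ n d b D X a A hCA hab hspan c hc ε α hε hα hεv ha
  have hL : IsFF κ L := hK.of_finite
  by_cases hF : FewZ (mp L M A) (fun j => mp L M (X.B A j)) D (fun I => algebraMap L M (c I))
  · exact Or.inr hF
  left
  unfold FewZ at hF
  push Not at hF
  obtain ⟨u, m, P, Q, hP, E, hinj, hE, hcard⟩ := hF
  have hm1 : 1 ≤ m := hP.one_le
  have hD0 : D ≠ 0 := by
    rintro rfl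
    obtain ⟨p, hp⟩ : E.Nonempty := Finset.card_pos.1 (by omega)
    obtain ⟨-, -, h7⟩ := hE p hp
    rw [FB_eval, Fval_zero_deg] at h7
    rw [Fval_zero_deg] at hc
    exact hc ((map_eq_zero _).1 h7)
  refine ⟨hD0, ?_⟩
  have hgh : 0 ≤ gh κ A := gh_nonneg hL hCA.irr.ne_zero
  have hΔ : 0 ≤ X.Δ := X.Δ_nonneg
  have hεs : (0 : ℤ) ≤ ∑ᶠ w, (ε w : ℤ) := finsum_nonneg fun w => Int.natCast_nonneg _
  have hαs : (0 : ℤ) ≤ ∑ᶠ w, (α w : ℤ) := finsum_nonneg fun w => Int.natCast_nonneg _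
  have hS : (0 : ℤ) ≤ ∑ᶠ w, (ε w : ℤ) + (ramDeg κ L K : ℤ) + C' * finrank K L := by
    have h1 : (0 : ℤ) ≤ (ramDeg κ L K : ℤ) := Int.natCast_nonneg _
    have h2 : (0 : ℤ) ≤ (C' : ℤ) * finrank K L := by positivity
    linarith
  have hG : 0 ≤ gh κ A + X.Δ := add_nonneg hgh hΔ
  have hc3 : ((c3 b D : ℕ) : ℤ) = (c6 b : ℤ) + (2 * b : ℤ) *
      ((cE3 (2 * b) (D * (2 * b)) D : ℤ) * (1 + ((D : ℤ) + 1) * (4 * cQ b))) := by
    unfold c3
    push_cast
    ring
  rw [add_assoc (∑ᶠ w, (α w : ℤ))]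
  rcases exists_pointproj X hCA hL hab hspan hP with h1 | ⟨ω, Ph, Qh, y₁, y, τ, hω, hPh, hQh,
    hmapP, hmapQ, hirr, hdeg, hy0, hder, hτ, hτs, hgP, hgQ, hyle, hht, hval⟩
  · refine l6_arith (y := 0) hS hαs hG (k := ((D : ℤ) + 1) * (4 * cQ b)) (by positivity)
      (E := (cE3 (2 * b) (D * (2 * b)) D : ℤ)) (by positivity) (c6' := (c6 b : ℤ))
      (by positivity) (b' := (2 * b : ℤ)) (by positivity) (by linarith) (by positivity) hc3
  -- the sizes
  have s1 : (Function.support fun w => (α w : ℤ)).Finite := by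
    refine hα.subset fun w hw h0 => hw ?_
    simp only
    rw [h0, Nat.cast_zero]
  have s2 : (Function.support fun w => ((D : ℤ) + 1) * (τ w : ℤ)).Finite := by
    refine hτ.subset fun w hw h0 => hw ?_
    simp only
    rw [h0, Nat.cast_zero, mul_zero]
  have t1 : (Function.support fun w => α w + (D + 1) * τ w).Finite := by
    refine (hα.union hτ).subset fun w hw => ?_
    by_contra h0
    rw [Set.mem_union, not_or, Function.mem_support, Function.mem_support, not_not, not_not] at h0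
    apply hw
    simp only
    rw [h0.1, h0.2, mul_zero, add_zero]
  have t2 : ∑ᶠ w, ((α w + (D + 1) * τ w : ℕ) : ℤ) =
      ∑ᶠ w, (α w : ℤ) + ((D : ℤ) + 1) * ∑ᶠ w, (τ w : ℤ) := by
    have e : (fun w => ((α w + (D + 1) * τ w : ℕ) : ℤ)) =
        fun w => (α w : ℤ) + ((D : ℤ) + 1) * (τ w : ℤ) := by
      funext w
      push_cast
      ring
    rw [e, finsum_add_distrib s1 s2, ← mul_finsum]
  have hm2 : m ≤ 2 * b := (proj_deg_le X hCA hL hspan hP).trans (Nat.mul_le_mul_left 2 hab)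
  have hbox : ∀ {R : MvPolynomial (Fin 3) L}, R.IsHomogeneous m → Box (2 * b) (deh R) :=
    fun hR => ⟨(deh_box hR).1.trans hm2, fun i => ((deh_box hR).2 i).trans hm2⟩
  have hmono : ∀ w, (exp (τ w : ℤ) : ℤᵐ⁰) ≤ exp ((α w + (D + 1) * τ w : ℕ) : ℤ) := by
    intro w
    rw [exp_le_exp]
    have : τ w ≤ α w + (D + 1) * τ w := by nlinarith
    exact_mod_cast this
  have hgΦ : ∀ w : Place κ L, gg w.1 (FB D c (fun j => deh (Qh j))) ≤
      exp ((α w + (D + 1) * τ w : ℕ) : ℤ) := by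
    intro w
    refine (Pool.Agent.Lib.MP_44a246_ntS.FB_le w.1 (fun I hI => ha I hI w) (hgQ w)).trans ?_
    rw [← exp_nsmul, ← exp_add, nsmul_eq_mul, exp_le_exp]
    have h0 : (0 : ℤ) ≤ τ w := Int.natCast_nonneg _
    push_cast
    nlinarith
  obtain ⟨hΦ, hvalw⟩ := hval D c hc
  have hPw : ∀ w : Place κ L, w ∉ hε.toFinset →
      w.1 ((derivative (deh Ph)).evalEval y₁ y) ^ D ≤
        w.1 ((FB D c (fun j => deh (Qh j))).evalEval y₁ y) := by
    intro w hw
    rw [Set.Finite.mem_toFinset, Function.mem_support, not_not] at hw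
    refine hvalw w ?_
    rcases hεv w with h8 | h8
    · exact h8
    · omega
  have hωM : algebraMap L M ω ≠ 0 := (_root_.map_ne_zero _).2 hω
  have hex : ex M (deh Ph) = C (C (algebraMap L M ω)) * deh P := l6_ex_deh hmapP
  have hexΦ : ex M (FB D c (fun j => deh (Qh j))) = C (C (algebraMap L M ω)) ^ D *
      FB D (fun I => algebraMap L M (c I)) (fun j => deh (Q j)) := by
    rw [ex_FB, ← l6_FB_smul]
    congr 1
    funext j
    exact l6_ex_deh (hmapQ j)
  have hCC : ∀ (r s t : M), (C (C r) : M[X][X]).evalEval s t = r := by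
    intro r s t
    simp
  have hev0 : (deh P).evalEval (algebraMap L M y₁) (algebraMap L M y) = 0 := by
    have h2 : (ex M (deh Ph)).evalEval (algebraMap L M y₁) (algebraMap L M y) =
        algebraMap L M ((deh Ph).evalEval y₁ y) := m2_evalEval _ _ _ _
    rw [hex, evalEval_mul, hCC, hy0, map_zero] at h2
    exact (mul_eq_zero.1 h2).resolve_left hωM
  have hmain := hC L M (fun w => α w + (D + 1) * τ w) t1 (2 * b) (D * (2 * b)) D (deh Ph)
    (FB D c (fun j => deh (Qh j))) hirr (by rw [hdeg]; omega) (hbox hPh)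
    (box_FB D c fun j => hbox (hQh j)) (fun w => (hgP w).trans (hmono w)) hgΦ y₁ y hy0 hΦ
    (fun w => (hyle w).trans (mul_le_mul' (hmono w) le_rfl)) hε.toFinset hPw (deh P) hP.irr
    ⟨C (C (algebraMap L M ω)), by rw [hex, mul_comm]⟩ (by rw [hP.natDegree.1]; omega) hev0 E hinj
    (fun p hp => by
      obtain ⟨p1, p2, p3⟩ := hE p hp
      refine ⟨p1, ?_, ?_⟩
      · rw [hex, derivative_C_mul, evalEval_mul, hCC]
        exact mul_ne_zero hωM p2
      · rw [hexΦ, evalEval_mul, p3, mul_zero]) (by rw [hP.natDegree.1]; exact hcard)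
  rw [t2] at hmain
  have hcardε : (hε.toFinset.card : ℤ) ≤ ∑ᶠ w, (ε w : ℤ) := by
    rw [finsum_eq_sum_of_support_subset (s := hε.toFinset) _ (by
      intro w hw
      rw [Function.mem_support] at hw
      rw [Set.Finite.coe_toFinset, Function.mem_support]
      exact_mod_cast hw)]
    rw [Finset.card_eq_sum_ones]
    push_cast
    refine Finset.sum_le_sum fun w hw => ?_
    rw [Set.Finite.mem_toFinset, Function.mem_support] at hw
    have : 1 ≤ ε w := by omega
    exact_mod_cast this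
  have hD1 : (0 : ℤ) ≤ (D : ℤ) + 1 := by positivity
  have hτs' : ((D : ℤ) + 1) * ∑ᶠ w, (τ w : ℤ) ≤
      ((D : ℤ) + 1) * (4 * cQ b) * (gh κ A + X.Δ) := by
    calc ((D : ℤ) + 1) * ∑ᶠ w, (τ w : ℤ) ≤ ((D : ℤ) + 1) * (4 * cQ b * (gh κ A + X.Δ)) :=
          mul_le_mul_of_nonneg_left hτs hD1
      _ = _ := by ring
  refine l6_arith (y := height κ ![1, y₁]) hS hαs hG (k := ((D : ℤ) + 1) * (4 * cQ b))
    (by positivity) (E := (cE3 (2 * b) (D * (2 * b)) D : ℤ)) (by positivity)
    (c6' := (c6 b : ℤ)) (by positivity) (b' := (2 * b : ℤ)) (by positivity) hht ?_ hc3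
  refine hmain.trans (mul_le_mul_of_nonneg_left ?_ (Int.natCast_nonneg _))
  linarith

end Pool.Agent.Lib.MP_44a246_ntPC
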