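import Mathlib
import Pool.Agent.Lib.MP_44a246_ntE.E31
import Pool.Agent.Lib.MP_44a246_ntPC.L6a
import Pool.Agent.Lib.MP_44a246_ntY.Y62

/-!
Step C: the certificate over the algebraic closure.
-/

namespace Pool.Agent.Lib.MP_44a246_ntPC

open Pool.Agent.Lib.MP_e52354_nt
open Pool.Agent.Lib.MP_44a246_nt
open Pool.Agent.Lib.MP_44a246_ntL
open Pool.Agent.Lib.MP_44a246_ntS
open Pool.Agent.Lib.MP_44a246_ntX
open Pool.Agent.Lib.MP_44a246_ntG
open Pool.Agent.Lib.MP_44a246_ntE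
open WithZero Module Polynomial

section

variable {M : Type*} [Field M] {n : ℕ} {ι : Type*} {e : ι → ℕ}
  {v v' : ι → (Fin (n + 1) →₀ ℕ) → M} {d : ℕ} {a a' : (Fin (n + 1) →₀ ℕ) → M} {b b' : ℕ}
  {x : Fin (n + 1) → M}

/-- larger degrees -/
theorem CertWL.mono (hb : b ≤ b') (h : CertWL e v d a b x) : CertWL e v d a b' x := by
  -- as `certW_mono` (E30)
  obtain ⟨A, B, ξ₀, ξ₁, ξ₂, c', y₁, y, hi, hf, h1, h2, h3, h4, h5, h6, h7, h8, h9, h10, h11, h12,
    h13, h14⟩ := h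
  refine ⟨A, B, ξ₀, ξ₁, ξ₂, c', y₁, y, hi, hf, ⟨h1.1.trans hb, fun i => (h1.2 i).trans hb⟩,
    fun j => ⟨(h2 j).1.trans hb, fun i => ((h2 j).2 i).trans hb⟩, h3, h4, h5, h6, h7, h8, h9, h10,
    h11, h12, h13, fun u => ?_⟩
  obtain ⟨P, hP0, hPh, hPd⟩ := h14 u
  refine ⟨MvPolynomial.X 0 ^ (2 * b' - 2 * b) * P,
    mul_ne_zero (pow_ne_zero _ (MvPolynomial.X_ne_zero _)) hP0, ?_, ?_⟩
  · have h := (MvPolynomial.isHomogeneous_X_pow (R := M) (0 : Fin 3) (2 * b' - 2 * b)).mul hPh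
    have he : 2 * b' - 2 * b + 2 * b = 2 * b' := by omega
    rwa [he] at h
  · rw [map_mul]
    exact dvd_mul_of_dvd_right hPd _

/-- congruence -/
theorem CertWL.congr (hv : ∀ i, ∀ I ∈ expo (Fin (n + 1)) (e i), v i I = v' i I)
    (ha : ∀ I ∈ expo (Fin (n + 1)) d, a I = a' I) (h : CertWL e v d a b x) :
    CertWL e v' d a' b x := by
  -- as `certW_congr` (E30), `FewZ.congr` (D0)
  obtain ⟨A, B, ξ₀, ξ₁, ξ₂, c, y₁, y, hi, hf, h1, h2, h3, h4, h5, h6, h7, h8, h9, h10, h11⟩ := h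
  refine ⟨A, B, ξ₀, ξ₁, ξ₂, c, y₁, y, hi, hf.congr ha, h1, h2, h3, h4, h5, h6, h7, h8, h9,
    fun i => ?_, h11⟩
  have : FB (e i) (v' i) B = FB (e i) (v i) B := by
    unfold FB
    refine Finset.sum_congr rfl fun I hI => ?_
    rw [hv i I hI]
  rw [this]
  exact h10 i

end

private theorem l7_aeval {L : Type*} [Field L] {D : ℕ} {P : MvPolynomial (Fin 3) L}
    (hP : P.IsHomogeneous D) (g : Fin 3 → L[X][X]) :
    MvPolynomial.aeval g P = FB (n := 2) D (fun I => P.coeff I) g := by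
  rw [MvPolynomial.aeval_def, MvPolynomial.eval₂_eq']
  unfold FB
  have hsub : P.support ⊆ expo (Fin 3) D := by
    intro I hI
    rw [mem_expo]
    by_contra hne
    exact (MvPolynomial.mem_support_iff.1 hI) (hP.coeff_eq_zero hne)
  rw [← Finset.sum_subset hsub]
  · rfl
  · intro I _ hI
    have h0 : P.coeff I = 0 := MvPolynomial.notMem_support_iff.1 hI
    simp only [h0, map_zero, zero_mul]

private theorem l7_ub {L L' : Type*} [Field L] [Field L'] (φ : L →+* L') {n : ℕ}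
    (u : Fin 3 → Fin (n + 1) → ℕ) (B : Fin (n + 1) → L[X][X]) (i : Fin 3) :
    m2 φ (ub u B i) = ub u (fun j => m2 φ (B j)) i := by
  unfold ub
  rw [map_sum]
  refine Finset.sum_congr rfl fun j _ => ?_
  rw [map_mul, m2_CC, map_natCast φ]

/-- the certificate is mapped to a certificate -/
private theorem l7_map {L L' : Type*} [Field L] [Field L'] (φ : L →+* L') {n b : ℕ} {ι : Type*}
    {e : ι → ℕ} {a : ι → (Fin (n + 1) →₀ ℕ) → L} {x : Fin (n + 1) → L} {d : ℕ}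
    {f : (Fin (n + 1) →₀ ℕ) → L'} {A : L[X][X]} {B : Fin (n + 1) → L[X][X]}
    {ξ₀ ξ₁ ξ₂ : Fin (n + 1) → L} {c y₁ y : L} (hirr : Irreducible (m2 φ A))
    (hfew : FewZ (m2 φ A) (fun j => m2 φ (B j)) d f)
    (h : Box b A ∧ (∀ j, Box b (B j)) ∧ c ≠ 0 ∧
    ∑ j, ξ₀ j * (c * x j) = 1 ∧ ∑ j, ξ₁ j * (c * x j) = y₁ ∧ ∑ j, ξ₂ j * (c * x j) = y ∧
    A.evalEval y₁ y = 0 ∧ (derivative A).evalEval y₁ y ≠ 0 ∧
    (∀ j, (derivative A).evalEval y₁ y * (c * x j) = (B j).evalEval y₁ y) ∧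
    (∀ i, A ∣ FB (e i) (a i) B) ∧ A ∣ ∑ j, C (C (ξ₀ j)) * B j - derivative A ∧
    A ∣ ∑ j, C (C (ξ₁ j)) * B j - C X * derivative A ∧
    A ∣ ∑ j, C (C (ξ₂ j)) * B j - X * derivative A ∧
    ∀ u : Fin 3 → Fin (n + 1) → ℕ, ∃ P : MvPolynomial (Fin 3) L, P ≠ 0 ∧
      P.IsHomogeneous (2 * b) ∧ A ∣ MvPolynomial.aeval (ub u B) P) :
    CertWL e (fun i I => φ (a i I)) d f b (fun j => φ (x j)) := by
  obtain ⟨hA, hB, hc, h0, h1, h2, he, hd, hj, d1, d2, d3, d4, d5⟩ := h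
  refine ⟨m2 φ A, fun j => m2 φ (B j), fun j => φ (ξ₀ j), fun j => φ (ξ₁ j), fun j => φ (ξ₂ j),
    φ c, φ y₁, φ y, hirr, hfew, hA.m2 φ, fun j => (hB j).m2 φ, ?_, ?_, ?_, ?_, ?_, ?_, ?_, ?_, ?_,
    ?_, ?_, ?_⟩
  · exact (map_ne_zero φ).2 hc
  · rw [← map_one φ, ← h0, map_sum]
    simp only [map_mul]
  · rw [← h1, map_sum]
    simp only [map_mul]
  · rw [← h2, map_sum]
    simp only [map_mul]
  · rw [m2_evalEval, he, map_zero]
  · rw [← m2_derivative, m2_evalEval]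
    exact (map_ne_zero φ).2 hd
  · intro j
    rw [← m2_derivative, m2_evalEval, m2_evalEval, ← map_mul, ← map_mul, hj j]
  · intro i
    rw [← m2_FB]
    exact map_dvd (m2 φ) (d1 i)
  · have := map_dvd (m2 φ) d2
    rw [map_sub, map_sum, m2_derivative] at this
    simpa only [map_mul, m2_CC] using this
  · have := map_dvd (m2 φ) d3
    rw [map_sub, map_sum, map_mul, m2_derivative] at this
    have hCX : m2 φ (C X) = C X := by simp [m2]
    rw [hCX] at this
    simpa only [map_mul, m2_CC] using this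
  · have := map_dvd (m2 φ) d4
    rw [map_sub, map_sum, map_mul, m2_derivative] at this
    have hX : m2 φ X = X := by simp [m2]
    rw [hX] at this
    simpa only [map_mul, m2_CC] using this
  · intro u
    obtain ⟨P, hP0, hPh, hPd⟩ := d5 u
    refine ⟨MvPolynomial.map φ P, ?_, hPh.map φ, ?_⟩
    · intro h0
      exact hP0 (MvPolynomial.map_injective φ φ.injective (by rw [h0, map_zero]))
    · rw [l7_aeval hPh] at hPd
      rw [l7_aeval (hPh.map φ)]
      have := map_dvd (m2 φ) hPd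
      rw [m2_FB] at this
      have h3 : FB (n := 2) (2 * b) (fun I => (MvPolynomial.map φ P).coeff I)
          (ub u fun j => m2 φ (B j)) = FB (n := 2) (2 * b) (fun I => φ (P.coeff I))
          (fun i => m2 φ (ub u B i)) := by
        unfold FB
        refine Finset.sum_congr rfl fun I _ => ?_
        have hc : (MvPolynomial.map φ P).coeff I = φ (P.coeff I) := MvPolynomial.coeff_map φ P I
        have hp : ∏ j, ub u (fun j => m2 φ (B j)) j ^ I j = ∏ j, (m2 φ (ub u B j)) ^ I j := by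
          refine Finset.prod_congr rfl fun i _ => ?_
          rw [l7_ub]
        simp only [hc, hp]
      rw [h3]
      exact this

variable {κ L : Type*} [Field κ] [IsAlgClosed κ] [CharZero κ] [Field L] [CharZero L]
  [Algebra κ L] {n d : ℕ} (X : DatG κ (L := L) n d) {b : ℕ} {A : L[X][X]} (hA : CrvG X b A)
  {M : Type*} [Field M] [IsAlgClosed M] [Algebra L M] [Algebra.IsAlgebraic L M]

include hA in
/-- **Step C, over the algebraic closure.** -/
theorem certWL_of (h : IsFF κ L) {τ : Place κ L → ℕ} (hτ : (Function.support τ).Finite)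
    {ι : Type*} {e : ι → ℕ} {a : ι → (Fin (n + 1) →₀ ℕ) → L}
    (ha : ∀ i, ∀ I ∈ expo (Fin (n + 1)) (e i), ∀ w : Place κ L, w.1 (a i I) ≤ exp (τ w : ℤ))
    (hz : ∀ i, Fval (e i) (a i) X.x = 0)
    (hh : ∀ i, (e i * b : ℤ) * gh κ A + b * (∑ᶠ w, (τ w : ℤ) + e i * (2 * gh κ A + X.Δ)) <
      height κ X.x)
    (hlin : 9 * (b : ℤ) * gh κ A + 3 * b * X.Δ < height κ X.x) {D : ℕ}
    {c : (Fin (n + 1) →₀ ℕ) → L}
    (hF : FewZ (mp L M A) (fun j => mp L M (X.B A j)) D (fun I => algebraMap L M (c I))) :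
    CertWL e (fun i I => algebraMap L M (a i I)) D (fun I => algebraMap L M (c I)) b
      (fun j => algebraMap L M (X.x j)) := by
  -- The certificate is `mp L M A`, `mp L M (X.B A j)`, ...: irreducible by `irreducible_mp` (E20).
  -- The other conditions: the proof of `stepCW` (E31) gives them over `L` for `A`, `X.B A`,
  -- `X.ξ₀`, `X.ξ₁`, `X.z`, `1`, `X.y₁`, `X.y` (copy it; the divisibilities `lin` are `dvd_lin` in
  -- Y62), and the proof of `certW_map` (E30) with `φ = algebraMap L M` maps them to `M`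
  -- (`mp L M` is `m2 (algebraMap L M)`, `rfl`).
  have hgA : 0 ≤ gh κ A := gh_nonneg h hA.irr.ne_zero
  have hΔ : 0 ≤ X.Δ := finsum_nonneg fun w => Int.natCast_nonneg _
  have hb0 : (0 : ℤ) ≤ b := Int.natCast_nonneg b
  have hlin1 : (b : ℤ) * gh κ A + b * (2 * gh κ A + X.Δ) < height κ X.x := by
    refine lt_of_le_of_lt ?_ hlin
    have h1 := mul_nonneg hb0 hgA
    have h2 := mul_nonneg hb0 hΔ
    nlinarith
  have hB : ∀ j, (X.B A j).natDegree ≤ b := fun j => (X.B_box hA j).1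
  obtain ⟨l0, l1, l2⟩ := MP_44a246_ntY.dvd_lin X hA h hlin1
  have hirr : Irreducible (m2 (algebraMap L M) A) :=
    irreducible_mp (F := M) hA.irr hA.zero hA.der
  refine l7_map (algebraMap L M) (A := A) (B := X.B A) (ξ₀ := fun j => (X.ξ₀ j : L))
    (ξ₁ := fun j => (X.ξ₁ j : L)) (ξ₂ := fun j => algebraMap κ L (X.z j)) (c := 1) (y₁ := X.y₁)
    (y := X.y) hirr hF ⟨hA.box, X.B_box hA, one_ne_zero, ?_, ?_, ?_,
    hA.zero, hA.der, ?_, ?_, l0, l1, l2, fun u => exists_proj_form_dat h X hA hlin u⟩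
  · simpa only [one_mul] using X.h0
  · simp only [one_mul]
    rfl
  · simp only [one_mul]
    rfl
  · intro j
    rw [one_mul]
    exact X.B_eval hA j
  · exact fun i => dvd_of_small X hA h (FB_natDegree hB) (gh_FB X hA h hτ (ha i))
      (FB_zero X hA (hz i)) (hh i)

end Pool.Agent.Lib.MP_44a246_ntPC
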