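import Mathlib
import Pool.Agent.Lib.MP_44a246_ntC.C29
import Pool.Agent.Lib.MP_44a246_ntI.I03
import Pool.Agent.Lib.MP_44a246_ntPC.L6
import Pool.Agent.Lib.MP_44a246_ntPC.L7

/-!
The height theorem over the base field for pairs, with Step A of an absolute constant: points of
large height lie on curves of small degree all of whose projections meet the boundary in few
points, or the truncated counting function is large.
-/

namespace Pool.Agent.Lib.MP_44a246_ntPC

open Pool.Agent.Lib.MP_44a246_ntR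
open Pool.Agent.Lib.MP_44a246_ntD
open Pool.Agent.Lib.MP_44a246_ntF
open Pool.Agent.Lib.MP_44a246_ntQ
open Pool.Agent.Lib.MP_44a246_nt
open Pool.Agent.Lib.MP_44a246_ntL
open Pool.Agent.Lib.MP_44a246_ntV
open Pool.Agent.Lib.MP_44a246_ntS
open Pool.Agent.Lib.MP_44a246_ntX
open Pool.Agent.Lib.MP_44a246_ntG
open Pool.Agent.Lib.MP_44a246_ntU
open Pool.Agent.Lib.MP_44a246_ntZ
open Pool.Agent.Lib.MP_44a246_ntK
open Pool.Agent.Lib.MP_44a246_ntY
open Pool.Agent.Lib.MP_44a246_ntC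
open Pool.Agent.Lib.MP_44a246_ntI
open Pool.Agent.Lib.MP_44a246_ntE
open Pool.Agent.Lib.MP_e52354_nt
open WithZero Module

private theorem h1_p2 (d D b M r s : ℕ) : (0 : ℤ) ≤ (d : ℤ) ^ 2 * (27 * (D : ℤ) ^ 2 +
    2 * b * (M : ℤ) + (3 + r) * ((3 + r) * (3 + r) + (s : ℕ))) := by positivity

private theorem h1_p10 (a C C₁ S f : ℕ) :
    (0 : ℤ) ≤ (a * (3 * C + C₁ + (S : ℤ))) * f := by positivity

private theorem h1_p7 (d D b M r s C f : ℕ) : (0 : ℤ) ≤ (d : ℤ) ^ 2 * ((27 * D ^ 2 + 2 * b * M +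
    (3 + r) * ((3 + r) * (3 + r) + (s : ℕ))) * (3 * C)) * f := by positivity

private theorem h1_k (d b M : ℕ) : (0 : ℤ) ≤ 27 * d ^ 2 + 2 * b * M := by positivity

private theorem h1_23 {d : ℤ} (h : 100 ≤ d) : 23 ≤ d ^ 2 := by nlinarith only [h]

universe u v w x y

/-- **The height theorem over the base field for pairs**, Step A with an absolute constant. -/
theorem heightP_baseI {κ : Type u} {K : Type v} [Field κ] [IsAlgClosed κ] [CharZero κ] [Field K]
    [CharZero K] [Algebra κ K] (hK : IsFF κ K) (htr : Cardinal.aleph0 ≤ Algebra.trdeg ℚ κ)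
    {k : Type*} [Field k] [CharZero k] [Algebra k K]
    (hk : Algebra.trdeg ℚ k < Cardinal.aleph0) {n p r ρ q σ D₀ D c s b k' p₁ P Q m : ℕ}
    {d : Fin p → ℕ} (hp : 1 ≤ p) (hr : 1 ≤ r) (hq : 1 ≤ q) (h4 : 4 * (ρ + q) ≤ σ)
    (hs : s + q + 3 ≤ σ) (hν : r + (c + q) ≤ (ρ + q) * D₀) (hb : 6 ≤ b) (hbD : 25 * σ * b ≤ D₀)
    (hkD : k' + s + r + 4 ≤ max (m + s) ((ρ + q) * D₀))
    (hkc : (c + q) + 11 ≤ k') (hkg : 9 * (c + q) + 700 * (ρ + q) ≤ 20 * k')
    (hp₁ : 20 * (r + 2 + (c + q)) < 9 * (k' - 1) * (p₁ + 1))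
    (hN : b * (r + 2) + 21 * ((p₁ + 1) * (r + 2) + (c + q) + (ρ + q)) +
      20 * b * (ρ + q) * (12 * b * (ρ + q) + 2 * b) + 20 * b * (p₁ + 1) ≤
        20 * b * (k' + r + 2 + (ρ + q)))
    (hms : ∀ A : Finset (Fin p), A.card = ρ + q → m + s ≤ ∑ j ∈ A, d j) (hd : ∀ j, D₀ ≤ d j)
    (hQ : Q ≤ D₀ ^ 2)
    {ι : Type y} [Finite ι] {e : ι → ℕ}
    (he : ∀ i, 4 * D₀ * e i ≤ Q ∨ D₀ * e i ≤ σ * P)
    {f : ι → MvPolynomial (Fin p ⊕ Fin (n + 1)) k}
    (hf : ∀ i, (f i).IsWeightedHomogeneous (wtP (n + 1) d) (e i))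
    (hI : ringKrullDim (MvPolynomial (Fin (n + 1)) k ⧸ imI f) ≤ ((r + 1 : ℕ) : ℕ))
    {g : Fin q → MvPolynomial (Fin p ⊕ Fin (n + 1)) k} {E : Fin q → ℕ}
    (hg : ∀ l, (g l).IsWeightedHomogeneous (wtP (n + 1) d) (E l)) (hE : ∑ l, E l = D)
    {S : Set (Place κ K)} (hS : S.Finite)
    {a : Fin p → (Fin (n + 1) →₀ ℕ) → K} {G : Finset (Fin p × (Fin (n + 1) →₀ ℕ))}
    (hcc : G.card ≤ c)
    (ha : AlgebraicIndependent k (fun s : {s // s ∈ jexpo n d ∧ s ∉ G} => a s.1.1 s.1.2)) :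
    ∃ C : ℕ, ∀ (L : Type w) [Field L] [Algebra K L] [FiniteDimensional K L]
      [Algebra κ L] [IsScalarTower κ K L] [Algebra k L] [IsScalarTower k K L]
      (x : Fin (n + 1) → L), x ≠ 0 →
      (∀ i, Fval (e i) (aWP d (fun j I => algebraMap K L (a j I)) f i) x = 0) →
      (∀ l, Fval (E l) (aWP d (fun j I => algebraMap K L (a j I)) g l) x ≠ 0) →
      JRank (ρ + q) (Sum.elim f g) (Sum.elim
        (fun j => Fval (d j) (fun I => algebraMap K L (a j I)) x) x : Fin p ⊕ Fin (n + 1) → L) →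
      s * height κ x < Set.ncard {w : Place κ L |
          (∀ v ∈ S, ¬ (w.1.comap (algebraMap K L)).IsEquiv v.1) ∧
          ∃ l, w.1 (Fval (E l) (aWP d (fun j I => algebraMap K L (a j I)) g l) x) <
            vmax w.1 x ^ E l} + ramDeg κ L K ∨
        (Q : ℤ) * height κ x ≤ C * finrank K L + P * ramDeg κ L K ∨
        (D ≠ 0 ∧ height κ x ≤ C * finrank K L + c3 b D * (Set.ncard {w : Place κ L |
          (∀ v ∈ S, ¬ (w.1.comap (algebraMap K L)).IsEquiv v.1) ∧
          ∃ l, w.1 (Fval (E l) (aWP d (fun j I => algebraMap K L (a j I)) g l) x) <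
            vmax w.1 x ^ E l} + 2 * ramDeg κ L K)) ∨
        (CertW e (aWP d (fun j I => algebraMap K L (a j I)) f) b x ∧
          ∀ (F : Type x) [Field F] [Algebra κ F] [Algebra L F] [IsScalarTower κ L F]
            [IsAlgClosed F] [Algebra.IsAlgebraic L F],
            CertWL e (fun i I => algebraMap L F
              (aWP d (fun j I => algebraMap K L (a j I)) f i I)) D
              (fun I => algebraMap L F (aWP d (fun j I => algebraMap K L (a j I))
                (fun _ : Unit => ∏ l, g l) () I)) b (fun j => algebraMap L F (x j))) := by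
  classical
  have := Fintype.ofFinite ι
  have hcq : Fintype.card (Fin q) = q := Fintype.card_fin q
  obtain ⟨C, β, hCb⟩ := exists_dataC.{u, v, w} (Λ := Fin q) (ρ := ρ) hK htr hk hf hI hg hS ha
  obtain ⟨C₁, hC₁⟩ := curve_smt3.{u, v, w, x} hK
  -- the poles of the coefficients of the boundary
  obtain ⟨A, hAs, hA⟩ := Pool.Agent.Lib.MP_44a246_ntV.exists_polesA hK
    (fun t : ↥(expo (Fin (n + 1)) D) => aWP d a (fun _ : Unit => ∏ l, g l) () t.1)
  obtain ⟨Dd, hDd⟩ : ∃ Dd : ℕ, ∀ j, d j ≤ Dd := ⟨∑ j, d j, fun j =>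
    Finset.single_le_sum (f := d) (fun _ _ => Nat.zero_le _) (Finset.mem_univ j)⟩
  obtain ⟨j₀, -, hj₀⟩ := Finset.exists_min_image (Finset.univ : Finset (Fin p)) d
    ⟨⟨0, hp⟩, Finset.mem_univ _⟩
  obtain ⟨M, hM⟩ : ∃ M, M = P / (23 * b) := ⟨_, rfl⟩
  have hMP : 23 * b * M ≤ P := by
    rw [hM]
    exact Nat.mul_div_le P (23 * b)
  refine ⟨d j₀ ^ 2 * ((27 * Dd ^ 2 + 2 * b * M + (3 + r) * ((3 + r) * (3 + r) + (c + q))) *
    (3 * C)) + c3 b D * (3 * C + C₁ + (∑ᶠ v, A v)), ?_⟩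
  intro L _ _ _ _ _ _ _ x hx hfx hgx hne
  rw [hcq] at hCb
  obtain ⟨Y, c', ε, τ, η, hc, hYx, hh, hΔ, hR, hηv, hη, hε, hηε, hεs, hv, hr', hτ, hτs, hco, hz⟩ :=
    hCb L x hx hfx hgx (Or.inl hne)
  have hL : IsFF κ L := hK.of_finite
  have hchar : CharZero L := charZero_of_injective_algebraMap (algebraMap K L).injective
  set N := Set.ncard {w : Place κ L |
          (∀ v ∈ S, ¬ (w.1.comap (algebraMap K L)).IsEquiv v.1) ∧
          ∃ l, w.1 (Fval (E l) (aWP d (fun j I => algebraMap K L (a j I)) g l) x) <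
            vmax w.1 x ^ E l} with hNdef
  rcases lt_or_ge (s * height κ x) ((N : ℤ) + (ramDeg κ L K : ℤ)) with hle | hgt
  · exact Or.inl hle
  right
  have hht : 0 ≤ height κ x := hL.height_nonneg hx
  have hfr : (0 : ℤ) ≤ finrank K L := Int.natCast_nonneg _
  have hE₀ : (0 : ℤ) ≤ C * finrank K L := by positivity
  have hN0 : (0 : ℤ) ≤ N := Int.natCast_nonneg _
  have hR0 : (0 : ℤ) ≤ ramDeg κ L K := Int.natCast_nonneg _
  have hΔ0 := Y.Δ_nonneg
  have hΘ : 0 ≤ ∑ᶠ w, (τ w : ℤ) := finsum_nonneg fun w => Int.natCast_nonneg _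
  have hc30 : (0 : ℤ) ≤ (c3 b D : ℤ) := Int.natCast_nonneg _
  have hρ : 1 ≤ ρ + q := by omega
  have hbσ : b ≤ σ * b := Nat.le_mul_of_pos_left _ (by omega)
  have hbs : b * (s + 3) + b * q ≤ σ * b := by
    rw [mul_comm σ b, ← Nat.mul_add]
    exact Nat.mul_le_mul_left _ (by omega)
  have hqb : q ≤ b * q := Nat.le_mul_of_pos_left _ (by omega)
  have hbρ : 4 * (b * (ρ + q)) ≤ σ * b := by
    have h1 := Nat.mul_le_mul_left b h4
    have h2 : b * (4 * (ρ + q)) = 4 * (b * (ρ + q)) := by ring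
    have h3 : b * σ = σ * b := by ring
    omega
  have h25 : 25 * (σ * b) ≤ D₀ := by
    have h1 : 25 * σ * b = 25 * (σ * b) := by ring
    omega
  have hD1 : 1 ≤ D₀ := by
    have h1 : 1 ≤ b := by omega
    omega
  have hmain := smallI_joint hL (r₀ := r) (b := b) (g := ρ + q) (k := k') (c := c + q)
    (l := ρ + q) (p₁ := p₁) (q := s) (M := M) (D := Dd) (d₀ := d j₀) (d := d) (Λ := Fin q) hb hr
    hρ hρ
    (fun j => by
      have h1 := hd j
      omega)
    (fun j => hν.trans (Nat.mul_le_mul_left _ (hd j)))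
    (fun j => by
      have h1 := hd j
      rw [hcq]
      omega)
    (fun A hA => by
      have h1 := hms A hA
      have h2 : (ρ + q) * D₀ ≤ ∑ j ∈ A, d j := by
        have h3 := Finset.card_nsmul_le_sum A d D₀ (fun j _ => hd j)
        rw [hA, smul_eq_mul] at h3
        exact h3
      have h3 : max (m + s) ((ρ + q) * D₀) ≤ ∑ j ∈ A, d j := max_le h1 h2
      omega)
    hkc hkg (by
      have h1 : 2 + r + (c + q) = r + 2 + (c + q) := by omega
      rw [h1]
      exact hp₁) (by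
      have h1 : b * (2 + r) + 21 * ((p₁ + 1) * (2 + r) + (c + q) + (ρ + q)) +
          20 * b * ((ρ + q) * (12 * (b * (ρ + q)) + 2 * b)) + 20 * b * (p₁ + 1) =
          b * (r + 2) + 21 * ((p₁ + 1) * (r + 2) + (c + q) + (ρ + q)) +
            20 * b * (ρ + q) * (12 * b * (ρ + q) + 2 * b) + 20 * b * (p₁ + 1) := by ring
      have h2 : 20 * b * (k' + (2 + r)) + 20 * b * (ρ + q) =
          20 * b * (k' + r + 2 + (ρ + q)) := by ring
      rw [h1, h2]
      exact hN)
    (fun j => hj₀ j (Finset.mem_univ j)) (hD1.trans (hd j₀)) hDd Y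
    (β := fun s : ↥G => algebraMap κ L (β s)) (by
      rw [Fintype.card_coe, hcq]
      omega)
    (fun s w => place_const_le w _) hη hε hηε hv hr'
    (E₀ := C * finrank K L) hE₀ (by
      rw [hR, hh]
      linarith) (Θ := ∑ᶠ w, (τ w : ℤ)) hΘ
  rcases hmain with h | ⟨j, ⟨a₁, A₁, P₁, h1, h2, h3, -, -, -, h7, h8, h9⟩, hbig⟩
  · left
    rw [hh, hR] at h
    have h1 : Y.Δ + C * finrank K L + ∑ᶠ w, (τ w : ℤ) ≤ 3 * C * finrank K L := by linarith
    have h2 : (0 : ℤ) ≤ (d j₀ : ℤ) ^ 2 * (27 * (Dd : ℤ) ^ 2 +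
        2 * b * (M : ℤ) + (3 + r) * ((3 + r) * (3 + r) + (c + q : ℕ))) := h1_p2 _ _ _ _ _ _
    have h3 := mul_le_mul_of_nonneg_left h1 h2
    have h5 : ((23 * b * M : ℕ) : ℤ) * (ramDeg κ L K : ℤ) ≤ P * ramDeg κ L K :=
      mul_le_mul_of_nonneg_right (by exact_mod_cast hMP) (Int.natCast_nonneg _)
    have h6 : (Q : ℤ) * height κ x ≤ (d j₀ : ℤ) ^ 2 * height κ x := by
      refine mul_le_mul_of_nonneg_right ?_ hht
      exact_mod_cast hQ.trans (Nat.pow_le_pow_left (hd j₀) 2)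
    have h10 : (0 : ℤ) ≤ (c3 b D * (3 * C + C₁ + ((∑ᶠ v, A v : ℕ) : ℤ))) * finrank K L :=
      h1_p10 _ _ _ _ _
    push_cast at h2 h3 h5 h ⊢
    linarith
  · -- the data of the curve
    have hΔj : (Y.blk j).Δ = Y.Δ := rfl
    have hRj : (Y.blk j).R = Y.R := rfl
    have hxj : (Y.blk j).x = Y.x := rfl
    have h100 : 100 * b ≤ d j := by
      have h11 := hd j
      have h12 : b * 4 ≤ σ * b := by
        have h13 : b * (4 * 1) ≤ b * (4 * (ρ + q)) :=
          Nat.mul_le_mul_left _ (Nat.mul_le_mul_left _ hρ)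
        have h14 : b * (4 * (ρ + q)) = 4 * (b * (ρ + q)) := by ring
        omega
      omega
    have hhi : ∀ i, (e i * a₁ : ℤ) * gh κ A₁ + a₁ * (∑ᶠ w, (τ w : ℤ) +
        e i * (2 * gh κ A₁ + (Y.blk j).Δ)) < height κ (Y.blk j).x := by
      intro i
      refine smallI_small hL (by omega) h100 (Y.blk j) h1 h2 h3 h8 h9 (M := M)
        (Θ := ∑ᶠ w, (τ w : ℤ)) hΘ ?_ ?_
      · have k1 : (0 : ℤ) ≤ (d j : ℤ) ^ 2 * ((27 * d j ^ 2 + 2 * b * M) * (C * finrank K L)) :=
          mul_nonneg (sq_nonneg _) (mul_nonneg (h1_k _ _ _) hE₀)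
        rw [hΔj, hRj, hxj]
        linarith
      · rcases he i with h11 | h11
        · left
          have h12 : 25 * (σ * b) * e i ≤ D₀ * e i := Nat.mul_le_mul_right _ h25
          have h13 : b * (s + 3) * e i ≤ σ * b * e i := Nat.mul_le_mul_right _ (by omega)
          have h14 : D₀ ^ 2 ≤ d j ^ 2 := Nat.pow_le_pow_left (hd j) 2
          have h15 : 25 * (σ * b) * e i = 25 * (σ * b * e i) := by ring
          have h16 : 4 * D₀ * e i = 4 * (D₀ * e i) := by ring
          omega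
        · right
          rw [hM, Nat.le_div_iff_mul_le (by omega)]
          have h12 : 25 * (σ * b) * e i ≤ D₀ * e i := Nat.mul_le_mul_right _ h25
          have h13 : σ * (25 * (b * e i)) ≤ σ * P := by
            refine le_trans (le_of_eq ?_) (h12.trans h11)
            ring
          have h14 := Nat.le_of_mul_le_mul_left h13 (by omega)
          have h15 : e i * (23 * b) = 23 * (b * e i) := by ring
          omega
    have hval : Fval D (aWP d (fun j I => algebraMap K L (a j I)) (fun _ : Unit => ∏ l, g l) ())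
        Y.x = ∏ l, η l := by
      rw [← hE, Fval_prod hg]
      exact Finset.prod_congr rfl fun l _ => (hηv l).symm
    have hne0 : Fval D (aWP d (fun j I => algebraMap K L (a j I)) (fun _ : Unit => ∏ l, g l) ())
        (Y.blk j).x ≠ 0 := by
      rw [hxj, hval]
      exact Finset.prod_ne_zero_iff.2 fun l _ => hη l
    obtain ⟨hA1, hA2⟩ := mason_sum_over hL hAs
    have hαf : (Function.support fun w : Place κ L => ramIdx K w.1 * A (below K w)).Finite := by
      refine hA1.subset fun w hw h0 => hw ?_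
      exact Int.natCast_eq_zero.1 h0
    have hεD : ∀ w : Place κ L, w.1 (Fval D (aWP d (fun j I => algebraMap K L (a j I))
        (fun _ : Unit => ∏ l, g l) ()) (Y.blk j).x) = vmax w.1 (Y.blk j).x ^ D ∨ 1 ≤ ε w := by
      intro w
      rcases hηε w with h1 | h1
      · left
        rw [hxj, hval, map_prod, Finset.prod_congr rfl (fun l _ => h1 l),
          Finset.prod_pow_eq_pow_sum, hE]
      · exact Or.inr h1
    have hcoef : ∀ I ∈ expo (Fin (n + 1)) D, ∀ w : Place κ L,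
        w.1 (aWP d (fun j I => algebraMap K L (a j I)) (fun _ : Unit => ∏ l, g l) () I) ≤
          exp ((ramIdx K w.1 * A (below K w) : ℕ) : ℤ) := by
      intro I hI w
      rw [← map_aWP d a (algebraMap K L) (fun u =>
        (IsScalarTower.algebraMap_apply k K L u).symm) _ () I]
      exact coef_le A (fun v => hA ⟨I, hI⟩ v) w
    by_cases hsm : D ≠ 0 ∧ height κ x ≤ (((d j₀ ^ 2 * ((27 * Dd ^ 2 + 2 * b * M +
        (3 + r) * ((3 + r) * (3 + r) + (c + q))) * (3 * C)) +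
          c3 b D * (3 * C + C₁ + (∑ᶠ v, A v)) : ℕ) : ℤ) *
        finrank K L + c3 b D * (N + 2 * ramDeg κ L K))
    · exact Or.inr (Or.inl hsm)
    refine Or.inr (Or.inr ⟨?_, ?_⟩)
    · rw [← certW_smul (e := e) (b := b) hc, ← hYx]
      exact certW_mono h2 (stepCW (Y.blk j) h3 hL hτ hco hz hhi h7)
    · intro F _ _ _ _ _ _
      rcases hC₁ L F (D := D) (b := b) (Y.blk j) h3 h2 h7 hne0 hε hαf hεD hcoef with
        ⟨hD0, h⟩ | h
      · exfalso
        rw [hxj, hh, hΔj, hA2] at h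
        refine hsm ⟨hD0, ?_⟩
        -- the height of the curve
        have hgh : gh κ A₁ ≤ C * finrank K L + ramDeg κ L K := by
          rw [hΔj, hRj, hR] at h9
          have e1 : (23 : ℤ) ≤ (d j : ℤ) ^ 2 := by
            have h2 : (100 : ℤ) ≤ d j := by
              have : 100 ≤ d j := by omega
              exact_mod_cast this
            exact h1_23 h2
          have e2 : (23 : ℤ) * ramDeg κ L K ≤ (d j : ℤ) ^ 2 * ramDeg κ L K :=
            mul_le_mul_of_nonneg_right e1 hR0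
          have e3 : (d j : ℤ) ^ 2 * (3 * gh κ A₁) ≤ (d j : ℤ) ^ 2 * (Y.Δ + ramDeg κ L K) := by
            linarith
          have e4 : 3 * gh κ A₁ ≤ Y.Δ + ramDeg κ L K :=
            le_of_mul_le_mul_left e3 (by linarith)
          have e5 : 0 ≤ gh κ A₁ := gh_nonneg hL h3.irr.ne_zero
          linarith
        have e3 : ∑ᶠ w, (ε w : ℤ) + (ramDeg κ L K : ℤ) + C₁ * finrank K L +
            (((∑ᶠ v, A v : ℕ) : ℤ) * finrank K L + gh κ A₁ + Y.Δ) ≤
            (3 * C + C₁ + ((∑ᶠ v, A v : ℕ) : ℤ)) * finrank K L +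
              (N + 2 * ramDeg κ L K) := by
          linarith
        have e4 := h.trans (mul_le_mul_of_nonneg_left e3 hc30)
        have e7 : (0 : ℤ) ≤ (d j₀ : ℤ) ^ 2 * ((27 * Dd ^ 2 + 2 * b * M +
            (3 + r) * ((3 + r) * (3 + r) + (c + q : ℕ))) * (3 * C)) *
            finrank K L := h1_p7 _ _ _ _ _ _ _ _
        push_cast at e7 ⊢
        linarith
      · have h4 := (certWL_of (Y.blk j) h3 hL hτ hco hz hhi h7 h).mono h2
        rw [hxj, hYx] at h4
        have h5 := h4.smul_of (r := (algebraMap L F c')⁻¹) (inv_ne_zero ((map_ne_zero _).2 hc))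
        have h6 : (fun j => (algebraMap L F c')⁻¹ * algebraMap L F (c' * x j)) =
            fun j => algebraMap L F (x j) := by
          funext j
          rw [map_mul, inv_mul_cancel_left₀ ((map_ne_zero _).2 hc)]
        rwa [h6] at h5

end Pool.Agent.Lib.MP_44a246_ntPC
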