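import Mathlib
import Pool.Agent.Lib.MP_44a246_ntPC.H3

/-!
# Vojta's inequality with truncated counting, up to a constant, for pairs given by generic forms
over function fields

Let `κ` be an algebraically closed field of characteristic zero and of infinite transcendence
degree over the rational numbers, `K` a function field of one variable over `κ`, and `k` a subfield
of `K` of finite transcendence degree over the rational numbers. Let `f i` (finitely many) and
`g 1, ..., g q` be polynomials over `k` in the variables `t_1, ..., t_p, x_0, ..., x_n`, weighted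
homogeneous of degrees `e i` and `E l`, all at most `D`, where `t_j` has the weight `d j` and the
`x_i` have the weight `1`. Let the closure `V` of the image in `P^n` of the zero set of the `f i`
have dimension at most `r` (the ideal of `V` is generated by the polynomials without
`t_1, ..., t_p` in the ideal of the `f i`). Let `H j` be forms of degree `d j` over `K` in
`x_0, ..., x_n`, whose coefficients generate a field of transcendence degree at least
(their number) `- c` over `k` (for `c = 0` this means that the coefficients are algebraically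
independent over `k`), and let `S` be a finite set of places of `K`. Let `X` be the set of all `x`
in `P^n` such that `f i (H (x), x) = 0` for all `i`, and let `Δ` be the union of its
subsets `g l (H (x), x) = 0`.

Let `m + s` be a lower bound for all sums of `ρ + q` of the degrees `d j`, and suppose

* (I) `b = 0`, `2 m + ρ ≥ 3 r + 4 + c` (or `2 m + ρ ≥ 3 r + 3 + c` and `m ≥ r + p + 2`, or
  `2 m + ρ ≥ 3 r + 3 + c` and `m + ρ ≥ 2 r + c + 2`), `m + ρ ≥ p + 3`,
  `(p + 6) (m + ρ) + 2 p m < (m + ρ) ^ 2 + 9 + 5 p`, and `B ≥ 2`, or
* (II) `r ≥ 2`, `σ ≥ 4 (ρ + q)`, `σ ≥ s + q + 3`, `150 σ ≤ D₀ ≤ 25 σ b`, all `d j` are at least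
  `D₀`, `(ρ + q) D₀ ≥ r + c + q` and `m ≥ r + c + q + 75 (ρ + q) σ`.

There is a constant `c₀`, which depends only on `p`, `q`, `b`, `B`, `D`, there are finitely many
forms `G` over `K`, whose set of common zeros has dimension at most `m' - 1`, where
`m' ≥ 2 r + B + c - ρ - (d j + ...)` in the case (I) and `m' ≥ 2 r + 2 + c - ρ - (d j + ...)` in
the case (II) for all sums of `ρ + q` of the degrees `d j`, and there is a constant `C` such that
for all finite extensions `L` of `K` and all points `x` of `X` outside `Δ` over `L` which are not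
common zeros of the forms `G`, and at which the matrix of the derivatives of the `f i` and the
`g l` with respect to the `t_j` has rank at least `ρ + q`, one has, with the number `N` of the
places of `L` which do not lie over `S` and at which `x` meets `Δ`,

* `s h(x) < N + deg Ram(L/K)`, or
* `(B + 1) h(x) ≤ 3 N + c₀ deg Ram(L/K) + C [L : K]` in the case (I), and
  `h(x) ≤ c₀ (N + deg Ram(L/K)) + C [L : K]` in the case (II).

In the case (I) the points which do not satisfy these inequalities lie on lines in `X` which meet
`Δ` in at most `B` points.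

Examples.
* `p = q = 1`, `ρ = 0`, `g = t`, and the equations `F l (x)` of an arbitrary variety `V` of
  dimension `r` in `P^n`: the pair of `V` and its section by the hypersurface `H = 0` of
  degree `d`. Here (I) gives: for all `K`-rational points of `V` outside the exceptional set one
  has `3 N ≥ (B + 1) h - C` or `N > s h`, if `m = d - s` satisfies `2 m ≥ 3 r + 3 + c` and
  `m ≥ 8`, `2 ≤ B ≤ d - r - c`, and (II) with `s = 1`, `σ = 5` gives the inequality up to a constant
  factor for all algebraic points if `d ≥ 750` and `d ≥ r + c + 377`: the degree has to be larger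
  than the dimension by a constant only (for `V = P^r` the pair is of log general type if and only
  if `d ≥ r + 2`). The exceptional set is contained in a set of dimension at most
  `2 r + c + 1 - d`, less than `r` if `d ≥ r + c + 2`. If all places have multiplicity
  at least `M`, then `N ≤ d h / M`: points of this kind for `M` large are degenerate.
* `q = 1` and `ρ = p - 1`: generic hypersurface sections of complete intersections.
* `q = p`, `ρ = 0`, `g l = t_l`: the boundary has the generic components `H_l = 0`.

Proof: As in the slope theorem; the derivatives of the values `H j (x)` along the coefficients of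
the `H j` are now combinations of the derivatives of the coordinates, of the other values and of
the logarithmic derivatives of the values `g l (H (x), x)`, which have poles only at the places
which are counted by `N`. This gives a line (a curve of small degree) through `x` whose height is
bounded by `N`, the ramification and a constant. If it is contained in `X` and meets `Δ` in many
points (a curve: if one of its projections to the plane, which is birational and of degree `a`,
has at least `3 a` points on the image of `Δ` with different first coordinates), then `x` is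
compared with these points by Wronskians (by interpolation); and the other lines (curves) in `X`
lie in a closed set of small dimension: one considers, in an ultrapower, a point with many
algebraically independent coordinates on such a curve, and compares the number of independent
directions in which it moves, and in which the few points of `Δ` on it are fixed, with the number
of conditions.
-/

namespace Pool.Agent.Lib.MP_44a246_ntPC.TruncatedPairs

open Pool.Agent.Lib.MP_44a246_nt Pool.Agent.Lib.MP_44a246_ntG

universe u v w x y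

/-- The value at the point `(H (x), x)` of a polynomial over `k` in the variables `t_1, ..., t_p`
and `x_0, ..., x_n`. -/
noncomputable def ev {k K L : Type*} [Field k] [Field K] [Field L] [Algebra k L] [Algebra K L]
    {p n : ℕ} (H : Fin p → MvPolynomial (Fin (n + 1)) K) (x : Fin (n + 1) → L)
    (f : MvPolynomial (Fin p ⊕ Fin (n + 1)) k) : L :=
  MvPolynomial.aeval (Sum.elim (fun j => MvPolynomial.aeval x (H j)) x) f

/-- The partial derivative of `f` with respect to `t_j` at the point `(H (x), x)`. -/
noncomputable def evd {k K L : Type*} [Field k] [Field K] [Field L] [Algebra k L] [Algebra K L]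
    {p n : ℕ} (H : Fin p → MvPolynomial (Fin (n + 1)) K) (x : Fin (n + 1) → L)
    (f : MvPolynomial (Fin p ⊕ Fin (n + 1)) k) (j : Fin p) : L :=
  ev H x (MvPolynomial.pderiv (Sum.inl j) f)

/-- The dimension of the ring of the polynomials in `x_0, ..., x_n` modulo those which are in the
ideal of the `f i`: the dimension of the closure of the image of the zero set of the `f i` in the
affine space with the coordinates `x_0, ..., x_n`. -/
noncomputable def imDim {k : Type*} [Field k] {p n : ℕ} {ι : Type*}
    (f : ι → MvPolynomial (Fin p ⊕ Fin (n + 1)) k) : WithBot ℕ∞ :=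
  ringKrullDim (MvPolynomial (Fin (n + 1)) k ⧸ (Ideal.span (Set.range f)).comap
    (MvPolynomial.rename (Sum.inr : Fin (n + 1) → Fin p ⊕ Fin (n + 1))))

/-- The coefficients of the forms `H j` of degrees `d j` generate over `k` a field of transcendence
degree at least (the number of the monomials of these degrees) `- c`. -/
def Gen (k : Type*) {K : Type*} [Field k] [Field K] [Algebra k K] {p n : ℕ} (d : Fin p → ℕ)
    (H : Fin p → MvPolynomial (Fin (n + 1)) K) (c : ℕ) : Prop :=
  (Nat.card {I : Fin p × (Fin (n + 1) →₀ ℕ) // I.2.degree = d I.1} : Cardinal) ≤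
    Algebra.trdeg k (IntermediateField.adjoin k
      (Set.range fun I : {I : Fin p × (Fin (n + 1) →₀ ℕ) // I.2.degree = d I.1} =>
        (H I.1.1).coeff I.1.2)) + c

/-- The point `x` is on a line over `L` on which all `f i (H (x), x)` vanish and which has at most
`B` points over the algebraic closure of `L` at which some `g l (H (x), x)` vanishes. -/
def OnLine {k K L : Type*} [Field k] [Field K] [Field L] [Algebra k L] [Algebra K L]
    {p n q : ℕ} {ι : Type*} (H : Fin p → MvPolynomial (Fin (n + 1)) K)
    (f : ι → MvPolynomial (Fin p ⊕ Fin (n + 1)) k) (g : Fin q → MvPolynomial (Fin p ⊕ Fin (n + 1)) k)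
    (B : ℕ) (x : Fin (n + 1) → L) : Prop :=
  ∃ y : Fin (n + 1) → L, LinearIndependent L ![x, y] ∧
    (∀ (i : ι) (u v : L), ev H (u • x + v • y) (f i) = 0) ∧
    {z : AlgebraicClosure L | ∃ l, ev H (fun i => z * algebraMap L (AlgebraicClosure L) (x i) +
      algebraMap L (AlgebraicClosure L) (y i)) (g l) = 0}.encard ≤ B

theorem result (p q b B D : ℕ) : ∃ c₀ : ℕ,
    ∀ {κ : Type u} {K : Type v} [Field κ] [IsAlgClosed κ] [CharZero κ] [Field K] [CharZero K]
    [Algebra κ K] (_ : Cardinal.aleph0 ≤ Algebra.trdeg ℚ κ)
    {t : K} (_ : Transcendental κ t) [FiniteDimensional (IntermediateField.adjoin κ {t}) K]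
    {k : Type x} [Field k] [CharZero k] [Algebra k K] (_ : Algebra.trdeg ℚ k < Cardinal.aleph0)
    {n r ρ c s m σ D₀ m' : ℕ} {d : Fin p → ℕ} {ι : Type y} [Finite ι] {e : ι → ℕ} {E : Fin q → ℕ}
    {f : ι → MvPolynomial (Fin p ⊕ Fin (n + 1)) k}
    {g : Fin q → MvPolynomial (Fin p ⊕ Fin (n + 1)) k}
    (_ : ∀ i, e i ≤ D ∧ (f i).IsWeightedHomogeneous (Sum.elim d fun _ => 1) (e i))
    (_ : ∀ i, E i ≤ D ∧ (g i).IsWeightedHomogeneous (Sum.elim d fun _ => 1) (E i))
    (_ : imDim f ≤ ((r + 1 : ℕ) : WithBot ℕ∞)) (_ : 1 ≤ r) (_ : 1 ≤ q)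
    (_ : ∀ A : Finset (Fin p), A.card = ρ + q → m + s ≤ ∑ j ∈ A, d j)
    (_ : (b = 0 ∧ (∀ j, 1 ≤ d j) ∧ 3 * r + 3 + c ≤ 2 * m + ρ ∧ p + 3 ≤ m + ρ ∧
        (r + p + 2 ≤ m ∨ 2 * r + c + 2 ≤ m + ρ ∨ 3 * r + 4 + c ≤ 2 * m + ρ) ∧
        (p + 6) * (m + ρ) + 2 * p * m < (m + ρ) ^ 2 + 9 + 5 * p ∧ 2 ≤ B ∧
        ∀ A : Finset (Fin p), A.card = ρ + q → 2 * r + B + c ≤ (∑ j ∈ A, d j) + m' + ρ) ∨
      (2 ≤ r ∧ 4 * (ρ + q) ≤ σ ∧ s + q + 3 ≤ σ ∧ 150 * σ ≤ D₀ ∧ D₀ ≤ 25 * σ * b ∧
        (∀ j, D₀ ≤ d j) ∧ r + c + q ≤ (ρ + q) * D₀ ∧ r + c + q + 75 * (ρ + q) * σ ≤ m ∧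
        ∀ A : Finset (Fin p), A.card = ρ + q → 2 * r + 2 + c ≤ (∑ j ∈ A, d j) + m' + ρ))
    {S : Set (Place κ K)} (_ : S.Finite)
    (H : Fin p → MvPolynomial (Fin (n + 1)) K) (_ : ∀ j, (H j).IsHomogeneous (d j))
    (_ : Gen k d H c),
    ∃ (a : ℕ) (G : Fin a → MvPolynomial (Fin (n + 1)) K), (∀ i, ∃ E, (G i).IsHomogeneous E) ∧
      ringKrullDim (MvPolynomial (Fin (n + 1)) K ⧸ Ideal.span (Set.range G)) ≤
        (m' : WithBot ℕ∞) ∧
      ∃ C : ℕ, ∀ (L : Type w) [Field L] [Algebra K L] [FiniteDimensional K L] [Algebra κ L]
        [IsScalarTower κ K L] [Algebra k L] [IsScalarTower k K L] (x : Fin (n + 1) → L), x ≠ 0 →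
        (∀ i, ev H x (f i) = 0) → (∀ i, ev H x (g i) ≠ 0) →
        (∃ (i : Fin (ρ + q) → ι ⊕ Fin q) (j : Fin (ρ + q) → Fin p), (Matrix.of fun a b =>
            evd H x (Sum.elim f g (i a)) (j b)).det ≠ 0) →
        ∀ N : ℕ, N = Set.ncard {w : Place κ L |
              (∀ v ∈ S, ¬ (w.1.comap (algebraMap K L)).IsEquiv v.1) ∧
              ∃ l, w.1 (ev H x (g l)) < vmax w.1 x ^ E l} →
        (s * height κ x < N + ramDeg κ L K ∨
          (b = 0 ∧ (B + 1) * height κ x ≤
            3 * N + c₀ * ramDeg κ L K + C * Module.finrank K L) ∨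
          (1 ≤ b ∧ height κ x ≤ c₀ * (N + ramDeg κ L K) + C * Module.finrank K L)) ∨
        (∀ i, MvPolynomial.aeval x (G i) = 0) ∧ (b = 0 → OnLine H f g B x) :=
  ⟨Pool.Agent.Lib.MP_44a246_ntPC.cPI p q b B D, by
    intro κ K _ _ _ _ _ _ htr t ht _ k _ _ _ hk n r ρ c s m σ D₀ m' d ι _ e E f g hf hg hI hr hq
      hms hd S hS H hH hgen
    exact Pool.Agent.Lib.MP_44a246_ntPC.pair_mainRI.{u, v, w, x, y} htr ht hk hf hg hI hr hq hms hd
      hS H hH hgen⟩

end Pool.Agent.Lib.MP_44a246_ntPC.TruncatedPairs
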